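import Pool.Agent.Run7.h587.Ad.Zar

/-!
# Values of rational functions at the rational points of products of adapted double covers
-/

set_option autoImplicit false

open Pool.Agent.Y720.MZ Pool.Agent.Y718.X
open Pool.Agent.Results.MP_ed3816_nt.OpenAwayFromTorsion
open Function

namespace Pool.Agent.Run7.h587.Ad

section ld

variable {K L : Type} [Field K] [NontriviallyNormedField L] (φ : K →+* L)

/-- a polynomial which vanishes at the points of `S` near a point of `S` vanishes on `S` -/
def LD {N : ℕ} (S : Set (Fin N → K)) : Prop :=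
  ∀ x ∈ S, ∀ V ∈ nhds (fun i => φ (x i)), ∀ g : MvPolynomial (Fin N) K,
    (∀ y ∈ S, (fun i => φ (y i)) ∈ V → MvPolynomial.eval y g = 0) →
      ∀ y ∈ S, MvPolynomial.eval y g = 0

variable {φ}

theorem ld_univ (hc : ∃ c : K, c ≠ 0 ∧ ‖φ c‖ < 1) {N : ℕ} : LD φ (Set.univ : Set (Fin N → K)) := by
  intro x _ V hV g hg y _
  obtain ⟨c, hc0, hc1⟩ := hc
  obtain ⟨ε, hε, hb⟩ := Metric.mem_nhds_iff.1 hV
  have hg0 : g = 0 := by
    refine MvPolynomial.funext_set (fun i => {a : K | ‖φ a - φ (x i)‖ < ε}) (fun i => ?_)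
      fun z hz => ?_
    · -- infinitely many elements
      obtain ⟨m, hm⟩ := exists_pow_lt_of_lt_one hε hc1
      have hinj : Function.Injective fun k : ℕ => x i + c ^ (m + k) := by
        intro k l h
        have h1 : c ^ (m + k) = c ^ (m + l) := add_left_cancel h
        have h2 : ‖φ c‖ ^ (m + k) = ‖φ c‖ ^ (m + l) := by
          rw [← norm_pow, ← norm_pow, ← map_pow, ← map_pow, h1]
        have h3 : 0 < ‖φ c‖ := norm_pos_iff.2 ((map_ne_zero φ).2 hc0)
        have h4 := (pow_right_strictAnti₀ h3 hc1).injective h2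
        omega
      refine Set.infinite_of_injective_forall_mem hinj fun k => ?_
      show ‖φ (x i + c ^ (m + k)) - φ (x i)‖ < ε
      rw [map_add, add_sub_cancel_left, map_pow, norm_pow]
      refine lt_of_le_of_lt ?_ hm
      exact pow_le_pow_of_le_one (norm_nonneg _) hc1.le (Nat.le_add_right _ _)
    · rw [map_zero]
      refine hg z trivial (hb ?_)
      rw [Metric.mem_ball, dist_pi_lt_iff hε]
      intro i
      rw [dist_eq_norm]
      exact hz i (Set.mem_univ _)
  rw [hg0, map_zero]

/-- the points of a double cover as vectors with the coordinate `0` equal to `w` -/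
def PS {n : ℕ} (f : MvPolynomial (Fin n) K) : Set (Fin (n + 1) → K) :=
  {y | y 0 ^ 2 = MvPolynomial.eval (fun k => y k.succ) f}

theorem ld_cover [CharZero K] [CharZero L] [CompleteSpace L] {n : ℕ} {f : MvPolynomial (Fin n) K}
    (hsq : ¬ IsSquare f) (h0 : ∀ P, OnCover f P → P.2 ≠ 0)
    (ho : ∀ P, OnCover f P → ∃ U ∈ nhds (image φ P), ∀ S ∈ U, OnCover (f.map φ) S →
      S ∈ closure (Im f φ)) : LD φ (PS f) := by
  intro x hx V hV g hg y hy
  -- the corresponding point and polynomial
  set e : Fin (n + 1) → Option (Fin n) := Fin.cases none some with he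
  have hev : ∀ (P : (Fin n → K) × K), MvPolynomial.eval (fun o => o.elim P.2 P.1)
      (MvPolynomial.rename e g) = MvPolynomial.eval (Fin.cons P.2 P.1 : Fin (n + 1) → K) g := by
    intro P
    rw [MvPolynomial.eval_rename]
    congr 2
    funext k
    refine Fin.cases ?_ (fun j => ?_) k
    · simp [he]
    · simp [he]
  have hcons : ∀ z : Fin (n + 1) → K, (Fin.cons (z 0) (fun k => z k.succ) : Fin (n + 1) → K) = z :=
    fun z => Fin.cons_self_tail z
  have hP : OnCover f ((fun k => x k.succ), x 0) := hx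
  have hc : Continuous fun T : (Fin n → L) × L => (Fin.cons T.2 T.1 : Fin (n + 1) → L) := by
    refine continuous_pi fun k => ?_
    refine Fin.cases ?_ (fun j => ?_) k
    · simp only [Fin.cons_zero]
      exact continuous_snd
    · simp only [Fin.cons_succ]
      exact (continuous_apply j).comp continuous_fst
  have hcx : (Fin.cons (φ (x 0)) (fun k : Fin n => φ (x k.succ)) : Fin (n + 1) → L) =
      fun i => φ (x i) := by
    funext k
    refine Fin.cases ?_ (fun j => ?_) k
    · simp
    · simp
  have hV' : (fun T : (Fin n → L) × L => (Fin.cons T.2 T.1 : Fin (n + 1) → L)) ⁻¹' V ∈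
      nhds (image φ ((fun k => x k.succ), x 0)) := by
    refine hc.continuousAt.preimage_mem_nhds ?_
    show V ∈ nhds (Fin.cons (φ (x 0)) (fun k : Fin n => φ (x k.succ)) : Fin (n + 1) → L)
    rw [hcx]
    exact hV
  have hdvd := zar φ hsq h0 ho (x := image φ ((fun k => x k.succ), x 0))
    (subset_closure ⟨_, hP, rfl⟩) hV' (g := MvPolynomial.rename e g) (fun Q hQ hQV => by
      rw [hev]
      refine hg _ ?_ ?_
      · show (Fin.cons Q.2 Q.1 : Fin (n + 1) → K) 0 ^ 2 = _
        simp only [Fin.cons_zero, Fin.cons_succ]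
        exact hQ
      · have : (fun i => φ ((Fin.cons Q.2 Q.1 : Fin (n + 1) → K) i)) =
            (Fin.cons (φ Q.2) (fun k : Fin n => φ (Q.1 k)) : Fin (n + 1) → L) := by
          funext k
          refine Fin.cases ?_ (fun j => ?_) k
          · simp
          · simp
        rw [this]
        exact hQV)
  obtain ⟨r, hr⟩ := hdvd
  have h1 := hev ((fun k => y k.succ), y 0)
  rw [hcons] at h1
  rw [← h1, hr, map_mul]
  have h2 : MvPolynomial.eval (fun o : Option (Fin n) => o.elim (y 0) (fun k => y k.succ))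
      (MvPolynomial.X none ^ 2 - MvPolynomial.rename some f) = 0 := by
    rw [map_sub, map_pow, MvPolynomial.eval_X, MvPolynomial.eval_rename]
    have h3 : y 0 ^ 2 = MvPolynomial.eval (fun k => y k.succ) f := hy
    show y 0 ^ 2 - MvPolynomial.eval (fun k => y k.succ) f = 0
    rw [h3, sub_self]
  rw [h2, zero_mul]

end ld

section prod

variable {K L : Type} [Field K] [NontriviallyNormedField L] {φ : K →+* L} {J : Type} {N : J → ℕ}

/-- evaluation at a point of the product -/
noncomputable def ev (F : MvPolynomial ((j : J) × Fin (N j)) K) (x : ∀ j, Fin (N j) → K) : K :=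
  MvPolynomial.eval (fun a => x a.1 a.2) F

theorem ev_sub [DecidableEq J] (F : MvPolynomial ((j : J) × Fin (N j)) K)
    (x : ∀ j, Fin (N j) → K) (j : J) : ∃ g : MvPolynomial (Fin (N j)) K,
      ∀ y, MvPolynomial.eval y g = ev F (update x j y) := by
  refine ⟨MvPolynomial.bind₁ (fun a : (j : J) × Fin (N j) => if h : a.1 = j then
    MvPolynomial.X (h ▸ a.2) else MvPolynomial.C (x a.1 a.2)) F, fun y => ?_⟩
  unfold ev
  rw [MvPolynomial.eval, MvPolynomial.eval₂Hom_bind₁]
  congr 2
  funext a
  obtain ⟨k, i⟩ := a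
  by_cases h : k = j
  · subst h
    simp
  · simp [h]

theorem ld_prod [Finite J] {S : ∀ j, Set (Fin (N j) → K)} (hS : ∀ j, LD φ (S j))
    {x : ∀ j, Fin (N j) → K} (hx : ∀ j, x j ∈ S j) {ε : ℝ} (hε : 0 < ε)
    {F : MvPolynomial ((j : J) × Fin (N j)) K}
    (hF : ∀ y : ∀ j, Fin (N j) → K, (∀ j, y j ∈ S j) →
      (∀ j i, ‖φ (y j i) - φ (x j i)‖ < ε) → ev F y = 0) :
    ∀ y : ∀ j, Fin (N j) → K, (∀ j, y j ∈ S j) → ev F y = 0 := by
  classical
  have : Fintype J := Fintype.ofFinite J
  have claim : ∀ T : Finset J, ∀ y : ∀ j, Fin (N j) → K, (∀ j, y j ∈ S j) →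
      (∀ j, j ∉ T → ∀ i, ‖φ (y j i) - φ (x j i)‖ < ε) → ev F y = 0 := by
    intro T
    induction T using Finset.induction_on with
    | empty => exact fun y hy h => hF y hy fun j i => h j (Finset.notMem_empty j) i
    | insert a T ha ih =>
      intro y hy h
      obtain ⟨g, hg⟩ := ev_sub F y a
      have h1 := hS a (x a) (hx a) (Metric.ball (fun i => φ (x a i)) ε)
        (Metric.ball_mem_nhds _ hε) g (fun z hz hzV => by
          rw [hg]
          refine ih _ (fun j => ?_) fun j hj i => ?_
          · by_cases h2 : j = a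
            · subst h2
              rw [update_self]
              exact hz
            · rw [update_of_ne h2]
              exact hy j
          · by_cases h2 : j = a
            · subst h2
              rw [update_self]
              rw [Metric.mem_ball, dist_pi_lt_iff hε] at hzV
              have := hzV i
              rwa [dist_eq_norm] at this
            · rw [update_of_ne h2]
              refine h j (fun h3 => ?_) i
              rcases Finset.mem_insert.1 h3 with h4 | h4
              · exact h2 h4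
              · exact hj h4) (y a) (hy a)
      rw [hg, update_eq_self] at h1
      exact h1
  exact fun y hy => claim Finset.univ y hy fun j hj => absurd (Finset.mem_univ j) hj

/-- the values of a rational function -/
def Vals (S : ∀ j, Set (Fin (N j) → K)) (p q : MvPolynomial ((j : J) × Fin (N j)) K) : Set K :=
  {t | ∃ x : ∀ j, Fin (N j) → K, (∀ j, x j ∈ S j) ∧ ev q x ≠ 0 ∧ t = ev p x / ev q x}

/-- **No isolated values.** -/
theorem no_isolated [Finite J] {S : ∀ j, Set (Fin (N j) → K)} (hS : ∀ j, LD φ (S j))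
    {p q : MvPolynomial ((j : J) × Fin (N j)) K} {t t' : K} (ht : t ∈ Vals S p q)
    (ht' : t' ∈ Vals S p q) (hne : t' ≠ t) {ε : ℝ} (hε : 0 < ε) :
    ∃ s ∈ Vals S p q, s ≠ t ∧ ‖φ s - φ t‖ < ε := by
  have : Fintype J := Fintype.ofFinite J
  by_contra hcon
  push Not at hcon
  obtain ⟨x, hx, hqx, rfl⟩ := ht
  obtain ⟨y, hy, hqy, rfl⟩ := ht'
  -- continuity
  have hev : ∀ (F : MvPolynomial ((j : J) × Fin (N j)) K) (z : ∀ j, Fin (N j) → K),
      φ (ev F z) = MvPolynomial.eval (fun a => φ (z a.1 a.2)) (F.map φ) := fun F z =>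
    MvPolynomial.map_eval φ _ F
  have hq0 : MvPolynomial.eval (fun a => φ (x a.1 a.2)) (q.map φ) ≠ 0 := by
    rw [← hev]
    exact (map_ne_zero φ).2 hqx
  have hcont : ContinuousAt (fun Y : ((j : J) × Fin (N j)) → L =>
      MvPolynomial.eval Y (p.map φ) / MvPolynomial.eval Y (q.map φ))
      (fun a => φ (x a.1 a.2)) :=
    (MvPolynomial.continuous_eval _).continuousAt.div (MvPolynomial.continuous_eval _).continuousAt
      hq0
  have h1 := hcont.preimage_mem_nhds (Metric.ball_mem_nhds _ hε)
  have h2 := (MvPolynomial.continuous_eval (q.map φ)).continuousAt.preimage_mem_nhds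
    (isOpen_ne.mem_nhds hq0)
  obtain ⟨δ, hδ, hb⟩ := Metric.mem_nhds_iff.1 (Filter.inter_mem h1 h2)
  have key : ∀ z : ∀ j, Fin (N j) → K, (∀ j, z j ∈ S j) →
      ev (p - MvPolynomial.C (ev p x / ev q x) * q) z = 0 := by
    refine ld_prod hS hx hδ fun z hz hzx => ?_
    have hzb : (fun a : (j : J) × Fin (N j) => φ (z a.1 a.2)) ∈
        Metric.ball (fun a : (j : J) × Fin (N j) => φ (x a.1 a.2)) δ := by
      rw [Metric.mem_ball, dist_pi_lt_iff hδ]
      intro a
      rw [dist_eq_norm]
      exact hzx a.1 a.2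
    obtain ⟨h3, h4⟩ := hb hzb
    have hqz : ev q z ≠ 0 := by
      intro h0
      apply h4
      show MvPolynomial.eval (fun a => φ (z a.1 a.2)) (q.map φ) = 0
      rw [← hev, h0, map_zero]
    have h5 : ‖φ (ev p z / ev q z) - φ (ev p x / ev q x)‖ < ε := by
      rw [map_div₀, map_div₀, hev, hev, hev, hev, ← dist_eq_norm]
      exact h3
    have h6 : ev p z / ev q z = ev p x / ev q x := by
      by_contra h7
      exact absurd h5 (not_lt.2 (hcon _ ⟨z, hz, hqz, rfl⟩ h7))
    have h8 : ev (p - MvPolynomial.C (ev p x / ev q x) * q) z =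
        ev p z - ev p x / ev q x * ev q z := by
      unfold ev
      rw [map_sub, map_mul, MvPolynomial.eval_C]
    rw [h8, ← h6, div_mul_cancel₀ _ hqz, sub_self]
  apply hne
  have h8 : ev (p - MvPolynomial.C (ev p x / ev q x) * q) y =
      ev p y - ev p x / ev q x * ev q y := by
    unfold ev
    rw [map_sub, map_mul, MvPolynomial.eval_C]
  have h9 := key y hy
  rw [h8] at h9
  rw [div_eq_iff hqy]
  exact sub_eq_zero.1 h9

end prod

/-- the isolated points of a finite union -/
theorem few_isolated {K L : Type} [Field K] [NontriviallyNormedField L] {φ : K →+* L} {k : ℕ}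
    {J : Fin k → Type} [∀ i, Finite (J i)] {N : ∀ i, J i → ℕ}
    {S : ∀ i, ∀ j : J i, Set (Fin (N i j) → K)} (hS : ∀ i j, LD φ (S i j))
    {p q : ∀ i, MvPolynomial ((j : J i) × Fin (N i j)) K} {I : Set K}
    (hI : ∀ t ∈ I, ∃ i, t ∈ Vals (S i) (p i) (q i) ∧ ∃ ε : ℝ, 0 < ε ∧
      ∀ s ∈ Vals (S i) (p i) (q i), ‖φ s - φ t‖ < ε → s = t) : I.Finite ∧ I.ncard ≤ k := by
  choose i hi ε hε hs using hI
  have hinj : Function.Injective fun t : I => i t.1 t.2 := by
    rintro ⟨t, ht⟩ ⟨t', ht'⟩ h
    have h' : i t ht = i t' ht' := h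
    by_contra hne
    have hne' : t' ≠ t := fun h => hne (Subtype.ext h.symm)
    have h1 := hi t' ht'
    rw [← h'] at h1
    obtain ⟨s, hs1, hs2, hs3⟩ := no_isolated (hS (i t ht)) (hi t ht) h1 hne' (hε t ht)
    exact hs2 (hs t ht s hs1 hs3)
  have hfin : Finite I := Finite.of_injective _ hinj
  refine ⟨hfin, ?_⟩
  have h1 := Nat.card_le_card_of_injective _ hinj
  rwa [Nat.card_fin, Nat.card_coe_set_eq] at h1

end Pool.Agent.Run7.h587.Ad
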