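import Pool.Agent.Run7.h587.Ad.Cls

/-!
# Real double covers with a smooth branch divisor

If connected sets of real points off the branch divisor are contained in the closure of a symmetric set
of points, or disjoint from it, and the branch divisor is smooth, then the closure is open.
-/

set_option autoImplicit false

open Set Function

namespace Pool.Agent.Run7.h587.Ad

variable {n : ℕ}

theorem lr_deriv {R : Type*} [CommRing R] (f : MvPolynomial (Fin n) R) (z : Fin n → R)
    (i : Fin n) : Polynomial.derivative (lr f z i) = lr (MvPolynomial.pderiv i f) z i := by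
  induction f using MvPolynomial.induction_on with
  | C c => simp [lr]
  | add p q hp hq => rw [lr_add, map_add, map_add, lr_add, hp, hq]
  | mul_X p j hp =>
    have h1 : ∀ g : MvPolynomial (Fin n) R, lr (g * MvPolynomial.X j) z i = lr g z i *
        (.C (z j) + .C ((Pi.single i 1 : Fin n → R) j) * .X) := by
      intro g
      unfold lr
      rw [map_mul, MvPolynomial.aeval_X]
    rw [h1, Polynomial.derivative_mul, hp, Derivation.leibniz, MvPolynomial.pderiv_X, smul_eq_mul,
      smul_eq_mul, lr_add, mul_comm (MvPolynomial.X j), h1]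
    by_cases h : j = i
    · subst h
      have h2 : lr (p * (Pi.single j 1 : Fin n → MvPolynomial (Fin n) R) j) z j = lr p z j := by
        rw [Pi.single_eq_same, mul_one]
      rw [h2]
      simp
      ring
    · have h2 : lr (p * (Pi.single i 1 : Fin n → MvPolynomial (Fin n) R) j) z i = 0 := by
        rw [Pi.single_eq_of_ne h, mul_zero]
        simp [lr]
      rw [h2, Pi.single_eq_of_ne h]
      simp

theorem lr_eval {R : Type*} [CommRing R] (f : MvPolynomial (Fin n) R) (z : Fin n → R)
    (i : Fin n) (u t : R) :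
    (lr f (update z i u) i).eval t = MvPolynomial.eval (update z i (u + t)) f := by
  unfold lr
  induction f using MvPolynomial.induction_on with
  | C c => simp
  | add p q hp hq => rw [map_add, Polynomial.eval_add, hp, hq, map_add]
  | mul_X p j hp =>
    rw [map_mul, Polynomial.eval_mul, hp, map_mul, MvPolynomial.aeval_X, MvPolynomial.eval_X]
    by_cases h : j = i
    · subst h
      simp
    · simp [h]

/-- the function on a line -/
noncomputable def kk (F : MvPolynomial (Fin n) ℝ) (z₀ : Fin n → ℝ) (i : Fin n) (s : ℝ)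
    (y : Fin n → ℝ) (t : ℝ) : ℝ := MvPolynomial.eval (update y i (z₀ i + s * t)) F

theorem kk_deriv (F : MvPolynomial (Fin n) ℝ) (z₀ : Fin n → ℝ) (i : Fin n) (s : ℝ)
    (y : Fin n → ℝ) (t : ℝ) : HasDerivAt (kk F z₀ i s y)
      (s * MvPolynomial.eval (update y i (z₀ i + s * t)) (MvPolynomial.pderiv i F)) t := by
  have h1 : kk F z₀ i s y = fun t => (lr F (update y i (z₀ i)) i).eval (s * t) := by
    funext t
    rw [lr_eval]
    rfl
  have h2 := ((lr F (update y i (z₀ i)) i).hasDerivAt (s * t)).comp t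
    ((hasDerivAt_id t).const_mul s)
  rw [lr_deriv, lr_eval, mul_one, mul_comm] at h2
  rw [h1]
  exact h2

/-- **Small boxes.** -/
theorem box {F : MvPolynomial (Fin n) ℝ} {z₀ : Fin n → ℝ} (h0 : MvPolynomial.eval z₀ F = 0)
    {i : Fin n} (hi : MvPolynomial.eval z₀ (MvPolynomial.pderiv i F) ≠ 0) :
    ∃ B : Set (Fin n → ℝ), IsOpen B ∧ z₀ ∈ B ∧
      IsPreconnected (B ∩ {z | 0 < MvPolynomial.eval z F}) ∧
      ∀ z ∈ B, MvPolynomial.eval z F = 0 →
        z ∈ closure (B ∩ {z | 0 < MvPolynomial.eval z F}) := by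
  obtain ⟨s, hs1, hs⟩ : ∃ s : ℝ, s * s = 1 ∧
      0 < s * MvPolynomial.eval z₀ (MvPolynomial.pderiv i F) := by
    rcases lt_or_gt_of_ne hi with h | h
    · exact ⟨-1, by norm_num, by linarith⟩
    · exact ⟨1, by norm_num, by linarith⟩
  have hsabs : |s| = 1 := by
    have : |s| * |s| = 1 := by rw [← abs_mul, hs1, abs_one]
    nlinarith [abs_nonneg s]
  -- the derivative is positive near the point
  have hc : Continuous fun z => s * MvPolynomial.eval z (MvPolynomial.pderiv i F) :=
    continuous_const.mul (MvPolynomial.continuous_eval _)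
  obtain ⟨ε, hε, hpos⟩ := Metric.mem_nhds_iff.1 (hc.continuousAt.preimage_mem_nhds (Ioi_mem_nhds hs))
  -- the function is increasing
  have hmono : ∀ y : Fin n → ℝ, (∀ l, l ≠ i → |y l - z₀ l| < ε) →
      StrictMonoOn (kk F z₀ i s y) (Ioo (-ε) ε) := by
    intro y hy
    refine strictMonoOn_of_deriv_pos (convex_Ioo _ _)
      (fun t _ => (kk_deriv F z₀ i s y t).continuousAt.continuousWithinAt) fun t ht => ?_
    rw [interior_Ioo] at ht
    rw [(kk_deriv F z₀ i s y t).deriv]
    apply hpos
    rw [Metric.mem_ball, dist_pi_lt_iff hε]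
    intro l
    by_cases h : l = i
    · subst h
      rw [update_self, Real.dist_eq, add_sub_cancel_left, abs_mul, hsabs, one_mul]
      exact abs_lt.2 ht
    · rw [update_of_ne h, Real.dist_eq]
      exact hy l h
  have hk0 : kk F z₀ i s z₀ 0 = 0 := by
    unfold kk
    rw [mul_zero, add_zero, update_eq_self, h0]
  have htop : 0 < kk F z₀ i s z₀ (ε / 2) := by
    rw [← hk0]
    exact hmono z₀ (fun l _ => by rw [sub_self, abs_zero]; exact hε) ⟨by linarith, hε⟩
      ⟨by linarith, by linarith⟩ (by linarith)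
  have hcu : ∀ u : ℝ, Continuous fun y : Fin n → ℝ => update y i u := fun u =>
    continuous_id.update i continuous_const
  have hcy : ∀ y : Fin n → ℝ, Continuous fun t : ℝ => update y i (z₀ i + s * t) := fun y =>
    continuous_const.update i (by fun_prop)
  have hck : Continuous fun y => kk F z₀ i s y (ε / 2) :=
    (MvPolynomial.continuous_eval F).comp (hcu _)
  obtain ⟨δ, hδ, hpos2⟩ := Metric.mem_nhds_iff.1
    (hck.continuousAt.preimage_mem_nhds (Ioi_mem_nhds htop))
  set δ' := min δ ε with hδ'
  have hδ0 : 0 < δ' := lt_min hδ hε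
  set B : Set (Fin n → ℝ) := {z | ∀ l, |z l - z₀ l| < if l = i then ε else δ'} with hB
  have hBo : IsOpen B := by
    have : B = ⋂ l, {z : Fin n → ℝ | |z l - z₀ l| < if l = i then ε else δ'} := by
      ext z; simp [hB]
    rw [this]
    refine isOpen_iInter_of_finite fun l => isOpen_lt ?_ continuous_const
    exact ((continuous_apply l).sub continuous_const).abs
  have hBi : ∀ y ∈ B, |y i - z₀ i| < ε := fun y hy => by simpa using hy i
  have hBl : ∀ y ∈ B, ∀ l, l ≠ i → |y l - z₀ l| < δ' := fun y hy l hl => by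
    simpa [hl] using hy l
  have hBk : ∀ y ∈ B, 0 < kk F z₀ i s y (ε / 2) := by
    intro y hy
    have h1 : update y i (z₀ i) ∈ Metric.ball z₀ δ := by
      rw [Metric.mem_ball, dist_pi_lt_iff hδ]
      intro l
      by_cases h : l = i
      · subst h
        rw [update_self, dist_self]
        exact hδ
      · rw [update_of_ne h, Real.dist_eq]
        exact (hBl y hy l h).trans_le (min_le_left _ _)
    have h2 := hpos2 h1
    have h3 : kk F z₀ i s (update y i (z₀ i)) (ε / 2) = kk F z₀ i s y (ε / 2) := by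
      unfold kk
      rw [update_idem]
    rw [mem_preimage, mem_Ioi, h3] at h2
    exact h2
  have hBm : ∀ y ∈ B, StrictMonoOn (kk F z₀ i s y) (Ioo (-ε) ε) := fun y hy =>
    hmono y fun l hl => (hBl y hy l hl).trans_le (min_le_right _ _)
  -- the parameter of a point
  have hpar : ∀ y ∈ B, s * (y i - z₀ i) ∈ Ioo (-ε) ε := fun y hy => by
    refine abs_lt.1 ?_
    rw [abs_mul, hsabs, one_mul]
    exact hBi y hy
  have hpar2 : ∀ y : Fin n → ℝ, update y i (z₀ i + s * (s * (y i - z₀ i))) = y := fun y => by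
    have : z₀ i + s * (s * (y i - z₀ i)) = y i := by
      linear_combination (y i - z₀ i) * hs1
    rw [this, update_eq_self]
  have hpark : ∀ y, kk F z₀ i s y (s * (y i - z₀ i)) = MvPolynomial.eval y F := fun y => by
    unfold kk
    rw [hpar2]
  have hin : ∀ y ∈ B, ∀ t ∈ Ioo (-ε) ε, update y i (z₀ i + s * t) ∈ B := by
    intro y hy t ht l
    by_cases h : l = i
    · subst h
      rw [update_self, if_pos rfl, add_sub_cancel_left, abs_mul, hsabs, one_mul]
      exact abs_lt.2 ht
    · rw [update_of_ne h]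
      exact hy l
  refine ⟨B, hBo, fun l => ?_, ?_, ?_⟩
  · rw [sub_self, abs_zero]
    split_ifs
    · exact hε
    · exact hδ0
  · refine isPreconnected_of_forall (update z₀ i (z₀ i + s * (ε / 2))) ?_
    rintro y ⟨hy, hyF⟩
    have hz₀ : z₀ ∈ B := fun l => by
      rw [sub_self, abs_zero]
      split_ifs
      · exact hε
      · exact hδ0
    have hε2 : ε / 2 ∈ Ioo (-ε) ε := ⟨by linarith, by linarith⟩
    set t₁ := s * (y i - z₀ i) with ht₁
    have h1 : 0 < kk F z₀ i s y t₁ := by rw [hpark]; exact hyF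
    refine ⟨(fun t => update y i (z₀ i + s * t)) '' uIcc t₁ (ε / 2) ∪
      (fun z => update z i (z₀ i + s * (ε / 2))) '' B, ?_, ?_, ?_, ?_⟩
    · rintro _ (⟨t, ht, rfl⟩ | ⟨z, hz, rfl⟩)
      · have ht' : t ∈ Ioo (-ε) ε := by
          have : uIcc t₁ (ε / 2) ⊆ Ioo (-ε) ε := by
            rw [uIcc]
            intro u hu
            have h3 := hpar y hy
            exact ⟨(lt_min h3.1 hε2.1).trans_le hu.1, hu.2.trans_lt (max_lt h3.2 hε2.2)⟩
          exact this ht
        refine ⟨hin y hy t ht', ?_⟩
        show 0 < kk F z₀ i s y t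
        rcases le_total t₁ (ε / 2) with h | h
        · rw [uIcc_of_le h] at ht
          exact h1.trans_le ((hBm y hy).monotoneOn (hpar y hy) ht' ht.1)
        · rw [uIcc_of_ge h] at ht
          exact (hBk y hy).trans_le ((hBm y hy).monotoneOn hε2 ht' ht.1)
      · exact ⟨hin z hz _ hε2, hBk z hz⟩
    · exact Or.inr ⟨z₀, hz₀, rfl⟩
    · left
      exact ⟨t₁, left_mem_uIcc, hpar2 y⟩
    · refine IsPreconnected.union (update y i (z₀ i + s * (ε / 2))) ⟨_, right_mem_uIcc, rfl⟩
        ⟨y, hy, rfl⟩ ?_ ?_
      · exact isPreconnected_uIcc.image _ (hcy y).continuousOn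
      · refine IsPreconnected.image ?_ _ (hcu _).continuousOn
        have hBc : Convex ℝ B := by
          have : B = Set.pi univ fun l => Ioo (z₀ l - if l = i then ε else δ')
              (z₀ l + if l = i then ε else δ') := by
            ext z
            simp only [hB, mem_ofPred_eq, mem_univ_pi, mem_Ioo, abs_lt]
            refine forall_congr' fun l => ?_
            constructor
            · rintro ⟨h3, h4⟩
              constructor <;> linarith
            · rintro ⟨h3, h4⟩
              constructor <;> linarith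
          rw [this]
          exact convex_pi fun l _ => convex_Ioo _ _
        exact hBc.isPreconnected
  · intro z hz hz0
    set t₁ := s * (z i - z₀ i) with ht₁
    have h1 : t₁ ∈ closure (Ioo t₁ ε) := by
      rw [closure_Ioo (hpar z hz).2.ne]
      exact left_mem_Icc.2 (hpar z hz).2.le
    have h2 : update z i (z₀ i + s * t₁) ∈
        closure ((fun t => update z i (z₀ i + s * t)) '' Ioo t₁ ε) :=
      image_closure_subset_closure_image (hcy z) ⟨t₁, h1, rfl⟩
    rw [hpar2] at h2
    refine closure_mono ?_ h2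
    rintro _ ⟨t, ht, rfl⟩
    have ht' : t ∈ Ioo (-ε) ε := ⟨(hpar z hz).1.trans ht.1, ht.2⟩
    refine ⟨hin z hz t ht', ?_⟩
    show 0 < kk F z₀ i s z t
    have h3 := hBm z hz (hpar z hz) ht' ht.1
    rw [hpark, hz0] at h3
    exact h3

/-- the real points -/
def XR (F : MvPolynomial (Fin n) ℝ) : Set (Fin (n + 1) → ℝ) :=
  {x | x 0 ^ 2 = MvPolynomial.eval (fun k => x k.succ) F}

/-- **The closure is open if the branch divisor is smooth.** -/
theorem real_open {F : MvPolynomial (Fin n) ℝ} {R : Set (Fin (n + 1) → ℝ)} (hR : R ⊆ XR F)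
    (hR0 : ∀ x ∈ R, x 0 ≠ 0) (hRs : ∀ x ∈ R, Fin.cons (-x 0) (fun k => x k.succ) ∈ R)
    (H : ∀ U : Set (Fin (n + 1) → ℝ), (∀ x ∈ U, x 0 ≠ 0 ∧ x ∈ XR F) → IsPreconnected U →
      U ⊆ closure R ∨ Disjoint U (closure R))
    (hs : ∀ z, MvPolynomial.eval z F = 0 → ∃ i, MvPolynomial.eval z (MvPolynomial.pderiv i F) ≠ 0)
    {x : Fin (n + 1) → ℝ} (hx : x ∈ closure R) :
    ∃ N ∈ nhds x, ∀ y ∈ N, y ∈ XR F → y ∈ closure R := by
  have hcl : IsClosed (XR F) := by
    refine isClosed_eq (by fun_prop) ((MvPolynomial.continuous_eval F).comp ?_)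
    exact continuous_pi fun k => continuous_apply _
  have hxX : x ∈ XR F := closure_minimal hR hcl hx
  -- a good neighbourhood
  obtain ⟨B, hBo, hxB, hBc, hB0⟩ : ∃ B : Set (Fin n → ℝ), IsOpen B ∧ (fun k => x k.succ) ∈ B ∧
      IsPreconnected (B ∩ {z | 0 < MvPolynomial.eval z F}) ∧
      ∀ z ∈ B, MvPolynomial.eval z F = 0 →
        z ∈ closure (B ∩ {z | 0 < MvPolynomial.eval z F}) := by
    rcases (sq_nonneg (x 0)).eq_or_lt with h | h
    · rw [show x 0 ^ 2 = _ from hxX] at h
      obtain ⟨i, hi⟩ := hs _ h.symm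
      exact box h.symm hi
    · rw [show x 0 ^ 2 = _ from hxX] at h
      obtain ⟨ε, hε, hb⟩ := Metric.mem_nhds_iff.1
        ((MvPolynomial.continuous_eval F).continuousAt.preimage_mem_nhds (Ioi_mem_nhds h))
      refine ⟨Metric.ball _ ε, Metric.isOpen_ball, Metric.mem_ball_self hε, ?_, ?_⟩
      · have : Metric.ball (fun k : Fin n => x k.succ) ε ∩ {z | 0 < MvPolynomial.eval z F} =
            Metric.ball (fun k : Fin n => x k.succ) ε := inter_eq_left.2 fun z hz => hb hz
        rw [this]
        exact (convex_ball _ _).isPreconnected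
      · intro z hz h0
        have : 0 < MvPolynomial.eval z F := hb hz
        rw [h0] at this
        exact absurd this (lt_irrefl _)
  have hcs : Continuous fun y : Fin (n + 1) → ℝ => fun k : Fin n => y k.succ :=
    continuous_pi fun k => continuous_apply _
  set N : Set (Fin (n + 1) → ℝ) := (fun y => fun k : Fin n => y k.succ) ⁻¹' B with hN
  have hNo : IsOpen N := hBo.preimage hcs
  obtain ⟨r, hrN, hrR⟩ := mem_closure_iff.1 hx N hNo hxB
  -- the two sheets
  have hsqrt : Continuous fun z : Fin n → ℝ => Real.sqrt (MvPolynomial.eval z F) :=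
    (MvPolynomial.continuous_eval F).sqrt
  have hg : ∀ s : ℝ, Continuous fun z : Fin n → ℝ =>
      (Fin.cons (s * Real.sqrt (MvPolynomial.eval z F)) z : Fin (n + 1) → ℝ) := by
    intro s
    refine continuous_pi fun k => ?_
    refine Fin.cases ?_ (fun j => ?_) k
    · simp only [Fin.cons_zero]
      exact continuous_const.mul hsqrt
    · simp only [Fin.cons_succ]
      exact continuous_apply j
  have hrX : r 0 ^ 2 = MvPolynomial.eval (fun k => r k.succ) F := hR hrR
  have hsheet : ∀ s : ℝ, s * s = 1 → ∀ z ∈ B ∩ {z | 0 < MvPolynomial.eval z F},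
      (Fin.cons (s * Real.sqrt (MvPolynomial.eval z F)) z : Fin (n + 1) → ℝ) ∈ closure R := by
    intro s hs1 z hz
    have hs0 : s ≠ 0 := by
      rintro rfl
      norm_num at hs1
    have h1 := H ((fun z : Fin n → ℝ =>
      (Fin.cons (s * Real.sqrt (MvPolynomial.eval z F)) z : Fin (n + 1) → ℝ)) ''
        (B ∩ {z | 0 < MvPolynomial.eval z F})) (by
        rintro _ ⟨u, ⟨huB, hu⟩, rfl⟩
        have hu' : 0 < MvPolynomial.eval u F := hu
        constructor
        · show (Fin.cons _ _ : Fin (n + 1) → ℝ) 0 ≠ 0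
          rw [Fin.cons_zero]
          exact mul_ne_zero hs0 (Real.sqrt_pos.2 hu').ne'
        · show (Fin.cons _ _ : Fin (n + 1) → ℝ) 0 ^ 2 = _
          simp only [Fin.cons_zero, Fin.cons_succ]
          rw [mul_pow, Real.sq_sqrt hu'.le, pow_two, hs1, one_mul])
      (hBc.image _ (hg s).continuousOn)
    have h2 : (fun k : Fin n => r k.succ) ∈ B ∩ {z | 0 < MvPolynomial.eval z F} := by
      refine ⟨hrN, ?_⟩
      show 0 < MvPolynomial.eval (fun k : Fin n => r k.succ) F
      rw [← hrX]
      have := hR0 r hrR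
      positivity
    have h3 : (Fin.cons (s * Real.sqrt (MvPolynomial.eval (fun k : Fin n => r k.succ) F))
        (fun k : Fin n => r k.succ) : Fin (n + 1) → ℝ) ∈ R := by
      rw [← hrX, Real.sqrt_sq_eq_abs]
      have hs2 : s = 1 ∨ s = -1 := mul_self_eq_one_iff.1 hs1
      have h4 : s * |r 0| = r 0 ∨ s * |r 0| = -r 0 := by
        rcases hs2 with rfl | rfl
        · rw [one_mul]
          exact abs_choice _
        · rcases abs_choice (r 0) with h | h
          · right; rw [h]; ring
          · left; rw [h]; ring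
      rcases h4 with h | h
      · rw [h]
        have : (Fin.cons (r 0) (fun k : Fin n => r k.succ) : Fin (n + 1) → ℝ) = r :=
          Fin.cons_self_tail r
        rw [this]
        exact hrR
      · rw [h]
        exact hRs r hrR
    rcases h1 with h1 | h1
    · exact h1 ⟨z, hz, rfl⟩
    · exact absurd (subset_closure h3) (Set.disjoint_left.1 h1 ⟨_, h2, rfl⟩)
  refine ⟨N, hNo.mem_nhds hxB, fun y hy hyX => ?_⟩
  have hyX' : y 0 ^ 2 = MvPolynomial.eval (fun k => y k.succ) F := hyX
  have hyc : (Fin.cons (y 0) (fun k : Fin n => y k.succ) : Fin (n + 1) → ℝ) = y :=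
    Fin.cons_self_tail y
  have hsq : Real.sqrt (MvPolynomial.eval (fun k => y k.succ) F) = |y 0| := by
    rw [← hyX', Real.sqrt_sq_eq_abs]
  by_cases h0 : y 0 = 0
  · have h1 : MvPolynomial.eval (fun k => y k.succ) F = 0 := by
      rw [← hyX', h0]
      norm_num
    have h2 := hB0 _ hy h1
    have h3 : (Fin.cons (1 * Real.sqrt (MvPolynomial.eval (fun k => y k.succ) F))
        (fun k : Fin n => y k.succ) : Fin (n + 1) → ℝ) ∈ closure
          ((fun z : Fin n → ℝ => (Fin.cons (1 * Real.sqrt (MvPolynomial.eval z F)) z :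
            Fin (n + 1) → ℝ)) '' (B ∩ {z | 0 < MvPolynomial.eval z F})) :=
      image_closure_subset_closure_image (hg 1) ⟨_, h2, rfl⟩
    rw [hsq, h0, abs_zero, mul_zero] at h3
    rw [h0] at hyc
    rw [hyc] at h3
    refine closure_minimal ?_ isClosed_closure h3
    rintro _ ⟨z, hz, rfl⟩
    exact hsheet 1 (by norm_num) z hz
  · have h1 : 0 < MvPolynomial.eval (fun k => y k.succ) F := by
      rw [← hyX']
      positivity
    rcases lt_or_gt_of_ne h0 with h | h
    · have h2 := hsheet (-1) (by norm_num) _ ⟨hy, h1⟩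
      rw [hsq, abs_of_neg h, neg_one_mul, neg_neg, hyc] at h2
      exact h2
    · have h2 := hsheet 1 (by norm_num) _ ⟨hy, h1⟩
      rw [hsq, abs_of_pos h, one_mul, hyc] at h2
      exact h2

end Pool.Agent.Run7.h587.Ad
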