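import Pool.Agent.Run7.h587.Ad.Gen

/-!
# `2`-adically dense sets of integral points are Zariski dense
-/

set_option autoImplicit false

open MvPolynomial

namespace Pool.Agent.Run7.h587.Ad

theorem int_point {α : Type*} {P : MvPolynomial α ℂ} (hP : P ≠ 0) :
    ∃ c : α → ℤ, eval (fun e => (c e : ℂ)) P ≠ 0 := by
  by_contra hcon
  push Not at hcon
  apply hP
  apply MvPolynomial.funext_set (fun _ : α => Set.range fun t : ℤ => (t : ℂ))
  · intro a
    exact Set.infinite_range_of_injective Int.cast_injective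
  · intro x hx
    have hx' : ∀ a : α, ∃ t : ℤ, (t : ℂ) = x a := fun a => hx a (Set.mem_univ _)
    choose t ht using hx'
    rw [map_zero, ← hcon t]
    congr 2
    funext a
    exact (ht a).symm

theorem zar_dense {α : Type*} [Finite α] {P : MvPolynomial α ℂ} (hP : P ≠ 0) :
    ∃ (c₀ : α → ℤ) (M : ℕ), ∀ c : α → ℤ, (∀ e, (2 : ℤ) ^ (M + 1) ∣ c e - c₀ e) →
      eval (fun e => (c e : ℂ)) P ≠ 0 := by
  classical
  cases nonempty_fintype α
  obtain ⟨c₀, h₀⟩ := int_point hP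
  obtain ⟨l, hl⟩ : ∃ l : Module.Dual ℚ ℂ, l (eval (fun e => (c₀ e : ℂ)) P) ≠ 0 := by
    by_contra hcon
    push Not at hcon
    exact h₀ ((Module.forall_dual_apply_eq_zero_iff ℚ _).1 hcon)
  set Q : MvPolynomial α ℚ := ∑ m ∈ P.support, monomial m (l (P.coeff m)) with hQ
  have hev : ∀ c : α → ℤ, eval (fun e => (c e : ℚ)) Q = l (eval (fun e => (c e : ℂ)) P) := by
    intro c
    rw [hQ, map_sum, eval_eq', map_sum]
    refine Finset.sum_congr rfl fun m _ => ?_
    rw [eval_monomial, Finsupp.prod_fintype _ _ (fun i => pow_zero _)]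
    have : P.coeff m * ∏ i, (c i : ℂ) ^ m i = (∏ i, (c i : ℚ) ^ m i) • P.coeff m := by
      rw [Algebra.smul_def, map_prod, mul_comm]
      simp
    rw [this, map_smul, smul_eq_mul, mul_comm]
  have hcont : Continuous fun x : α → ℚ_[2] => eval x (Q.map (algebraMap ℚ ℚ_[2])) :=
    MvPolynomial.continuous_eval _
  have hm : ∀ c : α → ℤ, eval (fun e => (c e : ℚ_[2])) (Q.map (algebraMap ℚ ℚ_[2])) =
      algebraMap ℚ ℚ_[2] (eval (fun e => (c e : ℚ)) Q) := by
    intro c
    have := map_eval (algebraMap ℚ ℚ_[2]) (fun e => (c e : ℚ)) Q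
    rw [this]
    congr 2
  have hne : eval (fun e => (c₀ e : ℚ_[2])) (Q.map (algebraMap ℚ ℚ_[2])) ≠ 0 := by
    rw [hm, hev]
    exact (map_ne_zero _).2 hl
  have hev0 := hcont.continuousAt.eventually_ne hne
  obtain ⟨δ, hδ, hb⟩ := Metric.eventually_nhds_iff_ball.1 hev0
  obtain ⟨M, hM⟩ := exists_pow_lt_of_lt_one hδ (show (1 / 2 : ℝ) < 1 by norm_num)
  refine ⟨c₀, M, fun c hc h0 => ?_⟩
  have h1 : (fun e => (c e : ℚ_[2])) ∈ Metric.ball (fun e => (c₀ e : ℚ_[2])) δ := by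
    rw [Metric.mem_ball, dist_pi_lt_iff hδ]
    intro e
    rw [dist_eq_norm, ← Int.cast_sub]
    have h2 := (Padic.norm_int_le_pow_iff_dvd (p := 2) (c e - c₀ e) (M + 1)).2 (by exact_mod_cast hc e)
    refine lt_of_le_of_lt h2 (lt_trans ?_ hM)
    rw [zpow_neg, zpow_natCast, one_div, inv_pow]
    push_cast
    exact inv_strictAnti₀ (by positivity) (pow_lt_pow_right₀ (by norm_num) (Nat.lt_succ_self M))
  apply hb _ h1
  rw [hm, hev, h0, map_zero, map_zero]

end Pool.Agent.Run7.h587.Ad
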