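import Pool.Agent.Run7.h587.Ad.Zc

/-!
# Moves close to a local point, uniformly in the set closed under moves

The proofs follow `Pool.Agent.Q35.ZC.Mvr` (helper35) and `Pool.Agent.Y720.WL.Mv`, `Nt` (helper720).
-/

set_option autoImplicit false
set_option linter.unusedVariables false
set_option linter.unusedSectionVars false

open Filter Topology Pool.Agent.Y720.MZ Pool.Agent.Y718.X Pool.Agent.Q35.ZC

namespace Pool.Agent.Run7.h587.Ad

section

variable {K : Type*} [Field K] [CharZero K] {V : Type*} [Finite V] {L : V → Type*}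
  [∀ v, NontriviallyNormedField (L v)] [∀ v, CompleteSpace (L v)] (s : ∀ v, K →+* L v)
  {α : Type*} [DecidableEq α]

/-- the relation is closed under moves -/
def CmR (f : MvPolynomial α K) (R : (α → K) → K → Prop) : Prop :=
  (∀ z w, R z w → onX f z w) ∧ ∀ (i : α) (z : α → K) (w u Z : K), R z w →
    MulPt (w, cq f z (Pi.single i 1)) u Z → R (fun a => z a + u * (Pi.single i 1 : α → K) a) Z

/-- moves in the direction `i` close to a local point, uniformly -/
def MvU (f : MvPolynomial α K) (i : α) (x₀ : ∀ v, α → L v) (y₀ : ∀ v, L v) : Prop :=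
  ∃ δ : ℝ, 0 < δ ∧ ∀ R : (α → K) → K → Prop, CmR f R →
    ∀ (z : α → K) (w : K), R z w → nr s δ z w x₀ y₀ →
    ∀ t Y : ∀ v, L v, (∀ v, ‖t v‖ < δ) → (∀ v, ‖Y v - y₀ v‖ < δ) →
    (∀ v, onX (MvPolynomial.map (s v) f) (fun a => s v (z a) + t v * s v ((Pi.single i 1 : α → K) a))
      (Y v)) →
    ∀ η : ℝ, 0 < η → ∃ (z' : α → K) (w' : K), R z' w' ∧
      nr s η z' w' (fun v a => s v (z a) + t v * s v ((Pi.single i 1 : α → K) a)) Y

/-- the closure of a set closed under moves is open at a local point, uniformly -/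
def IntU (f : MvPolynomial α K) (x₀ : ∀ v, α → L v) (y₀ : ∀ v, L v) : Prop :=
  ∃ ε : ℝ, 0 < ε ∧ ∀ R : (α → K) → K → Prop, CmR f R →
    ∀ (z : α → K) (w : K), R z w → nr s ε z w x₀ y₀ →
    ∀ (x : ∀ v, α → L v) (y : ∀ v, L v), (∀ v, onX (MvPolynomial.map (s v) f) (x v) (y v)) →
    (∀ v, (∀ a, ‖x v a - x₀ v a‖ < ε) ∧ ‖y v - y₀ v‖ < ε) →
    ∀ η : ℝ, 0 < η → ∃ (z : α → K) (w : K), R z w ∧ nr s η z w x y

variable {s} [Fintype α]

/-- **Moves from the quartics.** -/
theorem mv_quarticU {f : MvPolynomial α K} {i : α}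
    (he : ∀ z, (rst f z (Pi.single i 1)).natDegree ≤ 4) {x₀ : ∀ v, α → L v} {y₀ : ∀ v, L v}
    (hW : WAqR s fun v => (y₀ v, cq (MvPolynomial.map (s v) f) (x₀ v)
      (fun a => s v ((Pi.single i 1 : α → K) a)))) :
    MvU s f i x₀ y₀ := by
  set e : α → K := Pi.single i 1 with he'
  obtain ⟨δ, hδ, hb⟩ := hW
  obtain ⟨δ', hδ', hc⟩ := cq_nearL (s := s) f e x₀ hδ
  refine ⟨min δ δ', lt_min hδ hδ', fun R hCm z w hR hn t Y ht hY hYe η hη => ?_⟩
  have hzw := hCm.1 z w hR
  obtain ⟨η', hη', hη'le, hdir⟩ := dir_bound (s := s) e hη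
  have k1 : ∀ v, Y v ^ 2 = qv (s v w) (fun j => s v (cq f z e j)) (t v) := by
    intro v
    have : CharZero (L v) := charZero_of_injective_ringHom (s v).injective
    have h1 := hYe v
    have h2 : (rst (MvPolynomial.map (s v) f) (fun a => s v (z a))
        (fun a => s v (e a))).natDegree ≤ 4 := by
      rw [← rst_map]
      exact Polynomial.natDegree_map_le.trans (he z)
    have h3 := cq_eval h2 (onX_map hzw v) (t v)
    have h4 : (fun j => s v (cq f z e j)) = cq (MvPolynomial.map (s v) f) (fun a => s v (z a))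
        (fun a => s v (e a)) := by
      funext j
      simp only [cq]
      rw [← rst_map, Polynomial.coeff_map]
    unfold onX at h1
    rw [h1, ← h3, h4]
  obtain ⟨u, Z, g1, g2⟩ := hb (w, cq f z e) (fun v => (hn v).2.trans_le (min_le_left _ _))
    (hc z fun v a => ((hn v).1 a).trans_le (min_le_right _ _)) t Y
    (fun v => (ht v).trans_le (min_le_left _ _)) (fun v => (hY v).trans_le (min_le_left _ _))
    k1 η' hη'
  refine ⟨fun a => z a + u * e a, Z, ?_, fun v => ⟨fun a => ?_, ((g2 v).2).trans_le hη'le⟩⟩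
  · exact hCm.2 i z w u Z hR g1
  · have e1 : s v (z a + u * e a) - (s v (z a) + t v * s v (e a)) =
        (s v u - t v) * s v (e a) := by
      rw [map_add, map_mul]; ring
    rw [e1]
    exact hdir v a _ (g2 v).1

/-- **Assembly.** -/
theorem int_of_mvU {f : MvPolynomial α K} {x₀ : ∀ v, α → L v} {y₀ : ∀ v, L v}
    (hP : ∀ v, onX (MvPolynomial.map (s v) f) (x₀ v) (y₀ v)) (hw : ∀ v, y₀ v ≠ 0)
    (hM : ∀ a, MvU s f a x₀ y₀) : IntU s f x₀ y₀ := by
  classical
  have hcz : ∀ v, CharZero (L v) := fun v => charZero_of_injective_ringHom (s v).injective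
  have hw' : ∀ v, 0 < ‖y₀ v‖ := fun v => norm_pos_iff.2 (hw v)
  have hw2 : ∀ v, 0 < ‖2 * y₀ v‖ := fun v => by
    have := hcz v
    exact norm_pos_iff.2 (mul_ne_zero two_ne_zero (hw v))
  have claim : ∀ S : Finset α, ∃ ε : ℝ, 0 < ε ∧ ∀ R : (α → K) → K → Prop, CmR f R →
      ∀ (z : α → K) (w : K), R z w →
      nr s ε z w x₀ y₀ →
      ∀ (x : ∀ v, α → L v) (y : ∀ v, L v),
      (∀ v, onX (MvPolynomial.map (s v) f) (x v) (y v)) →
      (∀ v, (∀ a, ‖x v a - x₀ v a‖ < ε) ∧ ‖y v - y₀ v‖ < ε) →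
      (∀ v, ∀ a ∉ S, x v a = s v (z a)) → ∀ η : ℝ, 0 < η →
      ∃ (z' : α → K) (w' : K), R z' w' ∧ nr s η z' w' x y := by
    intro S
    induction S using Finset.induction_on with
    | empty =>
      obtain ⟨ε, hε, hm⟩ := fin_min (f := fun v : V => ‖2 * y₀ v‖ / 2) fun v => half_pos (hw2 v)
      refine ⟨ε, hε, fun R hCm z w hzw hn x y hxy hT hx η hη => ⟨z, w, hzw, fun v => ?_⟩⟩
      have h1 : x v = fun a => s v (z a) := by
        funext a
        exact hx v a (Finset.notMem_empty a)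
      have h2 := hxy v
      rw [h1] at h2
      have h3 : y v ^ 2 = s v w ^ 2 := h2.trans (onX_map (s := s) (hCm.1 _ _ hzw) v).symm
      have h4 : (y v - s v w) * (y v + s v w) = 0 := by linear_combination h3
      have h5 : y v + s v w ≠ 0 := by
        intro h0
        have h6 : 2 * y₀ v = -(y v - y₀ v) + -(s v w - y₀ v) := by
          linear_combination h0
        have h7 := norm_add_le (-(y v - y₀ v)) (-(s v w - y₀ v))
        rw [← h6, norm_neg, norm_neg] at h7
        have h8 := (hT v).2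
        have h9 := (hn v).2
        have := hm v
        linarith
      have h6 : y v = s v w := sub_eq_zero.1 ((mul_eq_zero.1 h4).resolve_right h5)
      refine ⟨fun a => ?_, ?_⟩
      · rw [h1, sub_self, norm_zero]; exact hη
      · rw [h6, sub_self, norm_zero]; exact hη
    | insert a S ha ih =>
      obtain ⟨ε', hε', hcl⟩ := ih
      obtain ⟨δ, hδ, hmv⟩ := hM a
      have hsq : ∀ v, ∃ ρ : ℝ, 0 < ρ ∧ ∀ x' : α → L v, (∀ a, ‖x' a - x₀ v a‖ < ρ) →
          ∃ y' : L v, ‖y' - y₀ v‖ < min δ (ε' / 2) ∧ onX (MvPolynomial.map (s v) f) x' y' := by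
        intro v
        have := hcz v
        exact sq_near (hP v) (hw v) (lt_min hδ (half_pos hε'))
      choose ρ hρ hρb using hsq
      obtain ⟨ε, hε, hm⟩ := fin_min (f := fun v : V => min (min (ε' / 2) (δ / 2))
        (min (ρ v) (‖y₀ v‖))) fun v => lt_min (lt_min (half_pos hε') (half_pos hδ))
          (lt_min (hρ v) (hw' v))
      by_cases hV : IsEmpty V
      · exact ⟨1, one_pos, fun R hCm z w hzw hn x y hxy hT hx η hη => ⟨z, w, hzw,
          fun v => (hV.false v).elim⟩⟩
      rw [not_isEmpty_iff] at hV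
      have hε1 : ε ≤ ε' / 2 := by
        obtain ⟨v⟩ := hV
        exact (hm v).trans ((min_le_left _ _).trans (min_le_left _ _))
      have hε2 : ε ≤ δ / 2 := by
        obtain ⟨v⟩ := hV
        exact (hm v).trans ((min_le_left _ _).trans (min_le_right _ _))
      have hε3 : ∀ v, ε ≤ ρ v := fun v => (hm v).trans ((min_le_right _ _).trans (min_le_left _ _))
      have hε4 : ∀ v, ε ≤ ‖y₀ v‖ := fun v =>
        (hm v).trans ((min_le_right _ _).trans (min_le_right _ _))
      refine ⟨ε, hε, fun R hCm z w hzw hn x y hxy hT hx η hη => ?_⟩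
      -- the first target
      set t : ∀ v, L v := fun v => x v a - s v (z a) with ht
      set x₁ : ∀ v, α → L v := fun v b => s v (z b) + t v * s v ((Pi.single a 1 : α → K) b) with hx₁
      have hx₁a : ∀ v, x₁ v a = x v a := by
        intro v
        simp only [hx₁, ht, Pi.single_eq_same, map_one, mul_one]
        ring
      have hx₁b : ∀ v b, b ≠ a → x₁ v b = s v (z b) := by
        intro v b hb
        simp only [hx₁, Pi.single_eq_of_ne hb, map_zero, mul_zero, add_zero]
      have hx₁P : ∀ v b, ‖x₁ v b - x₀ v b‖ < ε := by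
        intro v b
        by_cases hb : b = a
        · rw [hb, hx₁a]; exact (hT v).1 a
        · rw [hx₁b v b hb]; exact (hn v).1 b
      have hx₁S : ∀ v b, b ∉ S → x₁ v b = x v b := by
        intro v b hb
        by_cases hba : b = a
        · rw [hba, hx₁a]
        · rw [hx₁b v b hba, hx v b]
          rw [Finset.mem_insert, not_or]
          exact ⟨hba, hb⟩
      choose Y hY1 hY2 using fun v => hρb v (x₁ v) fun b => (hx₁P v b).trans_le (hε3 v)
      -- the second target
      have hsq' : ∀ v, ∃ ρ : ℝ, 0 < ρ ∧ ∀ x' : α → L v, (∀ a, ‖x' a - x v a‖ < ρ) →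
          ∃ y' : L v, ‖y' - y v‖ < min (η / 2) (ε' / 2) ∧
            onX (MvPolynomial.map (s v) f) x' y' := by
        intro v
        have := hcz v
        refine sq_near (hxy v) ?_ (lt_min (half_pos hη) (half_pos hε'))
        intro h0
        have h1 := (hT v).2
        rw [h0, zero_sub, norm_neg] at h1
        exact absurd h1 (not_lt.2 (hε4 v))
      choose ρ' hρ' hρb' using hsq'
      obtain ⟨η₁, hη₁, hm₁⟩ := fin_min (f := fun v : V => min (min (ε' / 2) (η / 2)) (ρ' v))
        fun v => lt_min (lt_min (half_pos hε') (half_pos hη)) (hρ' v)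
      have g1 : η₁ ≤ ε' / 2 := by
        obtain ⟨v⟩ := hV
        exact (hm₁ v).trans ((min_le_left _ _).trans (min_le_left _ _))
      have g2 : η₁ ≤ η / 2 := by
        obtain ⟨v⟩ := hV
        exact (hm₁ v).trans ((min_le_left _ _).trans (min_le_right _ _))
      have g3 : ∀ v, η₁ ≤ ρ' v := fun v => (hm₁ v).trans (min_le_right _ _)
      obtain ⟨z₁, w₁, hzw₁, hn₁⟩ := hmv R hCm z w hzw (hn.mono (hε2.trans (by linarith))) t Y
        (fun v => by
          have h1 := (hT v).1 a
          have h2 := (hn v).1 a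
          have h3 : t v = (x v a - x₀ v a) + -(s v (z a) - x₀ v a) := by
            simp only [ht]; ring
          have h4 := norm_add_le (x v a - x₀ v a) (-(s v (z a) - x₀ v a))
          rw [← h3, norm_neg] at h4
          linarith)
        (fun v => (hY1 v).trans_le (min_le_left _ _)) hY2 η₁ hη₁
      set x' : ∀ v, α → L v := fun v b => if b ∈ S then x v b else s v (z₁ b) with hx'
      have hx'x : ∀ v b, ‖x' v b - x v b‖ < η₁ := by
        intro v b
        simp only [hx']
        by_cases hb : b ∈ S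
        · rw [if_pos hb, sub_self, norm_zero]; exact hη₁
        · rw [if_neg hb, ← hx₁S v b hb]
          exact (hn₁ v).1 b
      choose y' hy1 hy2 using fun v => hρb' v (x' v) fun b => (hx'x v b).trans_le (g3 v)
      obtain ⟨z', w', h1, h2⟩ := hcl R hCm z₁ w₁ hzw₁ (fun v => ⟨fun b => by
          have k1 := (hn₁ v).1 b
          have k2 := hx₁P v b
          have k3 := norm_sub_le_norm_sub_add_norm_sub (s v (z₁ b)) (x₁ v b) (x₀ v b)
          change ‖s v (z₁ b) - x₁ v b‖ < η₁ at k1
          linarith, by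
          have k1 := (hn₁ v).2
          have k2 := (hY1 v).trans_le (min_le_right _ _)
          have k3 := norm_sub_le_norm_sub_add_norm_sub (s v w₁) (Y v) (y₀ v)
          linarith⟩) x' y' hy2 (fun v => ⟨fun b => by
          have k1 := (hT v).1 b
          have k2 := hx'x v b
          have k3 := norm_sub_le_norm_sub_add_norm_sub (x' v b) (x v b) (x₀ v b)
          linarith, by
          have k1 := (hT v).2
          have k2 := (hy1 v).trans_le (min_le_right _ _)
          have k3 := norm_sub_le_norm_sub_add_norm_sub (y' v) (y v) (y₀ v)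
          linarith⟩) (fun v b hb => by simp only [hx', if_neg hb]) (η / 2) (half_pos hη)
      refine ⟨z', w', h1, fun v => ⟨fun b => ?_, ?_⟩⟩
      · have k1 := (h2 v).1 b
        have k2 := hx'x v b
        have k3 := norm_sub_le_norm_sub_add_norm_sub (s v (z' b)) (x' v b) (x v b)
        linarith
      · have k1 := (h2 v).2
        have k2 := (hy1 v).trans_le (min_le_left _ _)
        have k3 := norm_sub_le_norm_sub_add_norm_sub (s v w') (y' v) (y v)
        linarith
  -- the coordinates of the target may be taken rational one after another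
  obtain ⟨ε, hε, h⟩ := claim Finset.univ
  exact ⟨ε, hε, fun R hCm z w hzw hn x y hxy hT η hη => h R hCm z w hzw hn x y hxy hT
    (fun v a ha => absurd (Finset.mem_univ a) ha) η hη⟩

end

section two

variable {K : Type} [Field K] [CharZero K] {n : ℕ} {f : MvPolynomial (Fin n) K}

/-- the radius at a local point -/
theorem unif_at {σ₀ : K →+* ℚ_[2]} (hf : Adapted (f.map σ₀)) {T : (Fin n → ℚ_[2]) × ℚ_[2]}
    (hon : OnCover (f.map σ₀) T) :
    ∃ ε : ℝ, 0 < ε ∧ ∀ R, Cm f R → ∀ P ∈ R, dist (image σ₀ P) T < ε →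
      ∀ S, OnCover (f.map σ₀) S → dist S T < ε → S ∈ closure (ImR R σ₀) := by
  have hd : ∀ i, f.degreeOf i ≤ 4 := map_degreeOf hf.1
  have hw : T.2 ≠ 0 := (hf.2.2 T.1 T.2 hon).1
  have hI : IntU (V := Unit) (L := fun _ => ℚ_[2]) (fun _ => σ₀) f
      (fun _ => T.1) (fun _ => T.2) := by
    refine int_of_mvU (fun _ => hon) (fun _ => hw) fun j => ?_
    refine mv_quarticU (fun z => deg_rst (hd j) z) ?_
    refine (hw_pR (ι := Unit) (p := fun _ => 2) (fun _ _ _ => rfl) fun _ => σ₀) _ (fun _ => hw)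
      fun _ => ?_
    have h := io_of hon ((moves_eq _ _ _).1 (moves_two hf hon j).2)
    rw [← single_map σ₀] at h
    exact h
  obtain ⟨ε, hε, hint⟩ := hI
  refine ⟨ε, hε, fun R hR P hP hPT S hSX hS => ?_⟩
  rw [Metric.mem_closure_iff]
  intro η hη
  have hRX : ∀ z w, (z, w) ∈ R → onX f z w := fun z w h => hR.1 (z, w) h
  obtain ⟨z, w, k1, k2⟩ := hint (fun z w => (z, w) ∈ R) ⟨hRX, fun i z w u Z h h' =>
      hR.2 i z w u Z h h'⟩ P.1 P.2 hP
    (fun _ => (dist_image σ₀ P T hε).1 (by rwa [dist_comm]))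
    (fun _ => S.1) (fun _ => S.2) (fun _ => hSX) (fun _ => by
      have h3 := hS
      rw [Prod.dist_eq, max_lt_iff, dist_pi_lt_iff hε] at h3
      simp only [dist_eq_norm] at h3
      exact h3) η hη
  exact ⟨_, ⟨(z, w), k1, rfl⟩, (dist_image σ₀ (z, w) S hη).2 (k2 ())⟩

/-- **A uniform radius.** -/
theorem unif {σ₀ : K →+* ℚ_[2]} (hf : Adapted (f.map σ₀)) :
    ∃ ε : ℝ, 0 < ε ∧ ∀ R, Cm f R → ∀ P ∈ R, ∀ S, OnCover (f.map σ₀) S →
      dist S (image σ₀ P) < ε → S ∈ closure (ImR R σ₀) := by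
  classical
  have hc := compact_two hf
  have h1 : ∀ T : {T : (Fin n → ℚ_[2]) × ℚ_[2] // OnCover (f.map σ₀) T},
      ∃ ε : ℝ, 0 < ε ∧ ∀ R, Cm f R → ∀ P ∈ R, dist (image σ₀ P) T.1 < ε →
      ∀ S, OnCover (f.map σ₀) S → dist S T.1 < ε → S ∈ closure (ImR R σ₀) :=
    fun T => unif_at hf T.2
  choose ε hε hu using h1
  obtain ⟨δ, hδ, h2⟩ := lebesgue_number_lemma_of_metric hc
    (c := fun T : {T : (Fin n → ℚ_[2]) × ℚ_[2] // OnCover (f.map σ₀) T} => Metric.ball T.1 (ε T))
    (fun T => Metric.isOpen_ball) (fun T hT => Set.mem_iUnion.2 ⟨⟨T, hT⟩, Metric.mem_ball_self (hε _)⟩)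
  refine ⟨δ, hδ, fun R hR P hP S hS hd => ?_⟩
  have hPX : OnCover (f.map σ₀) (image σ₀ P) :=
    Pool.Agent.Results.MP_ed3816_nt.OpenAwayFromTorsion.onCover_image σ₀ (hR.1 P hP)
  obtain ⟨T, hT⟩ := h2 (image σ₀ P) hPX
  exact hu T R hR P hP (hT (Metric.mem_ball_self hδ)) S hS (hT hd)

end two

end Pool.Agent.Run7.h587.Ad
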