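import Pool.Agent.Run7.h587.Ad.Orb

/-!
# An explicit surface with a dense set of rational points
-/

set_option autoImplicit false

open Pool.Agent.Y720.MZ Pool.Agent.Y718.X Filter Topology
open Pool.Agent.Q35.ZC

namespace Pool.Agent.Run7.h587.Ad

/-- `z_i² + z_i` -/
noncomputable def uu (i : Fin 2) : MvPolynomial (Fin 2) ℤ := MvPolynomial.X i ^ 2 + MvPolynomial.X i

/-- the example is the member of `gex` -/
noncomputable def gex : MvPolynomial (Fin 2) ℤ := 2 + 2 * (uu 0 * uu 1 * (uu 0 + uu 1 - 12))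

theorem gex_deg (i : Fin 2) : gex.degreeOf i ≤ 4 := by
  have hC : ∀ k : ℤ, (MvPolynomial.C k : MvPolynomial (Fin 2) ℤ).degreeOf i = 0 :=
    fun k => MvPolynomial.degreeOf_C _ _
  have h2 : (2 : MvPolynomial (Fin 2) ℤ).degreeOf i = 0 := by
    have := hC 2
    rwa [map_ofNat] at this
  have h12 : (12 : MvPolynomial (Fin 2) ℤ).degreeOf i = 0 := by
    have := hC 12
    rwa [map_ofNat] at this
  have h0 : (uu 0).degreeOf i ≤ if (0 : Fin 2) = i then 2 else 0 := degreeOf_q 0 i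
  have h1 : (uu 1).degreeOf i ≤ if (1 : Fin 2) = i then 2 else 0 := degreeOf_q 1 i
  have hs : (uu 0 + uu 1 - 12).degreeOf i ≤ 2 := by
    refine (MvPolynomial.degreeOf_sub_le _ _ _).trans (max_le ?_ ?_)
    · refine (MvPolynomial.degreeOf_add_le _ _ _).trans (max_le ?_ ?_)
      · refine h0.trans ?_
        split_ifs <;> norm_num
      · refine h1.trans ?_
        split_ifs <;> norm_num
    · rw [h12]; norm_num
  have hp : (uu 0 * uu 1).degreeOf i ≤ 2 := by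
    refine (MvPolynomial.degreeOf_mul_le _ _ _).trans ?_
    fin_cases i
    · have e0 := h0
      have e1 := h1
      simp at e0 e1
      simp only [Fin.zero_eta]
      omega
    · have e0 := h0
      have e1 := h1
      simp at e0 e1
      simp only [Fin.mk_one]
      omega
  unfold gex
  refine (MvPolynomial.degreeOf_add_le _ _ _).trans (max_le ?_ ?_)
  · rw [h2]; norm_num
  · refine (MvPolynomial.degreeOf_mul_le _ _ _).trans ?_
    rw [h2, zero_add]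
    refine (MvPolynomial.degreeOf_mul_le _ _ _).trans ?_
    omega

/-- the values of the example -/
def fex (x y : ℤ) : ℤ := 3 * ((x ^ 2 + x + 1) ^ 2 * (y ^ 2 + y + 1) ^ 2) +
  ((x ^ 2 + x) + (y ^ 2 + y)) + 2 +
    4 * (2 + 2 * ((x ^ 2 + x) * (y ^ 2 + y) * ((x ^ 2 + x) + (y ^ 2 + y) - 12)))

theorem fex_eq (x y : ℤ) : MvPolynomial.eval ![x, y] (mem gex) = fex x y := by
  rw [eval_mem]
  simp [gex, uu, fex]

/-- the rational points -/
def Lex : List (ℤ × ℤ × ℤ) := [(0, 3, 23), (0, -4, 23), (-1, 3, 23), (-1, -4, 23), (3, 0, 23),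
  (3, -1, 23), (-4, 0, 23), (-4, -1, 23), (1, 1, 1), (1, -2, 1), (-2, 1, 1), (-2, -2, 1),
  (2, 2, 85), (2, -3, 85), (-3, 2, 85), (-3, -3, 85)]

theorem Lex_on : ∀ p ∈ Lex, p.2.2 ^ 2 = fex p.1 p.2.1 := by decide

theorem Lex_all : ∀ a b : Fin 8, (fex (a : ℕ) (b : ℕ)) % 8 = 1 →
    ∃ p ∈ Lex, (p.1 - (a : ℕ)) % 8 = 0 ∧ (p.2.1 - (b : ℕ)) % 8 = 0 := by decide

theorem ex_dense {S : (Fin 2 → ℚ_[2]) × ℚ_[2]} (hS : OnCover (fc ℚ_[2] gex) S) :
    S ∈ closure (ImR {P : (Fin 2 → ℚ) × ℚ | OnCover (fc ℚ gex) P} (algebraMap ℚ ℚ_[2])) := by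
  have hg := gex_deg
  obtain ⟨r, hr, hr8⟩ := near_int hg hS
  obtain ⟨a, ha⟩ : ∃ a : Fin 8, (8 : ℤ) ∣ r 0 - (a : ℕ) :=
    ⟨⟨(r 0 % 8).toNat, by omega⟩, by simp only; omega⟩
  obtain ⟨b, hb⟩ : ∃ b : Fin 8, (8 : ℤ) ∣ r 1 - (b : ℕ) :=
    ⟨⟨(r 1 % 8).toNat, by omega⟩, by simp only; omega⟩
  have h1 : (8 : ℤ) ∣ MvPolynomial.eval r (mem gex) - MvPolynomial.eval ![((a : ℕ) : ℤ), ((b : ℕ) : ℤ)] (mem gex) := by
    apply eval_dvd (N := 8)
    intro i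
    fin_cases i
    · exact ha
    · exact hb
  rw [fex_eq] at h1
  obtain ⟨p, hp, hp1, hp2⟩ := Lex_all a b (by omega)
  have hp3 := Lex_on p hp
  rw [← fex_eq] at hp3
  have hmap : (fc ℚ gex).map (algebraMap ℚ ℚ_[2]) = fc ℚ_[2] gex := fc_map _ _
  have hd : ∀ j, (fc ℚ gex).degreeOf j ≤ 4 := fc_deg hg
  refine level (K := ℚ) (f := fc ℚ gex) (σ := algebraMap ℚ ℚ_[2]) two_ne_zero ?_ ?_ (all_cm hd)
    (P := (fun i => ((![p.1, p.2.1] : Fin 2 → ℤ) i : ℚ), (p.2.2 : ℚ))) ?_ ?_ ?_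
  · rw [hmap]; exact cls_adapted hg
  · rw [hmap]; exact cls_unit hg
  · change ((p.2.2 : ℤ) : ℚ) ^ 2 =
      MvPolynomial.eval (fun i => ((![p.1, p.2.1] : Fin 2 → ℤ) i : ℚ)) (fc ℚ gex)
    rw [eval_int, ← hp3]
    push_cast
    rfl
  · rw [hmap]; exact hS
  · intro i
    have h1 : (8 : ℤ) ∣ r i - (![p.1, p.2.1] : Fin 2 → ℤ) i := by
      fin_cases i
      · change (8 : ℤ) ∣ r 0 - p.1
        omega
      · change (8 : ℤ) ∣ r 1 - p.2.1
        omega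
    have h2 := (norm_int8 _).2 h1
    have e : S.1 i - algebraMap ℚ ℚ_[2] (((![p.1, p.2.1] : Fin 2 → ℤ) i : ℤ) : ℚ) =
        (S.1 i - (r i : ℚ_[2])) + ((r i - (![p.1, p.2.1] : Fin 2 → ℤ) i : ℤ) : ℚ_[2]) := by
      rw [map_intCast]
      push_cast
      ring
    rw [e]
    exact an (hr i) h2

end Pool.Agent.Run7.h587.Ad
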