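import Pool.Agent.Run7.h587.Ad.Ex
import Pool.Agent.Results.MP_ed3816_nt.OpenAwayFromTorsion

/-!
# Adapted double covers: the closure of the rational points is open
-/

set_option autoImplicit false

open Pool.Agent.Y720.MZ Pool.Agent.Y718.X
open Pool.Agent.Results.MP_ed3816_nt.OpenAwayFromTorsion

namespace Pool.Agent.Run7.h587.Ad

variable {n : ℕ}

theorem genusOne_db {F : Type} [Field F] [CharZero F] (q : Polynomial F) :
    GenusOne q ↔ Db q ≠ 0 := by
  unfold GenusOne Pool.Agent.Results.MP_ed3816_nt.OpenAwayFromTorsion.jacobian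
  rw [delta]
  exact mul_ne_zero_iff_left (by norm_num)

theorem io_iff {F : Type} [Field F] (q : Polynomial F) (w : F) (hw : w ^ 2 = q.coeff 0) :
    Pool.Agent.Results.MP_ed3816_nt.OpenAwayFromTorsion.InfiniteOrder q w ↔
      @InfW F _ (Classical.decEq F) q w := by
  unfold Pool.Agent.Results.MP_ed3816_nt.OpenAwayFromTorsion.InfiniteOrder InfW
  unfold Pool.Agent.Results.MP_ed3816_nt.OpenAwayFromTorsion.jacobian
  unfold Pool.Agent.Y718.X.Ab Pool.Agent.Y718.X.Bb Pool.Agent.Y718.X.Cb cv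
  rw [hw]
  exact Iff.rfl

/-- all points of an adapted cover over a field with an embedding move in all directions -/
theorem moves_K {K : Type} [Field K] [CharZero K] (σ : K →+* ℚ_[2]) {f : MvPolynomial (Fin n) K}
    (hf : Adapted (f.map σ)) {P : (Fin n → K) × K} (hP : OnCover f P) (i : Fin n) :
    P.2 ≠ 0 ∧ Moves f P i := by
  let : DecidableEq K := Classical.decEq K
  obtain ⟨h1, h2⟩ := adapted_main σ hf hP
  refine ⟨h1, (genusOne_db _).2 (h2 i).1, (io_iff _ _ ?_).2 (h2 i).2⟩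
  rw [line_zero]
  exact hP

/-- the same over `ℚ₂` -/
theorem moves_two {F : MvPolynomial (Fin n) ℚ_[2]} (hF : Adapted F)
    {P : (Fin n → ℚ_[2]) × ℚ_[2]} (hP : OnCover F P) (i : Fin n) : P.2 ≠ 0 ∧ Moves F P i := by
  refine moves_K (RingHom.id ℚ_[2]) ?_ hP i
  rwa [MvPolynomial.map_id]

/-- embeddings of fields -/
theorem moves_image {K L : Type} [Field K] [CharZero K] [Field L] [CharZero L] (φ : K →+* L)
    {f : MvPolynomial (Fin n) K} {P : (Fin n → K) × K} (hP : OnCover f P) {i : Fin n}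
    (h : Moves f P i) : Moves (f.map φ) (image φ P) i := by
  let : DecidableEq L := Classical.decEq L
  have h1 : IOt (th f (Pi.single i 1) P.1 P.2) := io_of hP h
  have h2 := io_map φ h1
  rw [← th_map] at h2
  have e : (fun a => φ ((Pi.single i 1 : Fin n → K) a)) = Pi.single i 1 := by
    funext a
    by_cases h : a = i
    · subst h; simp
    · rw [Pi.single_eq_of_ne h, Pi.single_eq_of_ne h, map_zero]
  rw [e] at h2
  have hon : OnCover (f.map φ) (image φ P) := onCover_image φ hP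
  refine ⟨genusOne_iff.2 ?_, h2.2⟩
  have h3 := h2.1
  rw [Tq_eq (show onX (f.map φ) (fun a => φ (P.1 a)) (φ P.2) from hon)] at h3
  exact h3

theorem serves {F : Type} [Field F] {g : MvPolynomial (Fin n) F} {x : Fin n → F} (i : Fin n) :
    Serves g x i i := Or.inl rfl

section main

variable {K : Type} [Field K] [CharZero K] {σ₀ : K →+* ℚ_[2]} {f : MvPolynomial (Fin n) K}

omit [CharZero K] in
theorem map_degreeOf (hd : ∀ i, (f.map σ₀).degreeOf i ≤ 4) (i : Fin n) : f.degreeOf i ≤ 4 := by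
  have := hd i
  rw [MvPolynomial.degreeOf_eq_sup] at this ⊢
  rwa [MvPolynomial.support_map_of_injective f σ₀.injective] at this

omit [CharZero K] in
theorem ne_K (hf : Adapted (f.map σ₀)) {P : (Fin n → K) × K} (hP : OnCover f P) : P.2 ≠ 0 := by
  let : DecidableEq K := Classical.decEq K
  exact (adapted_main σ₀ hf hP).1

/-- rational points, finite products of local fields -/
theorem openAt_gen (hf : Adapted (f.map σ₀)) {ι : Type} [Finite ι] [Nonempty ι] {p : ι → ℕ}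
    [∀ v, Fact (p v).Prime] (hinj : Function.Injective p) (σ : ∀ v, K →+* ℚ_[p v])
    {P : (Fin n → K) × K} (hP : OnCover f P) :
    OpenAt f σ (fun v => image (σ v) P) ∧
      ∀ τ : K →+* ℝ, OpenAtReal f σ τ (image τ P, fun v => image (σ v) P) := by
  have hd : ∀ i, f.degreeOf i ≤ 4 := map_degreeOf hf.1
  obtain ⟨h1, h2⟩ := (result).1 K n f hd ι p hinj σ
  have hm := fun i => (moves_K σ₀ hf hP i).2
  have hw0 := ne_K hf hP
  refine ⟨h1 _ (subset_closure ⟨P, hP, rfl⟩) (fun v => (map_ne_zero (σ v)).2 hw0)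
    fun j => ⟨j, fun v => ⟨moves_image (σ v) hP (hm j), serves j⟩⟩, fun τ => ?_⟩
  exact h2 τ _ (subset_closure ⟨P, hP, rfl⟩) ((map_ne_zero τ).2 hw0)
    (fun v => (map_ne_zero (σ v)).2 hw0) fun j => ⟨j, ⟨(moves_image τ hP (hm j)).1, serves j⟩,
      fun v => ⟨moves_image (σ v) hP (hm j), serves j⟩⟩

/-- the set of the images of the points over `K` -/
def Im {L : Type} [Field L] (f : MvPolynomial (Fin n) K) (φ : K →+* L) :
    Set ((Fin n → L) × L) := {S | ∃ P, OnCover f P ∧ S = image φ P}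

/-- the set of the images of the points over `K` in a product -/
def Im2 {L M : Type} [Field L] [Field M] (f : MvPolynomial (Fin n) K) (τ : K →+* L)
    (φ : K →+* M) : Set (((Fin n → L) × L) × ((Fin n → M) × M)) :=
  {S | ∃ P, OnCover f P ∧ S = (image τ P, image φ P)}

omit [CharZero K] in
theorem on_of_cl {L : Type} [NormedField L] {φ : K →+* L} {T : (Fin n → L) × L}
    (hT : T ∈ closure (Im f φ)) : OnCover (f.map φ) T := by
  refine closure_minimal ?_ (isClosed_onCover (f.map φ)) hT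
  rintro _ ⟨P, hP, rfl⟩
  exact onCover_image φ hP

omit [CharZero K] in
theorem cl_unit (S : Unit → (Fin n → ℚ_[2]) × ℚ_[2]) :
    S ∈ Closure f (p := fun _ : Unit => 2) (fun _ => σ₀) ↔ S () ∈ closure (Im f σ₀) := by
  let e : (Unit → (Fin n → ℚ_[2]) × ℚ_[2]) ≃ₜ (Fin n → ℚ_[2]) × ℚ_[2] :=
    Homeomorph.funUnique Unit _
  have h1 : {S : Unit → (Fin n → ℚ_[2]) × ℚ_[2] | ∃ P, OnCover f P ∧ S = fun _ => image σ₀ P} =
      e ⁻¹' (Im f σ₀) := by
    ext S
    constructor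
    · rintro ⟨P, hP, rfl⟩
      exact ⟨P, hP, rfl⟩
    · rintro ⟨P, hP, h⟩
      refine ⟨P, hP, ?_⟩
      funext i
      exact h
  have h2 : Closure f (p := fun _ : Unit => 2) (fun _ => σ₀) = e ⁻¹' closure (Im f σ₀) := by
    rw [e.preimage_closure, ← h1]
    rfl
  rw [h2]
  rfl

omit [CharZero K] in
theorem clr_unit {τ : K →+* ℝ} (S : ((Fin n → ℝ) × ℝ) × (Unit → (Fin n → ℚ_[2]) × ℚ_[2])) :
    S ∈ ClosureReal f (p := fun _ : Unit => 2) (fun _ => σ₀) τ ↔
      (S.1, S.2 ()) ∈ closure (Im2 f τ σ₀) := by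
  let e : (((Fin n → ℝ) × ℝ) × (Unit → (Fin n → ℚ_[2]) × ℚ_[2])) ≃ₜ
      ((Fin n → ℝ) × ℝ) × ((Fin n → ℚ_[2]) × ℚ_[2]) :=
    (Homeomorph.refl _).prodCongr (Homeomorph.funUnique Unit _)
  have h1 : {S : ((Fin n → ℝ) × ℝ) × (Unit → (Fin n → ℚ_[2]) × ℚ_[2]) |
      ∃ P, OnCover f P ∧ S = (image τ P, fun _ => image σ₀ P)} = e ⁻¹' (Im2 f τ σ₀) := by
    ext S
    constructor
    · rintro ⟨P, hP, rfl⟩
      exact ⟨P, hP, rfl⟩
    · rintro ⟨P, hP, h⟩
      have h' : (S.1, S.2 ()) = (image τ P, image σ₀ P) := h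
      rw [Prod.mk.injEq] at h'
      refine ⟨P, hP, Prod.ext h'.1 ?_⟩
      funext i
      exact h'.2
  have h2 : ClosureReal f (p := fun _ : Unit => 2) (fun _ => σ₀) τ =
      e ⁻¹' closure (Im2 f τ σ₀) := by
    rw [e.preimage_closure, ← h1]
    rfl
  rw [h2]
  rfl

/-- **Openness over `ℚ₂`.** -/
theorem open_two (hf : Adapted (f.map σ₀)) {T : (Fin n → ℚ_[2]) × ℚ_[2]}
    (hT : T ∈ closure (Im f σ₀)) :
    ∃ U ∈ nhds T, ∀ S ∈ U, OnCover (f.map σ₀) S → S ∈ closure (Im f σ₀) := by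
  have hd : ∀ i, f.degreeOf i ≤ 4 := map_degreeOf hf.1
  have hon := on_of_cl hT
  obtain ⟨h1, -⟩ := (result).1 K n f hd Unit (fun _ => 2) (fun _ _ _ => rfl) (fun _ => σ₀)
  have hw : T.2 ≠ 0 := (hf.2.2 T.1 T.2 hon).1
  obtain ⟨U, hU, h2⟩ := h1 (fun _ => T) ((cl_unit (f := f) (σ₀ := σ₀) _).2 hT) (fun _ => hw)
    fun j => ⟨j, fun _ => ⟨(moves_two hf hon j).2, serves j⟩⟩
  have hc : Continuous fun S : (Fin n → ℚ_[2]) × ℚ_[2] => (fun _ : Unit => S) := by fun_prop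
  refine ⟨_, hc.continuousAt.preimage_mem_nhds hU, fun S hS hSon => ?_⟩
  exact (cl_unit (f := f) (σ₀ := σ₀) _).1 (h2 _ hS fun _ => hSon)

/-- **Openness over `ℝ × ℚ₂`.** -/
theorem open_real_two (hf : Adapted (f.map σ₀)) (τ : K →+* ℝ)
    {T : ((Fin n → ℝ) × ℝ) × ((Fin n → ℚ_[2]) × ℚ_[2])} (hT : T ∈ closure (Im2 f τ σ₀))
    (hw : T.1.2 ≠ 0) (hg : ∀ i, GenusOne (line (f.map τ) T.1.1 i)) :
    ∃ U ∈ nhds T, ∀ S ∈ U, OnCover (f.map τ) S.1 → OnCover (f.map σ₀) S.2 →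
      S ∈ closure (Im2 f τ σ₀) := by
  have hd : ∀ i, f.degreeOf i ≤ 4 := map_degreeOf hf.1
  have hT' := (clr_unit (f := f) (σ₀ := σ₀) (τ := τ) (T.1, fun _ => T.2)).2 hT
  have hon : OnCover (f.map σ₀) T.2 := (on_of_closureR hT').2 ()
  obtain ⟨-, h1⟩ := (result).1 K n f hd Unit (fun _ => 2) (fun _ _ _ => rfl) (fun _ => σ₀)
  have hw2 : T.2.2 ≠ 0 := (hf.2.2 T.2.1 T.2.2 hon).1
  obtain ⟨U, hU, h2⟩ := h1 τ _ hT' hw (fun _ => hw2)
    fun j => ⟨j, ⟨hg j, serves j⟩, fun _ => ⟨(moves_two hf hon j).2, serves j⟩⟩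
  have hc : Continuous fun S : ((Fin n → ℝ) × ℝ) × ((Fin n → ℚ_[2]) × ℚ_[2]) =>
      (S.1, (fun _ : Unit => S.2)) := by fun_prop
  refine ⟨_, hc.continuousAt.preimage_mem_nhds hU, fun S hS hSr hSon => ?_⟩
  exact (clr_unit (f := f) (σ₀ := σ₀) (τ := τ) _).1 (h2 _ hS hSr fun _ => hSon)

/-- rational points, the real place alone -/
theorem open_real (hf : Adapted (f.map σ₀)) (τ : K →+* ℝ) {P : (Fin n → K) × K}
    (hP : OnCover f P) :
    ∃ U ∈ nhds (image τ P), ∀ S ∈ U, OnCover (f.map τ) S → S ∈ closure (Im f τ) := by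
  obtain ⟨U, hU, h2⟩ := open_real_two hf τ (T := (image τ P, image σ₀ P))
    (subset_closure ⟨P, hP, rfl⟩) ((map_ne_zero τ).2 (ne_K hf hP))
    fun i => (moves_image τ hP (moves_K σ₀ hf hP i).2).1
  have hc : Continuous fun S : (Fin n → ℝ) × ℝ => (S, image σ₀ P) := by fun_prop
  refine ⟨_, hc.continuousAt.preimage_mem_nhds hU, fun S hS hSr => ?_⟩
  have h3 := h2 _ hS hSr (onCover_image σ₀ hP)
  have h4 : Prod.fst '' closure (Im2 f τ σ₀) ⊆ closure (Prod.fst '' Im2 f τ σ₀) :=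
    image_closure_subset_closure_image continuous_fst
  have h5 := h4 ⟨_, h3, rfl⟩
  refine closure_mono ?_ h5
  rintro _ ⟨_, ⟨Q, hQ, rfl⟩, rfl⟩
  exact ⟨Q, hQ, rfl⟩

/-- rational points, one `p`-adic place -/
theorem open_p (hf : Adapted (f.map σ₀)) {p : ℕ} [hp : Fact p.Prime] (σ : K →+* ℚ_[p])
    {P : (Fin n → K) × K} (hP : OnCover f P) :
    ∃ U ∈ nhds (image σ P), ∀ S ∈ U, OnCover (f.map σ) S → S ∈ closure (Im f σ) := by
  obtain ⟨⟨U, hU, h2⟩, -⟩ := openAt_gen (ι := Unit) (p := fun _ => p) hf (fun _ _ _ => rfl)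
    (fun _ => σ) hP
  have hc : Continuous fun S : (Fin n → ℚ_[p]) × ℚ_[p] => (fun _ : Unit => S) := by fun_prop
  refine ⟨_, hc.continuousAt.preimage_mem_nhds hU, fun S hS hSr => ?_⟩
  have h3 := h2 _ hS fun _ => hSr
  have h4 : (fun S : Unit → (Fin n → ℚ_[p]) × ℚ_[p] => S ()) ''
      (Closure f (p := fun _ : Unit => p) fun _ => σ) ⊆ closure ((fun S => S ()) ''
        {S : Unit → (Fin n → ℚ_[p]) × ℚ_[p] | ∃ P, OnCover f P ∧ S = fun _ => image σ P}) :=
    image_closure_subset_closure_image (continuous_apply ())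
  have h5 := h4 ⟨_, h3, rfl⟩
  refine closure_mono ?_ h5
  rintro _ ⟨_, ⟨Q, hQ, rfl⟩, rfl⟩
  exact ⟨Q, hQ, rfl⟩

/-- `X(ℚ₂)` is compact -/
theorem compact_two {F : MvPolynomial (Fin n) ℚ_[2]} (hF : Adapted F) :
    IsCompact {T : (Fin n → ℚ_[2]) × ℚ_[2] | OnCover F T} := by
  let : DecidableEq ℚ_[2] := Classical.decEq _
  refine Metric.isCompact_of_isClosed_isBounded (isClosed_onCover F) ?_
  refine (Metric.isBounded_closedBall (x := (0 : (Fin n → ℚ_[2]) × ℚ_[2])) (r := 1)).subset ?_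
  intro T hT
  rw [mem_closedBall_zero_iff, Prod.norm_def, max_le_iff]
  have hz : ∀ i, ‖T.1 i‖ ≤ 1 := fun i => ((hF.2.2 T.1 T.2 hT).2 i).1
  constructor
  · exact (pi_norm_le_iff_of_nonneg zero_le_one).2 hz
  · have h1 : ‖MvPolynomial.eval T.1 F‖ ≤ 1 :=
      (IC_eval (v := NormedField.toAbsoluteValue ℚ_[2]) (Padic.nonarchimedean) hF.2.1).1 T.1 hz
    have h2 : ‖T.2‖ ^ 2 ≤ 1 := by
      rw [← norm_pow, show T.2 ^ 2 = MvPolynomial.eval T.1 F from hT]
      exact h1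
    exact (pow_le_one_iff_of_nonneg (norm_nonneg _) two_ne_zero).1 h2

end main

end Pool.Agent.Run7.h587.Ad
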