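import Pool.Agent.Run7.h587.Ad.Open
import Pool.Agent.Y720.WA.Den4

/-!
# Adapted double covers: the local Zariski closures

`dvd_of_norm` is copied from `Pool.Agent.Y720.WE.N5` (helper720).
-/

set_option autoImplicit false

open Pool.Agent.Y720.MZ Pool.Agent.Y718.X
open Pool.Agent.Results.MP_ed3816_nt.OpenAwayFromTorsion

namespace Pool.Agent.Run7.h587.Ad

/-- a polynomial in `w` and `z` whose norm vanishes is divisible by `w² - f` -/
lemma dvd_of_norm {K : Type*} [Field K] [CharZero K] {α : Type*} {f : MvPolynomial α K}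
    (hsq : ¬IsSquare f) {P : (α → K) → K → Prop} (hP : ∀ z w, P z w → w ^ 2 = MvPolynomial.eval z f)
    (hN : ∀ N : MvPolynomial α K, (∀ z w, P z w → MvPolynomial.eval z N = 0) → N = 0)
    {g : MvPolynomial (Option α) K}
    (hg : ∀ z w, P z w → MvPolynomial.eval (fun o => o.elim w z) g = 0) :
    (MvPolynomial.X none ^ 2 - MvPolynomial.rename some f) ∣ g := by
  set G := MvPolynomial.optionEquivLeft K α g with hG
  set q : Polynomial (MvPolynomial α K) := Polynomial.X ^ 2 - Polynomial.C f with hq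
  have hqm : q.Monic := by
    rw [hq]; exact Polynomial.monic_X_pow_sub_C f two_ne_zero
  set r := G %ₘ q with hr
  have hqd : q.natDegree = 2 := by rw [hq]; exact Polynomial.natDegree_X_pow_sub_C
  have hrd : r.natDegree < 2 := by
    rw [← hqd, hr]
    exact Polynomial.natDegree_modByMonic_lt _ hqm (by
      intro h
      rw [h] at hqd
      simp at hqd)
  have hr' : r = .C (r.coeff 0) + .C (r.coeff 1) * .X := by
    conv_lhs => rw [r.as_sum_range_C_mul_X_pow' (n := 2) (by omega)]
    simp [Finset.sum_range_succ]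
  set g0 := r.coeff 0
  set g1 := r.coeff 1
  have hdiv : G = r + q * (G /ₘ q) := (Polynomial.modByMonic_add_div G q).symm
  have hN : g0 ^ 2 - f * g1 ^ 2 = 0 := by
    apply hN
    intro z w hz
    have hzw' := hP z w hz
    have h1 := hg z w hz
    rw [eval_option, ← hG, hdiv] at h1
    rw [Polynomial.map_add, Polynomial.map_mul, Polynomial.eval_add, Polynomial.eval_mul] at h1
    have h2 : (q.map (MvPolynomial.eval z)).eval w = 0 := by
      rw [hq]; simp [hzw']
    rw [h2, zero_mul, add_zero, hr'] at h1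
    simp only [Polynomial.map_add, Polynomial.map_C, Polynomial.map_mul, Polynomial.map_X,
      Polynomial.eval_add, Polynomial.eval_C, Polynomial.eval_mul, Polynomial.eval_X] at h1
    rw [map_sub, map_mul, map_pow, map_pow, ← hzw']
    linear_combination (MvPolynomial.eval z g0 - w * MvPolynomial.eval z g1) * h1
  have hg1 : g1 = 0 := by
    by_contra h1
    have h2 : g1 ^ 2 ∣ g0 ^ 2 := ⟨f, by linear_combination hN⟩
    have h3 : g1 ∣ g0 := (IsIntegrallyClosed.pow_dvd_pow_iff two_ne_zero).1 h2
    obtain ⟨d, hd⟩ := h3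
    apply hsq
    refine ⟨d, ?_⟩
    apply mul_left_cancel₀ (pow_ne_zero 2 h1)
    rw [hd] at hN
    linear_combination -hN
  have hg0 : g0 = 0 := by
    rw [hg1] at hN
    have : g0 ^ 2 = 0 := by linear_combination hN
    exact pow_eq_zero_iff two_ne_zero |>.1 this
  have hr0 : r = 0 := by rw [hr', hg0, hg1]; simp
  have h5 : q ∣ G := by
    rw [hdiv, hr0, zero_add]
    exact dvd_mul_right _ _
  have h6 : MvPolynomial.optionEquivLeft K α
      (MvPolynomial.X none ^ 2 - MvPolynomial.rename some f) = q := by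
    rw [hq, map_sub, map_pow, MvPolynomial.optionEquivLeft_X_none]
    congr 1
    have : ∀ f : MvPolynomial α K, MvPolynomial.optionEquivLeft K α
        (MvPolynomial.rename some f) = Polynomial.C f := by
      intro f
      induction f using MvPolynomial.induction_on with
      | C a => simp [MvPolynomial.optionEquivLeft_C]
      | add p q hp hq => rw [map_add, map_add, hp, hq, map_add]
      | mul_X p i hp =>
        rw [map_mul, map_mul, hp, MvPolynomial.rename_X, MvPolynomial.optionEquivLeft_X_some,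
          map_mul]
    exact this f
  rw [← h6] at h5
  exact (map_dvd_iff (MvPolynomial.optionEquivLeft K α)).1 h5

/-! ### squares -/

theorem cf {F : Type*} [Field F] (a b c d e : F) :
    let q : Polynomial F := .C a + .C b * .X + .C c * .X ^ 2 + .C d * .X ^ 3 + .C e * .X ^ 4
    q.coeff 0 = a ∧ q.coeff 1 = b ∧ q.coeff 2 = c ∧ q.coeff 3 = d ∧ q.coeff 4 = e := by
  intro q
  refine ⟨?_, ?_, ?_, ?_, ?_⟩ <;>
    simp [q, Polynomial.coeff_X, Polynomial.coeff_C, Polynomial.coeff_X_pow]

/-- the discriminant of a square -/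
theorem db_sq {F : Type*} [Field F] {q d : Polynomial F} (hq : q = d * d)
    (h4 : q.natDegree ≤ 4) : Db q = 0 := by
  have h2 : d.natDegree ≤ 2 := by
    by_cases h0 : d = 0
    · rw [h0]; simp
    · have := Polynomial.natDegree_mul h0 h0
      rw [← hq] at this
      omega
  have hd : d = .C (d.coeff 0) + .C (d.coeff 1) * .X + .C (d.coeff 2) * .X ^ 2 := by
    conv_lhs => rw [d.as_sum_range_C_mul_X_pow' (n := 3) (by omega)]
    simp [Finset.sum_range_succ]
  set a := d.coeff 0
  set b := d.coeff 1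
  set c := d.coeff 2
  have e : q = .C (a ^ 2) + .C (2 * a * b) * .X + .C (b ^ 2 + 2 * a * c) * .X ^ 2 +
      .C (2 * b * c) * .X ^ 3 + .C (c ^ 2) * .X ^ 4 := by
    rw [hq, hd]
    simp only [map_add, map_mul, map_pow, map_ofNat]
    ring
  obtain ⟨c0, c1, c2, c3, c4⟩ := cf (a ^ 2) (2 * a * b) (b ^ 2 + 2 * a * c) (2 * b * c) (c ^ 2)
  rw [← e] at c0 c1 c2 c3 c4
  unfold Db dsc Pool.Agent.Y718.X.Ab Pool.Agent.Y718.X.Bb Pool.Agent.Y718.X.Cb
  rw [c0, c1, c2, c3, c4]
  ring

/-- an adapted polynomial is not a square -/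
theorem not_sq {K : Type} [Field K] [CharZero K] {σ₀ : K →+* ℚ_[2]} {n : ℕ}
    {f : MvPolynomial (Fin n) K} (hf : Adapted (f.map σ₀)) (hn : n ≠ 0) {P : (Fin n → K) × K}
    (hP : OnCover f P) : ¬ IsSquare f := by
  let : DecidableEq K := Classical.decEq K
  rintro ⟨d, hd⟩
  have h1 := ((adapted_main σ₀ hf hP).2 ⟨0, by omega⟩).1
  apply h1
  refine db_sq (d := lk d P.1 (Pi.single ⟨0, by omega⟩ 1)) ?_
    ((lk_natDegree f P.1 _).trans (map_degreeOf hf.1 _))
  unfold lk
  rw [← map_mul, ← hd]

/-- **The local Zariski closure.** The points over `K` which lie in a given neighbourhood of a point of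
the closure are Zariski dense. -/
theorem zar {K L : Type} [Field K] [CharZero K] [NontriviallyNormedField L] [CompleteSpace L]
    [CharZero L] (φ : K →+* L) {n : ℕ} {f : MvPolynomial (Fin n) K} (hsq : ¬ IsSquare f)
    (h0 : ∀ P, OnCover f P → P.2 ≠ 0)
    (ho : ∀ P, OnCover f P → ∃ U ∈ nhds (image φ P), ∀ S ∈ U, OnCover (f.map φ) S →
      S ∈ closure (Im f φ))
    {x : (Fin n → L) × L} (hx : x ∈ closure (Im f φ)) {V : Set ((Fin n → L) × L)}
    (hV : V ∈ nhds x) {g : MvPolynomial (Option (Fin n)) K}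
    (hg : ∀ P, OnCover f P → image φ P ∈ V →
      MvPolynomial.eval (fun o => o.elim P.2 P.1) g = 0) :
    (MvPolynomial.X none ^ 2 - MvPolynomial.rename some f) ∣ g := by
  refine dvd_of_norm hsq (P := fun z w => OnCover f (z, w) ∧ image φ (z, w) ∈ interior V)
    (fun z w h => h.1) (fun N hN => ?_) (fun z w h => hg (z, w) h.1 (interior_subset h.2))
  -- a point in the neighbourhood
  obtain ⟨_, hS, P, hP, rfl⟩ := mem_closure_iff_nhds.1 hx _ (interior_mem_nhds.2 hV)
  obtain ⟨U, hU, h1⟩ := ho P hP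
  have h2 : interior U ∩ interior V ∈ nhds (image φ P) :=
    Filter.inter_mem (interior_mem_nhds.2 hU) (isOpen_interior.mem_nhds hS)
  -- the polynomial vanishes near the point
  have hcN : Continuous fun T : (Fin n → L) × L => MvPolynomial.eval T.1 (N.map φ) :=
    (MvPolynomial.continuous_eval _).comp continuous_fst
  have h3 : ∀ S ∈ interior U ∩ interior V, OnCover (f.map φ) S →
      MvPolynomial.eval S.1 (N.map φ) = 0 := by
    intro S hS hon
    have h4 : S ∈ closure (Im f φ) := h1 S (interior_subset hS.1) hon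
    have h5 : S ∈ closure (Im f φ ∩ interior V) :=
      closure_mono (by rw [Set.inter_comm]) (isOpen_interior.inter_closure ⟨hS.2, h4⟩)
    refine closure_minimal ?_ (isClosed_eq hcN continuous_const) h5
    rintro _ ⟨⟨Q, hQ, rfl⟩, hQV⟩
    have h6 := hN Q.1 Q.2 ⟨hQ, hQV⟩
    have h7 := MvPolynomial.map_eval φ Q.1 N
    rw [h6, map_zero] at h7
    exact h7.symm
  have h4 : {z : Fin n → L | MvPolynomial.eval z (N.map φ) = 0} ∈ nhds (image φ P).1 := by
    obtain ⟨A, hA, B, hB, hAB⟩ := mem_nhds_prod_iff.1 h2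
    have hw : (image φ P).2 ≠ 0 := (map_ne_zero φ).2 (h0 P hP)
    have h5 : HasStrictDerivAt (fun w : L => w ^ 2) (2 * (image φ P).2) (image φ P).2 := by
      have := hasStrictDerivAt_pow 2 (image φ P).2
      simpa using this
    have h6 : (fun w : L => w ^ 2) '' B ∈ nhds ((image φ P).2 ^ 2) := by
      rw [← h5.map_nhds_eq (mul_ne_zero two_ne_zero hw)]
      exact Filter.image_mem_map hB
    have hon : OnCover (f.map φ) (image φ P) := onCover_image φ hP
    have h7 : (fun z => MvPolynomial.eval z (f.map φ)) ⁻¹' ((fun w : L => w ^ 2) '' B) ∈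
        nhds (image φ P).1 := by
      refine (MvPolynomial.continuous_eval (f.map φ)).continuousAt.preimage_mem_nhds ?_
      rw [← show (image φ P).2 ^ 2 = MvPolynomial.eval (image φ P).1 (f.map φ) from hon]
      exact h6
    refine Filter.mem_of_superset (Filter.inter_mem hA h7) ?_
    rintro z ⟨hzA, w, hwB, hzw⟩
    exact h3 (z, w) (hAB ⟨hzA, hwB⟩) hzw
  have h5 : N.map φ = 0 := by
    obtain ⟨ε, hε, hb⟩ := Metric.mem_nhds_iff.1 h4
    refine MvPolynomial.funext_set (fun i => Metric.ball ((image φ P).1 i) ε) (fun i => ?_)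
      fun z hz => ?_
    · exact infinite_of_mem_nhds _ (Metric.ball_mem_nhds _ hε)
    · rw [map_zero]
      apply hb
      rw [ball_pi _ hε]
      exact hz
  exact MvPolynomial.map_injective φ φ.injective (by rw [h5, map_zero])

end Pool.Agent.Run7.h587.Ad
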