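import Pool.Agent.Run7.h587.Ad.Lev

/-!
# The moves preserve the residue classes modulo eight
-/

set_option autoImplicit false

open WeierstrassCurve Pool.Agent.Y720.MZ Pool.Agent.Y718.X Filter Topology
open Pool.Agent.Q35.ZC

namespace Pool.Agent.Run7.h587.Ad

section group

variable {a b c : ℚ_[2]}

/-- **A point of the level one and a point of a higher level.** -/
theorem add_far [DecidableEq ℚ_[2]] (ha : ‖a‖ ≤ 1) (hb : ‖b‖ ≤ 1) (hc : ‖c‖ ≤ 1)
    {x₁ y₁ X Y : ℚ_[2]} (h₁ : (cv a b c).toAffine.Nonsingular x₁ y₁)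
    (h : (cv a b c).toAffine.Nonsingular X Y) (hx : ‖x₁‖ = 4) (hX : 16 ≤ ‖X‖) :
    ∃ x₃ y₃ h₃, (.some X Y h : Pt a b c) + .some x₁ y₁ h₁ = .some x₃ y₃ h₃ ∧ ‖x₃‖ = 4 := by
  have q1 := (cv_ns.1 h₁).1
  have qX := (cv_ns.1 h).1
  have v1 : ‖y₁‖ ^ 2 = 64 := by rw [vy ha hb hc (by rw [hx]; norm_num) q1, hx]; norm_num
  have v2 : ‖Y‖ ^ 2 = ‖X‖ ^ 3 := vy ha hb hc (by linarith) qX
  have hX0 : X ≠ 0 := by
    intro h0
    rw [h0, norm_zero] at hX
    norm_num at hX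
  have hXp : 0 < ‖X‖ := norm_pos_iff.2 hX0
  have hne : x₁ ≠ X := by
    intro h0
    rw [← h0, hx] at hX
    norm_num at hX
  have hd : x₁ - X ≠ 0 := sub_ne_zero.2 hne
  have hd' : X - x₁ ≠ 0 := sub_ne_zero.2 hne.symm
  obtain ⟨h₃, e3⟩ := add_mk h₁ h hne (ℓ := (y₁ - Y) / (x₁ - X)) (div_mul_cancel₀ _ hd)
  refine ⟨_, _, h₃, by rw [add_comm]; exact e3, ?_⟩
  set ξ := X⁻¹ with hξ
  have hξn : ‖ξ‖ ≤ 1 / 16 := by
    rw [hξ, norm_inv]
    have := inv_anti₀ (by norm_num) hX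
    linarith
  set A := x₁ + ((b + x₁ ^ 2 + 2 * a * x₁) * ξ + ((c + y₁ ^ 2 - (a + x₁) * x₁ ^ 2) * ξ ^ 2 -
    2 * y₁ * (Y * ξ ^ 2))) with hA
  have h1x : 1 - x₁ * ξ = (X - x₁) / X := by rw [hξ]; field_simp
  have eA : (((y₁ - Y) / (x₁ - X)) ^ 2 - a - x₁ - X) * (1 - x₁ * ξ) ^ 2 = A := by
    rw [hA, h1x, hξ]
    have e' : ((y₁ - Y) / (x₁ - X)) ^ 2 = (Y - y₁) ^ 2 / (X - x₁) ^ 2 := by
      rw [← div_pow, ← neg_sub Y y₁, ← neg_sub X x₁, neg_div_neg_eq]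
    rw [e']
    field_simp
    linear_combination qX
  have hx1ξ : ‖x₁ * ξ‖ ≤ 1 / 4 := by
    rw [norm_mul, hx]; linarith
  have hden : ‖1 - x₁ * ξ‖ = 1 := by
    rw [dn' (by rw [show ‖(1 : ℚ_[2])‖ = 1 by simp]; linarith)]
    simp
  have hξ2 : ‖ξ ^ 2‖ ≤ 1 / 256 := by
    rw [norm_pow]
    have := pow_le_pow_left₀ (norm_nonneg _) hξn 2
    norm_num at this ⊢
    exact this
  -- the small terms
  have t1 : ‖(b + x₁ ^ 2 + 2 * a * x₁) * ξ‖ ≤ 1 := by
    have k1 : ‖b + x₁ ^ 2 + 2 * a * x₁‖ ≤ 16 := by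
      refine an (an (hb.trans (by norm_num)) ?_) ?_
      · rw [norm_pow, hx]; norm_num
      · rw [norm_mul, norm_mul, hx, n2]
        have := norm_nonneg a
        linarith
    exact (mn k1 hξn).trans (by norm_num)
  have t2 : ‖(c + y₁ ^ 2 - (a + x₁) * x₁ ^ 2) * ξ ^ 2‖ ≤ 1 := by
    have k1 : ‖c + y₁ ^ 2 - (a + x₁) * x₁ ^ 2‖ ≤ 64 := by
      refine sn (an (hc.trans (by norm_num)) ?_) ?_
      · rw [norm_pow, v1]
      · rw [norm_mul, norm_pow, hx]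
        have : ‖a + x₁‖ ≤ 4 := an (ha.trans (by norm_num)) hx.le
        nlinarith
    exact (mn k1 hξ2).trans (by norm_num)
  have t3 : ‖2 * y₁ * (Y * ξ ^ 2)‖ ≤ 1 := by
    have k1 : ‖y₁‖ = 8 := by
      have : ‖y₁‖ ^ 2 = 8 ^ 2 := by rw [v1]; norm_num
      exact (sq_eq_sq₀ (norm_nonneg _) (by norm_num)).1 this
    have k2 : ‖Y * ξ ^ 2‖ ^ 2 = ‖X‖⁻¹ := by
      rw [norm_mul, mul_pow, v2, norm_pow, hξ, norm_inv]
      field_simp
    have k3 : ‖Y * ξ ^ 2‖ ≤ 1 / 4 := by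
      have h5 : ‖Y * ξ ^ 2‖ ^ 2 ≤ (1 / 4) ^ 2 := by
        rw [k2]
        have := inv_anti₀ (by norm_num) hX
        norm_num at this ⊢
        linarith
      exact (sq_le_sq₀ (norm_nonneg _) (by norm_num)).1 h5
    rw [norm_mul, norm_mul, n2, k1]
    linarith
  have hAn : ‖A‖ = 4 := by
    rw [hA, dn, hx]
    rw [hx]
    exact (an t1 (sn t2 t3)).trans_lt (by norm_num)
  have := congrArg norm eA
  rw [norm_mul, norm_pow, hden, one_pow, mul_one, hAn] at this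
  exact this

/-- the natural multiples -/
theorem nmul_big [DecidableEq ℚ_[2]] (ha : ‖a‖ ≤ 1) (hb : ‖b‖ ≤ 1) (hc : ‖c‖ ≤ 1) {x y : ℚ_[2]}
    (h : (cv a b c).toAffine.Nonsingular x y) (hx : ‖x‖ = 4) (m : ℕ) :
    m • (.some x y h : Pt a b c) = 0 ∨ ∃ X Y h', m • (.some x y h : Pt a b c) = .some X Y h' ∧
      (‖X‖ = 4 ∨ 16 ≤ ‖X‖) ∧ (m % 2 = 0 → 16 ≤ ‖X‖) := by
  induction m using Nat.strong_induction_on with
  | _ m ih =>
    rcases Nat.eq_zero_or_pos m with rfl | hm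
    · left; rw [zero_smul]
    have hev : m % 2 = 0 → m • (.some x y h : Pt a b c) = 0 ∨ ∃ X Y h',
        m • (.some x y h : Pt a b c) = .some X Y h' ∧ 16 ≤ ‖X‖ := by
      intro h2
      obtain ⟨k, rfl⟩ : ∃ k, m = 2 * k := ⟨m / 2, by omega⟩
      rcases ih k (by omega) with h0 | ⟨X, Y, h', e, hX, -⟩
      · left; rw [mul_smul, h0, smul_zero]
      · right
        have hX1 : 4 ≤ ‖X‖ := by
          rcases hX with h | h <;> linarith
        obtain ⟨x', y', h'', e', hn'⟩ := dbl4 ha hb hc h' (by linarith)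
        refine ⟨x', y', h'', ?_, by rw [hn']; linarith⟩
        rw [mul_smul, e, two_smul, e']
    by_cases h2 : m % 2 = 0
    · rcases hev h2 with h0 | ⟨X, Y, h', e, hX⟩
      · exact Or.inl h0
      · exact Or.inr ⟨X, Y, h', e, Or.inr hX, fun _ => hX⟩
    · obtain ⟨k, rfl⟩ : ∃ k, m = k + 1 := ⟨m - 1, by omega⟩
      right
      have hk : k • (.some x y h : Pt a b c) = 0 ∨ ∃ X Y h',
        k • (.some x y h : Pt a b c) = .some X Y h' ∧ 16 ≤ ‖X‖ := by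
        rcases ih k (by omega) with h0 | ⟨X, Y, h', e, -, hX⟩
        · exact Or.inl h0
        · exact Or.inr ⟨X, Y, h', e, hX (by omega)⟩
      rcases hk with h0 | ⟨X, Y, h', e, hX⟩
      · exact ⟨x, y, h, by rw [add_smul, h0, zero_add, one_smul], Or.inl hx, fun h3 => by omega⟩
      · obtain ⟨x₃, y₃, h₃, e3, g1⟩ := add_far ha hb hc h h' hx hX
        exact ⟨x₃, y₃, h₃, by rw [add_smul, e, one_smul, e3], Or.inl g1, fun h3 => by omega⟩

theorem zmul_big [DecidableEq ℚ_[2]] (ha : ‖a‖ ≤ 1) (hb : ‖b‖ ≤ 1) (hc : ‖c‖ ≤ 1) {x y : ℚ_[2]}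
    (h : (cv a b c).toAffine.Nonsingular x y) (hx : ‖x‖ = 4) (m : ℤ) {X Y : ℚ_[2]}
    {h' : (cv a b c).toAffine.Nonsingular X Y}
    (e : m • (.some x y h : Pt a b c) = .some X Y h') : ‖X‖ = 4 ∨ 16 ≤ ‖X‖ := by
  obtain ⟨k, rfl | rfl⟩ := m.eq_nat_or_neg
  · rw [natCast_zsmul] at e
    rcases nmul_big ha hb hc h hx k with h0 | ⟨X', Y', h'', e', hX, -⟩
    · rw [h0] at e
      exact absurd e (by rintro ⟨⟩)
    · rw [e', Affine.Point.some.injEq] at e
      rw [← e.1]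
      exact hX
  · rw [neg_smul, natCast_zsmul] at e
    rcases nmul_big ha hb hc h hx k with h0 | ⟨X', Y', h'', e', hX, -⟩
    · rw [h0, neg_zero] at e
      exact absurd e (by rintro ⟨⟩)
    · obtain ⟨hn, en⟩ := neg_mk h''
      rw [e', en, Affine.Point.some.injEq] at e
      rw [← e.1]
      exact hX

end group

section move

theorem pt_mul1 {K L : Type*} [Field K] [Field L] [DecidableEq K] [DecidableEq L] [Algebra K L]
    {W' : WeierstrassCurve K} {x y : K}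
    {W₁ : WeierstrassCurve K} (hW₁ : W₁ = W'.baseChange K) (h : W₁.toAffine.Nonsingular x y)
    {W₂ : WeierstrassCurve L} (hW₂ : W₂ = W'.baseChange L)
    (h₂ : W₂.toAffine.Nonsingular (algebraMap K L x) (algebraMap K L y)) (m : ℤ) {X Y : K}
    {h' : W₁.toAffine.Nonsingular X Y}
    (e : m • (.some _ _ h : W₁.toAffine.Point) = .some X Y h') :
    ∃ h'' : W₂.toAffine.Nonsingular (algebraMap K L X) (algebraMap K L Y),
      m • (.some _ _ h₂ : W₂.toAffine.Point) = .some _ _ h'' := by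
  subst hW₁ hW₂
  have h1 : Affine.Point.map (W' := W') (F := K) (K := L) (Algebra.ofId K L)
      (m • (.some _ _ h : (W'.baseChange K).toAffine.Point)) =
      m • (.some _ _ h₂ : (W'.baseChange L).toAffine.Point) := by
    rw [map_zsmul]
    rfl
  rw [e] at h1
  exact ⟨_, h1.symm⟩

variable {K : Type*} [Field K] [CharZero K]

/-- **The moves are small.** -/
theorem move_small (σ : K →+* ℚ_[2]) {θ : K × (Fin 4 → K)} (hw : ‖σ θ.1‖ = 1)
    (h0 : ‖σ (θ.2 0)‖ = 1) (hq : ∀ j, ‖σ (θ.2 j)‖ ≤ 1) {u Z : K} (hM : MulPt θ u Z) :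
    ‖σ u‖ ≤ 1 / 8 := by
  let : DecidableEq K := Classical.decEq K
  let : DecidableEq ℚ_[2] := Classical.decEq _
  obtain ⟨hw0, hns, -, m, X, W, h', k1, hDf, hu, -⟩ := hM
  set w : ℚ_[2] := σ θ.1 with hwd
  set q : Fin 4 → ℚ_[2] := fun j => σ (θ.2 j) with hqd
  have hq' : ∀ j, ‖q j‖ ≤ 1 := hq
  have hXn : ‖xs w (q 0) (q 1)‖ = 4 := tX_norm hw h0 hq'
  have eA : tA (w, q) = σ (tA θ) := rfl
  have eB : tB (w, q) = σ (tB θ) := by
    simp only [tB, rb, map_sub, map_mul, map_pow, map_ofNat, hwd, hqd]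
  have eC : tC (w, q) = σ (tC θ) := by
    simp only [tC, rc, map_sub, map_add, map_mul, map_pow, map_ofNat, hwd, hqd]
  have eX : tX (w, q) = σ (tX θ) := by
    simp only [tX, xs, map_sub, map_div₀, map_mul, map_pow, map_ofNat, hwd, hqd]
  have n1 : ‖w ^ 2‖ = 1 := by rw [norm_pow, hw, one_pow]
  have ha : ‖σ (tA θ)‖ ≤ 1 := by rw [← eA]; exact hq' 1
  have hb : ‖σ (tB θ)‖ ≤ 1 := by
    rw [← eB]
    change ‖q 0 * q 2 - 4 * w ^ 2 * q 3‖ ≤ 1
    refine sn ((mn (hq' 0) (hq' 2)).trans (by norm_num)) ?_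
    rw [norm_mul, norm_mul, n1, n4]
    have := hq' 3
    linarith
  have hc : ‖σ (tC θ)‖ ≤ 1 := by
    rw [← eC]
    change ‖q 0 ^ 2 * q 3 + w ^ 2 * q 2 ^ 2 - 4 * w ^ 2 * q 1 * q 3‖ ≤ 1
    have k : ∀ j, ‖q j ^ 2‖ ≤ 1 := fun j => by
      rw [norm_pow]; exact pow_le_one₀ (norm_nonneg _) (hq' j)
    refine sn (an ((mn (k 0) (hq' 3)).trans (by norm_num)) ((mn n1.le (k 2)).trans (by norm_num))) ?_
    refine (mn (mn (mn n4.le n1.le) (hq' 1)) (hq' 3)).trans (by norm_num)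
  -- the multiple over `ℚ₂`
  have hXX : ‖σ X‖ = 4 ∨ 16 ≤ ‖σ X‖ := by
    let := σ.toAlgebra
    have h₂ : (cv (σ (tA θ)) (σ (tB θ)) (σ (tC θ))).toAffine.Nonsingular (σ (tX θ)) (σ (tY θ)) := by
      obtain ⟨g1, g2⟩ := cv_ns.1 hns
      refine cv_ns.2 ⟨?_, ?_⟩
      · have := congrArg σ g1
        simpa only [map_add, map_mul, map_pow] using this
      · rcases g2 with g | g
        · left
          have := (map_ne_zero σ).2 g
          simpa only [map_add, map_mul, map_pow, map_ofNat] using this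
        · right
          have := (map_ne_zero σ).2 g
          simpa only [map_add, map_mul, map_pow, map_ofNat] using this
    obtain ⟨h'', e2⟩ := pt_mul1 (L := ℚ_[2]) (W' := cv (tA θ) (tB θ) (tC θ))
      (W₁ := cv (tA θ) (tB θ) (tC θ))
      (WeierstrassCurve.map_id _).symm hns (W₂ := cv (σ (tA θ)) (σ (tB θ)) (σ (tC θ)))
      (by simp [cv, WeierstrassCurve.map, WeierstrassCurve.baseChange]; exact ⟨rfl, rfl, rfl⟩)
      h₂ m k1
    exact zmul_big ha hb hc h₂ (by rw [← eX]; exact hXn) m e2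
  -- the quadratic equation of the parameter
  have heq := (cv_ns.1 h').1
  set A : K := X ^ 2 - 4 * θ.1 ^ 2 * θ.2 3 with hA
  set B : K := θ.2 0 * X + 2 * θ.1 ^ 2 * θ.2 2 with hB
  set D : K := Df θ.1 (θ.2 0) (θ.2 2) X W with hD
  set N : K := Nf θ.1 (θ.2 0) (θ.2 1) X with hN
  have e1 : u * D = N := by
    rw [hu, tf, ← hD, ← hN, div_mul_cancel₀ _ hDf]
  have e2 : N * A = D * (D + 2 * B) := by
    rw [hN, hA, hD, hB]
    unfold Nf Df
    have heq' : W ^ 2 = X ^ 3 + θ.2 1 * X ^ 2 + (θ.2 0 * θ.2 2 - 4 * θ.1 ^ 2 * θ.2 3) * X +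
      (θ.2 0 ^ 2 * θ.2 3 + θ.1 ^ 2 * θ.2 2 ^ 2 - 4 * θ.1 ^ 2 * θ.2 1 * θ.2 3) := heq
    linear_combination (-4 * θ.1 ^ 2) * heq'
  have e3 : u * A = D + 2 * B := by
    apply mul_left_cancel₀ hDf
    linear_combination e2 + A * e1
  have e4 : u ^ 2 * A = N + 2 * B * u := by linear_combination u * e3 + e1
  have e5 := congrArg σ e4
  simp only [map_add, map_mul, map_pow, map_ofNat] at e5
  set x := σ X with hx
  set t := σ u with ht
  have hx4 : 4 ≤ ‖x‖ := by rcases hXX with h | h <;> linarith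
  have hAn : ‖σ A‖ = ‖x‖ ^ 2 := by
    have e : σ A = x ^ 2 - 4 * w ^ 2 * q 3 := by
      rw [hA]
      simp only [map_sub, map_mul, map_pow, map_ofNat, hwd, hqd, hx]
    rw [e, dn', norm_pow]
    rw [norm_mul, norm_mul, n1, n4, norm_pow]
    have := hq' 3
    nlinarith
  have hBn : ‖σ B‖ ≤ ‖x‖ := by
    have e : σ B = q 0 * x + 2 * w ^ 2 * q 2 := by
      rw [hB]
      simp only [map_add, map_mul, map_pow, map_ofNat, hwd, hqd, hx]
    rw [e]
    refine an ?_ ?_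
    · rw [norm_mul, show ‖q 0‖ = 1 from h0, one_mul]
    · rw [norm_mul, norm_mul, n1, n2]
      have := hq' 2
      linarith
  have hNe : σ N = 4 * w ^ 2 * (x - xs w (q 0) (q 1)) := by
    have hw' : w ≠ 0 := by
      intro h
      rw [h, norm_zero] at hw
      exact zero_ne_one hw
    rw [hN]
    unfold Nf xs
    simp only [map_sub, map_add, map_mul, map_pow, map_ofNat]
    rw [← hwd, ← hx]
    change 4 * w ^ 2 * (x + q 1) - q 0 ^ 2 = _
    field_simp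
    ring
  have hNn : ‖σ N‖ * 64 ≤ ‖x‖ ^ 2 * 2 := by
    rw [hNe, norm_mul, norm_mul, n1, n4]
    rcases hXX with h | h
    · have := close_half (u := x) (v := xs w (q 0) (q 1)) (by rw [h, hXn])
      rw [hXn] at this
      rw [h]
      linarith
    · have h3 : ‖x - xs w (q 0) (q 1)‖ ≤ ‖x‖ := sn le_rfl (by rw [hXn]; exact hx4)
      nlinarith
  have hkey : ‖x‖ ^ 2 * ‖t‖ ^ 2 ≤ max ‖σ N‖ (‖x‖ / 2 * ‖t‖) := by
    have h3 := congrArg norm e5
    rw [norm_mul, norm_pow, hAn, mul_comm] at h3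
    rw [h3]
    refine (Padic.nonarchimedean _ _).trans (max_le_max le_rfl ?_)
    rw [norm_mul, norm_mul, n2]
    have := norm_nonneg t
    nlinarith
  have hlt : ‖t‖ < 1 / 4 := by
    have ht0 := norm_nonneg t
    rcases le_max_iff.1 hkey with h | h
    · have h5 : ‖x‖ ^ 2 * (‖t‖ ^ 2 * 64) ≤ ‖x‖ ^ 2 * 2 := by linarith
      have h6 : ‖t‖ ^ 2 * 64 ≤ 2 := le_of_mul_le_mul_left h5 (by positivity)
      nlinarith
    · by_contra hcon
      push Not at hcon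
      have h5 : ‖x‖ * ‖t‖ * (‖x‖ * ‖t‖) ≤ ‖x‖ * ‖t‖ * (1 / 2) := by nlinarith
      have h6 : 0 < ‖x‖ * ‖t‖ := by positivity
      have h7 := le_of_mul_le_mul_left h5 h6
      nlinarith
  have h4 := (Padic.norm_le_pow_iff_norm_lt_pow_add_one t (-3)).2 (by
    norm_num at hlt ⊢
    exact hlt)
  norm_num at h4 ⊢
  exact h4

end move

end Pool.Agent.Run7.h587.Ad
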