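import Pool.Agent.Run7.h587.Ad.Orb

/-!
# Conic bundles: the closure of the rational points
-/

set_option autoImplicit false

open Pool.Agent.Y720.MZ Pool.Agent.Y718.X Filter Topology
open Pool.Agent.Q35.ZC (OnCover image dist_image)

namespace Pool.Agent.Run7.h587.Ad

section defs

variable {F : Type*} [Field F] {n : ℕ}

/-- the polynomial `A t² + B t + G` in the other variables, for a fixed `t` -/
noncomputable def slice (A B G : MvPolynomial (Fin n) F) (t : F) : MvPolynomial (Fin n) F :=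
  A * MvPolynomial.C (t ^ 2) + B * MvPolynomial.C t + G

theorem slice_eval (A B G : MvPolynomial (Fin n) F) (t : F) (z : Fin n → F) :
    MvPolynomial.eval z (slice A B G t) =
      MvPolynomial.eval z A * t ^ 2 + MvPolynomial.eval z B * t + MvPolynomial.eval z G := by
  simp [slice]

theorem slice_map {L : Type*} [Field L] (σ : F →+* L) (A B G : MvPolynomial (Fin n) F) (t : F) :
    (slice A B G t).map σ = slice (A.map σ) (B.map σ) (G.map σ) (σ t) := by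
  simp [slice]

theorem slice_deg {A B G : MvPolynomial (Fin n) F} {i : Fin n} (hA : A.degreeOf i ≤ 4)
    (hB : B.degreeOf i ≤ 4) (hG : G.degreeOf i ≤ 4) (t : F) : (slice A B G t).degreeOf i ≤ 4 := by
  unfold slice
  refine (MvPolynomial.degreeOf_add_le _ _ _).trans (max_le ?_ hG)
  refine (MvPolynomial.degreeOf_add_le _ _ _).trans (max_le ?_ ?_)
  · refine (MvPolynomial.degreeOf_mul_le _ _ _).trans ?_
    rw [MvPolynomial.degreeOf_C, add_zero]
    exact hA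
  · refine (MvPolynomial.degreeOf_mul_le _ _ _).trans ?_
    rw [MvPolynomial.degreeOf_C, add_zero]
    exact hB

end defs

/-- the conic bundle is adapted -/
def AdB {n : ℕ} (A B G : MvPolynomial (Fin n) ℚ_[2]) : Prop :=
  (∀ i, A.degreeOf i ≤ 4 ∧ B.degreeOf i ≤ 4 ∧ G.degreeOf i ≤ 4) ∧
  (∀ m, ‖A.coeff m‖ ≤ 1 ∧ ‖B.coeff m‖ ≤ 1 ∧ ‖G.coeff m‖ ≤ 1) ∧
  ∀ (z : Fin n → ℚ_[2]) (t w : ℚ_[2]), w ^ 2 = MvPolynomial.eval z (slice A B G t) →
    ‖t‖ ≤ 1 ∧ ‖w‖ = 1 ∧ ∀ i, ‖z i‖ ≤ 1 ∧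
      ‖MvPolynomial.eval z (MvPolynomial.pderiv i (slice A B G t))‖ = 1 ∧
      Db (lr (slice A B G t) z i) ≠ 0

theorem slice_adapted {n : ℕ} {A B G : MvPolynomial (Fin n) ℚ_[2]} (h : AdB A B G) {t : ℚ_[2]}
    (ht : ‖t‖ ≤ 1) : Adapted (slice A B G t) ∧ Unit2 (slice A B G t) := by
  refine ⟨⟨fun i => slice_deg (h.1 i).1 (h.1 i).2.1 (h.1 i).2.2 t, fun m => ?_, fun z w hw => ?_⟩,
    fun z w hw => ?_⟩
  · unfold slice
    rw [MvPolynomial.coeff_add, MvPolynomial.coeff_add, mul_comm A, mul_comm B,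
      MvPolynomial.coeff_C_mul, MvPolynomial.coeff_C_mul]
    have ht2 : ‖t ^ 2‖ ≤ 1 := by rw [norm_pow]; exact pow_le_one₀ (norm_nonneg _) ht
    exact an (an ((mn ht2 (h.2.1 m).1).trans (by norm_num))
      ((mn ht (h.2.1 m).2.1).trans (by norm_num))) (h.2.1 m).2.2
  · obtain ⟨-, h2, h3⟩ := h.2.2 z t w hw
    refine ⟨?_, fun i => ⟨(h3 i).1, ?_, (h3 i).2.2⟩⟩
    · rintro rfl
      rw [norm_zero] at h2
      exact zero_ne_one h2
    · rw [(h3 i).2.1, norm_mul, n2, h2]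
      norm_num
  · obtain ⟨-, h2, h3⟩ := h.2.2 z t w hw
    exact ⟨h2, fun i => (h3 i).2.1⟩

/-! ### conics -/

/-- A conic with points of a bounded coordinate. -/
theorem no_slope {α β γ t₀ w₀ l : ℚ_[2]} (hon : w₀ ^ 2 = α * t₀ ^ 2 + β * t₀ + γ)
    (hb : ∀ t w : ℚ_[2], w ^ 2 = α * t ^ 2 + β * t + γ → ‖t‖ ≤ 1) (hl : l ^ 2 = α)
    (hβ : 2 * α * t₀ + β = 2 * w₀ * l) : False := by
  by_cases h0 : l = 0
  · have hα : α = 0 := by rw [← hl, h0]; norm_num
    have hβ0 : β = 0 := by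
      rw [hα, h0] at hβ
      linear_combination hβ
    have h1 := hb (1 / 2) w₀ (by rw [hon, hα, hβ0]; ring)
    rw [norm_div, n2] at h1
    norm_num at h1
  · -- the point at a large parameter
    have hα0 : α ≠ 0 := by rw [← hl]; exact pow_ne_zero 2 h0
    -- the conic is `w = ± l (t - t₀) ± w₀`
    have h1 := hb (t₀ + 1 / 2) (w₀ + l / 2) (by
      rw [add_pow_two, hon, ← hl]
      have e : β = 2 * w₀ * l - 2 * l ^ 2 * t₀ := by rw [← hl] at hβ; linear_combination hβ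
      rw [e]
      ring)
    have h2 := hb t₀ w₀ hon
    have h3 : ‖(1 / 2 : ℚ_[2])‖ ≤ 1 := by
      have e : (1 / 2 : ℚ_[2]) = (t₀ + 1 / 2) - t₀ := by ring
      rw [e]
      exact sn h1 h2
    rw [norm_div, n2] at h3
    norm_num at h3

theorem conic_move {K : Type} [Field K] [CharZero K] (σ : K →+* ℚ_[2]) {α β γ t₀ w₀ : K}
    (hon : w₀ ^ 2 = α * t₀ ^ 2 + β * t₀ + γ)
    (hb : ∀ t w : ℚ_[2], w ^ 2 = σ α * t ^ 2 + σ β * t + σ γ → ‖t‖ ≤ 1)
    {t v : ℚ_[2]} (hv : v ^ 2 = σ α * t ^ 2 + σ β * t + σ γ) {η : ℝ} (hη : 0 < η) :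
    ∃ t₁ w₁ : K, w₁ ^ 2 = α * t₁ ^ 2 + β * t₁ + γ ∧ ‖σ t₁ - t‖ < η := by
  by_cases h0 : t = σ t₀
  · exact ⟨t₀, w₀, hon, by rw [h0, sub_self, norm_zero]; exact hη⟩
  have hd : t - σ t₀ ≠ 0 := sub_ne_zero.2 h0
  have hon' : σ w₀ ^ 2 = σ α * σ t₀ ^ 2 + σ β * σ t₀ + σ γ := by
    rw [← map_pow, hon]
    simp only [map_add, map_mul, map_pow]
  set l : ℚ_[2] := (v - σ w₀) / (t - σ t₀) with hl
  have hl' : l * (t - σ t₀) = v - σ w₀ := by rw [hl, div_mul_cancel₀ _ hd]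
  -- the equation of the slope
  have h1 : (l ^ 2 - σ α) * (t - σ t₀) = 2 * σ α * σ t₀ + σ β - 2 * σ w₀ * l := by
    apply mul_left_cancel₀ hd
    have e : v = l * (t - σ t₀) + σ w₀ := by linear_combination -hl'
    rw [e] at hv
    linear_combination hv - hon'
  have hne : l ^ 2 - σ α ≠ 0 := by
    intro h2
    rw [h2, zero_mul] at h1
    refine no_slope hon' hb (sub_eq_zero.1 h2) ?_
    linear_combination -h1
  -- continuity
  set g : ℚ_[2] → ℚ_[2] := fun s => (2 * σ α * σ t₀ + σ β - 2 * σ w₀ * s) / (s ^ 2 - σ α) with hg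
  have hgc : ContinuousAt g l := by
    have t1 : ContinuousAt (fun s : ℚ_[2] => 2 * σ α * σ t₀ + σ β - 2 * σ w₀ * s) l := by fun_prop
    have t2 : ContinuousAt (fun s : ℚ_[2] => s ^ 2 - σ α) l := by fun_prop
    exact t1.div t2 hne
  have hgl : g l = t - σ t₀ := by
    rw [hg]
    simp only
    rw [← h1, mul_div_cancel_left₀ _ hne]
  have ev1 : ∀ᶠ s in 𝓝 l, ‖g s - (t - σ t₀)‖ < η := by
    have := (hgc.tendsto.sub_const (t - σ t₀)).norm
    rw [hgl, sub_self, norm_zero] at this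
    exact this.eventually_lt_const hη
  have ev2 : ∀ᶠ s in 𝓝 l, s ^ 2 - σ α ≠ 0 := by
    have t2 : ContinuousAt (fun s : ℚ_[2] => s ^ 2 - σ α) l := by fun_prop
    exact t2.eventually_ne hne
  obtain ⟨δ, hδ, hball⟩ := Metric.eventually_nhds_iff_ball.1 (ev1.and ev2)
  obtain ⟨r, hr⟩ := Padic.rat_dense 2 l hδ
  obtain ⟨g1, g2⟩ := hball (r : ℚ_[2]) (by
    rw [Metric.mem_ball, dist_comm, dist_eq_norm]
    exact hr)
  have hσr : σ (r : K) = (r : ℚ_[2]) := map_ratCast σ r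
  have hK : (r : K) ^ 2 - α ≠ 0 := by
    intro h3
    apply g2
    rw [← hσr, ← map_pow, ← map_sub, h3, map_zero]
  set s : K := (2 * α * t₀ + β - 2 * w₀ * r) / ((r : K) ^ 2 - α) with hs
  have hs' : s * ((r : K) ^ 2 - α) = 2 * α * t₀ + β - 2 * w₀ * r := by
    rw [hs, div_mul_cancel₀ _ hK]
  refine ⟨t₀ + s, w₀ + r * s, ?_, ?_⟩
  · linear_combination hon + s * hs'
  · have e1 : σ s = g r := by
      rw [hs, hg]
      simp only [map_div₀, map_sub, map_add, map_mul, map_pow, map_ofNat, hσr]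
    have e2 : σ (t₀ + s) - t = g r - (t - σ t₀) := by
      rw [map_add, e1]
      ring
    rw [e2]
    exact g1

/-! ### the closure -/

section level

variable {K : Type} [Field K] [CharZero K] {n : ℕ} {A B G : MvPolynomial (Fin n) K}
  {σ : K →+* ℚ_[2]}

theorem level_b (hn : n ≠ 0) (h : AdB (A.map σ) (B.map σ) (G.map σ)) {z : Fin n → K} {t₀ w₀ : K}
    (hP : w₀ ^ 2 = MvPolynomial.eval z (slice A B G t₀)) {z' : Fin n → ℚ_[2]} {t w : ℚ_[2]}
    (hS : w ^ 2 = MvPolynomial.eval z' (slice (A.map σ) (B.map σ) (G.map σ) t))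
    (hz : ∀ i, ‖z' i - σ (z i)‖ ≤ 1 / 8) {η : ℝ} (hη : 0 < η) :
    ∃ (x : Fin n → K) (t₁ w₁ : K), w₁ ^ 2 = MvPolynomial.eval x (slice A B G t₁) ∧
      (∀ i, ‖σ (x i) - z' i‖ < η) ∧ ‖σ t₁ - t‖ < η ∧ ‖σ w₁ - w‖ < η := by
  have hev : ∀ (H : MvPolynomial (Fin n) K), MvPolynomial.eval (fun i => σ (z i)) (H.map σ) =
      σ (MvPolynomial.eval z H) := fun H => (MvPolynomial.map_eval σ z H).symm
  obtain ⟨ht, hw, h3⟩ := h.2.2 z' t w hS
  have hPσ : σ w₀ ^ 2 = MvPolynomial.eval (fun i => σ (z i))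
      (slice (A.map σ) (B.map σ) (G.map σ) (σ t₀)) := by
    rw [← slice_map, hev, ← map_pow, hP]
  obtain ⟨-, -, h4⟩ := h.2.2 _ _ _ hPσ
  obtain ⟨hf, hu⟩ := slice_adapted h ht
  -- the value over `z` is a square
  have hw0 : w ≠ 0 := by
    intro h0
    rw [h0, norm_zero] at hw
    exact zero_ne_one hw
  obtain ⟨v, hv, -⟩ := near_square hf hu (S := (z', w)) hS (x := fun i => σ (z i))
    (fun i => by rw [norm_sub_rev]; exact hz i)
  rw [slice_eval, hev, hev, hev] at hv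
  -- the point over `z'` is corrected
  obtain ⟨δ, hδ, hsq⟩ := exists_sqrt hw0 (show 0 < η by exact hη)
  have hcont : ∀ᶠ s in 𝓝 t, ‖MvPolynomial.eval z' (slice (A.map σ) (B.map σ) (G.map σ) s) -
      w ^ 2‖ < δ := by
    have hc : Continuous fun s : ℚ_[2] =>
        MvPolynomial.eval z' (slice (A.map σ) (B.map σ) (G.map σ) s) := by
      simp only [slice_eval]
      fun_prop
    have := ((hc.tendsto t).sub_const (w ^ 2)).norm
    rw [← hS, sub_self, norm_zero] at this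
    exact this.eventually_lt_const hδ
  obtain ⟨ρ, hρ, hball⟩ := Metric.eventually_nhds_iff_ball.1 hcont
  rw [slice_eval] at hP
  obtain ⟨t₁, w₁, g1, g2⟩ := conic_move σ hP (fun s v hv => (h.2.2 (fun i => σ (z i)) s v (by
    rw [slice_eval, hev, hev, hev]; exact hv)).1) hv (lt_min hη hρ)
  obtain ⟨w', k1, k2⟩ := hsq _ (hball (σ t₁) (by
    rw [Metric.mem_ball, dist_eq_norm]
    exact g2.trans_le (min_le_right _ _)))
  rw [← slice_eval] at g1
  have g1' : σ w₁ ^ 2 = MvPolynomial.eval (fun i => σ (z i))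
      (slice (A.map σ) (B.map σ) (G.map σ) (σ t₁)) := by
    rw [← slice_map, hev, ← map_pow, g1]
  obtain ⟨ht1, -, -⟩ := h.2.2 _ _ _ g1'
  obtain ⟨hf1, hu1⟩ := slice_adapted h ht1
  rw [← slice_map] at hf1 hu1
  have hcl := level hn hf1 hu1 (all_cm (map_degreeOf hf1.1)) (P := (z, w₁)) g1 (S := (z', w'))
    (by
      change w' ^ 2 = _
      rw [slice_map]
      exact k2) hz
  obtain ⟨_, ⟨Q, hQ, rfl⟩, hQ2⟩ := Metric.mem_closure_iff.1 hcl (min η (η / 2))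
    (lt_min hη (half_pos hη))
  obtain ⟨m1, m2⟩ := (dist_image σ Q (z', w') (lt_min hη (half_pos hη))).1 hQ2
  exact ⟨Q.1, t₁, Q.2, hQ, fun i => (m1 i).trans_le (min_le_left _ _), g2.trans_le (min_le_left _ _), by
    have e : σ Q.2 - w = (σ Q.2 - w') + (w' - w) := by ring
    rw [e]
    refine (Padic.nonarchimedean _ _).trans_lt (max_lt (m2.trans_le (min_le_left _ _)) k1)⟩

end level

end Pool.Agent.Run7.h587.Ad
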