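import Pool.Agent.Run7.h587.Ad.Cb

/-!
# Conic bundles: a residue class modulo four
-/

set_option autoImplicit false

open Pool.Agent.Y720.MZ Pool.Agent.Y718.X Filter Topology
open Pool.Agent.Q35.ZC (OnCover image dist_image)

namespace Pool.Agent.Run7.h587.Ad

variable {n : ℕ}

/-! ### the polynomials -/

/-- the leading coefficient -/
noncomputable def cA (R : Type*) [CommRing R] (a : MvPolynomial (Fin n) ℤ) :
    MvPolynomial (Fin n) R :=
  3 * ∏ i, (MvPolynomial.X i ^ 2 + MvPolynomial.X i + 1) ^ 2 + 4 * a.map (Int.castRingHom R)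

/-- the second coefficient -/
noncomputable def cB (R : Type*) [CommRing R] (b : MvPolynomial (Fin n) ℤ) :
    MvPolynomial (Fin n) R :=
  ∑ i, (MvPolynomial.X i ^ 2 + MvPolynomial.X i) + 2 + 4 * b.map (Int.castRingHom R)

theorem cA_map {R S : Type*} [CommRing R] [CommRing S] (φ : R →+* S)
    (a : MvPolynomial (Fin n) ℤ) : (cA R a).map φ = cA S a := by
  unfold cA
  rw [map_add, map_mul, map_mul, map_ofNat, map_ofNat, MvPolynomial.map_map]
  congr 2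
  · simp
  · congr 2
    exact Subsingleton.elim _ _

theorem cB_map {R S : Type*} [CommRing R] [CommRing S] (φ : R →+* S)
    (b : MvPolynomial (Fin n) ℤ) : (cB R b).map φ = cB S b := by
  unfold cB
  rw [map_add, map_add, map_mul, map_ofNat, map_ofNat, MvPolynomial.map_map]
  congr 2
  · simp
  · congr 2
    exact Subsingleton.elim _ _

theorem four_deg {R : Type*} [CommRing R] {a : MvPolynomial (Fin n) ℤ}
    (ha : ∀ i, a.degreeOf i ≤ 4) (i : Fin n) :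
    (4 * a.map (Int.castRingHom R) : MvPolynomial (Fin n) R).degreeOf i ≤ 4 := by
  refine (MvPolynomial.degreeOf_mul_le _ _ _).trans ?_
  have : (4 : MvPolynomial (Fin n) R) = MvPolynomial.C 4 := (map_ofNat _ 4).symm
  rw [this, MvPolynomial.degreeOf_C, zero_add]
  refine le_trans ?_ (ha i)
  rw [MvPolynomial.degreeOf_eq_sup, MvPolynomial.degreeOf_eq_sup]
  exact Finset.sup_mono (MvPolynomial.support_map_subset _ _)

theorem cA_deg {R : Type*} [CommRing R] {a : MvPolynomial (Fin n) ℤ}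
    (ha : ∀ i, a.degreeOf i ≤ 4) (i : Fin n) : (cA R a).degreeOf i ≤ 4 := by
  classical
  unfold cA
  refine (MvPolynomial.degreeOf_add_le _ _ _).trans (max_le ?_ (four_deg ha i))
  refine (MvPolynomial.degreeOf_mul_le _ _ _).trans ?_
  have h3 : (3 : MvPolynomial (Fin n) R).degreeOf i = 0 := by
    have : (3 : MvPolynomial (Fin n) R) = MvPolynomial.C 3 := (map_ofNat _ 3).symm
    rw [this, MvPolynomial.degreeOf_C]
  rw [h3, zero_add]
  refine (MvPolynomial.degreeOf_prod_le _ _ _).trans ?_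
  have : ∀ l ∈ (Finset.univ : Finset (Fin n)),
      ((MvPolynomial.X l ^ 2 + MvPolynomial.X l + 1) ^ 2 :
        MvPolynomial (Fin n) R).degreeOf i ≤ if l = i then 4 else 0 := by
    intro l _
    refine (MvPolynomial.degreeOf_pow_le _ _ _).trans ?_
    have h1 : (MvPolynomial.X l ^ 2 + MvPolynomial.X l + 1 :
        MvPolynomial (Fin n) R).degreeOf i ≤ if l = i then 2 else 0 := by
      refine (MvPolynomial.degreeOf_add_le _ _ _).trans (max_le (degreeOf_q l i) ?_)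
      rw [MvPolynomial.degreeOf_one]
      exact Nat.zero_le _
    by_cases h : l = i
    · rw [if_pos h] at h1 ⊢
      omega
    · rw [if_neg h] at h1 ⊢
      omega
  refine (Finset.sum_le_sum this).trans ?_
  rw [Finset.sum_ite_eq' Finset.univ i, if_pos (Finset.mem_univ _)]

theorem cB_deg {R : Type*} [CommRing R] {b : MvPolynomial (Fin n) ℤ}
    (hb : ∀ i, b.degreeOf i ≤ 4) (i : Fin n) : (cB R b).degreeOf i ≤ 4 := by
  classical
  unfold cB
  refine (MvPolynomial.degreeOf_add_le _ _ _).trans (max_le ?_ (four_deg hb i))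
  refine (MvPolynomial.degreeOf_add_le _ _ _).trans (max_le ?_ ?_)
  · refine (MvPolynomial.degreeOf_sum_le _ _ _).trans ?_
    refine Finset.sup_le fun l _ => (degreeOf_q l i).trans ?_
    split_ifs <;> norm_num
  · have : (2 : MvPolynomial (Fin n) R) = MvPolynomial.C 2 := (map_ofNat _ 2).symm
    rw [this, MvPolynomial.degreeOf_C]
    exact Nat.zero_le _

/-! ### homogeneous coordinates -/

theorem hom_data (z : Fin n → ℚ_[2]) : ∃ x y : Fin n → ℤ_[2],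
    (∀ i, z i * (y i : ℚ_[2]) = x i) ∧
    ∀ i, (‖z i‖ ≤ 1 ∧ y i = 1) ∨ (1 < ‖z i‖ ∧ x i = 1 ∧ ‖y i‖ < 1) := by
  have hu : ∀ i, ∃ x y : ℤ_[2], z i * (y : ℚ_[2]) = x ∧
      ((‖z i‖ ≤ 1 ∧ y = 1) ∨ (1 < ‖z i‖ ∧ x = 1 ∧ ‖y‖ < 1)) := by
    intro i
    by_cases h : ‖z i‖ ≤ 1
    · exact ⟨⟨z i, h⟩, 1, by simp, Or.inl ⟨h, rfl⟩⟩
    · push Not at h
      have h0 : z i ≠ 0 := by
        intro h0
        rw [h0, norm_zero] at h
        linarith
      have h1 : ‖(z i)⁻¹‖ < 1 := by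
        rw [norm_inv]
        exact inv_lt_one_of_one_lt₀ h
      exact ⟨1, ⟨(z i)⁻¹, h1.le⟩, by simp [mul_inv_cancel₀ h0], Or.inr ⟨h, rfl, h1⟩⟩
  choose x y h1 h2 using hu
  exact ⟨x, y, h1, h2⟩

/-- the numerator of the product -/
noncomputable def hB (x y : Fin n → ℤ_[2]) : ℤ_[2] := ∏ i, (x i ^ 2 + x i * y i + y i ^ 2) ^ 2

/-- the numerator of the sum -/
noncomputable def hJ (x y : Fin n → ℤ_[2]) : ℤ_[2] :=
  (∏ l, y l) ^ 2 * (∑ i, (x i ^ 2 + x i * y i) * ∏ l ∈ Finset.univ.erase i, y l ^ 2 +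
    2 * ∏ l, y l ^ 2)

theorem hB_eq {z : Fin n → ℚ_[2]} {x y : Fin n → ℤ_[2]} (h1 : ∀ i, z i * (y i : ℚ_[2]) = x i) :
    (∏ i, (z i ^ 2 + z i + 1) ^ 2) * ∏ i, (y i : ℚ_[2]) ^ 4 = (hB x y : ℚ_[2]) := by
  rw [hB, ← Finset.prod_mul_distrib, cprod]
  refine Finset.prod_congr rfl fun i _ => ?_
  push_cast
  rw [← h1 i]
  ring

theorem hJ_eq {z : Fin n → ℚ_[2]} {x y : Fin n → ℤ_[2]} (h1 : ∀ i, z i * (y i : ℚ_[2]) = x i) :
    (∑ i, (z i ^ 2 + z i)) * ∏ l, (y l : ℚ_[2]) ^ 4 + 2 * ∏ l, (y l : ℚ_[2]) ^ 4 =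
      (hJ x y : ℚ_[2]) := by
  classical
  have e5 : ∀ i, (z i ^ 2 + z i) * ∏ l, (y l : ℚ_[2]) ^ 4 = (∏ l, (y l : ℚ_[2])) ^ 2 *
      (((x i : ℚ_[2]) ^ 2 + x i * y i) * ∏ l ∈ Finset.univ.erase i, (y l : ℚ_[2]) ^ 2) := by
    intro i
    rw [← Finset.mul_prod_erase _ (fun l => (y l : ℚ_[2]) ^ 4) (Finset.mem_univ i),
      ← Finset.mul_prod_erase _ (fun l => (y l : ℚ_[2])) (Finset.mem_univ i)]
    have e6 : ∏ l ∈ Finset.univ.erase i, (y l : ℚ_[2]) ^ 4 =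
        (∏ l ∈ Finset.univ.erase i, (y l : ℚ_[2])) ^ 2 *
          ∏ l ∈ Finset.univ.erase i, (y l : ℚ_[2]) ^ 2 := by
      rw [← Finset.prod_pow, ← Finset.prod_mul_distrib]
      refine Finset.prod_congr rfl fun l _ => ?_
      ring
    rw [e6, ← h1 i]
    ring
  have e7 : ∏ l, (y l : ℚ_[2]) ^ 4 = (∏ l, (y l : ℚ_[2])) ^ 2 * ∏ l, (y l : ℚ_[2]) ^ 2 := by
    rw [← Finset.prod_pow, ← Finset.prod_mul_distrib]
    refine Finset.prod_congr rfl fun l _ => ?_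
    ring
  rw [Finset.sum_mul, Finset.sum_congr rfl fun i _ => e5 i, ← Finset.mul_sum, e7, hJ]
  simp only [PadicInt.coe_mul, PadicInt.coe_pow, PadicInt.coe_add, cprod, csum, cnum]
  ring

theorem hB_mod {z : Fin n → ℚ_[2]} {x y : Fin n → ℤ_[2]}
    (h2 : ∀ i, (‖z i‖ ≤ 1 ∧ y i = 1) ∨ (1 < ‖z i‖ ∧ x i = 1 ∧ ‖y i‖ < 1)) :
    PadicInt.toZModPow (p := 2) 2 (hB x y) = 1 := by
  rw [hB, map_prod]
  refine Finset.prod_eq_one fun i _ => ?_
  rcases h2 i with ⟨-, h⟩ | ⟨-, h, -⟩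
  · rw [h]
    have := one_of_one (PadicInt.toZModPow (p := 2) 2 (x i))
    rw [← this]
    simp only [map_pow, map_add, map_mul, map_one]
    ring
  · rw [h]
    have := one_of_one (PadicInt.toZModPow (p := 2) 2 (y i))
    rw [← this]
    simp only [map_pow, map_add, map_mul, map_one]
    ring

theorem hJ_zero {z : Fin n → ℚ_[2]} {x y : Fin n → ℤ_[2]}
    (h2 : ∀ i, (‖z i‖ ≤ 1 ∧ y i = 1) ∨ (1 < ‖z i‖ ∧ x i = 1 ∧ ‖y i‖ < 1)) {j : Fin n}
    (hj : 1 < ‖z j‖) : PadicInt.toZModPow (p := 2) 2 (hJ x y) = 0 := by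
  classical
  have hy : ‖y j‖ < 1 := by
    rcases h2 j with ⟨h, -⟩ | ⟨-, -, h⟩
    · exact absurd h (not_le.2 hj)
    · exact h
  have f3 : ∃ c, y j = 2 * c := by
    have := (PadicInt.norm_lt_one_iff_dvd _).1 hy
    exact_mod_cast this
  obtain ⟨c, hc⟩ := f3
  have f2 : PadicInt.toZModPow (p := 2) 2 (∏ l, y l) ^ 2 = 0 := by
    rw [← Finset.mul_prod_erase _ _ (Finset.mem_univ j), hc, map_mul, map_mul, map_ofNat]
    have : ∀ a b : ZMod (2 ^ 2), (2 * a * b) ^ 2 = 0 := by decide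
    exact this _ _
  rw [hJ, map_mul, map_pow, f2, zero_mul]

theorem even_sq (x : ℤ_[2]) : ∃ e : ℤ_[2], x ^ 2 + x = 2 * e := by
  have h : PadicInt.toZMod (x ^ 2 + x) = 0 := by
    rw [map_add, map_pow]
    have : ∀ u : ZMod 2, u ^ 2 + u = 0 := by decide
    exact this _
  have h2 : x ^ 2 + x ∈ RingHom.ker (PadicInt.toZMod (p := 2)) := h
  rw [PadicInt.ker_toZMod, PadicInt.maximalIdeal_eq_span_p, Ideal.mem_span_singleton] at h2
  exact_mod_cast h2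

theorem hJ_even {z : Fin n → ℚ_[2]} {x y : Fin n → ℤ_[2]}
    (h2 : ∀ i, (‖z i‖ ≤ 1 ∧ y i = 1) ∨ (1 < ‖z i‖ ∧ x i = 1 ∧ ‖y i‖ < 1)) :
    2 * PadicInt.toZModPow (p := 2) 2 (hJ x y) = 0 := by
  by_cases hj : ∃ j, 1 < ‖z j‖
  · obtain ⟨j, hj⟩ := hj
    rw [hJ_zero h2 hj, mul_zero]
  · push Not at hj
    have hy : ∀ i, y i = 1 := by
      intro i
      rcases h2 i with ⟨-, h⟩ | ⟨h, -⟩
      · exact h
      · exact absurd (hj i) (not_le.2 h)
    choose e he using even_sq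
    have : hJ x y = 2 * (∑ i, e (x i) + 1) := by
      rw [hJ]
      simp only [hy, Finset.prod_const_one, one_pow, one_mul, mul_one, he]
      rw [← Finset.mul_sum]
      ring
    rw [this, map_mul, map_ofNat, ← mul_assoc]
    have : (2 * 2 : ZMod (2 ^ 2)) = 0 := by decide
    rw [this, zero_mul]

/-! ### conics modulo four -/

theorem half_of {x : ℤ_[2]} (h : 2 * PadicInt.toZModPow (p := 2) 2 x = 0) :
    ∃ s : ℤ_[2], x = 2 * s := by
  have h2 : 2 * x ∈ RingHom.ker (PadicInt.toZModPow (p := 2) 2) := by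
    change PadicInt.toZModPow (p := 2) 2 (2 * x) = 0
    rw [map_mul, map_ofNat]
    exact h
  rw [PadicInt.ker_toZModPow, Ideal.mem_span_singleton] at h2
  obtain ⟨c, hc⟩ := h2
  refine ⟨c, ?_⟩
  have h3 : (2 : ℤ_[2]) * x = 2 * (2 * c) := by
    rw [hc]
    push_cast
    ring
  exact mul_left_cancel₀ two_ne_zero h3

theorem conic_local {α β γ : ℤ_[2]} (hα : PadicInt.toZModPow (p := 2) 2 α = 3)
    (hβ : PadicInt.toZModPow (p := 2) 2 β = PadicInt.toZModPow (p := 2) 2 γ + 1)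
    (hβ2 : 2 * PadicInt.toZModPow (p := 2) 2 β = 0) {t v : ℚ_[2]}
    (hv : v ^ 2 = (α : ℚ_[2]) * t ^ 2 + β * t + γ) :
    (∃ s : ℤ_[2], t = ((2 * s : ℤ_[2]) : ℚ_[2])) ∧ PadicInt.toZModPow (p := 2) 2 γ = 1 := by
  have hint : ∀ (v : ℚ_[2]) (r : ℤ_[2]), v ^ 2 = r → ∃ ν : ℤ_[2], ν ^ 2 = r := by
    intro v r h
    have h1 : ‖v‖ ≤ 1 := by
      by_contra hc
      push Not at hc
      have h2 := one_lt_pow₀ hc two_ne_zero
      rw [← norm_pow, h, ← PadicInt.norm_def] at h2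
      exact absurd (PadicInt.norm_le_one r) (not_le.2 h2)
    let ν : ℤ_[2] := ⟨v, h1⟩
    have h3 : ((ν ^ 2 : ℤ_[2]) : ℚ_[2]) = r := by
      rw [PadicInt.coe_pow]
      exact h
    exact ⟨ν, PadicInt.ext h3⟩
  by_cases ht : ‖t‖ ≤ 1
  · set τ : ℤ_[2] := ⟨t, ht⟩ with hτ
    obtain ⟨ν, hν⟩ := hint v (α * τ ^ 2 + β * τ + γ) (by
      rw [hv]
      push_cast
      rfl)
    have h1 := congrArg (PadicInt.toZModPow (p := 2) 2) hν
    rw [map_pow, map_add, map_add, map_mul, map_mul, map_pow, hα] at h1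
    have key : ∀ τ ν β γ : ZMod (2 ^ 2), β = γ + 1 → 2 * β = 0 → ν ^ 2 = 3 * τ ^ 2 + β * τ + γ →
        2 * τ = 0 ∧ γ = 1 := by decide
    obtain ⟨k1, k2⟩ := key _ _ _ _ hβ hβ2 h1
    obtain ⟨s, hs⟩ := half_of k1
    exact ⟨⟨s, by rw [← hs]⟩, k2⟩
  · exfalso
    push Not at ht
    have h0 : t ≠ 0 := by
      intro h0
      rw [h0, norm_zero] at ht
      linarith
    have h1 : ‖t⁻¹‖ < 1 := by
      rw [norm_inv]
      exact inv_lt_one_of_one_lt₀ ht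
    set τ : ℤ_[2] := ⟨t⁻¹, h1.le⟩ with hτ
    have hτ' : (τ : ℚ_[2]) = t⁻¹ := rfl
    obtain ⟨c, hc⟩ : ∃ c, τ = 2 * c := by
      have := (PadicInt.norm_lt_one_iff_dvd τ).1 h1
      exact_mod_cast this
    obtain ⟨ν, hν⟩ := hint (v * t⁻¹) (α + β * τ + γ * τ ^ 2) (by
      rw [mul_pow, hv]
      push_cast
      rw [hτ']
      field_simp)
    have h2 := congrArg (PadicInt.toZModPow (p := 2) 2) hν
    rw [hc, map_pow, map_add, map_add, map_mul, map_mul, map_mul, map_pow, map_mul, map_ofNat,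
      hα] at h2
    have key : ∀ c ν β γ : ZMod (2 ^ 2), 2 * β = 0 →
        ν ^ 2 ≠ 3 + β * (2 * c) + γ * (2 * c) ^ 2 := by decide
    exact key _ _ _ _ hβ2 h2

end Pool.Agent.Run7.h587.Ad
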