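import Pool.Agent.Run7.h587.Ad.Cc

/-!
# Conic bundles: the local conditions hold for the residue class
-/

set_option autoImplicit false

open Pool.Agent.Y720.MZ Pool.Agent.Y718.X Filter Topology
open Pool.Agent.Q35.ZC (OnCover image dist_image)

namespace Pool.Agent.Run7.h587.Ad

variable {n : ℕ}

section mod2

open Polynomial

/-- polynomials which are congruent to the standard one modulo two -/
theorem of_mod2 {F : MvPolynomial (Fin n) ℤ_[2]}
    (hF : F.map (PadicInt.toZMod (p := 2)) = f0 (ZMod 2) n) {z : Fin n → ℚ_[2]}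
    (hz : ∀ i, ‖z i‖ ≤ 1) {w : ℚ_[2]}
    (hw : w ^ 2 = MvPolynomial.eval z (F.map PadicInt.Coe.ringHom)) :
    ‖w‖ = 1 ∧ ∀ i,
      ‖MvPolynomial.eval z (MvPolynomial.pderiv i (F.map PadicInt.Coe.ringHom))‖ = 1 ∧
      Db (lr (F.map PadicInt.Coe.ringHom) z i) ≠ 0 := by
  set u : Fin n → ℤ_[2] := fun i => ⟨z i, hz i⟩ with hu
  have h0 : MvPolynomial.eval z (F.map PadicInt.Coe.ringHom) =
      ((MvPolynomial.eval u F : ℤ_[2]) : ℚ_[2]) :=
    (MvPolynomial.map_eval PadicInt.Coe.ringHom u F).symm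
  have h0' : PadicInt.toZMod (MvPolynomial.eval u F) = (1 : ZMod 2) := by
    rw [MvPolynomial.map_eval (PadicInt.toZMod (p := 2)) u F, hF]
    exact f0_zmod2 _
  have hw1 : ‖w‖ = 1 := by
    have h5 : ‖w‖ ^ 2 = 1 := by
      rw [← norm_pow, hw, h0, ← PadicInt.norm_def]
      exact norm_one (by rw [h0']; exact one_ne_zero)
    exact (pow_eq_one_iff_of_nonneg (norm_nonneg w) two_ne_zero).1 h5
  refine ⟨hw1, fun i => ?_⟩
  set P := lr F u i with hP
  have hq : lr (F.map PadicInt.Coe.ringHom) z i = P.map PadicInt.Coe.ringHom := by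
    rw [hP, lr_map]
    rfl
  have hq2 : P.map (PadicInt.toZMod (p := 2)) = X ^ 4 + X + 1 := by
    rw [hP, lr_map, hF]
    exact lr_f0_zmod2 _ i
  have hcc : ∀ k, (lr (F.map PadicInt.Coe.ringHom) z i).coeff k =
      ((P.coeff k : ℤ_[2]) : ℚ_[2]) := by
    intro k
    rw [hq, coeff_map]
    rfl
  have hck : ∀ k, PadicInt.toZMod (P.coeff k) = (X ^ 4 + X + 1 : (ZMod 2)[X]).coeff k := by
    intro k
    rw [← hq2, coeff_map]
  have k0 : PadicInt.toZMod (P.coeff 0) = 1 := by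
    rw [hck]; simp [coeff_X, coeff_one, coeff_X_pow]
  have k1 : PadicInt.toZMod (P.coeff 1) = 1 := by
    rw [hck]; simp [coeff_X, coeff_one, coeff_X_pow]
  have k2 : PadicInt.toZMod (P.coeff 2) = 0 := by
    rw [hck]; simp [coeff_X, coeff_one, coeff_X_pow]
  have k3 : PadicInt.toZMod (P.coeff 3) = 0 := by
    rw [hck]; simp [coeff_X, coeff_one, coeff_X_pow]
  have k4 : PadicInt.toZMod (P.coeff 4) = 1 := by
    rw [hck]; simp [coeff_X, coeff_one, coeff_X_pow]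
  have hn1 : ‖(lr (F.map PadicInt.Coe.ringHom) z i).coeff 1‖ = 1 := by
    rw [hcc, ← PadicInt.norm_def]
    exact norm_one (by rw [k1]; exact one_ne_zero)
  constructor
  · rw [← lr_coeff_one, hn1]
  · refine db_ne (v := NormedField.toAbsoluteValue ℚ_[2]) ?_ ?_ ?_ ?_
    · exact Padic.nonarchimedean
    · have := Padic.norm_p_lt_one (p := 2)
      exact_mod_cast this
    · intro k
      rw [hcc]
      exact PadicInt.norm_le_one _
    · have e : (lr (F.map PadicInt.Coe.ringHom) z i).coeff 1 ^ 2 *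
            (lr (F.map PadicInt.Coe.ringHom) z i).coeff 4 +
          (lr (F.map PadicInt.Coe.ringHom) z i).coeff 1 *
            (lr (F.map PadicInt.Coe.ringHom) z i).coeff 2 *
            (lr (F.map PadicInt.Coe.ringHom) z i).coeff 3 +
          (lr (F.map PadicInt.Coe.ringHom) z i).coeff 0 *
            (lr (F.map PadicInt.Coe.ringHom) z i).coeff 3 ^ 2 =
          ((P.coeff 1 ^ 2 * P.coeff 4 + P.coeff 1 * P.coeff 2 * P.coeff 3 +
            P.coeff 0 * P.coeff 3 ^ 2 : ℤ_[2]) : ℚ_[2]) := by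
        simp only [hcc, PadicInt.coe_mul, PadicInt.coe_pow, PadicInt.coe_add]
      rw [e]
      refine norm_one ?_
      rw [map_add, map_add, map_mul, map_mul, map_mul, map_mul, map_pow, map_pow, k0, k1, k2, k3,
        k4]
      decide

end mod2

/-- the analysis of a point over `ℚ₂` -/
theorem pt_b {a b g : MvPolynomial (Fin n) ℤ} (ha : ∀ i, a.degreeOf i ≤ 4)
    (hb : ∀ i, b.degreeOf i ≤ 4) (hg : ∀ i, g.degreeOf i ≤ 4) {z : Fin n → ℚ_[2]} {t w : ℚ_[2]}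
    (hw : w ^ 2 = MvPolynomial.eval z (slice (cA ℚ_[2] a) (cB ℚ_[2] b) (fc ℚ_[2] g) t)) :
    (∀ i, ‖z i‖ ≤ 1) ∧ (∃ s : ℤ_[2], t = ((2 * s : ℤ_[2]) : ℚ_[2])) ∧
      ‖MvPolynomial.eval z (fc ℚ_[2] g) - w ^ 2‖ ≤ 1 / 8 := by
  classical
  obtain ⟨x, y, h1, h2⟩ := hom_data z
  set α : ℤ_[2] := 3 * hB x y + 4 * homZ a x y with hα
  set β : ℤ_[2] := hJ x y + 4 * homZ b x y with hβ
  set γ : ℤ_[2] := 3 * hB x y + hJ x y + 4 * homZ g x y with hγ
  set D : ℚ_[2] := ∏ i, (y i : ℚ_[2]) ^ 4 with hD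
  have hh : ∀ g : MvPolynomial (Fin n) ℤ, ((homZ g x y : ℤ_[2]) : ℚ_[2]) =
      homZ g (fun i => (x i : ℚ_[2])) (fun i => (y i : ℚ_[2])) :=
    fun g => homZ_map PadicInt.Coe.ringHom g x y
  have e2 : ∀ g : MvPolynomial (Fin n) ℤ, (∀ i, g.degreeOf i ≤ 4) →
      MvPolynomial.eval z (g.map (Int.castRingHom ℚ_[2])) * D = ((homZ g x y : ℤ_[2]) : ℚ_[2]) := by
    intro g hg
    rw [hh]
    exact homZ_eq (R := ℚ_[2]) hg h1
  have e3 := hB_eq h1
  have e4 := hJ_eq h1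
  have eα : MvPolynomial.eval z (cA ℚ_[2] a) * D = (α : ℚ_[2]) := by
    rw [hα, PadicInt.coe_add, PadicInt.coe_mul, PadicInt.coe_mul, ← e3, ← e2 a ha, cnum, cnum]
    simp [cA]
    ring
  have eβ : MvPolynomial.eval z (cB ℚ_[2] b) * D = (β : ℚ_[2]) := by
    rw [hβ, PadicInt.coe_add, PadicInt.coe_mul, ← e4, ← e2 b hb, cnum]
    simp [cB]
    ring
  have eγ : MvPolynomial.eval z (fc ℚ_[2] g) * D = (γ : ℚ_[2]) := by
    rw [hγ, PadicInt.coe_add, PadicInt.coe_add, PadicInt.coe_mul, PadicInt.coe_mul, ← e3, ← e4,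
      ← e2 g hg, cnum, cnum, fc, map_add, map_mul, map_ofNat, f0_eval]
    ring
  have hv : (w * ∏ i, (y i : ℚ_[2]) ^ 2) ^ 2 = (α : ℚ_[2]) * t ^ 2 + β * t + γ := by
    have e5 : (w * ∏ i, (y i : ℚ_[2]) ^ 2) ^ 2 = w ^ 2 * D := by
      rw [mul_pow, ← Finset.prod_pow, hD]
      congr 1
      refine Finset.prod_congr rfl fun i _ => ?_
      ring
    rw [e5, hw, slice_eval, ← eα, ← eβ, ← eγ]
    ring
  have m1 := hB_mod h2
  have m2 := hJ_even h2
  have m4 : (4 : ZMod (2 ^ 2)) = 0 := by decide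
  have mα : PadicInt.toZModPow (p := 2) 2 α = 3 := by
    rw [hα, map_add, map_mul, map_mul, m1, map_ofNat, map_ofNat, m4, zero_mul, add_zero, mul_one]
  have mβ : PadicInt.toZModPow (p := 2) 2 β = PadicInt.toZModPow (p := 2) 2 (hJ x y) := by
    rw [hβ, map_add, map_mul, map_ofNat, m4, zero_mul, add_zero]
  have mγ : PadicInt.toZModPow (p := 2) 2 γ = 3 + PadicInt.toZModPow (p := 2) 2 (hJ x y) := by
    rw [hγ, map_add, map_add, map_mul, map_mul, m1, map_ofNat, map_ofNat, m4, zero_mul, add_zero,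
      mul_one]
  obtain ⟨⟨s, hs⟩, c2⟩ := conic_local mα (by
    rw [mβ, mγ]
    have : ∀ j : ZMod (2 ^ 2), j = 3 + j + 1 := by decide
    exact this _) (by rw [mβ]; exact m2) hv
  have hz : ∀ i, ‖z i‖ ≤ 1 := by
    intro i
    by_contra hi
    push Not at hi
    rw [mγ, hJ_zero h2 hi] at c2
    revert c2
    decide
  refine ⟨hz, ⟨s, hs⟩, ?_⟩
  have hy : ∀ i, y i = 1 := by
    intro i
    rcases h2 i with ⟨-, h⟩ | ⟨h, -⟩
    · exact h
    · exact absurd (hz i) (not_le.2 h)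
  have hD1 : D = 1 := by
    rw [hD]
    simp [hy]
  rw [hD1, mul_one] at eα eβ eγ
  -- the congruence modulo eight
  have k1 : ∃ α' : ℤ_[2], α = 3 + 4 * α' := by
    have h5 : α - 3 ∈ RingHom.ker (PadicInt.toZModPow (p := 2) 2) := by
      change PadicInt.toZModPow (p := 2) 2 (α - 3) = 0
      rw [map_sub, mα, map_ofNat, sub_self]
    rw [PadicInt.ker_toZModPow, Ideal.mem_span_singleton] at h5
    obtain ⟨c, hc⟩ := h5
    refine ⟨c, ?_⟩
    have : ((2 : ℕ) : ℤ_[2]) ^ 2 = 4 := by norm_num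
    rw [this] at hc
    linear_combination hc
  have k2 : ∃ β' : ℤ_[2], β = 2 + 4 * β' := by
    have h5 : β - 2 ∈ RingHom.ker (PadicInt.toZModPow (p := 2) 2) := by
      change PadicInt.toZModPow (p := 2) 2 (β - 2) = 0
      rw [map_sub, mβ, map_ofNat]
      rw [mγ] at c2
      have : ∀ j : ZMod (2 ^ 2), 3 + j = 1 → j - 2 = 0 := by decide
      exact this _ c2
    rw [PadicInt.ker_toZModPow, Ideal.mem_span_singleton] at h5
    obtain ⟨c, hc⟩ := h5
    refine ⟨c, ?_⟩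
    have : ((2 : ℕ) : ℤ_[2]) ^ 2 = 4 := by norm_num
    rw [this] at hc
    linear_combination hc
  obtain ⟨α', hα'⟩ := k1
  obtain ⟨β', hβ'⟩ := k2
  obtain ⟨e, he⟩ := even_sq s
  have e6 : MvPolynomial.eval z (fc ℚ_[2] g) - w ^ 2 =
      8 * ((-(s ^ 2 + e + 2 * α' * s ^ 2 + β' * s) : ℤ_[2]) : ℚ_[2]) := by
    have e7 : w ^ 2 = ((α * (2 * s) ^ 2 + β * (2 * s) + γ : ℤ_[2]) : ℚ_[2]) := by
      rw [hw, slice_eval, eα, eβ, eγ, hs]
      push_cast
      ring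
    have e8 : α * (2 * s) ^ 2 + β * (2 * s) + γ = γ + 8 * (s ^ 2 + e + 2 * α' * s ^ 2 + β' * s) := by
      rw [hα', hβ']
      linear_combination 4 * he
    have e9 : ∀ c d : ℤ_[2], (c : ℚ_[2]) - ((c + 8 * d : ℤ_[2]) : ℚ_[2]) =
        8 * ((-d : ℤ_[2]) : ℚ_[2]) := by
      intro c d
      rw [PadicInt.coe_add, PadicInt.coe_mul, PadicInt.coe_neg, cnum]
      ring
    rw [e7, e8, eγ]
    exact e9 _ _
  rw [e6, norm_mul]
  have e9 : ‖(8 : ℚ_[2])‖ = 1 / 8 := by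
    rw [show (8 : ℚ_[2]) = 2 * 4 by norm_num, norm_mul, n2, n4]; norm_num
  rw [e9]
  have := PadicInt.norm_le_one (-(s ^ 2 + e + 2 * α' * s ^ 2 + β' * s))
  rw [PadicInt.norm_def] at this
  linarith

/-- **The class.** -/
theorem cls_b {a b g : MvPolynomial (Fin n) ℤ} (ha : ∀ i, a.degreeOf i ≤ 4)
    (hb : ∀ i, b.degreeOf i ≤ 4) (hg : ∀ i, g.degreeOf i ≤ 4) :
    AdB (cA ℚ_[2] a) (cB ℚ_[2] b) (fc ℚ_[2] g) := by
  refine ⟨fun i => ⟨cA_deg ha i, cB_deg hb i, fc_deg hg i⟩, fun m => ⟨?_, ?_, ?_⟩, ?_⟩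
  · rw [← cA_map PadicInt.Coe.ringHom a, MvPolynomial.coeff_map]
    exact PadicInt.norm_le_one _
  · rw [← cB_map PadicInt.Coe.ringHom b, MvPolynomial.coeff_map]
    exact PadicInt.norm_le_one _
  · rw [← fc_map PadicInt.Coe.ringHom g, MvPolynomial.coeff_map]
    exact PadicInt.norm_le_one _
  · intro z t w hw
    obtain ⟨hz, ⟨s, hs⟩, -⟩ := pt_b ha hb hg hw
    set F : MvPolynomial (Fin n) ℤ_[2] := cA ℤ_[2] a * MvPolynomial.C ((2 * s) ^ 2) +
      cB ℤ_[2] b * MvPolynomial.C (2 * s) + fc ℤ_[2] g with hF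
    have e1 : F.map PadicInt.Coe.ringHom = slice (cA ℚ_[2] a) (cB ℚ_[2] b) (fc ℚ_[2] g) t := by
      rw [hF, slice, map_add, map_add, map_mul, map_mul, MvPolynomial.map_C, MvPolynomial.map_C,
        cA_map, cB_map, fc_map, hs, map_pow]
      rfl
    have h4 : (4 : MvPolynomial (Fin n) (ZMod 2)) = 0 := by
      have : (4 : MvPolynomial (Fin n) (ZMod 2)) = MvPolynomial.C 4 := (map_ofNat _ 4).symm
      rw [this, show (4 : ZMod 2) = 0 from by decide, MvPolynomial.C_0]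
    have e2 : F.map (PadicInt.toZMod (p := 2)) = f0 (ZMod 2) n := by
      have h5 : PadicInt.toZMod (p := 2) (2 * s) = 0 := by
        rw [map_mul, map_ofNat]
        have : (2 : ZMod 2) = 0 := by decide
        rw [this, zero_mul]
      rw [hF, map_add, map_add, map_mul, map_mul, MvPolynomial.map_C, MvPolynomial.map_C, map_pow,
        h5, fc_map]
      have h6 : fc (ZMod 2) g = f0 (ZMod 2) n := by
        unfold fc
        rw [h4, zero_mul, add_zero]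
      rw [h6, MvPolynomial.C_0, mul_zero, add_zero, zero_pow two_ne_zero, MvPolynomial.C_0,
        mul_zero, zero_add]
    rw [← e1] at hw ⊢
    obtain ⟨g1, g2⟩ := of_mod2 e2 hz hw
    refine ⟨?_, g1, fun i => ⟨hz i, g2 i⟩⟩
    rw [hs, ← PadicInt.norm_def]
    exact PadicInt.norm_le_one _

/-- **Conic bundles over a base with a dense set of sections.** -/
theorem dense_b {K : Type} [Field K] [CharZero K] (σ : K →+* ℚ_[2]) (hn : n ≠ 0)
    {a b g : MvPolynomial (Fin n) ℤ} (ha : ∀ i, a.degreeOf i ≤ 4)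
    (hb : ∀ i, b.degreeOf i ≤ 4) (hg : ∀ i, g.degreeOf i ≤ 4)
    (hd : ∀ S : (Fin n → ℚ_[2]) × ℚ_[2], OnCover (fc ℚ_[2] g) S →
      S ∈ closure (ImR {P : (Fin n → K) × K | OnCover (fc K g) P} σ))
    {z : Fin n → ℚ_[2]} {t w : ℚ_[2]}
    (hw : w ^ 2 = MvPolynomial.eval z (slice (cA ℚ_[2] a) (cB ℚ_[2] b) (fc ℚ_[2] g) t))
    {η : ℝ} (hη : 0 < η) :
    ∃ (x : Fin n → K) (t₁ w₁ : K),
      w₁ ^ 2 = MvPolynomial.eval x (slice (cA K a) (cB K b) (fc K g) t₁) ∧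
      (∀ i, ‖σ (x i) - z i‖ < η) ∧ ‖σ t₁ - t‖ < η ∧ ‖σ w₁ - w‖ < η := by
  obtain ⟨hz, -, h8⟩ := pt_b ha hb hg hw
  obtain ⟨-, hw1, -⟩ := (cls_b ha hb hg).2.2 z t w hw
  have hw0 : w ≠ 0 := by
    intro h0
    rw [h0, norm_zero] at hw1
    exact zero_ne_one hw1
  -- the point of the section
  obtain ⟨u, hu1, -⟩ := sqrt_one (v := MvPolynomial.eval z (fc ℚ_[2] g) / w ^ 2) (by
    have e : MvPolynomial.eval z (fc ℚ_[2] g) / w ^ 2 - 1 =
        (MvPolynomial.eval z (fc ℚ_[2] g) - w ^ 2) / w ^ 2 := by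
      field_simp
    rw [e, norm_div, norm_pow, hw1, one_pow, div_one]
    exact h8)
  have hS : OnCover (fc ℚ_[2] g) (z, w * u) := by
    change (w * u) ^ 2 = MvPolynomial.eval z (fc ℚ_[2] g)
    rw [mul_pow, hu1, mul_div_cancel₀ _ (pow_ne_zero 2 hw0)]
  obtain ⟨_, ⟨P, hP, rfl⟩, h2⟩ := Metric.mem_closure_iff.1 (hd _ hS) (1 / 8) (by norm_num)
  have h3 := ((dist_image σ P (z, w * u) (by norm_num)).1 h2).1
  have hA : (cA K a).map σ = cA ℚ_[2] a := cA_map σ a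
  have hB : (cB K b).map σ = cB ℚ_[2] b := cB_map σ b
  have hG : (fc K g).map σ = fc ℚ_[2] g := fc_map σ g
  have h := cls_b ha hb hg
  rw [← hA, ← hB, ← hG] at h hw
  refine level_b hn h (z := P.1) (t₀ := 0) (w₀ := P.2) ?_ hw (fun i => ?_) hη
  · rw [slice_eval]
    have hP' : P.2 ^ 2 = MvPolynomial.eval P.1 (fc K g) := hP
    rw [hP']
    ring
  · rw [norm_sub_rev]
    exact (h3 i).le

end Pool.Agent.Run7.h587.Ad
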