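import Pool.Agent.Run7.h587.Ad.Cd

/-!
# Conic bundles with rational points in all the residue classes
-/

set_option autoImplicit false

open Pool.Agent.Y720.MZ Pool.Agent.Y718.X Filter Topology
open Pool.Agent.Q35.ZC (OnCover image dist_image)

namespace Pool.Agent.Run7.h587.Ad

/-! ### interpolation in general -/

section abs

variable {E X ι : Type} [Fintype E]

/-- the value at `x` of the member with the parameters `c` -/
def Fv (m : E → X → ℤ) (b c : E → ℤ) (x : X) : ℤ := ∑ e, (b e + 4 * c e) * m e x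

theorem exists_h' (m : E → X → ℤ) (T : Finset ι) (p : ι → X) (hT : T.card < Fintype.card E) :
    ∃ h : E → ℤ, h ≠ 0 ∧ ∀ j ∈ T, ∑ e, h e * m e (p j) = 0 := by
  classical
  rcases T.eq_empty_or_nonempty with rfl | hne
  · have : 0 < Fintype.card E := lt_of_le_of_lt (Nat.zero_le _) hT
    have : Nonempty E := Fintype.card_pos_iff.1 this
    exact ⟨1, one_ne_zero, fun j hj => absurd hj (Finset.notMem_empty j)⟩
  · let A : Matrix T E ℤ := fun j e => m e (p j)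
    obtain ⟨t, ht, hA, -⟩ := Int.Matrix.exists_ne_zero_int_vec_norm_le A (by
      rw [Fintype.card_coe]
      exact hT) (by
      rw [Fintype.card_coe]
      exact hne.card_pos)
    refine ⟨t, ht, fun j hj => ?_⟩
    have h1 := congrFun hA ⟨j, hj⟩
    rw [Matrix.mulVec, dotProduct, Pi.zero_apply] at h1
    rw [← h1]
    exact Finset.sum_congr rfl fun e _ => mul_comm _ _

theorem interp' (m : E → X → ℤ) (b : E → ℤ) (near : X → X → Prop)
    (hnear : ∀ h : E → ℤ, h ≠ 0 → ∀ x, ∃ q, near q x ∧ ∑ e, h e * m e q ≠ 0)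
    (hdvd : ∀ q x, near q x → ∀ e, (8 : ℤ) ∣ m e q - m e x)
    (c₀ : E → ℤ) (cl : ι → X) (M : ℕ) (T : Finset ι)
    (h8 : ∀ j ∈ T, (8 : ℤ) ∣ Fv m b c₀ (cl j) - 1) (hT : T.card ≤ Fintype.card E) :
    ∃ (c : E → ℤ) (p : ι → X) (w : ι → ℤ), (∀ e, (2 : ℤ) ^ (M + 1) ∣ c e - c₀ e) ∧
      ∀ j ∈ T, near (p j) (cl j) ∧ w j ^ 2 = Fv m b c (p j) := by
  classical
  induction T using Finset.induction_on with
  | empty =>
    exact ⟨c₀, cl, 0, fun e => by rw [sub_self]; exact dvd_zero _,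
      fun j hj => absurd hj (Finset.notMem_empty j)⟩
  | insert j₀ T hj₀ ih =>
    rw [Finset.card_insert_of_notMem hj₀] at hT
    obtain ⟨c, p, w, hc, hp⟩ := ih (fun j hj => h8 j (Finset.mem_insert_of_mem hj)) (by omega)
    obtain ⟨h, hne, hh⟩ := exists_h' m T p (by omega)
    obtain ⟨q, hq, hqe⟩ := hnear h hne (cl j₀)
    have hF : (8 : ℤ) ∣ Fv m b c q - 1 := by
      have h1 : (8 : ℤ) ∣ Fv m b c q - Fv m b c (cl j₀) := by
        unfold Fv
        rw [← Finset.sum_sub_distrib]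
        refine Finset.dvd_sum fun e _ => ?_
        rw [← mul_sub]
        exact (hdvd _ _ hq e).mul_left _
      have h2 : (8 : ℤ) ∣ Fv m b c (cl j₀) - Fv m b c₀ (cl j₀) := by
        unfold Fv
        rw [← Finset.sum_sub_distrib]
        refine Finset.dvd_sum fun e _ => ?_
        obtain ⟨t, ht⟩ := (dvd_pow_self (2 : ℤ) (Nat.succ_ne_zero M)).trans (hc e)
        refine ⟨t * m e (cl j₀), ?_⟩
        linear_combination (4 * m e (cl j₀)) * ht
      have h3 := h8 j₀ (Finset.mem_insert_self _ _)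
      omega
    obtain ⟨s, k₁, k₂, w₀, e1, e2⟩ := step_num hF hqe (M + 3)
    set c' : E → ℤ := fun e =>
      c e + (2 : ℤ) ^ (M + 1) * (4 * k₁ * c e + k₁ * b e + k₂ * h e) with hc'
    have hm : ∀ x, Fv m b c' x = s ^ 2 * Fv m b c x + 2 ^ (M + 3) * k₂ * ∑ e, h e * m e x := by
      intro x
      unfold Fv
      rw [Finset.mul_sum, Finset.mul_sum, ← Finset.sum_add_distrib]
      refine Finset.sum_congr rfl fun e _ => ?_
      rw [show s ^ 2 = 1 + 2 ^ (M + 3) * k₁ by linear_combination e1]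
      simp only [hc']
      ring
    refine ⟨c', fun j => if j = j₀ then q else p j, fun j => if j = j₀ then w₀ else s * w j,
      fun e => ?_, fun j hj => ?_⟩
    · have : c' e - c₀ e = (c e - c₀ e) + 2 ^ (M + 1) * (4 * k₁ * c e + k₁ * b e + k₂ * h e) := by
        simp only [hc']
        ring
      rw [this]
      exact dvd_add (hc e) (Dvd.intro _ rfl)
    · by_cases hj' : j = j₀
      · subst hj'
        simp only [if_pos]
        refine ⟨hq, ?_⟩
        rw [hm, ← e2]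
      · simp only [if_neg hj']
        have hjT : j ∈ T := (Finset.mem_insert.1 hj).resolve_left hj'
        refine ⟨(hp j hjT).1, ?_⟩
        rw [hm, hh j hjT, mul_pow, (hp j hjT).2]
        ring

end abs

/-! ### the monomials in the base and the fibre -/

section mon

variable {n : ℕ}

/-- the monomials `t^k z^e` -/
def mon (e : Fin 3 × (Fin n → Fin 5)) (x : (Fin n → ℤ) × ℤ) : ℤ :=
  x.2 ^ (e.1 : ℕ) * ∏ i, x.1 i ^ (e.2 i : ℕ)

/-- congruent points -/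
def nr (q x : (Fin n → ℤ) × ℤ) : Prop := (∀ i, (8 : ℤ) ∣ q.1 i - x.1 i) ∧ (8 : ℤ) ∣ q.2 - x.2

theorem gp_eval (c : (Fin n → Fin 5) → ℤ) (x : Fin n → ℤ) :
    MvPolynomial.eval x (gp c) = ∑ e, c e * ∏ i, x i ^ (e i : ℕ) := by
  unfold gp
  rw [map_sum]
  refine Finset.sum_congr rfl fun e _ => ?_
  rw [map_mul, MvPolynomial.eval_C, map_prod]
  simp only [map_pow, MvPolynomial.eval_X]

theorem sum_mon (h : Fin 3 × (Fin n → Fin 5) → ℤ) (x : (Fin n → ℤ) × ℤ) :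
    ∑ e, h e * mon e x = MvPolynomial.eval x.1 (gp fun e => h (2, e)) * x.2 ^ 2 +
      MvPolynomial.eval x.1 (gp fun e => h (1, e)) * x.2 +
      MvPolynomial.eval x.1 (gp fun e => h (0, e)) := by
  rw [Fintype.sum_prod_type, Fin.sum_univ_three, gp_eval, gp_eval, gp_eval, Finset.sum_mul,
    Finset.sum_mul]
  have e0 : ∑ e, h (0, e) * mon (0, e) x = ∑ e, h (0, e) * ∏ i, x.1 i ^ (e i : ℕ) := by
    refine Finset.sum_congr rfl fun e _ => ?_
    simp [mon]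
  have e1 : ∑ e, h (1, e) * mon (1, e) x = ∑ e, h (1, e) * (∏ i, x.1 i ^ (e i : ℕ)) * x.2 := by
    refine Finset.sum_congr rfl fun e _ => ?_
    simp [mon]
    ring
  have e2 : ∑ e, h (2, e) * mon (2, e) x =
      ∑ e, h (2, e) * (∏ i, x.1 i ^ (e i : ℕ)) * x.2 ^ 2 := by
    refine Finset.sum_congr rfl fun e _ => ?_
    simp [mon]
    ring
  rw [e0, e1, e2]
  ring

theorem mon_near (h : Fin 3 × (Fin n → Fin 5) → ℤ) (hh : h ≠ 0) (x : (Fin n → ℤ) × ℤ) :
    ∃ q, nr q x ∧ ∑ e, h e * mon e q ≠ 0 := by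
  obtain ⟨k, hk⟩ : ∃ k : Fin 3, (fun e => h (k, e)) ≠ 0 := by
    by_contra hcon
    push Not at hcon
    apply hh
    funext ⟨k, e⟩
    exact congrFun (hcon k) e
  obtain ⟨q, hq, hqe⟩ := exists_lift x.1 (gp_ne hk)
  set P : ℤ → ℤ := fun t => MvPolynomial.eval q (gp fun e => h (2, e)) * t ^ 2 +
      MvPolynomial.eval q (gp fun e => h (1, e)) * t +
      MvPolynomial.eval q (gp fun e => h (0, e)) with hP
  obtain ⟨t, ht, hPt⟩ : ∃ t, (8 : ℤ) ∣ t - x.2 ∧ P t ≠ 0 := by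
    by_contra hcon
    push Not at hcon
    have p0 := hcon x.2 (by simp)
    have p1 := hcon (x.2 + 8) (by simp)
    have p2 := hcon (x.2 + 16) ⟨2, by ring⟩
    simp only [hP] at p0 p1 p2
    have q2 : MvPolynomial.eval q (gp fun e => h (2, e)) = 0 := by
      have : 128 * MvPolynomial.eval q (gp fun e => h (2, e)) = 0 := by
        linear_combination p2 - 2 * p1 + p0
      omega
    have q1 : MvPolynomial.eval q (gp fun e => h (1, e)) = 0 := by
      rw [q2] at p0 p1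
      have : 8 * MvPolynomial.eval q (gp fun e => h (1, e)) = 0 := by
        linear_combination p1 - p0
      omega
    have q0 : MvPolynomial.eval q (gp fun e => h (0, e)) = 0 := by
      rw [q2, q1] at p0
      linear_combination p0
    apply hqe
    fin_cases k
    · exact q0
    · exact q1
    · exact q2
  refine ⟨(q, t), ⟨hq, ht⟩, ?_⟩
  rw [sum_mon]
  exact hPt

theorem mon_dvd (q x : (Fin n → ℤ) × ℤ) (h : nr q x) (e : Fin 3 × (Fin n → Fin 5)) :
    (8 : ℤ) ∣ mon e q - mon e x := by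
  have h1 : (8 : ℤ) ∣ q.2 ^ (e.1 : ℕ) - x.2 ^ (e.1 : ℕ) := h.2.trans (sub_dvd_pow_sub_pow _ _ _)
  have h2 : (8 : ℤ) ∣ ∏ i, q.1 i ^ (e.2 i : ℕ) - ∏ i, x.1 i ^ (e.2 i : ℕ) := by
    have := eval_dvd (N := 8) h.1 (∏ i, MvPolynomial.X i ^ (e.2 i : ℕ))
    simpa using this
  unfold mon
  obtain ⟨a, ha⟩ := h1
  obtain ⟨b, hb⟩ := h2
  refine ⟨a * ∏ i, q.1 i ^ (e.2 i : ℕ) + x.2 ^ (e.1 : ℕ) * b, ?_⟩
  linear_combination (∏ i, q.1 i ^ (e.2 i : ℕ)) * ha + x.2 ^ (e.1 : ℕ) * hb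

/-- the parameters of the base point of the class -/
noncomputable def bb (e : Fin 3 × (Fin n → Fin 5)) : ℤ :=
  (if e.1 = 0 then fc ℤ 0 else if e.1 = 1 then cB ℤ 0 else cA ℤ 0 :
    MvPolynomial (Fin n) ℤ).coeff (fs e.2)

theorem gp_lin (b c : (Fin n → Fin 5) → ℤ) :
    gp (fun e => b e + 4 * c e) = gp b + 4 * gp c := by
  have : (fun e => b e + 4 * c e) = b + (4 : ℤ) • c := by
    funext e
    simp
  rw [this, gp_add, gp_smul]
  simp

theorem map_self (g : MvPolynomial (Fin n) ℤ) : g.map (Int.castRingHom ℤ) = g := by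
  rw [show Int.castRingHom ℤ = RingHom.id ℤ from Subsingleton.elim _ _, MvPolynomial.map_id]

theorem Fv_eq (c : Fin 3 × (Fin n → Fin 5) → ℤ) (x : (Fin n → ℤ) × ℤ) :
    Fv mon bb c x = MvPolynomial.eval x.1 (cA ℤ (gp fun e => c (2, e))) * x.2 ^ 2 +
      MvPolynomial.eval x.1 (cB ℤ (gp fun e => c (1, e))) * x.2 +
      MvPolynomial.eval x.1 (fc ℤ (gp fun e => c (0, e))) := by
  have hz : ∀ i : Fin n, (0 : MvPolynomial (Fin n) ℤ).degreeOf i ≤ 4 := fun i => by simp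
  have e2 : gp (fun e => bb (2, e) + 4 * c (2, e)) = cA ℤ (gp fun e => c (2, e)) := by
    rw [gp_lin (fun e => bb (2, e)) (fun e => c (2, e))]
    have : gp (fun e => bb (n := n) (2, e)) = cA ℤ 0 := gp_of (cA_deg hz)
    rw [this]
    unfold cA
    rw [map_self, map_self]
    ring
  have e1 : gp (fun e => bb (1, e) + 4 * c (1, e)) = cB ℤ (gp fun e => c (1, e)) := by
    rw [gp_lin (fun e => bb (1, e)) (fun e => c (1, e))]
    have : gp (fun e => bb (n := n) (1, e)) = cB ℤ 0 := gp_of (cB_deg hz)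
    rw [this]
    unfold cB
    rw [map_self, map_self]
    ring
  have e0 : gp (fun e => bb (0, e) + 4 * c (0, e)) = fc ℤ (gp fun e => c (0, e)) := by
    rw [gp_lin (fun e => bb (0, e)) (fun e => c (0, e))]
    have : gp (fun e => bb (n := n) (0, e)) = fc ℤ 0 := gp_of (fc_deg hz)
    rw [this]
    unfold fc
    rw [map_self, map_self]
    ring
  unfold Fv
  rw [sum_mon, e0, e1, e2]

end mon

/-! ### the residue classes -/

section res

variable {m : ℕ}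

theorem eval_succ (g : MvPolynomial (Fin (m + 1)) ℤ) (x : Fin (m + 1) → ℤ) :
    MvPolynomial.eval x (mem g) = 3 * ((x 0 ^ 2 + x 0 + 1) ^ 2 *
      ∏ i : Fin m, (x i.succ ^ 2 + x i.succ + 1) ^ 2) + ((x 0 ^ 2 + x 0) +
      ∑ i : Fin m, (x i.succ ^ 2 + x i.succ)) + 2 + 4 * MvPolynomial.eval x g := by
  simp [mem, Fin.prod_univ_succ, Fin.sum_univ_succ]

theorem uniq {g : MvPolynomial (Fin (m + 1)) ℤ} {x y : Fin (m + 1) → ℤ}
    (h0 : (2 : ℤ) ∣ x 0 - y 0) (h : ∀ i : Fin m, (8 : ℤ) ∣ x i.succ - y i.succ)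
    (hF : (8 : ℤ) ∣ MvPolynomial.eval x (mem g) - MvPolynomial.eval y (mem g)) (i : Fin (m + 1)) :
    (8 : ℤ) ∣ x i - y i := by
  refine Fin.cases ?_ h i
  set z : Fin (m + 1) → ℤ := Fin.cons (y 0) fun i => x i.succ with hz
  have z0 : z 0 = y 0 := rfl
  have zs : ∀ i : Fin m, z i.succ = x i.succ := fun i => rfl
  have h1 : (8 : ℤ) ∣ MvPolynomial.eval z (mem g) - MvPolynomial.eval y (mem g) := by
    apply eval_dvd (N := 8)
    intro i
    refine Fin.cases ?_ ?_ i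
    · rw [z0, sub_self]
      exact dvd_zero _
    · intro i
      rw [zs]
      exact h i
  have h2 : (8 : ℤ) ∣ MvPolynomial.eval x (mem g) - MvPolynomial.eval z (mem g) := by omega
  have h3 := eval_succ g x
  have h4 := eval_succ g z
  simp only [z0, zs] at h4
  set P : ℤ := ∏ i : Fin m, (x i.succ ^ 2 + x i.succ + 1) ^ 2
  set Sm : ℤ := ∑ i : Fin m, (x i.succ ^ 2 + x i.succ)
  obtain ⟨k, hk⟩ := h0
  obtain ⟨a, ha⟩ := parity (x 0)
  obtain ⟨b, hb⟩ := parity (y 0)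
  have hab : 2 * a - 2 * b = 2 * k * (2 * y 0 + 2 * k + 1) := by
    have : x 0 = y 0 + 2 * k := by omega
    rw [← ha, ← hb, this]
    ring
  have h5 : MvPolynomial.eval x (mem g) - MvPolynomial.eval z (mem g) =
      3 * (2 * a - 2 * b) * (2 * a + 2 * b + 2) * P + (2 * a - 2 * b) +
        4 * (MvPolynomial.eval x g - MvPolynomial.eval z g) := by
    rw [h3, h4, ha, hb]
    ring
  have h6 : (4 : ℤ) ∣ 2 * a - 2 * b := by
    have e : 2 * a - 2 * b = (MvPolynomial.eval x (mem g) - MvPolynomial.eval z (mem g)) -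
      4 * (3 * (a - b) * (a + b + 1) * P + (MvPolynomial.eval x g - MvPolynomial.eval z g)) := by
      rw [h5]
      ring
    rw [e]
    exact dvd_sub ((by norm_num : (4 : ℤ) ∣ 8).trans h2) (Dvd.intro _ rfl)
  have hk2 : ∃ l, k = 2 * l := by
    rcases Int.even_or_odd k with ⟨l, hl⟩ | ⟨l, hl⟩
    · exact ⟨l, by omega⟩
    · exfalso
      have e : 2 * k * (2 * y 0 + 2 * k + 1) = 4 * (k * (y 0 + k) + l) + 2 := by
        conv_lhs => rw [mul_assoc, mul_add, mul_one]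
        linear_combination 2 * hl
      omega
  obtain ⟨l, hl⟩ := hk2
  obtain ⟨r, hr⟩ : (4 : ℤ) ∣ MvPolynomial.eval x g - MvPolynomial.eval z g := by
    apply eval_dvd (N := 4)
    intro i
    refine Fin.cases ?_ ?_ i
    · rw [z0]
      exact ⟨l, by push_cast; omega⟩
    · intro i
      rw [zs, sub_self]
      exact dvd_zero _
  obtain ⟨s, hs⟩ := h6
  obtain ⟨v, hv⟩ := h2
  have h7 : 2 * a - 2 * b = 4 * l * (2 * y 0 + 4 * l + 1) := by
    rw [hab, hl]; ring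
  have h8 : (8 : ℤ) ∣ 4 * l := by
    refine ⟨v - 3 * s * (a + b + 1) * P - 2 * r - l * (y 0 + 2 * l), ?_⟩
    have e : (4 : ℤ) * l = (2 * a - 2 * b) - 8 * (l * (y 0 + 2 * l)) := by rw [h7]; ring
    rw [e]
    linear_combination hv - h5 - 4 * hr - 3 * (2 * a + 2 * b + 2) * P * hs
  omega

/-- a residue class -/
def mt (j : Fin 2 × (Fin m → Fin 8)) (x : Fin (m + 1) → ℤ) : Prop :=
  (2 : ℤ) ∣ x 0 - ((j.1 : ℕ) : ℤ) ∧ ∀ i : Fin m, (8 : ℤ) ∣ x i.succ - ((j.2 i : ℕ) : ℤ)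

theorem mt_exists (x : Fin (m + 1) → ℤ) : ∃ j, mt j x := by
  have h2 : ∃ a : Fin 2, (2 : ℤ) ∣ x 0 - ((a : ℕ) : ℤ) :=
    ⟨⟨(x 0 % 2).toNat, by omega⟩, by simp only; omega⟩
  have h8 : ∀ i : Fin m, ∃ a : Fin 8, (8 : ℤ) ∣ x i.succ - ((a : ℕ) : ℤ) := fun i =>
    ⟨⟨(x i.succ % 8).toNat, by omega⟩, by simp only; omega⟩
  obtain ⟨a, ha⟩ := h2
  choose b hb using h8
  exact ⟨(a, b), ha, hb⟩

/-- the points over the rational numbers and over `ℚ₂` -/
theorem eval_cA (R : Type*) [CommRing R] (a : MvPolynomial (Fin (m + 1)) ℤ)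
    (r : Fin (m + 1) → ℤ) : MvPolynomial.eval (fun i => (r i : R)) (cA R a) =
      ((MvPolynomial.eval r (cA ℤ a) : ℤ) : R) := by
  rw [← cA_map (Int.castRingHom R)]
  exact (MvPolynomial.map_eval (Int.castRingHom R) r (cA ℤ a)).symm

theorem eval_cB (R : Type*) [CommRing R] (b : MvPolynomial (Fin (m + 1)) ℤ)
    (r : Fin (m + 1) → ℤ) : MvPolynomial.eval (fun i => (r i : R)) (cB R b) =
      ((MvPolynomial.eval r (cB ℤ b) : ℤ) : R) := by
  rw [← cB_map (Int.castRingHom R)]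
  exact (MvPolynomial.map_eval (Int.castRingHom R) r (cB ℤ b)).symm

theorem eval_fc (R : Type*) [CommRing R] (g : MvPolynomial (Fin (m + 1)) ℤ)
    (r : Fin (m + 1) → ℤ) : MvPolynomial.eval (fun i => (r i : R)) (fc R g) =
      ((MvPolynomial.eval r (fc ℤ g) : ℤ) : R) := by
  rw [← fc_map (Int.castRingHom R)]
  exact (MvPolynomial.map_eval (Int.castRingHom R) r (fc ℤ g)).symm

/-- **A criterion.** -/
theorem dense_of {a b g : MvPolynomial (Fin (m + 1)) ℤ} (ha : ∀ i, a.degreeOf i ≤ 4)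
    (hb : ∀ i, b.degreeOf i ≤ 4) (hg : ∀ i, g.degreeOf i ≤ 4)
    (hpts : ∀ r : Fin (m + 1) → ℤ, (8 : ℤ) ∣ MvPolynomial.eval r (mem g) - 1 →
      ∃ (p : Fin (m + 1) → ℤ) (τ v : ℤ), (∀ i, (8 : ℤ) ∣ r i - p i) ∧
        v ^ 2 = MvPolynomial.eval p (cA ℤ a) * τ ^ 2 + MvPolynomial.eval p (cB ℤ b) * τ +
          MvPolynomial.eval p (fc ℤ g))
    {z : Fin (m + 1) → ℚ_[2]} {t w' : ℚ_[2]}
    (hw : w' ^ 2 = MvPolynomial.eval z (slice (cA ℚ_[2] a) (cB ℚ_[2] b) (fc ℚ_[2] g) t))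
    {η : ℝ} (hη : 0 < η) :
    ∃ (x : Fin (m + 1) → ℚ) (t₁ w₁ : ℚ),
      w₁ ^ 2 = MvPolynomial.eval x (slice (cA ℚ a) (cB ℚ b) (fc ℚ g) t₁) ∧
      (∀ i, ‖algebraMap ℚ ℚ_[2] (x i) - z i‖ < η) ∧ ‖algebraMap ℚ ℚ_[2] t₁ - t‖ < η ∧
        ‖algebraMap ℚ ℚ_[2] w₁ - w'‖ < η := by
  obtain ⟨hz, -, h8⟩ := pt_b ha hb hg hw
  obtain ⟨-, hw1, -⟩ := (cls_b ha hb hg).2.2 z t w' hw
  have hw0 : w' ≠ 0 := by
    intro h0
    rw [h0, norm_zero] at hw1
    exact zero_ne_one hw1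
  obtain ⟨u, hu1, -⟩ := sqrt_one (v := MvPolynomial.eval z (fc ℚ_[2] g) / w' ^ 2) (by
    have e : MvPolynomial.eval z (fc ℚ_[2] g) / w' ^ 2 - 1 =
        (MvPolynomial.eval z (fc ℚ_[2] g) - w' ^ 2) / w' ^ 2 := by
      field_simp
    rw [e, norm_div, norm_pow, hw1, one_pow, div_one]
    exact h8)
  have hS : OnCover (fc ℚ_[2] g) (z, w' * u) := by
    change (w' * u) ^ 2 = MvPolynomial.eval z (fc ℚ_[2] g)
    rw [mul_pow, hu1, mul_div_cancel₀ _ (pow_ne_zero 2 hw0)]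
  obtain ⟨r, hr, hr8⟩ := near_int hg hS
  obtain ⟨p, τ, v, h4, h5⟩ := hpts r hr8
  have hA : (cA ℚ a).map (algebraMap ℚ ℚ_[2]) = cA ℚ_[2] a := cA_map _ _
  have hB : (cB ℚ b).map (algebraMap ℚ ℚ_[2]) = cB ℚ_[2] b := cB_map _ _
  have hG : (fc ℚ g).map (algebraMap ℚ ℚ_[2]) = fc ℚ_[2] g := fc_map _ _
  have h := cls_b ha hb hg
  rw [← hA, ← hB, ← hG] at h hw
  refine level_b (Nat.succ_ne_zero m) h (z := fun i => (p i : ℚ)) (t₀ := (τ : ℚ))
    (w₀ := (v : ℚ)) ?_ hw (fun i => ?_) hη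
  · rw [slice_eval, eval_cA, eval_cB, eval_fc]
    exact_mod_cast h5
  · have h2 := (norm_int8 _).2 (h4 i)
    have e : z i - algebraMap ℚ ℚ_[2] ((p i : ℤ) : ℚ) =
        (z i - (r i : ℚ_[2])) + ((r i - p i : ℤ) : ℚ_[2]) := by
      rw [map_intCast]
      push_cast
      ring
    rw [e]
    exact an (hr i) h2

/-- **Conic bundles with a dense set of rational points.** -/
theorem dense_c (hm : 2 * 8 ^ m ≤ 3 * 5 ^ (m + 1)) (c₀ : Fin 3 × (Fin (m + 1) → Fin 5) → ℤ)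
    (M : ℕ) : ∃ c : Fin 3 × (Fin (m + 1) → Fin 5) → ℤ,
      (∀ e, (2 : ℤ) ^ (M + 1) ∣ c e - c₀ e) ∧
      ∀ (z : Fin (m + 1) → ℚ_[2]) (t w : ℚ_[2]), w ^ 2 = MvPolynomial.eval z
        (slice (cA ℚ_[2] (gp fun e => c (2, e))) (cB ℚ_[2] (gp fun e => c (1, e)))
          (fc ℚ_[2] (gp fun e => c (0, e))) t) → ∀ η : ℝ, 0 < η →
        ∃ (x : Fin (m + 1) → ℚ) (t₁ w₁ : ℚ), w₁ ^ 2 = MvPolynomial.eval x
          (slice (cA ℚ (gp fun e => c (2, e))) (cB ℚ (gp fun e => c (1, e)))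
            (fc ℚ (gp fun e => c (0, e))) t₁) ∧
          (∀ i, ‖algebraMap ℚ ℚ_[2] (x i) - z i‖ < η) ∧ ‖algebraMap ℚ ℚ_[2] t₁ - t‖ < η ∧
            ‖algebraMap ℚ ℚ_[2] w₁ - w‖ < η := by
  classical
  set T : Finset (Fin 2 × (Fin m → Fin 8)) := Finset.univ.filter fun j =>
    ∃ x, mt j x ∧ (8 : ℤ) ∣ MvPolynomial.eval x (mem (gp fun e => c₀ (0, e))) - 1 with hT
  have hex : ∀ j, ∃ x : Fin (m + 1) → ℤ, j ∈ T →
      mt j x ∧ (8 : ℤ) ∣ MvPolynomial.eval x (mem (gp fun e => c₀ (0, e))) - 1 := by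
    intro j
    by_cases h : j ∈ T
    · obtain ⟨x, hx⟩ := (Finset.mem_filter.1 h).2
      exact ⟨x, fun _ => hx⟩
    · exact ⟨0, fun h' => absurd h' h⟩
  choose cl hcl using hex
  have hcard : T.card ≤ Fintype.card (Fin 3 × (Fin (m + 1) → Fin 5)) := by
    refine (Finset.card_filter_le _ _).trans ?_
    simp only [Finset.card_univ, Fintype.card_prod, Fintype.card_fin, Fintype.card_pi,
      Finset.prod_const]
    exact hm
  obtain ⟨c, p, w, hc, hp⟩ := interp' mon bb nr mon_near mon_dvd c₀ (fun j => (cl j, 0)) M T (by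
    intro j hj
    rw [Fv_eq, ← mem_eq]
    simpa using (hcl j hj).2) hcard
  refine ⟨c, hc, fun z t w' hw η hη => ?_⟩
  refine dense_of (gp_deg fun e => c (2, e)) (gp_deg fun e => c (1, e)) (gp_deg fun e => c (0, e))
    (fun r hr8 => ?_) hw hη
  have hr0 : (8 : ℤ) ∣ MvPolynomial.eval r (mem (gp fun e => c₀ (0, e))) - 1 := by
    have := mem_dvd (c := fun e => c (0, e)) (c' := fun e => c₀ (0, e))
      (fun e => (dvd_pow_self 2 (Nat.succ_ne_zero M)).trans (hc (0, e))) r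
    omega
  obtain ⟨j, hj⟩ := mt_exists r
  have hjT : j ∈ T := Finset.mem_filter.2 ⟨Finset.mem_univ _, r, hj, hr0⟩
  obtain ⟨h1, h2⟩ := hcl j hjT
  have h3 : ∀ i, (8 : ℤ) ∣ cl j i - r i := by
    refine uniq (g := gp fun e => c₀ (0, e)) ?_ (fun i => ?_) ?_
    · have := h1.1
      have := hj.1
      omega
    · have := h1.2 i
      have := hj.2 i
      omega
    · omega
  obtain ⟨⟨h4, -⟩, h5⟩ := hp j hjT
  rw [Fv_eq] at h5
  refine ⟨(p j).1, (p j).2, w j, fun i => ?_, h5⟩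
  have := h3 i
  have h7 : (8 : ℤ) ∣ (p j).1 i - cl j i := h4 i
  omega

end res

end Pool.Agent.Run7.h587.Ad
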