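import Pool.Agent.Run7.h587.Ad.Ce

/-!
# An explicit conic bundle surface with a dense set of rational points
-/

set_option autoImplicit false

open Pool.Agent.Y720.MZ Pool.Agent.Y718.X Filter Topology
open Pool.Agent.Q35.ZC (OnCover image dist_image)

namespace Pool.Agent.Run7.h587.Ad

section poly

open Polynomial

/-- the discriminant -/
noncomputable def Dz : ℤ[X] := C (-20) * X ^ 8 + C 144 * X ^ 7 + C (-204) * X ^ 6 +
  C (-60) * X ^ 5 + C 297 * X ^ 4 + C (-186) * X ^ 3 + C (-39) * X ^ 2 + C 120 * X + C 24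

theorem Dz_deg : Dz.natDegree = 8 := by
  unfold Dz
  compute_degree!

theorem Dz_coeff : Dz.coeff 0 = 24 ∧ Dz.coeff 1 = 120 ∧ Dz.coeff 2 = -39 ∧ Dz.coeff 3 = -186 ∧
    Dz.coeff 4 = 297 ∧ Dz.coeff 5 = -60 ∧ Dz.coeff 6 = -204 ∧ Dz.coeff 7 = 144 ∧
    Dz.coeff 8 = -20 := by
  unfold Dz
  refine ⟨?_, ?_, ?_, ?_, ?_, ?_, ?_, ?_, ?_⟩ <;>
  simp [coeff_X, coeff_C, -eq_intCast]

theorem Dz_prim : Dz.IsPrimitive := by
  intro r hr
  have h2 := (C_dvd_iff_dvd_coeff r Dz).1 hr 2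
  have h8 := (C_dvd_iff_dvd_coeff r Dz).1 hr 8
  obtain ⟨-, -, c2, -, -, -, -, -, c8⟩ := Dz_coeff
  rw [c2] at h2
  rw [c8] at h8
  have : r ∣ 1 := by
    have h := dvd_sub (h8.mul_right (-2)) h2.neg_right
    norm_num at h
    exact h
  exact isUnit_of_dvd_one this

theorem Dz_irr : Irreducible Dz := by
  have hp : (Ideal.span {(3 : ℤ)}).IsPrime := by
    rw [Ideal.span_singleton_prime (by norm_num)]
    exact Int.prime_three
  have hdeg : Dz.degree = 8 := by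
    rw [degree_eq_natDegree, Dz_deg]
    · rfl
    · intro h
      have := Dz_deg
      rw [h, natDegree_zero] at this
      omega
  obtain ⟨c0, c1, c2, c3, c4, c5, c6, c7, c8⟩ := Dz_coeff
  refine irreducible_of_eisenstein_criterion hp ?_ ?_ ?_ ?_ Dz_prim
  · rw [leadingCoeff, Dz_deg, c8, Ideal.mem_span_singleton]
    norm_num
  · intro n hn
    rw [hdeg] at hn
    have hn' : n < 8 := by exact_mod_cast hn
    rw [Ideal.mem_span_singleton]
    interval_cases n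
    · rw [c0]; norm_num
    · rw [c1]; norm_num
    · rw [c2]; norm_num
    · rw [c3]; norm_num
    · rw [c4]; norm_num
    · rw [c5]; norm_num
    · rw [c6]; norm_num
    · rw [c7]; norm_num
  · rw [hdeg]
    norm_num
  · rw [c0, Ideal.span_singleton_pow, Ideal.mem_span_singleton]
    norm_num

theorem Dz_irr_rat : Irreducible (Dz.map (Int.castRingHom ℚ)) :=
  (IsPrimitive.Int.irreducible_iff_irreducible_map_cast Dz_prim).1 Dz_irr

theorem Dz_deg_rat : (Dz.map (Int.castRingHom ℚ)).natDegree = 8 := by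
  rw [natDegree_map_eq_of_injective Int.cast_injective, Dz_deg]

end poly

section ex

open MvPolynomial

/-- the parameters of the example -/
noncomputable def xa : MvPolynomial (Fin 1) ℤ := C (-3) * X 0 ^ 3 + C (-3) * X 0 ^ 2 + C (-1)

/-- the parameters of the example -/
noncomputable def xb : MvPolynomial (Fin 1) ℤ :=
  C 1 * X 0 ^ 4 + C (-1) * X 0 ^ 2 + C (-1) * X 0 ^ 1 + C (-2)

/-- the parameters of the example -/
noncomputable def xg : MvPolynomial (Fin 1) ℤ :=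
  C (-3) * X 0 ^ 3 + C (-1) * X 0 ^ 2 + C (-1) * X 0 ^ 1 + C (-2)

theorem deg_mon (k : ℤ) (j : ℕ) (hj : j ≤ 4) (i : Fin 1) :
    (C k * X 0 ^ j : MvPolynomial (Fin 1) ℤ).degreeOf i ≤ 4 := by
  refine (degreeOf_mul_le _ _ _).trans ?_
  rw [degreeOf_C, zero_add]
  refine (degreeOf_pow_le _ _ _).trans ?_
  rw [degreeOf_X]
  split_ifs <;> omega

theorem deg_C (k : ℤ) (i : Fin 1) : (C k : MvPolynomial (Fin 1) ℤ).degreeOf i ≤ 4 := by
  rw [degreeOf_C]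
  exact Nat.zero_le _

theorem deg_sum {f g : MvPolynomial (Fin 1) ℤ} {i : Fin 1} (hf : f.degreeOf i ≤ 4)
    (hg : g.degreeOf i ≤ 4) : (f + g).degreeOf i ≤ 4 :=
  (degreeOf_add_le _ _ _).trans (max_le hf hg)

theorem xa_deg (i : Fin 1) : xa.degreeOf i ≤ 4 :=
  deg_sum (deg_sum (deg_mon _ _ (by norm_num) i) (deg_mon _ _ (by norm_num) i)) (deg_C _ i)

theorem xb_deg (i : Fin 1) : xb.degreeOf i ≤ 4 :=
  deg_sum (deg_sum (deg_sum (deg_mon _ _ (by norm_num) i) (deg_mon _ _ (by norm_num) i))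
    (deg_mon _ _ (by norm_num) i)) (deg_C _ i)

theorem xg_deg (i : Fin 1) : xg.degreeOf i ≤ 4 :=
  deg_sum (deg_sum (deg_sum (deg_mon _ _ (by norm_num) i) (deg_mon _ _ (by norm_num) i))
    (deg_mon _ _ (by norm_num) i)) (deg_C _ i)

theorem xa_eval (r : Fin 1 → ℤ) : eval r (cA ℤ xa) =
    3 * r 0 ^ 4 - 6 * r 0 ^ 3 - 3 * r 0 ^ 2 + 6 * r 0 - 1 := by
  simp [cA, xa]
  ring

theorem xb_eval (r : Fin 1 → ℤ) : eval r (cB ℤ xb) =
    4 * r 0 ^ 4 - 3 * r 0 ^ 2 - 3 * r 0 - 6 := by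
  simp [cB, xb]
  ring

theorem xg_eval (r : Fin 1 → ℤ) : eval r (mem xg) =
    3 * r 0 ^ 4 - 6 * r 0 ^ 3 + 6 * r 0 ^ 2 + 3 * r 0 - 3 := by
  simp [mem, xg]
  ring

theorem ex_res : ∀ r : Fin 8, (3 * (r : ℤ) ^ 4 - 6 * (r : ℤ) ^ 3 + 6 * (r : ℤ) ^ 2 +
    3 * (r : ℤ) - 3 - 1) % 8 = 0 → (r : ℕ) = 4 ∨ (r : ℕ) = 7 := by decide

theorem ex_pts (r : Fin 1 → ℤ) (h : (8 : ℤ) ∣ eval r (mem xg) - 1) :
    ∃ (p : Fin 1 → ℤ) (τ v : ℤ), (∀ i, (8 : ℤ) ∣ r i - p i) ∧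
      v ^ 2 = eval p (cA ℤ xa) * τ ^ 2 + eval p (cB ℤ xb) * τ + eval p (fc ℤ xg) := by
  obtain ⟨a, ha⟩ : ∃ a : Fin 8, (8 : ℤ) ∣ r 0 - (a : ℕ) :=
    ⟨⟨(r 0 % 8).toNat, by omega⟩, by simp only; omega⟩
  have h1 : (8 : ℤ) ∣ eval r (mem xg) - eval (fun _ => ((a : ℕ) : ℤ)) (mem xg) := by
    apply eval_dvd (N := 8)
    intro i
    fin_cases i
    exact ha
  have h2 : (8 : ℤ) ∣ eval (fun _ => ((a : ℕ) : ℤ)) (mem xg) - 1 := by omega
  rw [xg_eval] at h2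
  rcases ex_res a (by
    have := Int.emod_eq_zero_of_dvd h2
    exact this) with h3 | h3
  · refine ⟨fun _ => 4, -2, 3, fun i => ?_, ?_⟩
    · fin_cases i
      rw [h3] at ha
      exact ha
    · rw [← mem_eq, xa_eval, xb_eval, xg_eval]
      norm_num
  · refine ⟨fun _ => -1, 0, 3, fun i => ?_, ?_⟩
    · fin_cases i
      rw [h3] at ha
      change (8 : ℤ) ∣ r 0 - -1
      omega
    · rw [← mem_eq, xa_eval, xb_eval, xg_eval]
      norm_num

end ex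

end Pool.Agent.Run7.h587.Ad
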