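import Pool.Agent.Run7.h587.Ad.Cf

/-!
# Conic bundle surfaces with an irreducible discriminant
-/

set_option autoImplicit false

open Pool.Agent.Y720.MZ Pool.Agent.Y718.X Filter Topology
open Pool.Agent.Q35.ZC (OnCover image dist_image)

namespace Pool.Agent.Run7.h587.Ad

/-! ### squares modulo the powers of six -/

theorem sqrt_three {a : ℤ} (ha : (3 : ℤ) ∣ a - 1) (k : ℕ) :
    ∃ w : ℤ, w % 3 = 1 ∧ (3 : ℤ) ^ (k + 1) ∣ w ^ 2 - a := by
  induction k with
  | zero =>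
    refine ⟨1, by norm_num, ?_⟩
    obtain ⟨t, ht⟩ := ha
    exact ⟨-t, by norm_num; omega⟩
  | succ k ih =>
    obtain ⟨w, hw, t, ht⟩ := ih
    refine ⟨w + 3 ^ (k + 1) * t, ?_, t * ((1 + 2 * w) / 3) + 3 ^ k * t ^ 2, ?_⟩
    · have : (3 : ℤ) ^ (k + 1) * t = 3 * (3 ^ k * t) := by ring
      rw [this]
      omega
    · have h3 : 1 + 2 * w = 3 * ((1 + 2 * w) / 3) := by omega
      have e : (w + 3 ^ (k + 1) * t) ^ 2 - a = (w ^ 2 - a) + 2 * 3 ^ (k + 1) * t * w +
        3 ^ (k + 1) * 3 ^ (k + 1) * t ^ 2 := by ring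
      rw [e, ht]
      linear_combination 3 ^ (k + 1) * t * h3

theorem sqrt_six {a : ℤ} (ha : (24 : ℤ) ∣ a - 1) (k : ℕ) : ∃ w : ℤ, (6 : ℤ) ^ k ∣ w ^ 2 - a := by
  obtain ⟨u, -, hu⟩ := sqrt_pow ((by norm_num : (8 : ℤ) ∣ 24).trans ha) k
  obtain ⟨v, -, hv⟩ := sqrt_three ((by norm_num : (3 : ℤ) ∣ 24).trans ha) k
  have hc : IsCoprime ((2 : ℤ) ^ k) (3 ^ k) := IsCoprime.pow ⟨-1, 1, by norm_num⟩
  obtain ⟨x, y, hxy⟩ := hc
  refine ⟨u * y * 3 ^ k + v * x * 2 ^ k, ?_⟩
  have h6 : (6 : ℤ) ^ k = 2 ^ k * 3 ^ k := by rw [← mul_pow]; norm_num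
  rw [h6]
  refine IsCoprime.mul_dvd ⟨x, y, hxy⟩ ?_ ?_
  · have h1 : (2 : ℤ) ^ k ∣ u ^ 2 - a := (pow_dvd_pow 2 (Nat.le_add_right k 3)).trans hu
    obtain ⟨s, hs⟩ := h1
    refine ⟨s + x * (v - u) * (u * y * 3 ^ k + v * x * 2 ^ k + u), ?_⟩
    have e : u * y * 3 ^ k + v * x * 2 ^ k = u + 2 ^ k * (x * (v - u)) := by
      linear_combination u * hxy
    linear_combination hs + (u * y * 3 ^ k + v * x * 2 ^ k + u) * e
  · have h1 : (3 : ℤ) ^ k ∣ v ^ 2 - a := (pow_dvd_pow 3 (Nat.le_add_right k 1)).trans hv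
    obtain ⟨s, hs⟩ := h1
    refine ⟨s + y * (u - v) * (u * y * 3 ^ k + v * x * 2 ^ k + v), ?_⟩
    have e : u * y * 3 ^ k + v * x * 2 ^ k = v + 3 ^ k * (y * (u - v)) := by
      linear_combination v * hxy
    linear_combination hs + (u * y * 3 ^ k + v * x * 2 ^ k + v) * e

theorem step6 {F H : ℤ} (hF : (24 : ℤ) ∣ F - 1) (hH : H ≠ 0) (M : ℕ) :
    ∃ s k₁ k₂ w : ℤ, s ^ 2 - 1 = 6 ^ M * k₁ ∧ s ^ 2 * F + 6 ^ M * k₂ * H = w ^ 2 := by
  obtain ⟨v, u, d, hd2, hd3, hv⟩ : ∃ (v u : ℕ) (d : ℤ), ¬ (2 : ℤ) ∣ d ∧ ¬ (3 : ℤ) ∣ d ∧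
      H = 2 ^ v * (3 ^ u * d) := by
    obtain ⟨v, m, hm, hv⟩ := Nat.exists_eq_pow_mul_and_not_dvd (Int.natAbs_ne_zero.2 hH) 2
      (by norm_num)
    have hm0 : m ≠ 0 := by
      rintro rfl
      exact hm (dvd_zero 2)
    obtain ⟨u, l, hl, hu⟩ := Nat.exists_eq_pow_mul_and_not_dvd hm0 3 (by norm_num)
    have hl2 : ¬ 2 ∣ l := fun h => hm (by rw [hu]; exact h.mul_left _)
    rcases Int.natAbs_eq H with h | h
    · refine ⟨v, u, l, by omega, by omega, ?_⟩
      rw [h, hv, hu]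
      push_cast
      ring
    · refine ⟨v, u, -l, by omega, by omega, ?_⟩
      rw [h, hv, hu]
      push_cast
      ring
  obtain ⟨a, b, hab⟩ : IsCoprime ((6 : ℤ) ^ M) d := by
    apply IsCoprime.pow_left
    rw [Int.isCoprime_iff_gcd_eq_one]
    have h6 : Int.gcd 6 d ∣ 6 := by
      have := Int.gcd_dvd_left 6 d
      exact_mod_cast this
    have hdd : ((Int.gcd 6 d : ℕ) : ℤ) ∣ d := Int.gcd_dvd_right 6 d
    have hle : Int.gcd 6 d ≤ 6 := Nat.le_of_dvd (by norm_num) h6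
    generalize Int.gcd 6 d = g at *
    interval_cases g <;> first | rfl | (exfalso; revert h6; decide) | skip
    · exact absurd hdd hd2
    · exact absurd hdd hd3
    · exact absurd ((by norm_num : (2 : ℤ) ∣ 6).trans hdd) hd2
  obtain ⟨w, t, ht⟩ := sqrt_six hF (M + v + u)
  refine ⟨d * b, -a * (d * b + 1), 2 ^ u * 3 ^ v * t * d * b ^ 2, d * b * w, ?_, ?_⟩
  · have : d * b = 1 - a * 6 ^ M := by linear_combination hab
    linear_combination (d * b + 1) * this
  · rw [hv]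
    have e : w ^ 2 = F + 6 ^ (M + v + u) * t := by linear_combination ht
    have e' : (d * b * w) ^ 2 = (d * b) ^ 2 * w ^ 2 := by ring
    have e6 : (6 : ℤ) ^ (M + v + u) = 6 ^ M * (2 ^ v * 3 ^ v * (2 ^ u * 3 ^ u)) := by
      rw [pow_add, pow_add, ← mul_pow, ← mul_pow]
      norm_num
      ring
    rw [e', e, e6]
    ring

/-! ### interpolation -/

section abs

variable {E X ι : Type} [Fintype E]

theorem interp6 (m : E → X → ℤ) (b : E → ℤ) (near : X → X → Prop)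
    (hnear : ∀ h : E → ℤ, h ≠ 0 → ∀ x, ∃ q, near q x ∧ ∑ e, h e * m e q ≠ 0)
    (hdvd : ∀ q x, near q x → ∀ e, (24 : ℤ) ∣ m e q - m e x)
    (c₀ : E → ℤ) (cl : ι → X) (M : ℕ) (T : Finset ι)
    (h8 : ∀ j ∈ T, (24 : ℤ) ∣ Fv m b c₀ (cl j) - 1) (hT : T.card ≤ Fintype.card E) :
    ∃ (c : E → ℤ) (p : ι → X) (w : ι → ℤ), (∀ e, (6 : ℤ) ^ (M + 1) ∣ c e - c₀ e) ∧
      ∀ j ∈ T, near (p j) (cl j) ∧ w j ^ 2 = Fv m b c (p j) := by
  classical
  induction T using Finset.induction_on with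
  | empty =>
    exact ⟨c₀, cl, 0, fun e => by rw [sub_self]; exact dvd_zero _,
      fun j hj => absurd hj (Finset.notMem_empty j)⟩
  | insert j₀ T hj₀ ih =>
    rw [Finset.card_insert_of_notMem hj₀] at hT
    obtain ⟨c, p, w, hc, hp⟩ := ih (fun j hj => h8 j (Finset.mem_insert_of_mem hj)) (by omega)
    obtain ⟨h, hne, hh⟩ := exists_h' m T p (by omega)
    obtain ⟨q, hq, hqe⟩ := hnear h hne (cl j₀)
    have hF : (24 : ℤ) ∣ Fv m b c q - 1 := by
      have h1 : (24 : ℤ) ∣ Fv m b c q - Fv m b c (cl j₀) := by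
        unfold Fv
        rw [← Finset.sum_sub_distrib]
        refine Finset.dvd_sum fun e _ => ?_
        rw [← mul_sub]
        exact (hdvd _ _ hq e).mul_left _
      have h2 : (24 : ℤ) ∣ Fv m b c (cl j₀) - Fv m b c₀ (cl j₀) := by
        unfold Fv
        rw [← Finset.sum_sub_distrib]
        refine Finset.dvd_sum fun e _ => ?_
        obtain ⟨t, ht⟩ := (dvd_pow_self (6 : ℤ) (Nat.succ_ne_zero M)).trans (hc e)
        refine ⟨t * m e (cl j₀), ?_⟩
        linear_combination (4 * m e (cl j₀)) * ht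
      have h3 := h8 j₀ (Finset.mem_insert_self _ _)
      omega
    obtain ⟨s, k₁, k₂, w₀, e1, e2⟩ := step6 hF hqe (M + 3)
    set c' : E → ℤ := fun e =>
      c e + (6 : ℤ) ^ (M + 1) * (9 * (4 * k₁ * c e + k₁ * b e + k₂ * h e)) with hc'
    have hm : ∀ x, Fv m b c' x = s ^ 2 * Fv m b c x + 6 ^ (M + 3) * k₂ * ∑ e, h e * m e x := by
      intro x
      unfold Fv
      rw [Finset.mul_sum, Finset.mul_sum, ← Finset.sum_add_distrib]
      refine Finset.sum_congr rfl fun e _ => ?_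
      rw [show s ^ 2 = 1 + 6 ^ (M + 3) * k₁ by linear_combination e1]
      simp only [hc']
      ring
    refine ⟨c', fun j => if j = j₀ then q else p j, fun j => if j = j₀ then w₀ else s * w j,
      fun e => ?_, fun j hj => ?_⟩
    · have : c' e - c₀ e = (c e - c₀ e) +
          6 ^ (M + 1) * (9 * (4 * k₁ * c e + k₁ * b e + k₂ * h e)) := by
        simp only [hc']
        ring
      rw [this]
      exact dvd_add (hc e) (Dvd.intro _ rfl)
    · by_cases hj' : j = j₀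
      · subst hj'
        simp only [if_pos]
        refine ⟨hq, ?_⟩
        rw [hm, ← e2]
      · simp only [if_neg hj']
        have hjT : j ∈ T := (Finset.mem_insert.1 hj).resolve_left hj'
        refine ⟨(hp j hjT).1, ?_⟩
        rw [hm, hh j hjT, mul_pow, (hp j hjT).2]
        ring

end abs

/-! ### the monomials -/

section mon

variable {n : ℕ}

/-- congruent points -/
def nr24 (q x : (Fin n → ℤ) × ℤ) : Prop :=
  (∀ i, (24 : ℤ) ∣ q.1 i - x.1 i) ∧ (24 : ℤ) ∣ q.2 - x.2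

theorem exists_lift24 (c : Fin n → ℤ) {F : MvPolynomial (Fin n) ℤ} (hF : F ≠ 0) :
    ∃ p : Fin n → ℤ, (∀ i, (24 : ℤ) ∣ p i - c i) ∧ MvPolynomial.eval p F ≠ 0 := by
  by_contra hcon
  push Not at hcon
  apply hF
  apply MvPolynomial.funext_set (fun i : Fin n => Set.range fun t : ℤ => c i + 24 * t)
  · intro i
    apply Set.infinite_range_of_injective
    intro a b hab
    simp only at hab
    omega
  · intro x hx
    rw [map_zero]
    apply hcon
    intro i
    obtain ⟨t, ht⟩ := hx i (Set.mem_univ _)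
    simp only at ht
    exact ⟨t, by omega⟩

theorem mon_near24 (h : Fin 3 × (Fin n → Fin 5) → ℤ) (hh : h ≠ 0) (x : (Fin n → ℤ) × ℤ) :
    ∃ q, nr24 q x ∧ ∑ e, h e * mon e q ≠ 0 := by
  obtain ⟨k, hk⟩ : ∃ k : Fin 3, (fun e => h (k, e)) ≠ 0 := by
    by_contra hcon
    push Not at hcon
    apply hh
    funext ⟨k, e⟩
    exact congrFun (hcon k) e
  obtain ⟨q, hq, hqe⟩ := exists_lift24 x.1 (gp_ne hk)
  set P : ℤ → ℤ := fun t => MvPolynomial.eval q (gp fun e => h (2, e)) * t ^ 2 +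
      MvPolynomial.eval q (gp fun e => h (1, e)) * t +
      MvPolynomial.eval q (gp fun e => h (0, e)) with hP
  obtain ⟨t, ht, hPt⟩ : ∃ t, (24 : ℤ) ∣ t - x.2 ∧ P t ≠ 0 := by
    by_contra hcon
    push Not at hcon
    have p0 := hcon x.2 (by simp)
    have p1 := hcon (x.2 + 24) (by simp)
    have p2 := hcon (x.2 + 48) ⟨2, by ring⟩
    simp only [hP] at p0 p1 p2
    have q2 : MvPolynomial.eval q (gp fun e => h (2, e)) = 0 := by
      have : 1152 * MvPolynomial.eval q (gp fun e => h (2, e)) = 0 := by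
        linear_combination p2 - 2 * p1 + p0
      omega
    have q1 : MvPolynomial.eval q (gp fun e => h (1, e)) = 0 := by
      rw [q2] at p0 p1
      have : 24 * MvPolynomial.eval q (gp fun e => h (1, e)) = 0 := by
        linear_combination p1 - p0
      omega
    have q0 : MvPolynomial.eval q (gp fun e => h (0, e)) = 0 := by
      rw [q2, q1] at p0
      linear_combination p0
    apply hqe
    fin_cases k
    · exact q0
    · exact q1
    · exact q2
  refine ⟨(q, t), ⟨hq, ht⟩, ?_⟩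
  rw [sum_mon]
  exact hPt

theorem mon_dvd24 (q x : (Fin n → ℤ) × ℤ) (h : nr24 q x) (e : Fin 3 × (Fin n → Fin 5)) :
    (24 : ℤ) ∣ mon e q - mon e x := by
  have h1 : (24 : ℤ) ∣ q.2 ^ (e.1 : ℕ) - x.2 ^ (e.1 : ℕ) := h.2.trans (sub_dvd_pow_sub_pow _ _ _)
  have h2 : (24 : ℤ) ∣ ∏ i, q.1 i ^ (e.2 i : ℕ) - ∏ i, x.1 i ^ (e.2 i : ℕ) := by
    have := eval_dvd (N := 24) h.1 (∏ i, MvPolynomial.X i ^ (e.2 i : ℕ))
    simpa using this
  unfold mon
  obtain ⟨a, ha⟩ := h1
  obtain ⟨b, hb⟩ := h2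
  refine ⟨a * ∏ i, q.1 i ^ (e.2 i : ℕ) + x.2 ^ (e.1 : ℕ) * b, ?_⟩
  linear_combination (∏ i, q.1 i ^ (e.2 i : ℕ)) * ha + x.2 ^ (e.1 : ℕ) * hb

end mon

/-! ### the discriminant -/

section disc

open Polynomial

theorem eis {E : ℤ[X]} (hE : E.natDegree ≤ 8) (h0 : ¬ (3 : ℤ) ∣ E.coeff 0) :
    Irreducible ((X ^ 8 + C 3 * E).map (Int.castRingHom ℚ)) ∧
      ((X ^ 8 + C 3 * E).map (Int.castRingHom ℚ)).natDegree = 8 := by
  set D : ℤ[X] := X ^ 8 + C 3 * E with hD
  have hc : ∀ k, D.coeff k = (if k = 8 then 1 else 0) + 3 * E.coeff k := by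
    intro k
    rw [hD, coeff_add, coeff_X_pow, coeff_C_mul]
  have hc8 : D.coeff 8 ≠ 0 := by
    rw [hc, if_pos rfl]
    omega
  have hdeg : D.natDegree = 8 := by
    refine le_antisymm ?_ (le_natDegree_of_ne_zero hc8)
    refine (natDegree_add_le _ _).trans (max_le (natDegree_X_pow_le 8) ?_)
    exact (natDegree_C_mul_le _ _).trans hE
  have hD0 : D ≠ 0 := by
    intro h
    rw [h, coeff_zero] at hc8
    exact hc8 rfl
  -- the content
  set κ : ℤ := D.content with hκ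
  have hκD : D = C κ * D.primPart := D.eq_C_content_mul_primPart
  have hκ0 : κ ≠ 0 := by
    rw [hκ, Ne, content_eq_zero_iff]
    exact hD0
  have hcp : ∀ k, D.coeff k = κ * D.primPart.coeff k := by
    intro k
    conv_lhs => rw [hκD]
    rw [coeff_C_mul]
  have hκ3 : ¬ (3 : ℤ) ∣ κ := by
    intro h
    have h1 : (3 : ℤ) ∣ D.coeff 8 := by
      rw [hcp]
      exact h.mul_right _
    rw [hc, if_pos rfl] at h1
    omega
  have h3p : Prime (3 : ℤ) := Int.prime_three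
  have hp : (Ideal.span {(3 : ℤ)}).IsPrime := by
    rw [Ideal.span_singleton_prime (by norm_num)]
    exact h3p
  have hpd : D.primPart.natDegree = 8 := by rw [natDegree_primPart, hdeg]
  have hpdeg : D.primPart.degree = 8 := by
    rw [degree_eq_natDegree (primPart_ne_zero D), hpd]
    rfl
  have hpirr : Irreducible D.primPart := by
    refine irreducible_of_eisenstein_criterion hp ?_ ?_ ?_ ?_ D.isPrimitive_primPart
    · rw [leadingCoeff, hpd, Ideal.mem_span_singleton]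
      intro h
      have h1 : (3 : ℤ) ∣ D.coeff 8 := by
        rw [hcp]
        exact h.mul_left _
      rw [hc, if_pos rfl] at h1
      omega
    · intro k hk
      rw [hpdeg] at hk
      have hk' : k < 8 := by exact_mod_cast hk
      rw [Ideal.mem_span_singleton]
      have h1 : (3 : ℤ) ∣ D.coeff k := by
        rw [hc, if_neg hk'.ne, zero_add]
        exact Dvd.intro _ rfl
      rw [hcp] at h1
      exact (h3p.dvd_or_dvd h1).resolve_left hκ3
    · rw [hpdeg]
      norm_num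
    · rw [Ideal.span_singleton_pow, Ideal.mem_span_singleton]
      intro h
      have h1 : (9 : ℤ) ∣ D.coeff 0 := by
        rw [hcp]
        norm_num at h
        exact h.mul_left _
      rw [hc, if_neg (by norm_num), zero_add] at h1
      omega
  have h1 := (IsPrimitive.Int.irreducible_iff_irreducible_map_cast D.isPrimitive_primPart).1 hpirr
  have h2 : D.map (Int.castRingHom ℚ) = C (κ : ℚ) * D.primPart.map (Int.castRingHom ℚ) := by
    conv_lhs => rw [hκD]
    rw [Polynomial.map_mul, map_C]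
    rfl
  refine ⟨?_, ?_⟩
  · rw [h2]
    have hu : IsUnit (C (κ : ℚ)) := isUnit_C.2 (isUnit_iff_ne_zero.2 (by exact_mod_cast hκ0))
    exact (irreducible_isUnit_mul hu).2 h1
  · rw [natDegree_map_eq_of_injective Int.cast_injective, hdeg]

end disc

end Pool.Agent.Run7.h587.Ad
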