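import Pool.Agent.Run7.h587.Ad.Cg

/-!
# Conic bundle surfaces with an irreducible discriminant, continued
-/

set_option autoImplicit false

open Pool.Agent.Y720.MZ Pool.Agent.Y718.X Filter Topology
open Pool.Agent.Q35.ZC (OnCover image dist_image)

namespace Pool.Agent.Run7.h587.Ad

/-- the parameters modulo nine -/
def ptn (e : Fin 3 × (Fin 1 → Fin 5)) : ℤ :=
  (![![4, 2, 2, 0, 0], ![1, 2, 2, 0, 1], ![1, 0, 0, 0, 0]] : Fin 3 → Fin 5 → ℤ) e.1 (e.2 0)

theorem sum_one {R : Type*} [AddCommMonoid R] (F : (Fin 1 → Fin 5) → R) :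
    ∑ e, F e = ∑ i : Fin 5, F fun _ => i := by
  refine Fintype.sum_equiv (Equiv.funUnique (Fin 1) (Fin 5)) _ _ fun e => ?_
  congr 1
  funext i
  rw [Subsingleton.elim i 0]
  rfl

theorem gp_one_eval (c : (Fin 1 → Fin 5) → ℤ) (x : Fin 1 → ℤ) :
    MvPolynomial.eval x (gp c) = ∑ i : Fin 5, c (fun _ => i) * x 0 ^ (i : ℕ) := by
  rw [gp_eval, sum_one]
  simp

section toX

open Polynomial

/-- a polynomial in one variable -/
noncomputable def toX : MvPolynomial (Fin 1) ℤ →ₐ[ℤ] ℤ[X] := MvPolynomial.aeval fun _ => X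

theorem toX_gp (c : (Fin 1 → Fin 5) → ℤ) :
    toX (gp c) = ∑ i : Fin 5, C (c fun _ => i) * X ^ (i : ℕ) := by
  unfold gp
  rw [map_sum, sum_one]
  refine Finset.sum_congr rfl fun i _ => ?_
  simp [toX]

theorem disc_irr {c : Fin 3 × (Fin 1 → Fin 5) → ℤ} (hc : ∀ e, (9 : ℤ) ∣ c e - ptn e) :
    ∃ E : ℤ[X], E.natDegree ≤ 8 ∧ ¬ (3 : ℤ) ∣ E.coeff 0 ∧
      toX (cB ℤ (gp fun e => c (1, e)) ^ 2 -
        4 * cA ℤ (gp fun e => c (2, e)) * fc ℤ (gp fun e => c (0, e))) = X ^ 8 + C 3 * E := by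
  choose q hq using hc
  set Q : Fin 3 → ℤ[X] := fun k => ∑ i : Fin 5, C (q (k, fun _ => i)) * X ^ (i : ℕ) with hQ
  have hQd : ∀ k, (Q k).natDegree ≤ 4 := by
    intro k
    refine natDegree_sum_le_of_forall_le _ _ fun i _ => ?_
    refine (natDegree_C_mul_X_pow_le _ _).trans ?_
    omega
  have e2 : toX (gp fun e => c (2, e)) = 1 + 9 * Q 2 := by
    rw [toX_gp, hQ]
    have : ∀ i : Fin 5, c (2, fun _ => i) = ptn (2, fun _ => i) + 9 * q (2, fun _ => i) :=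
      fun i => by have := hq (2, fun _ => i); omega
    simp only [this, Fin.sum_univ_five, ptn]
    simp
    ring
  have e1 : toX (gp fun e => c (1, e)) = 1 + 2 * X + 2 * X ^ 2 + X ^ 4 + 9 * Q 1 := by
    rw [toX_gp, hQ]
    have : ∀ i : Fin 5, c (1, fun _ => i) = ptn (1, fun _ => i) + 9 * q (1, fun _ => i) :=
      fun i => by have := hq (1, fun _ => i); omega
    simp only [this, Fin.sum_univ_five, ptn]
    simp
    ring
  have e0 : toX (gp fun e => c (0, e)) = 4 + 2 * X + 2 * X ^ 2 + 9 * Q 0 := by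
    rw [toX_gp, hQ]
    have : ∀ i : Fin 5, c (0, fun _ => i) = ptn (0, fun _ => i) + 9 * q (0, fun _ => i) :=
      fun i => by have := hq (0, fun _ => i); omega
    simp only [this, Fin.sum_univ_five, ptn]
    simp
    ring
  have f2 : toX (cA ℤ (gp fun e => c (2, e))) = 3 * (X ^ 2 + X + 1) ^ 2 + 4 * (1 + 9 * Q 2) := by
    unfold cA
    rw [map_self, map_add, map_mul, map_mul, e2]
    simp [toX]
  have f1 : toX (cB ℤ (gp fun e => c (1, e))) = X ^ 2 + X + 2 +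
      4 * (1 + 2 * X + 2 * X ^ 2 + X ^ 4 + 9 * Q 1) := by
    unfold cB
    rw [map_self, map_add, map_mul, e1]
    simp [toX]
  have f0' : toX (fc ℤ (gp fun e => c (0, e))) = 3 * (X ^ 2 + X + 1) ^ 2 + (X ^ 2 + X) + 2 +
      4 * (4 + 2 * X + 2 * X ^ 2 + 9 * Q 0) := by
    unfold fc
    rw [map_self, map_add, map_mul, e0]
    simp [toX, f0]
  set A₁ : ℤ[X] := (X ^ 2 + X + 1) ^ 2 + 1 + C 12 * Q 2 with hA₁
  set B₁ : ℤ[X] := X ^ 4 + C 3 * X ^ 2 + C 3 * X + C 2 + C 12 * Q 1 with hB₁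
  set G₁ : ℤ[X] := (X ^ 2 + X + 1) ^ 2 + C 3 * X ^ 2 + C 3 * X + C 6 + C 12 * Q 0 with hG₁
  have dQ : ∀ k, (C (12 : ℤ) * Q k).natDegree ≤ 4 := fun k =>
    (natDegree_C_mul_le _ _).trans (hQd k)
  have hA : A₁.natDegree ≤ 4 := by
    refine (natDegree_add_le _ _).trans (max_le ?_ (dQ 2))
    compute_degree
  have hB : B₁.natDegree ≤ 4 := by
    refine (natDegree_add_le _ _).trans (max_le ?_ (dQ 1))
    compute_degree
  have hG : G₁.natDegree ≤ 4 := by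
    refine (natDegree_add_le _ _).trans (max_le ?_ (dQ 0))
    compute_degree
  refine ⟨C 2 * X ^ 4 * B₁ + C 3 * B₁ ^ 2 - C 4 * (1 + C 3 * A₁) * G₁, ?_, ?_, ?_⟩
  · have d1 : (C (2 : ℤ) * X ^ 4 * B₁).natDegree ≤ 8 := by
      refine natDegree_mul_le.trans ?_
      have := natDegree_C_mul_X_pow_le (2 : ℤ) 4
      omega
    have d2 : (C (3 : ℤ) * B₁ ^ 2).natDegree ≤ 8 := by
      refine (natDegree_C_mul_le _ _).trans (natDegree_pow_le.trans ?_)
      omega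
    have d3 : (C (4 : ℤ) * (1 + C 3 * A₁) * G₁).natDegree ≤ 8 := by
      refine natDegree_mul_le.trans ?_
      have h1 : (C (4 : ℤ) * (1 + C 3 * A₁)).natDegree ≤ 4 := by
        refine (natDegree_C_mul_le _ _).trans ((natDegree_add_le _ _).trans (max_le ?_ ?_))
        · rw [natDegree_one]; omega
        · exact (natDegree_C_mul_le _ _).trans hA
      omega
    exact (natDegree_sub_le _ _).trans (max_le ((natDegree_add_le _ _).trans (max_le d1 d2)) d3)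
  · have hG0 : eval 0 G₁ = 7 + 12 * eval 0 (Q 0) := by
      simp only [hG₁, eval_add, eval_mul, eval_pow, eval_C, eval_X, eval_one]
      ring
    rw [coeff_zero_eq_eval_zero, Polynomial.eval_sub]
    simp only [eval_add, eval_mul, eval_pow, eval_C, eval_X, eval_one, hG0]
    rintro ⟨s, hs⟩
    have h1 : (28 : ℤ) = 3 * (eval 0 B₁ ^ 2 - 16 * eval 0 (Q 0) -
        4 * eval 0 A₁ * (7 + 12 * eval 0 (Q 0)) - s) := by
      linear_combination -hs
    omega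
  · rw [map_sub, map_mul, map_mul, map_pow, f2, f1, f0']
    have h4 : toX 4 = 4 := map_ofNat _ 4
    rw [h4]
    have c2 : (C (2 : ℤ) : ℤ[X]) = 2 := map_ofNat C 2
    have c3 : (C (3 : ℤ) : ℤ[X]) = 3 := map_ofNat C 3
    have c4 : (C (4 : ℤ) : ℤ[X]) = 4 := map_ofNat C 4
    have c6 : (C (6 : ℤ) : ℤ[X]) = 6 := map_ofNat C 6
    have c12 : (C (12 : ℤ) : ℤ[X]) = 12 := map_ofNat C 12
    rw [hA₁, hB₁, hG₁, c2, c3, c4, c6, c12]
    ring

end toX

/-! ### the points -/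

theorem cA_zero (c : (Fin 1 → Fin 5) → ℤ) :
    MvPolynomial.eval (0 : Fin 1 → ℤ) (cA ℤ (gp c)) = 3 + 4 * c (fun _ => 0) := by
  unfold cA
  have h3 : MvPolynomial.constantCoeff (3 : MvPolynomial (Fin 1) ℤ) = (3 : ℤ) := map_ofNat _ 3
  have h4 : MvPolynomial.constantCoeff (4 : MvPolynomial (Fin 1) ℤ) = (4 : ℤ) := map_ofNat _ 4
  rw [map_self, map_add, map_mul, map_mul, gp_one_eval, Fin.sum_univ_five]
  simp [h3, h4]

theorem cB_zero (c : (Fin 1 → Fin 5) → ℤ) :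
    MvPolynomial.eval (0 : Fin 1 → ℤ) (cB ℤ (gp c)) = 2 + 4 * c (fun _ => 0) := by
  unfold cB
  have h2 : MvPolynomial.constantCoeff (2 : MvPolynomial (Fin 1) ℤ) = (2 : ℤ) := map_ofNat _ 2
  have h4 : MvPolynomial.constantCoeff (4 : MvPolynomial (Fin 1) ℤ) = (4 : ℤ) := map_ofNat _ 4
  rw [map_self, map_add, map_mul, gp_one_eval, Fin.sum_univ_five]
  simp [h2, h4]

theorem fc_zero (c : (Fin 1 → Fin 5) → ℤ) :
    MvPolynomial.eval (0 : Fin 1 → ℤ) (fc ℤ (gp c)) = 5 + 4 * c (fun _ => 0) := by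
  unfold fc f0
  have h2 : MvPolynomial.constantCoeff (2 : MvPolynomial (Fin 1) ℤ) = (2 : ℤ) := map_ofNat _ 2
  have h3 : MvPolynomial.constantCoeff (3 : MvPolynomial (Fin 1) ℤ) = (3 : ℤ) := map_ofNat _ 3
  have h4 : MvPolynomial.constantCoeff (4 : MvPolynomial (Fin 1) ℤ) = (4 : ℤ) := map_ofNat _ 4
  rw [map_self, map_add, map_mul, gp_one_eval, Fin.sum_univ_five]
  simp [h2, h3, h4]

/-- **Surfaces with a dense set of rational points and an irreducible discriminant.** -/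
theorem dense_irr (c₀ : Fin 3 × (Fin 1 → Fin 5) → ℤ) (M : ℕ) :
    ∃ c : Fin 3 × (Fin 1 → Fin 5) → ℤ, (∀ e, (2 : ℤ) ^ (M + 1) ∣ c e - c₀ e) ∧
      (∀ e, (9 : ℤ) ∣ c e - ptn e) ∧
      ∀ (z : Fin 1 → ℚ_[2]) (t w : ℚ_[2]), w ^ 2 = MvPolynomial.eval z
        (slice (cA ℚ_[2] (gp fun e => c (2, e))) (cB ℚ_[2] (gp fun e => c (1, e)))
          (fc ℚ_[2] (gp fun e => c (0, e))) t) → ∀ η : ℝ, 0 < η →
        ∃ (x : Fin 1 → ℚ) (t₁ w₁ : ℚ), w₁ ^ 2 = MvPolynomial.eval x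
          (slice (cA ℚ (gp fun e => c (2, e))) (cB ℚ (gp fun e => c (1, e)))
            (fc ℚ (gp fun e => c (0, e))) t₁) ∧
          (∀ i, ‖algebraMap ℚ ℚ_[2] (x i) - z i‖ < η) ∧ ‖algebraMap ℚ ℚ_[2] t₁ - t‖ < η ∧
            ‖algebraMap ℚ ℚ_[2] w₁ - w‖ < η := by
  classical
  -- the congruences
  obtain ⟨a, b, hab⟩ : IsCoprime ((2 : ℤ) ^ (M + 1)) 9 :=
    IsCoprime.pow_left ⟨-4, 1, by norm_num⟩
  set c₁ : Fin 3 × (Fin 1 → Fin 5) → ℤ := fun e =>
    c₀ e * (b * 9) + ptn e * (a * 2 ^ (M + 1)) with hc₁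
  have hc₁2 : ∀ e, (2 : ℤ) ^ (M + 1) ∣ c₁ e - c₀ e := by
    intro e
    refine ⟨a * (ptn e - c₀ e), ?_⟩
    simp only [hc₁]
    linear_combination c₀ e * hab
  have hc₁9 : ∀ e, (9 : ℤ) ∣ c₁ e - ptn e := by
    intro e
    refine ⟨b * (c₀ e - ptn e), ?_⟩
    simp only [hc₁]
    linear_combination ptn e * hab
  have h2M : (2 : ℤ) ∣ 2 ^ (M + 1) := dvd_pow_self 2 (Nat.succ_ne_zero M)
  set T : Finset (Fin 2 × (Fin 0 → Fin 8)) := Finset.univ.filter fun j =>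
    ∃ x, mt j x ∧ (8 : ℤ) ∣ MvPolynomial.eval x (mem (gp fun e => c₁ (0, e))) - 1 with hT
  have hex : ∀ j, ∃ x : Fin 1 → ℤ, j ∈ T →
      mt j x ∧ (8 : ℤ) ∣ MvPolynomial.eval x (mem (gp fun e => c₁ (0, e))) - 1 := by
    intro j
    by_cases h : j ∈ T
    · obtain ⟨x, hx⟩ := (Finset.mem_filter.1 h).2
      exact ⟨x, fun _ => hx⟩
    · exact ⟨0, fun h' => absurd h' h⟩
  choose cl hcl using hex
  have hcard : T.card ≤ Fintype.card (Fin 3 × (Fin 1 → Fin 5)) := by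
    refine (Finset.card_filter_le _ _).trans ?_
    simp only [Finset.card_univ, Fintype.card_prod, Fintype.card_fin, Fintype.card_pi,
      Finset.prod_const]
    norm_num
  obtain ⟨c, p, w, hc, hp⟩ := interp6 mon bb nr24 mon_near24 mon_dvd24 c₁
    (fun j => (fun i => 9 * cl j i, 16)) (M + 1) T (by
    intro j hj
    rw [Fv_eq]
    simp only
    set x : Fin 1 → ℤ := fun i => 9 * cl j i with hx
    have g8 : (8 : ℤ) ∣ MvPolynomial.eval x (fc ℤ (gp fun e => c₁ (0, e))) - 1 := by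
      rw [← mem_eq]
      have h1 : (8 : ℤ) ∣ MvPolynomial.eval x (mem (gp fun e => c₁ (0, e))) -
          MvPolynomial.eval (cl j) (mem (gp fun e => c₁ (0, e))) := by
        apply eval_dvd (N := 8)
        intro i
        exact ⟨cl j i, by simp only [hx]; push_cast; ring⟩
      have h2 := (hcl j hj).2
      omega
    have g3 : ∀ F : MvPolynomial (Fin 1) ℤ,
        (3 : ℤ) ∣ MvPolynomial.eval x F - MvPolynomial.eval (0 : Fin 1 → ℤ) F := by
      intro F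
      apply eval_dvd (N := 3)
      intro i
      exact ⟨3 * cl j i, by simp only [hx, Pi.zero_apply]; push_cast; ring⟩
    have gA := g3 (cA ℤ (gp fun e => c₁ (2, e)))
    have gB := g3 (cB ℤ (gp fun e => c₁ (1, e)))
    have gG := g3 (fc ℤ (gp fun e => c₁ (0, e)))
    rw [cA_zero] at gA
    rw [cB_zero] at gB
    rw [fc_zero] at gG
    have p2 := hc₁9 (2, fun _ => 0)
    have p1 := hc₁9 (1, fun _ => 0)
    have p0 := hc₁9 (0, fun _ => 0)
    have q2 : ptn (2, fun _ => 0) = 1 := rfl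
    have q1 : ptn (1, fun _ => 0) = 1 := rfl
    have q0 : ptn (0, fun _ => 0) = 4 := rfl
    rw [q2] at p2
    rw [q1] at p1
    rw [q0] at p0
    omega) hcard
  have hc2 : ∀ e, (2 : ℤ) ^ (M + 1) ∣ c e - c₀ e := by
    intro e
    have h1 : (2 : ℤ) ^ (M + 1) ∣ c e - c₁ e := by
      refine Dvd.dvd.trans ?_ (hc e)
      refine ⟨2 * 3 ^ (M + 2), ?_⟩
      have : (6 : ℤ) ^ (M + 1 + 1) = 2 ^ (M + 1 + 1) * 3 ^ (M + 1 + 1) := by
        rw [← mul_pow]; norm_num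
      rw [this]
      ring
    have h2 := dvd_add h1 (hc₁2 e)
    rwa [sub_add_sub_cancel] at h2
  refine ⟨c, hc2, fun e => ?_, fun z t w' hw η hη => ?_⟩
  · have h1 : (9 : ℤ) ∣ c e - c₁ e := by
      refine Dvd.dvd.trans ?_ (hc e)
      refine ⟨4 * 6 ^ M, ?_⟩
      ring
    have := hc₁9 e
    omega
  · refine dense_of (gp_deg fun e => c (2, e)) (gp_deg fun e => c (1, e))
      (gp_deg fun e => c (0, e)) (fun r hr8 => ?_) hw hη
    have hr0 : (8 : ℤ) ∣ MvPolynomial.eval r (mem (gp fun e => c₁ (0, e))) - 1 := by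
      have := mem_dvd (c := fun e => c (0, e)) (c' := fun e => c₁ (0, e))
        (fun e => ((by norm_num : (2 : ℤ) ∣ 6).trans
          (dvd_pow_self 6 (Nat.succ_ne_zero (M + 1)))).trans (hc (0, e))) r
      have h9 := dvd_sub hr8 this
      rw [sub_sub_sub_cancel_left] at h9
      exact h9
    obtain ⟨j, hj⟩ := mt_exists r
    have hjT : j ∈ T := Finset.mem_filter.2 ⟨Finset.mem_univ _, r, hj, hr0⟩
    obtain ⟨h1, h2⟩ := hcl j hjT
    have h3 : ∀ i, (8 : ℤ) ∣ cl j i - r i := by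
      refine uniq (g := gp fun e => c₁ (0, e)) ?_ (fun i => ?_) ?_
      · have := h1.1
        have := hj.1
        omega
      · exact i.elim0
      · have h9 := dvd_sub h2 hr0
        rw [sub_sub_sub_cancel_right] at h9
        exact h9
    obtain ⟨⟨h4, -⟩, h5⟩ := hp j hjT
    rw [Fv_eq] at h5
    refine ⟨(p j).1, (p j).2, w j, fun i => ?_, h5⟩
    have := h3 i
    have h7 : (24 : ℤ) ∣ (p j).1 i - 9 * cl j i := h4 i
    omega

end Pool.Agent.Run7.h587.Ad
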