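import Pool.Agent.Run7.h587.Ad.Two
import Pool.Agent.Y718.LK

/-!
# A residue class modulo four of polynomials in which all points of `w² = f(z)` are good at two
-/

set_option autoImplicit false

open Polynomial Pool.Agent.Y720.MZ Pool.Agent.Y718.X

namespace Pool.Agent.Run7.h587.Ad

/-! ### restrictions to lines, over rings -/

section ring

variable {R S : Type*} [CommRing R] [CommRing S] {n : ℕ}

/-- the polynomial `f(z + t e_i)` in `t` -/
noncomputable def lr (f : MvPolynomial (Fin n) R) (z : Fin n → R) (i : Fin n) : R[X] :=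
  MvPolynomial.aeval (fun l => C (z l) + C ((Pi.single i 1 : Fin n → R) l) * X) f

theorem lr_map (φ : R →+* S) (f : MvPolynomial (Fin n) R) (z : Fin n → R) (i : Fin n) :
    (lr f z i).map φ = lr (f.map φ) (fun l => φ (z l)) i := by
  unfold lr
  induction f using MvPolynomial.induction_on with
  | C c => simp
  | add p q hp hq => rw [map_add, Polynomial.map_add, hp, hq, map_add, map_add]
  | mul_X p j hp =>
    rw [map_mul, Polynomial.map_mul, hp, map_mul, map_mul, MvPolynomial.aeval_X,
      MvPolynomial.map_X, MvPolynomial.aeval_X]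
    congr 1
    by_cases h : j = i
    · subst h
      simp
    · simp [Pi.single_eq_of_ne h]

theorem lr_add (f g : MvPolynomial (Fin n) R) (z : Fin n → R) (i : Fin n) :
    lr (f + g) z i = lr f z i + lr g z i := map_add _ _ _

theorem lr_coeff_zero (f : MvPolynomial (Fin n) R) (z : Fin n → R) (i : Fin n) :
    (lr f z i).coeff 0 = MvPolynomial.eval z f := by
  unfold lr
  rw [coeff_zero_eq_eval_zero]
  induction f using MvPolynomial.induction_on with
  | C c => simp
  | add p q hp hq => rw [map_add, eval_add, hp, hq, map_add]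
  | mul_X p j hp =>
    rw [map_mul, eval_mul, hp, map_mul, MvPolynomial.aeval_X, MvPolynomial.eval_X]
    simp

theorem lr_coeff_one (f : MvPolynomial (Fin n) R) (z : Fin n → R) (i : Fin n) :
    (lr f z i).coeff 1 = MvPolynomial.eval z (MvPolynomial.pderiv i f) := by
  induction f using MvPolynomial.induction_on with
  | C c => simp [lr]
  | add p q hp hq => rw [lr_add, coeff_add, hp, hq, map_add, map_add]
  | mul_X p j hp =>
    have h1 : lr (p * MvPolynomial.X j) z i =
        lr p z i * (C (z j) + C ((Pi.single i 1 : Fin n → R) j) * X) := by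
      unfold lr
      rw [map_mul, MvPolynomial.aeval_X]
    rw [h1, mul_add, coeff_add, ← mul_assoc, coeff_mul_C, coeff_mul_X, coeff_mul_C, hp,
      lr_coeff_zero, Derivation.leibniz, MvPolynomial.pderiv_X, smul_eq_mul, smul_eq_mul, map_add,
      map_mul, map_mul, MvPolynomial.eval_X]
    by_cases h : j = i
    · subst h
      simp
      ring
    · rw [Pi.single_eq_of_ne h, Pi.single_eq_of_ne h]
      simp
      ring

/-- `∏ yᵢ⁴ g(x / y)` -/
noncomputable def hom (g : MvPolynomial (Fin n) R) (x y : Fin n → R) : R :=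
  ∑ m ∈ g.support, g.coeff m * ∏ i, (x i ^ m i * y i ^ (4 - m i))

theorem hom_eq {g : MvPolynomial (Fin n) R} (hg : ∀ i, g.degreeOf i ≤ 4) {x y z : Fin n → R}
    (h : ∀ i, z i * y i = x i) : MvPolynomial.eval z g * ∏ i, y i ^ 4 = hom g x y := by
  unfold hom
  rw [MvPolynomial.eval_eq', Finset.sum_mul]
  refine Finset.sum_congr rfl fun m hm => ?_
  rw [mul_assoc, ← Finset.prod_mul_distrib]
  congr 1
  refine Finset.prod_congr rfl fun i _ => ?_
  have h4 : m i ≤ 4 := by
    refine le_trans ?_ (hg i)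
    rw [MvPolynomial.degreeOf_eq_sup]
    exact Finset.le_sup (f := fun m : Fin n →₀ ℕ => m i) hm
  rw [← h i, mul_pow, mul_assoc, ← pow_add, Nat.add_sub_cancel' h4]

end ring

/-! ### the polynomial -/

/-- `3 ∏ (zᵢ² + zᵢ + 1)² + ∑ (zᵢ² + zᵢ) + 2` -/
noncomputable def f0 (R : Type*) [CommRing R] (n : ℕ) : MvPolynomial (Fin n) R :=
  3 * ∏ i, (MvPolynomial.X i ^ 2 + MvPolynomial.X i + 1) ^ 2 +
    ∑ i, (MvPolynomial.X i ^ 2 + MvPolynomial.X i) + 2

theorem f0_map {R S : Type*} [CommRing R] [CommRing S] (φ : R →+* S) (n : ℕ) :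
    (f0 R n).map φ = f0 S n := by
  unfold f0
  simp

theorem f0_eval {R : Type*} [CommRing R] {n : ℕ} (z : Fin n → R) :
    MvPolynomial.eval z (f0 R n) =
      3 * ∏ i, (z i ^ 2 + z i + 1) ^ 2 + ∑ i, (z i ^ 2 + z i) + 2 := by
  unfold f0
  simp

theorem zmod2 (z : ZMod 2) : (z = 0 ∨ z = 1) := by
  revert z; decide

theorem two_zmod2 : (2 : (ZMod 2)[X]) = 0 := by
  have : (2 : (ZMod 2)[X]) = C 2 := (map_ofNat C 2).symm
  rw [this, show (2 : ZMod 2) = 0 from by decide, C_0]

theorem sq_zmod2 (z : ZMod 2) : ((C z + X) ^ 2 + (C z + X) : (ZMod 2)[X]) = X ^ 2 + X := by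
  rcases zmod2 z with rfl | rfl
  · rw [C_0, zero_add]
  · rw [C_1]
    linear_combination (X + 1) * two_zmod2

theorem lr_f0_zmod2 {n : ℕ} (z : Fin n → ZMod 2) (i : Fin n) :
    lr (f0 (ZMod 2) n) z i = X ^ 4 + X + 1 := by
  unfold lr f0
  rw [map_add, map_add, map_mul, map_prod, map_sum]
  have e0 : ∀ l, MvPolynomial.aeval (fun l => C (z l) + C ((Pi.single i 1 : Fin n → ZMod 2) l) * X)
      (MvPolynomial.X l ^ 2 + MvPolynomial.X l : MvPolynomial (Fin n) (ZMod 2)) =
      if l = i then (X ^ 2 + X) else 0 := by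
    intro l
    rw [map_add, map_pow, MvPolynomial.aeval_X]
    by_cases h : l = i
    · subst h
      rw [if_pos rfl, Pi.single_eq_same, C_1, one_mul, sq_zmod2]
    · rw [if_neg h, Pi.single_eq_of_ne h, C_0, zero_mul, add_zero]
      rcases zmod2 (z l) with h0 | h0
      · rw [h0, C_0]
        ring
      · rw [h0, C_1]
        linear_combination two_zmod2
  have e1 : ∀ l, MvPolynomial.aeval (fun l => C (z l) + C ((Pi.single i 1 : Fin n → ZMod 2) l) * X)
      ((MvPolynomial.X l ^ 2 + MvPolynomial.X l + 1) ^ 2 : MvPolynomial (Fin n) (ZMod 2)) =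
      if l = i then (X ^ 2 + X + 1) ^ 2 else 1 := by
    intro l
    rw [map_pow, map_add, map_one, e0]
    by_cases h : l = i
    · rw [if_pos h, if_pos h]
    · rw [if_neg h, if_neg h, zero_add, one_pow]
  rw [Finset.prod_congr rfl fun l _ => e1 l, Finset.prod_ite_eq' Finset.univ i,
    if_pos (Finset.mem_univ _), Finset.sum_congr rfl fun l _ => e0 l,
    Finset.sum_ite_eq' Finset.univ i, if_pos (Finset.mem_univ _), map_ofNat, map_ofNat]
  linear_combination (X ^ 4 + 3 * X ^ 3 + 5 * X ^ 2 + 3 * X + 2) * two_zmod2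

theorem f0_zmod2 {n : ℕ} (z : Fin n → ZMod 2) : MvPolynomial.eval z (f0 (ZMod 2) n) = 1 := by
  have h : ∀ u : ZMod 2, u ^ 2 + u = 0 := by decide
  rw [f0_eval]
  simp only [h, zero_add, one_pow, Finset.prod_const_one, Finset.sum_const_zero]
  decide

end Pool.Agent.Run7.h587.Ad
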