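import Pool.Agent.Run7.h587.Ad.Ex

/-!
# The definition of adapted polynomials with the discriminant of the Jacobian
-/

set_option autoImplicit false

open Pool.Agent.Y720.MZ Pool.Agent.Y718.X

namespace Pool.Agent.Run7.h587.Ad

variable {n : ℕ}

/-- the Jacobian -/
noncomputable def jac {F : Type*} [Field F] (q : Polynomial F) : WeierstrassCurve F :=
  ⟨0, q.coeff 2, 0, q.coeff 1 * q.coeff 3 - 4 * q.coeff 0 * q.coeff 4,
    q.coeff 1 ^ 2 * q.coeff 4 + q.coeff 0 * q.coeff 3 ^ 2 - 4 * q.coeff 0 * q.coeff 2 * q.coeff 4⟩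

theorem jac_db {F : Type*} [Field F] [CharZero F] (q : Polynomial F) :
    (jac q).Δ ≠ 0 ↔ Db q ≠ 0 := by
  have h : (jac q).Δ = 16 * Db q := by
    unfold jac Db dsc Pool.Agent.Y718.X.Ab Pool.Agent.Y718.X.Bb Pool.Agent.Y718.X.Cb
    simp only [WeierstrassCurve.Δ, WeierstrassCurve.b₂, WeierstrassCurve.b₄, WeierstrassCurve.b₆,
      WeierstrassCurve.b₈]
    ring
  rw [h]
  exact mul_ne_zero_iff_left (by norm_num)

/-- adapted, with the discriminant of the Jacobian -/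
def AdT (F : MvPolynomial (Fin n) ℚ_[2]) : Prop :=
  (∀ i, F.degreeOf i ≤ 4) ∧ (∀ m, ‖F.coeff m‖ ≤ 1) ∧
  ∀ (z : Fin n → ℚ_[2]) (w : ℚ_[2]), w ^ 2 = MvPolynomial.eval z F → w ≠ 0 ∧
    ∀ i, ‖z i‖ ≤ 1 ∧ ‖2 * w‖ < ‖MvPolynomial.eval z (MvPolynomial.pderiv i F)‖ ∧
      (jac (lr F z i)).Δ ≠ 0

theorem adT_iff (F : MvPolynomial (Fin n) ℚ_[2]) : AdT F ↔ Adapted F := by
  unfold AdT Adapted
  simp only [jac_db]

/-- the members of the class -/
noncomputable def mem (g : MvPolynomial (Fin n) ℤ) : MvPolynomial (Fin n) ℤ :=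
  3 * ∏ i, (MvPolynomial.X i ^ 2 + MvPolynomial.X i + 1) ^ 2 +
    ∑ i, (MvPolynomial.X i ^ 2 + MvPolynomial.X i) + 2 + 4 * g

theorem mem_map (R : Type*) [CommRing R] (g : MvPolynomial (Fin n) ℤ) :
    (mem g).map (Int.castRingHom R) = fc R g := by
  have : mem g = f0 ℤ n + 4 * g := rfl
  rw [this, map_add, f0_map, map_mul, map_ofNat]
  rfl

theorem mem_eq (g : MvPolynomial (Fin n) ℤ) : mem g = fc ℤ g := by
  rw [← mem_map, show Int.castRingHom ℤ = RingHom.id ℤ from Subsingleton.elim _ _,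
    MvPolynomial.map_id]

theorem mem_adT {g : MvPolynomial (Fin n) ℤ} (hg : ∀ i, g.degreeOf i ≤ 4) :
    AdT ((mem g).map (Int.castRingHom ℚ_[2])) := by
  rw [adT_iff, mem_map]
  exact cls_adapted hg

end Pool.Agent.Run7.h587.Ad
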