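import Pool.Agent.Run7.h587.Ad.Def

/-!
# Members of the class with rational points in prescribed residue classes
-/

set_option autoImplicit false

open MvPolynomial

namespace Pool.Agent.Run7.h587.Ad

variable {n : ℕ}

/-- the exponent -/
noncomputable def fs (e : Fin n → Fin 5) : Fin n →₀ ℕ :=
  Finsupp.equivFunOnFinite.symm fun i => (e i : ℕ)

theorem fs_apply (e : Fin n → Fin 5) (i : Fin n) : fs e i = (e i : ℕ) := rfl

theorem fs_inj {e e' : Fin n → Fin 5} (h : fs e = fs e') : e = e' := by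
  funext i
  have := DFunLike.congr_fun h i
  exact Fin.ext this

theorem gp_eq (c : (Fin n → Fin 5) → ℤ) : gp c = ∑ e, monomial (fs e) (c e) := by
  unfold gp
  refine Finset.sum_congr rfl fun e _ => ?_
  rw [monomial_eq, Finsupp.prod_fintype]
  · rfl
  · intro i
    exact pow_zero _

theorem gp_coeff (c : (Fin n → Fin 5) → ℤ) (e : Fin n → Fin 5) : (gp c).coeff (fs e) = c e := by
  classical
  rw [gp_eq, coeff_sum, Finset.sum_eq_single e]
  · rw [coeff_monomial, if_pos rfl]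
  · intro e' _ he
    rw [coeff_monomial, if_neg fun h => he (fs_inj h)]
  · intro h
    exact absurd (Finset.mem_univ _) h

theorem gp_ne {c : (Fin n → Fin 5) → ℤ} (hc : c ≠ 0) : gp c ≠ 0 := by
  intro h
  apply hc
  funext e
  rw [← gp_coeff c e, h, coeff_zero]
  rfl

theorem gp_of {F : MvPolynomial (Fin n) ℤ} (hF : ∀ i, F.degreeOf i ≤ 4) :
    gp (fun e => F.coeff (fs e)) = F := by
  classical
  ext m
  by_cases h : ∀ i, m i < 5
  · have : m = fs (fun i => ⟨m i, h i⟩) := by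
      ext i
      rw [fs_apply]
    rw [this, gp_coeff]
  · push Not at h
    obtain ⟨i, hi⟩ := h
    have h1 : F.coeff m = 0 := by
      by_contra hne
      have h2 := (degreeOf_le_iff.1 (hF i)) m (mem_support_iff.2 hne)
      omega
    rw [h1, gp_eq, coeff_sum]
    refine Finset.sum_eq_zero fun e _ => ?_
    rw [coeff_monomial, if_neg]
    intro h3
    have h4 := DFunLike.congr_fun h3 i
    rw [fs_apply] at h4
    have := (e i).2
    omega

theorem gp_add (c c' : (Fin n → Fin 5) → ℤ) : gp (c + c') = gp c + gp c' := by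
  simp only [gp_eq, ← Finset.sum_add_distrib]
  refine Finset.sum_congr rfl fun e _ => ?_
  rw [Pi.add_apply, map_add]

theorem gp_smul (k : ℤ) (c : (Fin n → Fin 5) → ℤ) : gp (k • c) = k • gp c := by
  simp only [gp_eq, Finset.smul_sum]
  refine Finset.sum_congr rfl fun e _ => ?_
  rw [Pi.smul_apply, smul_monomial]

/-! ### a polynomial vanishing at few points -/

theorem exists_h {ι : Type} (T : Finset ι) (p : ι → Fin n → ℤ) (hT : T.card < 5 ^ n) :
    ∃ h : (Fin n → Fin 5) → ℤ, h ≠ 0 ∧ ∀ j ∈ T, eval (p j) (gp h) = 0 := by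
  classical
  rcases T.eq_empty_or_nonempty with rfl | hne
  · exact ⟨1, one_ne_zero, fun j hj => absurd hj (Finset.notMem_empty j)⟩
  · let A : Matrix T (Fin n → Fin 5) ℤ := fun j e => ∏ i, p j i ^ (e i : ℕ)
    obtain ⟨t, ht, hA, -⟩ := Int.Matrix.exists_ne_zero_int_vec_norm_le A (by
      rw [Fintype.card_coe, Fintype.card_fun, Fintype.card_fin, Fintype.card_fin]
      exact hT) (by
      rw [Fintype.card_coe]
      exact hne.card_pos)
    refine ⟨t, ht, fun j hj => ?_⟩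
    have h1 := congrFun hA ⟨j, hj⟩
    rw [Matrix.mulVec, dotProduct, Pi.zero_apply] at h1
    rw [← h1]
    unfold gp
    rw [map_sum]
    refine Finset.sum_congr rfl fun e _ => ?_
    rw [map_mul, eval_C, map_prod, mul_comm]
    simp only [map_pow, eval_X]
    rfl

theorem exists_lift (c : Fin n → ℤ) {F : MvPolynomial (Fin n) ℤ} (hF : F ≠ 0) :
    ∃ p : Fin n → ℤ, (∀ i, (8 : ℤ) ∣ p i - c i) ∧ eval p F ≠ 0 := by
  by_contra hcon
  push Not at hcon
  apply hF
  apply MvPolynomial.funext_set (fun i : Fin n => Set.range fun t : ℤ => c i + 8 * t)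
  · intro i
    apply Set.infinite_range_of_injective
    intro a b hab
    simp only at hab
    omega
  · intro x hx
    rw [map_zero]
    apply hcon
    intro i
    obtain ⟨t, ht⟩ := hx i (Set.mem_univ _)
    simp only at ht
    exact ⟨t, by omega⟩

/-! ### squares -/

theorem sqrt_pow {a : ℤ} (ha : (8 : ℤ) ∣ a - 1) (k : ℕ) :
    ∃ w : ℤ, w % 2 = 1 ∧ (2 : ℤ) ^ (k + 3) ∣ w ^ 2 - a := by
  induction k with
  | zero =>
    refine ⟨1, by norm_num, ?_⟩
    obtain ⟨t, ht⟩ := ha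
    exact ⟨-t, by norm_num; omega⟩
  | succ k ih =>
    obtain ⟨w, hw, t, ht⟩ := ih
    by_cases h : t % 2 = 0
    · refine ⟨w, hw, t / 2, ?_⟩
      have : t = 2 * (t / 2) := by omega
      rw [ht]
      conv_lhs => rw [this]
      ring
    · refine ⟨w + 2 ^ (k + 2), ?_, (t + w) / 2 + 2 ^ k, ?_⟩
      · have : (2 : ℤ) ^ (k + 2) = 2 * 2 ^ (k + 1) := by ring
        omega
      · have h2 : t + w = 2 * ((t + w) / 2) := by omega
        have e : (w + 2 ^ (k + 2)) ^ 2 - a = (w ^ 2 - a) + 2 ^ (k + 3) * w + 2 ^ (k + 3) * 2 ^ (k + 1) := by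
          ring
        rw [e, ht]
        linear_combination 2 ^ (k + 3) * h2

theorem step_num {F H : ℤ} (hF : (8 : ℤ) ∣ F - 1) (hH : H ≠ 0) (M : ℕ) :
    ∃ s k₁ k₂ w : ℤ, s ^ 2 - 1 = 2 ^ M * k₁ ∧ s ^ 2 * F + 2 ^ M * k₂ * H = w ^ 2 := by
  obtain ⟨v, d, hd, hv⟩ : ∃ (v : ℕ) (d : ℤ), d % 2 = 1 ∧ H = 2 ^ v * d := by
    obtain ⟨v, m, hm, hv⟩ := Nat.exists_eq_two_pow_mul_odd (n := H.natAbs)
      (Int.natAbs_ne_zero.2 hH)
    have hm' : m % 2 = 1 := Nat.odd_iff.1 hm
    rcases Int.natAbs_eq H with h | h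
    · refine ⟨v, m, by omega, ?_⟩
      rw [h, hv]
      push_cast
      ring
    · refine ⟨v, -m, by omega, ?_⟩
      rw [h, hv]
      push_cast
      ring
  obtain ⟨a, b, hab⟩ : IsCoprime ((2 : ℤ) ^ M) d := by
    apply IsCoprime.pow_left
    exact ⟨-((d - 1) / 2), 1, by omega⟩
  obtain ⟨w, -, t, ht⟩ := sqrt_pow hF (M + v)
  -- `d b = 1 - a 2 ^ M`
  refine ⟨d * b, -a * (d * b + 1), 8 * t * d * b ^ 2, d * b * w, ?_, ?_⟩
  · have : d * b = 1 - a * 2 ^ M := by linear_combination hab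
    linear_combination (d * b + 1) * this
  · rw [hv]
    have e : w ^ 2 = F + 2 ^ (M + v + 3) * t := by linear_combination ht
    have e' : (d * b * w) ^ 2 = (d * b) ^ 2 * w ^ 2 := by ring
    rw [e', e, pow_add, pow_add]
    ring

/-! ### congruences -/

theorem eval_dvd {N : ℕ} {x y : Fin n → ℤ} (h : ∀ i, (N : ℤ) ∣ x i - y i)
    (F : MvPolynomial (Fin n) ℤ) : (N : ℤ) ∣ eval x F - eval y F := by
  rw [← ZMod.intCast_zmod_eq_zero_iff_dvd, Int.cast_sub, sub_eq_zero]
  have h1 : ∀ z : Fin n → ℤ, ((eval z F : ℤ) : ZMod N) =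
      eval (fun i => (z i : ZMod N)) (F.map (Int.castRingHom (ZMod N))) := by
    intro z
    exact map_eval (Int.castRingHom (ZMod N)) z F
  rw [h1, h1]
  congr 2
  funext i
  have := (ZMod.intCast_zmod_eq_zero_iff_dvd _ _).2 (h i)
  rwa [Int.cast_sub, sub_eq_zero] at this

theorem gp_dvd {N : ℤ} {c c' : (Fin n → Fin 5) → ℤ} (h : ∀ e, N ∣ c e - c' e) (x : Fin n → ℤ) :
    N ∣ eval x (gp c) - eval x (gp c') := by
  unfold gp
  rw [map_sum, map_sum, ← Finset.sum_sub_distrib]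
  refine Finset.dvd_sum fun e _ => ?_
  rw [map_mul, map_mul, ← sub_mul, eval_C, eval_C]
  exact (h e).mul_right _

theorem mem_dvd {c c' : (Fin n → Fin 5) → ℤ} (h : ∀ e, (2 : ℤ) ∣ c e - c' e) (x : Fin n → ℤ) :
    (8 : ℤ) ∣ eval x (mem (gp c)) - eval x (mem (gp c')) := by
  obtain ⟨t, ht⟩ := gp_dvd h x
  refine ⟨t, ?_⟩
  unfold mem
  simp only [map_add, map_mul, map_ofNat]
  linear_combination 4 * ht

/-! ### interpolation -/

theorem interp {ι : Type} (c₀ : (Fin n → Fin 5) → ℤ) (cl : ι → Fin n → ℤ)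
    (h8 : ∀ j, (8 : ℤ) ∣ eval (cl j) (mem (gp c₀)) - 1) (M : ℕ) (T : Finset ι)
    (hT : T.card ≤ 5 ^ n) : ∃ (c : (Fin n → Fin 5) → ℤ) (p : ι → Fin n → ℤ) (w : ι → ℤ),
      (∀ e, (2 : ℤ) ^ (M + 1) ∣ c e - c₀ e) ∧ ∀ j ∈ T, (∀ i, (8 : ℤ) ∣ p j i - cl j i) ∧
        w j ^ 2 = eval (p j) (mem (gp c)) := by
  classical
  induction T using Finset.induction_on with
  | empty =>
    exact ⟨c₀, cl, 0, fun e => by rw [sub_self]; exact dvd_zero _,
      fun j hj => absurd hj (Finset.notMem_empty j)⟩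
  | insert j₀ T hj₀ ih =>
    rw [Finset.card_insert_of_notMem hj₀] at hT
    obtain ⟨c, p, w, hc, hp⟩ := ih (by omega)
    obtain ⟨h, hne, hh⟩ := exists_h T p (by omega)
    obtain ⟨q, hq, hqe⟩ := exists_lift (cl j₀) (gp_ne hne)
    have hF : (8 : ℤ) ∣ eval q (mem (gp c)) - 1 := by
      have h1 : (8 : ℤ) ∣ eval q (mem (gp c)) - eval (cl j₀) (mem (gp c)) :=
        eval_dvd (N := 8) hq _
      have h2 : (8 : ℤ) ∣ eval (cl j₀) (mem (gp c)) - eval (cl j₀) (mem (gp c₀)) :=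
        mem_dvd (fun e => (dvd_pow_self 2 (Nat.succ_ne_zero M)).trans (hc e)) _
      have h3 := h8 j₀
      omega
    obtain ⟨s, k₁, k₂, w₀, e1, e2⟩ := step_num hF hqe (M + 3)
    set b : (Fin n → Fin 5) → ℤ := fun e => (f0 ℤ n).coeff (fs e) with hb
    have hb' : gp b = f0 ℤ n := gp_of f0_deg
    set c' : (Fin n → Fin 5) → ℤ :=
      c + ((2 : ℤ) ^ (M + 1)) • ((4 * k₁) • c + k₁ • b + k₂ • h) with hc'
    have hm : mem (gp c') = C (s ^ 2) * mem (gp c) + C (2 ^ (M + 3) * k₂) * gp h := by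
      have e3 : mem (gp c') = f0 ℤ n + 4 * gp c' := rfl
      have e4 : mem (gp c) = f0 ℤ n + 4 * gp c := rfl
      rw [e3, e4, hc']
      simp only [gp_add, gp_smul, hb']
      simp only [zsmul_eq_mul]
      have e5 : (C (s ^ 2) : MvPolynomial (Fin n) ℤ) = 1 + 2 ^ (M + 3) * (k₁ : MvPolynomial (Fin n) ℤ) := by
        rw [show s ^ 2 = 1 + 2 ^ (M + 3) * k₁ by linear_combination e1]
        simp
      have e6 : (C (2 ^ (M + 3) * k₂) : MvPolynomial (Fin n) ℤ) =
          2 ^ (M + 3) * (k₂ : MvPolynomial (Fin n) ℤ) := by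
        simp
      rw [e5, e6]
      push_cast
      ring
    refine ⟨c', fun j => if j = j₀ then q else p j, fun j => if j = j₀ then w₀ else s * w j,
      fun e => ?_, fun j hj => ?_⟩
    · have : c' e - c₀ e = (c e - c₀ e) + 2 ^ (M + 1) * (4 * k₁ * c e + k₁ * b e + k₂ * h e) := by
        rw [hc']
        simp only [Pi.add_apply, Pi.smul_apply, smul_eq_mul]
        ring
      rw [this]
      exact dvd_add (hc e) (Dvd.intro _ rfl)
    · by_cases hj' : j = j₀
      · subst hj'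
        simp only [if_pos]
        refine ⟨hq, ?_⟩
        rw [hm, map_add, map_mul, map_mul, eval_C, eval_C, ← e2]
      · simp only [if_neg hj']
        have hjT : j ∈ T := (Finset.mem_insert.1 hj).resolve_left hj'
        refine ⟨(hp j hjT).1, ?_⟩
        rw [hm, map_add, map_mul, map_mul, eval_C, eval_C, hh j hjT, ← (hp j hjT).2]
        ring

end Pool.Agent.Run7.h587.Ad
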