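import Pool.Agent.Run7.h587.Ad.Lev
import Pool.Agent.Run7.h587.Ad.Int

/-!
# The closure of the rational points, and surfaces with dense rational points
-/

set_option autoImplicit false

open Pool.Agent.Y720.MZ Pool.Agent.Y718.X Filter Topology
open Pool.Agent.Q35.ZC

namespace Pool.Agent.Run7.h587.Ad

/-! ### the class -/

section cls

open Polynomial

theorem cls_unit {n : ℕ} {g : MvPolynomial (Fin n) ℤ} (hg : ∀ i, g.degreeOf i ≤ 4) :
    Unit2 (fc ℚ_[2] g) := by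
  intro z w hw
  have hz : ∀ i, ‖z i‖ ≤ 1 := int_of_on hg hw
  set u : Fin n → ℤ_[2] := fun i => ⟨z i, hz i⟩ with hu
  have h4 : (4 : MvPolynomial (Fin n) (ZMod 2)) = 0 := by
    have : (4 : MvPolynomial (Fin n) (ZMod 2)) = MvPolynomial.C 4 := (map_ofNat _ 4).symm
    rw [this, show (4 : ZMod 2) = 0 from by decide, MvPolynomial.C_0]
  have hfc : fc (ZMod 2) g = f0 (ZMod 2) n := by
    unfold fc
    rw [h4, zero_mul, add_zero]
  have h0 : MvPolynomial.eval z (fc ℚ_[2] g) = ((MvPolynomial.eval u (fc ℤ_[2] g) : ℤ_[2]) : ℚ_[2]) := by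
    have h1 : fc ℚ_[2] g = (fc ℤ_[2] g).map PadicInt.Coe.ringHom := (fc_map _ g).symm
    have h2 := MvPolynomial.map_eval PadicInt.Coe.ringHom u (fc ℤ_[2] g)
    rw [h1]
    exact h2.symm
  have h0' : PadicInt.toZMod (MvPolynomial.eval u (fc ℤ_[2] g)) = (1 : ZMod 2) := by
    have h2 := MvPolynomial.map_eval (PadicInt.toZMod (p := 2)) u (fc ℤ_[2] g)
    rw [h2, fc_map, hfc]
    exact f0_zmod2 _
  have hw1 : ‖w‖ = 1 := by
    have h5 : ‖w‖ ^ 2 = 1 := by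
      rw [← norm_pow, hw, h0, ← PadicInt.norm_def]
      exact norm_one (by rw [h0']; exact one_ne_zero)
    exact (pow_eq_one_iff_of_nonneg (norm_nonneg w) two_ne_zero).1 h5
  refine ⟨hw1, fun i => ?_⟩
  set P := lr (fc ℤ_[2] g) u i with hP
  have hq : lr (fc ℚ_[2] g) z i = P.map PadicInt.Coe.ringHom := by
    rw [hP, lr_map, fc_map]
    rfl
  have hq2 : P.map (PadicInt.toZMod (p := 2)) = X ^ 4 + X + 1 := by
    rw [hP, lr_map, fc_map, hfc]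
    exact lr_f0_zmod2 _ i
  have k1 : PadicInt.toZMod (P.coeff 1) = 1 := by
    rw [← coeff_map, hq2]; simp [coeff_X, coeff_one, coeff_X_pow]
  rw [← lr_coeff_one, hq, coeff_map]
  change ‖((P.coeff 1 : ℤ_[2]) : ℚ_[2])‖ = 1
  rw [← PadicInt.norm_def]
  exact norm_one (by rw [k1]; exact one_ne_zero)

end cls

section all

variable {K : Type} [Field K] [CharZero K] {n : ℕ} {f : MvPolynomial (Fin n) K}

theorem all_cm (hd : ∀ j, f.degreeOf j ≤ 4) : Cm f {P | OnCover f P} := by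
  refine ⟨fun _ h => h, ?_⟩
  intro i z w u Z h hM
  exact ((odds_cm hd (z, w)).2 i z w u Z ⟨h, 0, by simp⟩ hM).1

/-- **The closure.** -/
theorem cl_eq {σ : K →+* ℚ_[2]} (hn : n ≠ 0) (hf : Adapted (f.map σ)) (hu : Unit2 (f.map σ))
    {R : Set ((Fin n → K) × K)} (hR : Cm f R) :
    closure (ImR R σ) = {S | OnCover (f.map σ) S ∧ ∃ P ∈ R, ∀ i, ‖S.1 i - σ (P.1 i)‖ ≤ 1 / 8} := by
  apply Set.Subset.antisymm
  · intro S hS
    refine ⟨?_, ?_⟩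
    · refine closure_minimal ?_
        (Pool.Agent.Results.MP_ed3816_nt.OpenAwayFromTorsion.isClosed_onCover (f.map σ)) hS
      rintro _ ⟨P, hP, rfl⟩
      exact Pool.Agent.Results.MP_ed3816_nt.OpenAwayFromTorsion.onCover_image σ (hR.1 P hP)
    · obtain ⟨_, ⟨P, hP, rfl⟩, h2⟩ := Metric.mem_closure_iff.1 hS (1 / 8) (by norm_num)
      refine ⟨P, hP, fun i => ?_⟩
      have h3 := ((dist_image σ P S (by norm_num)).1 h2).1 i
      rw [norm_sub_rev]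
      exact h3.le
  · rintro S ⟨h1, P, hP, h2⟩
    exact level hn hf hu hR hP h1 h2

end all

/-! ### residues -/

theorem approx {x : ℚ_[2]} (hx : ‖x‖ ≤ 1) : ∃ r : ℤ, ‖x - (r : ℚ_[2])‖ ≤ 1 / 8 := by
  have h1 := PadicInt.appr_spec 3 (⟨x, hx⟩ : ℤ_[2])
  rw [← PadicInt.norm_le_pow_iff_mem_span_pow] at h1
  refine ⟨(PadicInt.appr (⟨x, hx⟩ : ℤ_[2]) 3 : ℤ), ?_⟩
  rw [PadicInt.norm_def] at h1
  push_cast at h1 ⊢
  refine h1.trans ?_
  norm_num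

theorem norm_int8 (k : ℤ) : ‖(k : ℚ_[2])‖ ≤ 1 / 8 ↔ (8 : ℤ) ∣ k := by
  have h := Padic.norm_int_le_pow_iff_dvd (p := 2) k 3
  norm_num at h ⊢
  exact h

theorem eval_int {n : ℕ} (g : MvPolynomial (Fin n) ℤ) (R : Type*) [CommRing R] (r : Fin n → ℤ) :
    MvPolynomial.eval (fun i => (r i : R)) (fc R g) = ((MvPolynomial.eval r (mem g) : ℤ) : R) := by
  rw [← mem_map]
  exact (MvPolynomial.map_eval (Int.castRingHom R) r (mem g)).symm

theorem near_int {n : ℕ} {g : MvPolynomial (Fin n) ℤ} (hg : ∀ i, g.degreeOf i ≤ 4)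
    {S : (Fin n → ℚ_[2]) × ℚ_[2]} (hS : OnCover (fc ℚ_[2] g) S) :
    ∃ r : Fin n → ℤ, (∀ i, ‖S.1 i - (r i : ℚ_[2])‖ ≤ 1 / 8) ∧
      (8 : ℤ) ∣ MvPolynomial.eval r (mem g) - 1 := by
  have hz : ∀ i, ‖S.1 i‖ ≤ 1 := int_of_on hg hS
  have hw : ‖S.2‖ = 1 := (cls_unit hg _ _ hS).1
  choose r hr using fun i => approx (hz i)
  refine ⟨r, hr, ?_⟩
  obtain ⟨t, ht⟩ := approx hw.le
  have h1 := (LC.poly (r := 1 / 8) (by norm_num) (cls_adapted hg).2.1).2 S.1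
    (fun i => (r i : ℚ_[2])) hz (fun i => Padic.norm_int_le_one _) hr
  have hS' : S.2 ^ 2 = MvPolynomial.eval S.1 (fc ℚ_[2] g) := hS
  beta_reduce at h1
  rw [← hS', eval_int] at h1
  have h2 : ‖S.2 ^ 2 - ((t ^ 2 : ℤ) : ℚ_[2])‖ ≤ 1 / 8 := by
    have e : S.2 ^ 2 - ((t ^ 2 : ℤ) : ℚ_[2]) = (S.2 - t) * (S.2 + t) := by push_cast; ring
    rw [e]
    refine (mn ht (an hw.le (Padic.norm_int_le_one t))).trans (by norm_num)
  have h3 : t % 2 = 1 := by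
    by_contra hcon
    have h4 : (2 : ℤ) ∣ t := by omega
    have h5 : ‖(t : ℚ_[2])‖ < 1 := by
      have h7 := (Padic.norm_int_le_pow_iff_dvd (p := 2) t 1).2 (by exact_mod_cast h4)
      refine h7.trans_lt ?_
      norm_num
    have h6 : ‖S.2‖ < 1 := by
      have e : S.2 = (S.2 - t) + t := by ring
      rw [e]
      exact (Padic.nonarchimedean _ _).trans_lt (max_lt (ht.trans_lt (by norm_num)) h5)
    rw [hw] at h6
    exact lt_irrefl _ h6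
  have h4 : (8 : ℤ) ∣ t ^ 2 - 1 := by
    have h5 : t % 8 = 1 ∨ t % 8 = 3 ∨ t % 8 = 5 ∨ t % 8 = 7 := by omega
    obtain ⟨q, hq⟩ : ∃ q, t = 8 * q + t % 8 := ⟨t / 8, by omega⟩
    rcases h5 with h | h | h | h <;> rw [h] at hq <;> subst hq
    · exact ⟨8 * q ^ 2 + 2 * q, by ring⟩
    · exact ⟨8 * q ^ 2 + 6 * q + 1, by ring⟩
    · exact ⟨8 * q ^ 2 + 10 * q + 3, by ring⟩
    · exact ⟨8 * q ^ 2 + 14 * q + 6, by ring⟩
  have h5 : (8 : ℤ) ∣ t ^ 2 - MvPolynomial.eval r (mem g) := by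
    rw [← norm_int8]
    have e : ((t ^ 2 - MvPolynomial.eval r (mem g) : ℤ) : ℚ_[2]) =
        (S.2 ^ 2 - ((MvPolynomial.eval r (mem g) : ℤ) : ℚ_[2])) -
          (S.2 ^ 2 - ((t ^ 2 : ℤ) : ℚ_[2])) := by
      push_cast; ring
    rw [e]
    exact sn h1 h2
  omega

/-! ### surfaces -/

theorem two_eta (r : Fin 2 → ℤ) : r = ![r 0, r 1] := by
  funext i
  fin_cases i <;> rfl

theorem eval_mem (g : MvPolynomial (Fin 2) ℤ) (x y : ℤ) :
    MvPolynomial.eval ![x, y] (mem g) = 3 * ((x ^ 2 + x + 1) ^ 2 * (y ^ 2 + y + 1) ^ 2) +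
      ((x ^ 2 + x) + (y ^ 2 + y)) + 2 + 4 * MvPolynomial.eval ![x, y] g := by
  simp [mem, Fin.prod_univ_two, Fin.sum_univ_two]

theorem shift (g : MvPolynomial (Fin 2) ℤ) (x y : ℤ) :
    (8 : ℤ) ∣ MvPolynomial.eval ![x + 4, y] (mem g) - MvPolynomial.eval ![x, y] (mem g) - 4 := by
  obtain ⟨t, ht⟩ : (2 : ℤ) ∣ MvPolynomial.eval ![x + 4, y] g - MvPolynomial.eval ![x, y] g := by
    apply eval_dvd (N := 2)
    intro i
    fin_cases i
    · exact ⟨2, by simp⟩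
    · exact ⟨0, by simp⟩
  refine ⟨3 * (2 * x + 5) * (x ^ 2 + x + 1 + 4 * x + 10) * (y ^ 2 + y + 1) ^ 2 + x + 2 + t, ?_⟩
  rw [eval_mem, eval_mem]
  linear_combination 4 * ht

theorem parity (x : ℤ) : ∃ a, x ^ 2 + x = 2 * a := by
  obtain ⟨a, ha⟩ := Int.even_mul_succ_self x
  exact ⟨a, by linear_combination ha⟩

theorem mod4 (g : MvPolynomial (Fin 2) ℤ) (x y : ℤ) :
    (4 : ℤ) ∣ MvPolynomial.eval ![x, y] (mem g) - 1 - ((x ^ 2 + x) + (y ^ 2 + y)) := by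
  obtain ⟨a, ha⟩ := parity x
  obtain ⟨b, hb⟩ := parity y
  refine ⟨3 * (a ^ 2 + a + b ^ 2 + b + 4 * (a ^ 2 + a) * (b ^ 2 + b)) + 1 +
    MvPolynomial.eval ![x, y] g, ?_⟩
  rw [eval_mem, ha, hb]
  ring

/-- the classes -/
def Qs : Type := {q : Fin 4 × Fin 8 // (4 : ℤ) ∣
  ((q.1 : ℕ) : ℤ) ^ 2 + ((q.1 : ℕ) : ℤ) + (((q.2 : ℕ) : ℤ) ^ 2 + ((q.2 : ℕ) : ℤ))}

instance : Fintype Qs := by unfold Qs; infer_instance

theorem card_Qs : Fintype.card Qs ≤ 25 := by decide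

theorem mod_lift (x : ℤ) (m : ℤ) : ∃ k, x = x % m + m * k := ⟨x / m, by
  have := Int.emod_add_mul_ediv x m
  omega⟩

/-- **Surfaces with a dense set of rational points.** -/
theorem dense_two (c₀ : (Fin 2 → Fin 5) → ℤ) (M : ℕ) : ∃ c : (Fin 2 → Fin 5) → ℤ,
    (∀ e, (2 : ℤ) ^ (M + 1) ∣ c e - c₀ e) ∧
    ∀ S : (Fin 2 → ℚ_[2]) × ℚ_[2], OnCover (fc ℚ_[2] (gp c)) S →
      S ∈ closure (ImR {P : (Fin 2 → ℚ) × ℚ | OnCover (fc ℚ (gp c)) P} (algebraMap ℚ ℚ_[2])) := by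
  classical
  set F : ℤ → ℤ → ℤ := fun x y => MvPolynomial.eval ![x, y] (mem (gp c₀)) with hF
  set cl : Qs → Fin 2 → ℤ := fun q =>
    if (8 : ℤ) ∣ F ((q.1.1 : ℕ) : ℤ) ((q.1.2 : ℕ) : ℤ) - 1 then
      ![((q.1.1 : ℕ) : ℤ), ((q.1.2 : ℕ) : ℤ)]
    else ![((q.1.1 : ℕ) : ℤ) + 4, ((q.1.2 : ℕ) : ℤ)] with hcl
  have h8 : ∀ q, (8 : ℤ) ∣ MvPolynomial.eval (cl q) (mem (gp c₀)) - 1 := by
    intro q
    simp only [hcl]
    split_ifs with h
    · exact h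
    · have h1 := shift (gp c₀) ((q.1.1 : ℕ) : ℤ) ((q.1.2 : ℕ) : ℤ)
      have h2 := mod4 (gp c₀) ((q.1.1 : ℕ) : ℤ) ((q.1.2 : ℕ) : ℤ)
      have h3 := q.2
      simp only [hF] at h
      omega
  obtain ⟨c, p, w, hc, hp⟩ := interp c₀ cl h8 M Finset.univ (by
    rw [Finset.card_univ]
    exact card_Qs)
  refine ⟨c, hc, fun S hS => ?_⟩
  have hg := gp_deg c
  obtain ⟨r, hr, hr8⟩ := near_int hg hS
  have hr0 : (8 : ℤ) ∣ MvPolynomial.eval r (mem (gp c₀)) - 1 := by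
    have := mem_dvd (c := c) (c' := c₀)
      (fun e => (dvd_pow_self 2 (Nat.succ_ne_zero M)).trans (hc e)) r
    omega
  rw [two_eta r] at hr0
  set x := r 0 with hx
  set y := r 1 with hy
  have hxy := mod4 (gp c₀) x y
  obtain ⟨k, hk⟩ := mod_lift x 4
  obtain ⟨l, hl⟩ := mod_lift y 8
  obtain ⟨a, ha⟩ : ∃ a : Fin 4, ((a : ℕ) : ℤ) = x % 4 :=
    ⟨⟨(x % 4).toNat, by omega⟩, by simp only; omega⟩
  obtain ⟨b, hb⟩ : ∃ b : Fin 8, ((b : ℕ) : ℤ) = y % 8 :=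
    ⟨⟨(y % 8).toNat, by omega⟩, by simp only; omega⟩
  rw [← ha] at hk
  rw [← hb] at hl
  have hq : (4 : ℤ) ∣ ((a : ℕ) : ℤ) ^ 2 + ((a : ℕ) : ℤ) + (((b : ℕ) : ℤ) ^ 2 + ((b : ℕ) : ℤ)) := by
    have h1 : (4 : ℤ) ∣ (x ^ 2 + x) + (y ^ 2 + y) := by omega
    have h2 : (x ^ 2 + x) + (y ^ 2 + y) = ((a : ℕ) : ℤ) ^ 2 + ((a : ℕ) : ℤ) +
        (((b : ℕ) : ℤ) ^ 2 + ((b : ℕ) : ℤ)) +
        4 * (2 * a * k + 4 * k ^ 2 + k + (4 * b * l + 16 * l ^ 2 + 2 * l)) := by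
      rw [hk, hl]; ring
    rw [h2] at h1
    exact (dvd_add_left (Dvd.intro _ rfl)).1 h1
  set q : Qs := ⟨(a, b), hq⟩ with hqd
  obtain ⟨hp1, hp2⟩ := hp q (Finset.mem_univ _)
  -- the congruence
  have hcong : ∀ i, (8 : ℤ) ∣ cl q i - r i := by
    have e1 : (8 : ℤ) ∣ F x y - F ((a : ℕ) : ℤ) ((b : ℕ) : ℤ) ∨
        (8 : ℤ) ∣ F x y - F (((a : ℕ) : ℤ) + 4) ((b : ℕ) : ℤ) := by
      by_cases hk2 : k % 2 = 0
      · left
        apply eval_dvd (N := 8)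
        intro i
        fin_cases i
        · change (8 : ℤ) ∣ x - a
          omega
        · change (8 : ℤ) ∣ y - b
          omega
      · right
        apply eval_dvd (N := 8)
        intro i
        fin_cases i
        · change (8 : ℤ) ∣ x - (a + 4)
          omega
        · change (8 : ℤ) ∣ y - b
          omega
    have hs := shift (gp c₀) ((a : ℕ) : ℤ) ((b : ℕ) : ℤ)
    have hFr : (8 : ℤ) ∣ F x y - 1 := hr0
    have hkey : ((8 : ℤ) ∣ F ((a : ℕ) : ℤ) ((b : ℕ) : ℤ) - 1 ∧ (8 : ℤ) ∣ x - a) ∨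
        (¬ (8 : ℤ) ∣ F ((a : ℕ) : ℤ) ((b : ℕ) : ℤ) - 1 ∧ (8 : ℤ) ∣ x - (a + 4)) := by
      by_cases hk2 : k % 2 = 0
      · left
        have e2 : (8 : ℤ) ∣ F x y - F ((a : ℕ) : ℤ) ((b : ℕ) : ℤ) := by
          apply eval_dvd (N := 8)
          intro i
          fin_cases i
          · change (8 : ℤ) ∣ x - a
            omega
          · change (8 : ℤ) ∣ y - b
            omega
        constructor
        · omega
        · omega
      · right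
        have e2 : (8 : ℤ) ∣ F x y - F (((a : ℕ) : ℤ) + 4) ((b : ℕ) : ℤ) := by
          apply eval_dvd (N := 8)
          intro i
          fin_cases i
          · change (8 : ℤ) ∣ x - (a + 4)
            omega
          · change (8 : ℤ) ∣ y - b
            omega
        have hs' : (8 : ℤ) ∣ F (((a : ℕ) : ℤ) + 4) ((b : ℕ) : ℤ) -
          F ((a : ℕ) : ℤ) ((b : ℕ) : ℤ) - 4 := hs
        constructor
        · omega
        · omega
    intro i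
    simp only [hcl]
    rcases hkey with ⟨g1, g2⟩ | ⟨g1, g2⟩
    · rw [if_pos g1]
      fin_cases i
      · change (8 : ℤ) ∣ (a : ℤ) - x
        omega
      · change (8 : ℤ) ∣ (b : ℤ) - y
        omega
    · rw [if_neg g1]
      fin_cases i
      · change (8 : ℤ) ∣ ((a : ℤ) + 4) - x
        omega
      · change (8 : ℤ) ∣ (b : ℤ) - y
        omega
  -- the rational point
  have hmap : (fc ℚ (gp c)).map (algebraMap ℚ ℚ_[2]) = fc ℚ_[2] (gp c) := fc_map _ _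
  have hd : ∀ j, (fc ℚ (gp c)).degreeOf j ≤ 4 := fc_deg hg
  refine level (K := ℚ) (f := fc ℚ (gp c)) (σ := algebraMap ℚ ℚ_[2]) two_ne_zero ?_ ?_ (all_cm hd)
    (P := (fun i => (p q i : ℚ), (w q : ℚ))) ?_ ?_ ?_
  · rw [hmap]; exact cls_adapted hg
  · rw [hmap]; exact cls_unit hg
  · change ((w q : ℤ) : ℚ) ^ 2 = MvPolynomial.eval (fun i => (p q i : ℚ)) (fc ℚ (gp c))
    rw [eval_int, ← hp2]
    push_cast
    rfl
  · rw [hmap]; exact hS
  · intro i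
    have h1 : (8 : ℤ) ∣ r i - p q i := by
      have := hp1 i
      have := hcong i
      omega
    have h2 := (norm_int8 _).2 h1
    have e : S.1 i - algebraMap ℚ ℚ_[2] ((p q i : ℤ) : ℚ) =
        (S.1 i - (r i : ℚ_[2])) + ((r i - p q i : ℤ) : ℚ_[2]) := by
      rw [map_intCast]
      push_cast
      ring
    rw [e]
    exact an (hr i) h2

end Pool.Agent.Run7.h587.Ad
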