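import Pool.Agent.Run7.h587.Ad.Orb

/-!
# Changes of the coordinates, and twists
-/

set_option autoImplicit false

open Pool.Agent.Y720.MZ Pool.Agent.Y718.X Filter Topology
open Pool.Agent.Q35.ZC

namespace Pool.Agent.Run7.h587.Ad

open MvPolynomial

variable {n : ℕ}

/-- the substitution `z_i ↦ a z_i + b` -/
noncomputable def sub {R : Type*} [CommRing R] (a b : R) (f : MvPolynomial (Fin n) R) :
    MvPolynomial (Fin n) R :=
  bind₁ (fun i => C a * X i + C b) f

theorem sub_eval {R : Type*} [CommRing R] (a b : R) (f : MvPolynomial (Fin n) R) (s : Fin n → R) :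
    eval s (sub a b f) = eval (fun i => a * s i + b) f := by
  unfold sub
  induction f using MvPolynomial.induction_on with
  | C c => simp
  | add p q hp hq => rw [map_add, map_add, map_add, hp, hq]
  | mul_X p j hp =>
    rw [map_mul, map_mul, hp, map_mul, bind₁_X_right]
    simp

theorem sub_lr {R : Type*} [CommRing R] (a b : R) (f : MvPolynomial (Fin n) R) (s : Fin n → R)
    (i : Fin n) : lr (sub a b f) s i =
      (lr f (fun l => a * s l + b) i).comp (Polynomial.C a * Polynomial.X) := by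
  unfold sub lr
  induction f using MvPolynomial.induction_on with
  | C c => simp
  | add p q hp hq => rw [map_add, map_add, map_add, Polynomial.add_comp, hp, hq]
  | mul_X p j hp =>
    rw [map_mul, map_mul, hp, map_mul, bind₁_X_right, Polynomial.mul_comp, aeval_X]
    congr 1
    simp
    ring

theorem comp_coeff {R : Type*} [CommRing R] (a : R) (q : Polynomial R) (k : ℕ) :
    (q.comp (Polynomial.C a * Polynomial.X)).coeff k = q.coeff k * a ^ k := by
  induction q using Polynomial.induction_on' with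
  | add p q hp hq => rw [Polynomial.add_comp, Polynomial.coeff_add, hp, hq, Polynomial.coeff_add,
      add_mul]
  | monomial m c =>
    rw [Polynomial.monomial_comp, mul_pow, ← Polynomial.C_pow, ← mul_assoc, ← Polynomial.C_mul,
      Polynomial.coeff_C_mul_X_pow, Polynomial.coeff_monomial]
    by_cases h : m = k
    · subst h
      simp
    · rw [if_neg h, if_neg fun h' => h h'.symm, zero_mul]

theorem sub_deg {R : Type*} [CommRing R] (a b : R) {f : MvPolynomial (Fin n) R} {i : Fin n}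
    {N : ℕ} (hf : f.degreeOf i ≤ N) : (sub a b f).degreeOf i ≤ N := by
  classical
  unfold sub
  rw [f.as_sum, map_sum]
  refine (degreeOf_sum_le _ _ _).trans (Finset.sup_le fun m hm => ?_)
  rw [bind₁_monomial]
  refine (degreeOf_mul_le _ _ _).trans ?_
  rw [degreeOf_C, zero_add]
  refine (degreeOf_prod_le _ _ _).trans ?_
  have h1 : ∀ l ∈ m.support, ((C a * X l + C b : MvPolynomial (Fin n) R) ^ m l).degreeOf i ≤
      if l = i then m l else 0 := by
    intro l _
    refine (degreeOf_pow_le _ _ _).trans ?_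
    have h2 : (C a * X l + C b : MvPolynomial (Fin n) R).degreeOf i ≤ if l = i then 1 else 0 := by
      refine (degreeOf_add_le _ _ _).trans (max_le ?_ ?_)
      · refine (degreeOf_mul_le _ _ _).trans ?_
        rw [degreeOf_C, zero_add]
        rcases subsingleton_or_nontrivial R with h | h
        · have : (X l : MvPolynomial (Fin n) R) = 0 := Subsingleton.elim _ _
          rw [this, degreeOf_zero]
          exact Nat.zero_le _
        · rw [degreeOf_X]
          by_cases h3 : l = i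
          · simp [h3]
          · have h4 : ¬ i = l := fun h' => h3 h'.symm
            simp [h3, h4]
      · rw [degreeOf_C]
        exact Nat.zero_le _
    by_cases h3 : l = i
    · rw [if_pos h3] at h2 ⊢
      nlinarith
    · rw [if_neg h3] at h2 ⊢
      rw [Nat.le_zero.1 h2, mul_zero]
  refine (Finset.sum_le_sum h1).trans ?_
  rw [Finset.sum_ite_eq']
  split_ifs
  · exact ((degreeOf_le_iff.1 hf) m hm)
  · exact Nat.zero_le _

/-- the coefficients are integral -/
theorem int_iff (f : MvPolynomial (Fin n) ℚ_[2]) : (∀ m, ‖f.coeff m‖ ≤ 1) ↔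
    ∃ g : MvPolynomial (Fin n) ℤ_[2], g.map PadicInt.Coe.ringHom = f := by
  constructor
  · intro h
    have h1 : ∀ m, ∃ x : ℤ_[2], (x : ℚ_[2]) = f.coeff m := fun m => ⟨⟨_, h m⟩, rfl⟩
    choose u hu using h1
    refine ⟨∑ m ∈ f.support, monomial m (u m), ?_⟩
    rw [map_sum]
    conv_rhs => rw [f.as_sum]
    refine Finset.sum_congr rfl fun m _ => ?_
    rw [map_monomial, ← hu m]
    rfl
  · rintro ⟨g, rfl⟩ m
    rw [coeff_map]
    exact PadicInt.norm_le_one _

theorem sub_int {a b : ℚ_[2]} (ha : ‖a‖ ≤ 1) (hb : ‖b‖ ≤ 1) {f : MvPolynomial (Fin n) ℚ_[2]}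
    (hf : ∀ m, ‖f.coeff m‖ ≤ 1) (m : Fin n →₀ ℕ) : ‖(sub a b f).coeff m‖ ≤ 1 := by
  obtain ⟨g, hg⟩ := (int_iff f).1 hf
  obtain ⟨a', ha'⟩ : ∃ x : ℤ_[2], PadicInt.Coe.ringHom x = a := ⟨⟨a, ha⟩, rfl⟩
  obtain ⟨b', hb'⟩ : ∃ x : ℤ_[2], PadicInt.Coe.ringHom x = b := ⟨⟨b, hb⟩, rfl⟩
  refine (int_iff (sub a b f)).2 ⟨sub a' b' g, ?_⟩ m
  unfold sub
  rw [map_bind₁, hg]
  congr 2
  funext i
  rw [map_add, map_mul, map_C, map_C, map_X, ha', hb']

/-- the twisted polynomial -/
noncomputable def tw (δ : ℚ_[2]) (f : MvPolynomial (Fin n) ℚ_[2]) : MvPolynomial (Fin n) ℚ_[2] :=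
  C (δ ^ 2) * sub δ ((δ - 1) / 2) f

theorem tw_adapted {δ : ℚ_[2]} (hδ : ‖δ‖ = 1) {f : MvPolynomial (Fin n) ℚ_[2]}
    (hf : Adapted f) (hu : Unit2 f) : Adapted (tw δ f) ∧ Unit2 (tw δ f) := by
  have hδ0 : δ ≠ 0 := by
    rintro rfl
    rw [norm_zero] at hδ
    exact zero_ne_one hδ
  have hε : ‖(δ - 1) / 2‖ ≤ 1 := by
    rw [norm_div, n2, div_le_iff₀ (by norm_num)]
    -- a unit is odd
    set u : ℤ_[2] := ⟨δ, hδ.le⟩ with hu
    have h1 : PadicInt.toZMod u = 1 := by
      have h2 : PadicInt.toZMod u ≠ 0 := by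
        intro h
        have h3 : u ∈ RingHom.ker (PadicInt.toZMod (p := 2)) := h
        rw [PadicInt.ker_toZMod, PadicInt.maximalIdeal_eq_span_p, Ideal.mem_span_singleton] at h3
        have h4 := (PadicInt.norm_lt_one_iff_dvd u).2 h3
        rw [PadicInt.norm_def] at h4
        exact absurd hδ (ne_of_lt h4)
      revert h2
      generalize PadicInt.toZMod u = v
      revert v
      decide
    have h3 : u - 1 ∈ RingHom.ker (PadicInt.toZMod (p := 2)) := by
      change PadicInt.toZMod (u - 1) = 0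
      rw [map_sub, h1, map_one, sub_self]
    rw [PadicInt.ker_toZMod, PadicInt.maximalIdeal_eq_span_p, Ideal.mem_span_singleton] at h3
    obtain ⟨c, hc⟩ := h3
    have h5 : δ - 1 = 2 * (c : ℚ_[2]) := by
      have := congrArg (fun x : ℤ_[2] => (x : ℚ_[2])) hc
      push_cast at this
      exact this
    rw [h5, norm_mul, n2]
    have := PadicInt.norm_le_one c
    rw [PadicInt.norm_def] at this
    linarith
  have hlr : ∀ (s : Fin n → ℚ_[2]) (i : Fin n) (k : ℕ), (lr (tw δ f) s i).coeff k =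
      δ ^ 2 * δ ^ k * (lr f (fun l => δ * s l + (δ - 1) / 2) i).coeff k := by
    intro s i k
    have : lr (tw δ f) s i = Polynomial.C (δ ^ 2) * lr (sub δ ((δ - 1) / 2) f) s i := by
      unfold tw lr
      rw [map_mul]
      congr 1
      simp
    rw [this, Polynomial.coeff_C_mul, sub_lr, comp_coeff]
    ring
  have hpt : ∀ (s : Fin n → ℚ_[2]) (W : ℚ_[2]), W ^ 2 = eval s (tw δ f) →
      (W / δ) ^ 2 = eval (fun l => δ * s l + (δ - 1) / 2) f := by
    intro s W hW
    rw [div_pow, hW, tw, map_mul, eval_C, sub_eval, mul_div_cancel_left₀ _ (pow_ne_zero 2 hδ0)]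
  have key : ∀ (s : Fin n → ℚ_[2]) (W : ℚ_[2]), W ^ 2 = eval s (tw δ f) → ‖W‖ = 1 ∧
      ∀ i, ‖s i‖ ≤ 1 ∧ ‖eval s (pderiv i (tw δ f))‖ = 1 ∧ Db (lr (tw δ f) s i) ≠ 0 := by
    intro s W hW
    have h1 := hpt s W hW
    obtain ⟨u1, u2⟩ := hu _ _ h1
    obtain ⟨-, a2⟩ := hf.2.2 _ _ h1
    rw [norm_div, hδ, div_one] at u1
    refine ⟨u1, fun i => ⟨?_, ?_, ?_⟩⟩
    · have e : s i = ((δ * s i + (δ - 1) / 2) - (δ - 1) / 2) / δ := by
        rw [add_sub_cancel_right, mul_div_cancel_left₀ _ hδ0]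
      rw [e, norm_div, hδ, div_one]
      exact sn (a2 i).1 hε
    · rw [← lr_coeff_one, hlr, lr_coeff_one, norm_mul, norm_mul, norm_pow, norm_pow, hδ, one_pow,
        one_pow, one_mul, one_mul]
      exact u2 i
    · have e : Db (lr (tw δ f) s i) =
          δ ^ 24 * Db (lr f (fun l => δ * s l + (δ - 1) / 2) i) := by
        unfold Db dsc Pool.Agent.Y718.X.Ab Pool.Agent.Y718.X.Bb Pool.Agent.Y718.X.Cb
        simp only [hlr]
        ring
      rw [e]
      exact mul_ne_zero (pow_ne_zero _ hδ0) (a2 i).2.2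
  refine ⟨⟨fun i => ?_, fun m => ?_, fun s W hW => ?_⟩, fun s W hW => ?_⟩
  · unfold tw
    refine (degreeOf_mul_le _ _ _).trans ?_
    rw [degreeOf_C, zero_add]
    exact sub_deg _ _ (hf.1 i)
  · unfold tw
    rw [coeff_C_mul, norm_mul, norm_pow, hδ, one_pow, one_mul]
    exact sub_int hδ.le hε hf.2.1 m
  · obtain ⟨k1, k2⟩ := key s W hW
    refine ⟨?_, fun i => ⟨(k2 i).1, ?_, (k2 i).2.2⟩⟩
    · rintro rfl
      rw [norm_zero] at k1
      exact zero_ne_one k1
    · rw [(k2 i).2.1, norm_mul, n2, k1]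
      norm_num
  · obtain ⟨k1, k2⟩ := key s W hW
    exact ⟨k1, fun i => (k2 i).2.1⟩

end Pool.Agent.Run7.h587.Ad
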