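import Pool.Agent.Run7.h587.Ad.Ea

/-!
# Twists over the field of definition
-/

set_option autoImplicit false

open Pool.Agent.Y720.MZ Pool.Agent.Y718.X Filter Topology
open Pool.Agent.Q35.ZC

namespace Pool.Agent.Run7.h587.Ad

open MvPolynomial

variable {n : ℕ}

theorem scale_eval {L : Type*} [CommRing L] (p : MvPolynomial (Fin n) L) (c : L)
    (y : Fin n → L) : eval (fun i => c * y i) p =
      ∑ m ∈ p.support, p.coeff m * c ^ m.degree * ∏ i, y i ^ m i := by
  rw [eval_eq']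
  refine Finset.sum_congr rfl fun m _ => ?_
  rw [mul_assoc, Finsupp.degree_eq_sum, ← Finset.prod_pow_eq_pow_sum, ← Finset.prod_mul_distrib]
  congr 1
  refine Finset.prod_congr rfl fun i _ => ?_
  rw [mul_pow]

section K

variable {K : Type} [Field K] [CharZero K]

/-- the polynomial in the coordinates `2 z + 1` -/
noncomputable def ft (f : MvPolynomial (Fin n) K) : MvPolynomial (Fin n) K :=
  sub (1 / 2) (-1 / 2) f

theorem ft_even {f : MvPolynomial (Fin n) K} (hf : sub (-1) (-1) f = f) (m : Fin n →₀ ℕ)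
    (hm : Odd m.degree) : (ft f).coeff m = 0 := by
  classical
  have h1 : (∑ m ∈ (ft f).support, monomial m ((ft f).coeff m * (-1) ^ m.degree)) = ft f := by
    apply MvPolynomial.funext
    intro y
    have h2 : eval y (ft f) = eval (fun i => -1 * y i) (ft f) := by
      unfold ft
      rw [sub_eval, sub_eval]
      conv_lhs => rw [← hf, sub_eval]
      congr 2
      funext i
      ring
    rw [h2, scale_eval, map_sum]
    refine Finset.sum_congr rfl fun m _ => ?_
    rw [eval_monomial, Finsupp.prod_fintype _ _ (fun i => pow_zero _)]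
  have h2 := congrArg (coeff m) h1
  rw [coeff_sum] at h2
  by_cases h : m ∈ (ft f).support
  · rw [Finset.sum_eq_single m, coeff_monomial, if_pos rfl, hm.neg_one_pow] at h2
    · have h3 : 2 * (ft f).coeff m = 0 := by linear_combination -h2
      exact (mul_eq_zero.1 h3).resolve_left two_ne_zero
    · intro m' _ hne
      rw [coeff_monomial, if_neg hne]
    · intro h'
      exact absurd h h'
  · exact notMem_support_iff.1 h

/-- the twist by `d` -/
noncomputable def twK (d : K) (f : MvPolynomial (Fin n) K) : MvPolynomial (Fin n) K :=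
  C d * sub 2 1 (∑ m ∈ (ft f).support, monomial m ((ft f).coeff m * d ^ (m.degree / 2)))

theorem twK_map {f : MvPolynomial (Fin n) K} (hf : sub (-1) (-1) f = f) (σ : K →+* ℚ_[2]) {d : K}
    {δ : ℚ_[2]} (hd : σ d = δ ^ 2) : (twK d f).map σ = tw δ (f.map σ) := by
  classical
  apply MvPolynomial.funext
  intro s
  -- the value
  have hsub : ∀ (a b : K) (g : MvPolynomial (Fin n) K), (sub a b g).map σ =
      sub (σ a) (σ b) (g.map σ) := by
    intro a b g
    unfold sub
    rw [map_bind₁]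
    congr 2
    funext i
    rw [map_add, map_mul, map_C, map_C, map_X]
  have h1 : eval s (tw δ (f.map σ)) = δ ^ 2 * eval (fun i => δ * (2 * s i + 1)) ((ft f).map σ) := by
    rw [tw, map_mul, eval_C, sub_eval, ft, hsub, sub_eval]
    congr 3
    funext i
    simp only [map_div₀, map_neg, map_one, map_ofNat]
    ring
  rw [h1, twK, map_mul, map_C, map_mul, eval_C, hd, hsub, sub_eval, map_ofNat, map_one]
  congr 1
  have h2 : eval (fun i => δ * (2 * s i + 1)) ((ft f).map σ) =
      ∑ m ∈ (ft f).support, σ ((ft f).coeff m) * δ ^ m.degree * ∏ i, (2 * s i + 1) ^ m i := by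
    rw [scale_eval ((ft f).map σ) δ (fun i => 2 * s i + 1), support_map_of_injective _ σ.injective]
    refine Finset.sum_congr rfl fun m _ => ?_
    rw [coeff_map]
  rw [h2, map_sum, map_sum]
  refine Finset.sum_congr rfl fun m _ => ?_
  rw [map_monomial, eval_monomial, Finsupp.prod_fintype _ _ (fun i => pow_zero _), map_mul,
    map_pow, hd, ← pow_mul]
  rcases Nat.even_or_odd m.degree with h | h
  · rw [Nat.two_mul_div_two_of_even h]
  · rw [ft_even hf m h]
    simp

/-- the points whose classes modulo the involution are rational over `K` -/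
def Lf (σ : K →+* ℚ_[2]) (f : MvPolynomial (Fin n) K) : Set ((Fin n → ℚ_[2]) × ℚ_[2]) :=
  {P | OnCover (f.map σ) P ∧ (∃ d, σ d = P.2 ^ 2) ∧ (∀ i, ∃ c, σ c = (2 * P.1 i + 1) * P.2) ∧
    ∀ i j, ∃ c, σ c = (2 * P.1 i + 1) * (2 * P.1 j + 1)}

theorem lf_near (hn : n ≠ 0) {σ : K →+* ℚ_[2]} {f : MvPolynomial (Fin n) K}
    (hinv : sub (-1) (-1) f = f) (hf : Adapted (f.map σ)) (hu : Unit2 (f.map σ))
    {P S : (Fin n → ℚ_[2]) × ℚ_[2]} (hP : P ∈ Lf σ f) (hS : OnCover (f.map σ) S)
    (hPS : ∀ i, ‖S.1 i - P.1 i‖ ≤ 1 / 8) : S ∈ closure (Lf σ f) := by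
  obtain ⟨hPX, ⟨d, hd⟩, hc, -⟩ := hP
  set δ := P.2 with hδ
  have hδ1 : ‖δ‖ = 1 := (hu _ _ hPX).1
  have hδ0 : δ ≠ 0 := by
    intro h
    rw [h, norm_zero] at hδ1
    exact zero_ne_one hδ1
  have hd0 : d ≠ 0 := by
    rintro rfl
    rw [map_zero] at hd
    exact pow_ne_zero 2 hδ0 hd.symm
  choose c hc using hc
  obtain ⟨ta, tu⟩ := tw_adapted hδ1 hf hu
  rw [← twK_map hinv σ hd] at ta tu
  -- the point of the twist
  have hs : ∀ i, σ ((c i / d - 1) / 2) = (P.1 i - (δ - 1) / 2) / δ := by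
    intro i
    rw [map_div₀, map_sub, map_div₀, hc, hd, map_one, map_ofNat]
    field_simp
    ring
  have hP' : OnCover (twK d f) (fun i => (c i / d - 1) / 2, d) := by
    apply σ.injective
    change σ (d ^ 2) = σ (eval (fun i => (c i / d - 1) / 2) (twK d f))
    have e : σ (eval (fun i => (c i / d - 1) / 2) (twK d f)) =
        eval (fun i => (P.1 i - (δ - 1) / 2) / δ) ((twK d f).map σ) := by
      rw [map_eval]
      congr 2
      funext i
      exact hs i
    rw [e, twK_map hinv σ hd, tw, map_mul, eval_C, sub_eval, map_pow, hd]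
    have e2 : (fun i => δ * ((P.1 i - (δ - 1) / 2) / δ) + (δ - 1) / 2) = P.1 := by
      funext i
      rw [mul_div_cancel₀ _ hδ0, sub_add_cancel]
    rw [e2, ← show P.2 ^ 2 = eval P.1 (f.map σ) from hPX]
    ring
  have hS' : OnCover ((twK d f).map σ) (fun i => (S.1 i - (δ - 1) / 2) / δ, δ * S.2) := by
    change (δ * S.2) ^ 2 = eval (fun i => (S.1 i - (δ - 1) / 2) / δ) ((twK d f).map σ)
    rw [twK_map hinv σ hd, tw, map_mul, eval_C, sub_eval]
    have e2 : (fun i => δ * ((S.1 i - (δ - 1) / 2) / δ) + (δ - 1) / 2) = S.1 := by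
      funext i
      rw [mul_div_cancel₀ _ hδ0, sub_add_cancel]
    rw [e2, ← show S.2 ^ 2 = eval S.1 (f.map σ) from hS]
    ring
  have hcl := level hn ta tu (all_cm (map_degreeOf ta.1)) hP' hS' (fun i => by
    simp only
    rw [hs, ← sub_div, norm_div, hδ1, div_one, sub_sub_sub_cancel_right]
    exact hPS i)
  refine Metric.mem_closure_iff.2 fun η hη => ?_
  obtain ⟨_, ⟨Q, hQ, rfl⟩, hQ2⟩ := Metric.mem_closure_iff.1 hcl η hη
  obtain ⟨m1, m2⟩ := (dist_image σ Q _ hη).1 hQ2
  simp only at m1 m2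
  -- the point
  refine ⟨(fun i => δ * σ (Q.1 i) + (δ - 1) / 2, σ Q.2 / δ), ⟨?_, ⟨Q.2 ^ 2 / d, ?_⟩, fun i =>
    ⟨(2 * Q.1 i + 1) * Q.2, ?_⟩, fun i j => ⟨d * ((2 * Q.1 i + 1) * (2 * Q.1 j + 1)), ?_⟩⟩, ?_⟩
  · change (σ Q.2 / δ) ^ 2 = eval (fun i => δ * σ (Q.1 i) + (δ - 1) / 2) (f.map σ)
    have hQX : Q.2 ^ 2 = eval Q.1 (twK d f) := hQ
    have e : σ (eval Q.1 (twK d f)) = eval (fun i => σ (Q.1 i)) ((twK d f).map σ) :=
      map_eval _ _ _
    rw [div_pow, ← map_pow, hQX, e, twK_map hinv σ hd, tw, map_mul, eval_C, sub_eval,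
      mul_div_cancel_left₀ _ (pow_ne_zero 2 hδ0)]
  · rw [map_div₀, map_pow, hd, div_pow]
  · simp only [map_mul, map_add, map_ofNat, map_one]
    field_simp
    ring
  · simp only [map_mul, map_add, map_ofNat, map_one, hd]
    ring
  · rw [Prod.dist_eq]
    refine max_lt ((dist_pi_lt_iff hη).2 fun i => ?_) ?_
    · rw [dist_eq_norm]
      have e : S.1 i - (δ * σ (Q.1 i) + (δ - 1) / 2) =
          -(δ * (σ (Q.1 i) - (S.1 i - (δ - 1) / 2) / δ)) := by
        field_simp
        ring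
      rw [e, norm_neg, norm_mul, hδ1, one_mul]
      exact m1 i
    · rw [dist_eq_norm]
      have e : S.2 - σ Q.2 / δ = -((σ Q.2 - δ * S.2) / δ) := by
        field_simp
        ring
      rw [e, norm_neg, norm_div, hδ1, div_one]
      exact m2

/-- **The closure.** -/
theorem lf_closure (hn : n ≠ 0) {σ : K →+* ℚ_[2]} {f : MvPolynomial (Fin n) K}
    (hinv : sub (-1) (-1) f = f) (hf : Adapted (f.map σ)) (hu : Unit2 (f.map σ)) :
    closure (Lf σ f) = {S | OnCover (f.map σ) S ∧ ∃ P ∈ Lf σ f, ∀ i, ‖S.1 i - P.1 i‖ ≤ 1 / 8} := by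
  apply Set.Subset.antisymm
  · intro S hS
    refine ⟨closure_minimal (fun P hP => hP.1)
      (Pool.Agent.Results.MP_ed3816_nt.OpenAwayFromTorsion.isClosed_onCover (f.map σ)) hS, ?_⟩
    obtain ⟨P, hP, h2⟩ := Metric.mem_closure_iff.1 hS (1 / 8) (by norm_num)
    refine ⟨P, hP, fun i => ?_⟩
    rw [Prod.dist_eq] at h2
    rw [← dist_eq_norm]
    exact ((dist_le_pi_dist S.1 P.1 i).trans (le_max_left _ _)).trans h2.le
  · rintro S ⟨h1, P, hP, h2⟩
    exact lf_near hn hinv hf hu hP h1 h2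

end K

end Pool.Agent.Run7.h587.Ad
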