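import Pool.Agent.Run7.h587.Ad.Eb
import Pool.Agent.Run7.h587.Ad.Ce
import Pool.Agent.Run7.h587.Ad.Zar

/-!
# Zariski density, and the invariant members of the class
-/

set_option autoImplicit false

open Pool.Agent.Y720.MZ Pool.Agent.Y718.X Filter Topology
open Pool.Agent.Q35.ZC

namespace Pool.Agent.Run7.h587.Ad

open MvPolynomial

section zar

variable {K : Type} [Field K] [CharZero K] {n : ℕ}

theorem lf_zar (hn : n ≠ 0) {σ : K →+* ℚ_[2]} {f : MvPolynomial (Fin n) K}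
    (hinv : sub (-1) (-1) f = f) (hf : Adapted (f.map σ)) (hu : Unit2 (f.map σ))
    {P : (Fin n → ℚ_[2]) × ℚ_[2]} (hP : P ∈ Lf σ f) {V : Set ((Fin n → ℚ_[2]) × ℚ_[2])}
    (hV : V ∈ 𝓝 P) {g : MvPolynomial (Option (Fin n)) ℚ_[2]}
    (hg : ∀ S ∈ Lf σ f, S ∈ V → eval (fun o => o.elim S.2 S.1) g = 0) :
    (X none ^ 2 - rename some (f.map σ)) ∣ g := by
  have hmap : (f.map σ).map (RingHom.id ℚ_[2]) = f.map σ := MvPolynomial.map_id _
  have hon : ∀ {S : (Fin n → ℚ_[2]) × ℚ_[2]}, OnCover (f.map σ) S → S ∈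
      closure (Im (f.map σ) (RingHom.id ℚ_[2])) := fun {S} h => subset_closure ⟨S, h, rfl⟩
  have hcg : Continuous fun S : (Fin n → ℚ_[2]) × ℚ_[2] => eval (fun o => o.elim S.2 S.1) g := by
    refine (MvPolynomial.continuous_eval g).comp (continuous_pi fun o => ?_)
    cases o with
    | none => exact continuous_snd
    | some i => exact (continuous_apply i).comp continuous_fst
  set B : Set ((Fin n → ℚ_[2]) × ℚ_[2]) := Metric.ball P (1 / 8) with hB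
  refine zar (K := ℚ_[2]) (L := ℚ_[2]) (RingHom.id ℚ_[2]) (f := f.map σ)
    (not_sq (σ₀ := RingHom.id ℚ_[2]) (by rw [hmap]; exact hf) hn hP.1)
    (fun S hS => (hf.2.2 S.1 S.2 hS).1) (fun S hS => ⟨Set.univ, Filter.univ_mem, fun S' _ h' => ?_⟩)
    (hon hP.1) (V := B ∩ interior V)
    (Filter.inter_mem (Metric.ball_mem_nhds _ (by norm_num)) (interior_mem_nhds.2 hV))
    (fun S hS hSV => ?_)
  · rw [hmap] at h'
    exact hon h'
  · obtain ⟨hSB, hSV⟩ := hSV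
    have hSB' : S ∈ B := hSB
    have hSV' : S ∈ interior V := hSV
    have h1 : S ∈ closure (Lf σ f) := lf_near hn hinv hf hu hP hS (fun i => by
      rw [← dist_eq_norm]
      rw [hB, Metric.mem_ball, Prod.dist_eq] at hSB'
      exact ((dist_le_pi_dist S.1 P.1 i).trans (le_max_left _ _)).trans hSB'.le)
    have h2 : S ∈ closure (Lf σ f ∩ interior V) :=
      closure_mono (by rw [Set.inter_comm]) (isOpen_interior.inter_closure ⟨hSV', h1⟩)
    exact closure_minimal (fun Q hQ => hg Q hQ.1 (interior_subset hQ.2))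
      (isClosed_eq hcg continuous_const) h2

end zar

/-! ### the invariant members -/

section inv

/-- the parameters -/
abbrev Ei : Type := (Fin 3 × Fin 3) ⊕ (Fin 2 × Fin 2)

/-- the value of the monomials -/
def mi : Ei → (Fin 2 → ℤ) → ℤ
  | .inl e, x => (x 0 ^ 2 + x 0) ^ (e.1 : ℕ) * (x 1 ^ 2 + x 1) ^ (e.2 : ℕ)
  | .inr e, x => (2 * x 0 + 1) * (2 * x 1 + 1) *
      ((x 0 ^ 2 + x 0) ^ (e.1 : ℕ) * (x 1 ^ 2 + x 1) ^ (e.2 : ℕ))

/-- the polynomials -/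
noncomputable def Mi : Ei → MvPolynomial (Fin 2) ℤ
  | .inl e => (X 0 ^ 2 + X 0) ^ (e.1 : ℕ) * (X 1 ^ 2 + X 1) ^ (e.2 : ℕ)
  | .inr e => (2 * X 0 + 1) * (2 * X 1 + 1) *
      ((X 0 ^ 2 + X 0) ^ (e.1 : ℕ) * (X 1 ^ 2 + X 1) ^ (e.2 : ℕ))

theorem Mi_eval (e : Ei) (x : Fin 2 → ℤ) : eval x (Mi e) = mi e x := by
  cases e <;> simp [Mi, mi]

/-- the invariant polynomial with the parameters `c` -/
noncomputable def Gi (c : Ei → ℤ) : MvPolynomial (Fin 2) ℤ := ∑ e, C (c e) * Mi e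

theorem Gi_eval (c : Ei → ℤ) (x : Fin 2 → ℤ) : eval x (Gi c) = ∑ e, c e * mi e x := by
  simp [Gi, Mi_eval]

/-- the base point of the class -/
def bi : Ei → ℤ
  | .inl e => 3 * ((![1, 2, 1] : Fin 3 → ℤ) e.1 * (![1, 2, 1] : Fin 3 → ℤ) e.2) +
      (![2, 1, 0] : Fin 3 → ℤ) e.1 * (![1, 0, 0] : Fin 3 → ℤ) e.2 +
      (![1, 0, 0] : Fin 3 → ℤ) e.1 * (![0, 1, 0] : Fin 3 → ℤ) e.2
  | .inr _ => 0

theorem Fv_mi (c : Ei → ℤ) (x : Fin 2 → ℤ) : Fv mi bi c x = eval x (mem (Gi c)) := by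
  unfold Fv
  have h1 : ∑ e, (bi e + 4 * c e) * mi e x = ∑ e, bi e * mi e x + 4 * ∑ e, c e * mi e x := by
    rw [Finset.mul_sum, ← Finset.sum_add_distrib]
    refine Finset.sum_congr rfl fun e _ => ?_
    ring
  have h2 : ∑ e, bi e * mi e x = 3 * ((x 0 ^ 2 + x 0 + 1) ^ 2 * (x 1 ^ 2 + x 1 + 1) ^ 2) +
      ((x 0 ^ 2 + x 0) + (x 1 ^ 2 + x 1)) + 2 := by
    rw [Fintype.sum_sum_type, Fintype.sum_prod_type]
    simp only [Fin.sum_univ_three, bi, mi]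
    simp
    ring
  rw [h1, h2, ← Gi_eval]
  have h3 : x = ![x 0, x 1] := two_eta x
  conv_rhs => rw [h3, eval_mem, ← h3]

theorem mi_inv (e : Ei) (x : Fin 2 → ℤ) : mi e (fun i => -1 - x i) = mi e x := by
  cases e <;> simp only [mi] <;> ring_nf

theorem quad {p q r : ℤ} (h0 : p = 0) (h2 : p + q * 2 + r * 2 ^ 2 = 0)
    (h6 : p + q * 6 + r * 6 ^ 2 = 0) : p = 0 ∧ q = 0 ∧ r = 0 := by omega

theorem Gi_ne {h : Ei → ℤ} (hh : h ≠ 0) : Gi h ≠ 0 := by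
  intro h0
  apply hh
  have h1 : ∀ x : Fin 2 → ℤ, ∑ e, h e * mi e x = 0 := by
    intro x
    rw [← Gi_eval, h0, map_zero]
  -- the two parts
  have ha : ∀ x y : ℤ, ∑ e : Fin 3 × Fin 3, h (.inl e) *
      ((x ^ 2 + x) ^ (e.1 : ℕ) * (y ^ 2 + y) ^ (e.2 : ℕ)) = 0 ∧
      ∑ e : Fin 2 × Fin 2, h (.inr e) *
      ((x ^ 2 + x) ^ (e.1 : ℕ) * (y ^ 2 + y) ^ (e.2 : ℕ)) = 0 := by
    intro x y
    have k1 := h1 ![x, y]
    have k2 := h1 ![-1 - x, y]
    rw [Fintype.sum_sum_type] at k1 k2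
    simp only [mi, Matrix.cons_val_zero, Matrix.cons_val_one] at k1 k2
    have e1 : ∀ e : Fin 3 × Fin 3, h (.inl e) *
        (((-1 - x) ^ 2 + (-1 - x)) ^ (e.1 : ℕ) * (y ^ 2 + y) ^ (e.2 : ℕ)) = h (.inl e) *
        ((x ^ 2 + x) ^ (e.1 : ℕ) * (y ^ 2 + y) ^ (e.2 : ℕ)) := by
      intro e
      rw [show (-1 - x) ^ 2 + (-1 - x) = x ^ 2 + x by ring]
    have e2 : ∀ e : Fin 2 × Fin 2, h (.inr e) * ((2 * (-1 - x) + 1) * (2 * y + 1) *
        (((-1 - x) ^ 2 + (-1 - x)) ^ (e.1 : ℕ) * (y ^ 2 + y) ^ (e.2 : ℕ))) =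
        -((2 * x + 1) * (2 * y + 1)) * (h (.inr e) *
        ((x ^ 2 + x) ^ (e.1 : ℕ) * (y ^ 2 + y) ^ (e.2 : ℕ))) := by
      intro e
      rw [show (-1 - x) ^ 2 + (-1 - x) = x ^ 2 + x by ring]
      ring
    have e3 : ∀ e : Fin 2 × Fin 2, h (.inr e) * ((2 * x + 1) * (2 * y + 1) *
        ((x ^ 2 + x) ^ (e.1 : ℕ) * (y ^ 2 + y) ^ (e.2 : ℕ))) =
        ((2 * x + 1) * (2 * y + 1)) * (h (.inr e) *
        ((x ^ 2 + x) ^ (e.1 : ℕ) * (y ^ 2 + y) ^ (e.2 : ℕ))) := by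
      intro e
      ring
    rw [Finset.sum_congr rfl fun e _ => e1 e, Finset.sum_congr rfl fun e _ => e2 e,
      ← Finset.mul_sum] at k2
    rw [Finset.sum_congr (s₁ := (Finset.univ : Finset (Fin 2 × Fin 2))) rfl fun e _ => e3 e,
      ← Finset.mul_sum] at k1
    have hT : (2 * x + 1) * (2 * y + 1) ≠ 0 := mul_ne_zero (by omega) (by omega)
    constructor
    · linarith
    · have : ((2 * x + 1) * (2 * y + 1)) * ∑ e : Fin 2 × Fin 2, h (.inr e) *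
          ((x ^ 2 + x) ^ (e.1 : ℕ) * (y ^ 2 + y) ^ (e.2 : ℕ)) = 0 := by linarith
      exact (mul_eq_zero.1 this).resolve_left hT
  simp only [Fintype.sum_prod_type, Fin.sum_univ_three, Fin.sum_univ_two] at ha
  have q00 := ha 0 0
  have q10 := ha 1 0
  have q20 := ha 2 0
  have q01 := ha 0 1
  have q11 := ha 1 1
  have q21 := ha 2 1
  have q02 := ha 0 2
  have q12 := ha 1 2
  have q22 := ha 2 2
  norm_num at q00 q10 q20 q01 q11 q21 q02 q12 q22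
  have a00 : h (.inl (0, 0)) = 0 := by omega
  have a01 : h (.inl (0, 1)) = 0 := by omega
  have a02 : h (.inl (0, 2)) = 0 := by omega
  have a10 : h (.inl (1, 0)) = 0 := by omega
  have a20 : h (.inl (2, 0)) = 0 := by omega
  have a11 : h (.inl (1, 1)) = 0 := by omega
  have a12 : h (.inl (1, 2)) = 0 := by omega
  have a21 : h (.inl (2, 1)) = 0 := by omega
  have a22 : h (.inl (2, 2)) = 0 := by omega
  have b00 : h (.inr (0, 0)) = 0 := by omega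
  have b01 : h (.inr (0, 1)) = 0 := by omega
  have b10 : h (.inr (1, 0)) = 0 := by omega
  have b11 : h (.inr (1, 1)) = 0 := by omega
  funext e
  rcases e with ⟨i, j⟩ | ⟨i, j⟩
  · fin_cases i <;> fin_cases j <;>
      first
      | exact a00
      | exact a01
      | exact a02
      | exact a10
      | exact a11
      | exact a12
      | exact a20
      | exact a21
      | exact a22
  · fin_cases i <;> fin_cases j <;>
      first
      | exact b00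
      | exact b01
      | exact b10
      | exact b11

/-! ### interpolation -/

/-- congruent points -/
def ni (q x : Fin 2 → ℤ) : Prop := ∀ i, (8 : ℤ) ∣ q i - x i

theorem mi_near (h : Ei → ℤ) (hh : h ≠ 0) (x : Fin 2 → ℤ) :
    ∃ q, ni q x ∧ ∑ e, h e * mi e q ≠ 0 := by
  obtain ⟨q, h1, h2⟩ := exists_lift x (Gi_ne hh)
  exact ⟨q, h1, by rw [← Gi_eval]; exact h2⟩

theorem mi_dvd (q x : Fin 2 → ℤ) (h : ni q x) (e : Ei) : (8 : ℤ) ∣ mi e q - mi e x := by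
  rw [← Mi_eval, ← Mi_eval]
  exact eval_dvd (N := 8) h _

theorem Mi_deg (e : Ei) (i : Fin 2) : (Mi e).degreeOf i ≤ 4 := by
  have h2 : (2 : MvPolynomial (Fin 2) ℤ).degreeOf i = 0 := by
    have : (2 : MvPolynomial (Fin 2) ℤ) = C 2 := (map_ofNat _ 2).symm
    rw [this, degreeOf_C]
  have hq : ∀ (l : Fin 2) (k : ℕ), ((X l ^ 2 + X l : MvPolynomial (Fin 2) ℤ) ^ k).degreeOf i ≤
      k * (if l = i then 2 else 0) := by
    intro l k
    exact (degreeOf_pow_le _ _ _).trans (Nat.mul_le_mul_left _ (degreeOf_q l i))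
  have hl : ∀ l : Fin 2, (2 * X l + 1 : MvPolynomial (Fin 2) ℤ).degreeOf i ≤
      if l = i then 1 else 0 := by
    intro l
    refine (degreeOf_add_le _ _ _).trans (max_le ?_ ?_)
    · refine (degreeOf_mul_le _ _ _).trans ?_
      rw [h2, zero_add, degreeOf_X]
      by_cases h3 : l = i
      · simp [h3]
      · have h4 : ¬ i = l := fun h' => h3 h'.symm
        simp [h3, h4]
    · rw [degreeOf_one]
      exact Nat.zero_le _
  rcases e with ⟨a, b⟩ | ⟨a, b⟩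
  · refine (degreeOf_mul_le _ _ _).trans ?_
    have e0 := hq 0 a
    have e1 := hq 1 b
    have ha := a.2
    have hb := b.2
    simp only
    fin_cases i
    · simp only [Fin.zero_eta, if_true, one_ne_zero, if_false, mul_zero] at e0 e1 ⊢
      omega
    · simp only [Fin.mk_one, if_true, zero_ne_one, if_false, mul_zero] at e0 e1 ⊢
      omega
  · refine (degreeOf_mul_le _ _ _).trans ?_
    have e4 := degreeOf_mul_le i (2 * X 0 + 1 : MvPolynomial (Fin 2) ℤ) (2 * X 1 + 1)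
    have e5 := degreeOf_mul_le i ((X 0 ^ 2 + X 0 : MvPolynomial (Fin 2) ℤ) ^ (a : ℕ))
      ((X 1 ^ 2 + X 1) ^ (b : ℕ))
    have e0 := hq 0 a
    have e1 := hq 1 b
    have e2 := hl 0
    have e3 := hl 1
    have ha := a.2
    have hb := b.2
    simp only
    fin_cases i
    · simp only [Fin.zero_eta, if_true, one_ne_zero, if_false, mul_zero] at e0 e1 e2 e3 e4 e5 ⊢
      omega
    · simp only [Fin.mk_one, if_true, zero_ne_one, if_false, mul_zero] at e0 e1 e2 e3 e4 e5 ⊢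
      omega

theorem Gi_deg (c : Ei → ℤ) (i : Fin 2) : (Gi c).degreeOf i ≤ 4 := by
  refine (degreeOf_sum_le _ _ _).trans (Finset.sup_le fun e _ => ?_)
  refine (degreeOf_mul_le _ _ _).trans ?_
  rw [degreeOf_C, zero_add]
  exact Mi_deg e i

theorem Gi_inv (c : Ei → ℤ) (x : Fin 2 → ℤ) :
    eval (fun i => -1 - x i) (mem (Gi c)) = eval x (mem (Gi c)) := by
  rw [← Fv_mi, ← Fv_mi]
  unfold Fv
  refine Finset.sum_congr rfl fun e _ => ?_
  rw [mi_inv]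

/-- **Members with a dense set of rational points.** -/
theorem dense_i (c₀ : Ei → ℤ) (M : ℕ) : ∃ c : Ei → ℤ, (∀ e, (2 : ℤ) ^ (M + 1) ∣ c e - c₀ e) ∧
    ∀ S : (Fin 2 → ℚ_[2]) × ℚ_[2], OnCover (fc ℚ_[2] (Gi c)) S →
      S ∈ closure (ImR {P : (Fin 2 → ℚ) × ℚ | OnCover (fc ℚ (Gi c)) P} (algebraMap ℚ ℚ_[2])) := by
  classical
  set T : Finset (Fin 8) := Finset.univ.filter fun j => ∃ x : Fin 2 → ℤ,
    ((2 : ℤ) ∣ x 0 ∧ (8 : ℤ) ∣ x 1 - ((j : ℕ) : ℤ)) ∧ (8 : ℤ) ∣ eval x (mem (Gi c₀)) - 1 with hT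
  have hex : ∀ j, ∃ x : Fin 2 → ℤ, j ∈ T →
      ((2 : ℤ) ∣ x 0 ∧ (8 : ℤ) ∣ x 1 - ((j : ℕ) : ℤ)) ∧ (8 : ℤ) ∣ eval x (mem (Gi c₀)) - 1 := by
    intro j
    by_cases h : j ∈ T
    · obtain ⟨x, hx⟩ := (Finset.mem_filter.1 h).2
      exact ⟨x, fun _ => hx⟩
    · exact ⟨0, fun h' => absurd h' h⟩
  choose cl hcl using hex
  have hcard : T.card ≤ Fintype.card Ei := by
    refine (Finset.card_filter_le _ _).trans ?_
    simp [Ei]
  obtain ⟨c, p, w, hc, hp⟩ := interp' mi bi ni mi_near mi_dvd c₀ cl M T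
    (fun j hj => by rw [Fv_mi]; exact (hcl j hj).2) hcard
  refine ⟨c, hc, fun S hS => ?_⟩
  obtain ⟨r, hr, hr8⟩ := near_int (Gi_deg c) hS
  have hcc : ∀ x : Fin 2 → ℤ, (8 : ℤ) ∣ eval x (mem (Gi c)) - eval x (mem (Gi c₀)) := by
    intro x
    rw [← Fv_mi, ← Fv_mi]
    unfold Fv
    rw [← Finset.sum_sub_distrib]
    refine Finset.dvd_sum fun e _ => ?_
    obtain ⟨t, ht⟩ := (dvd_pow_self (2 : ℤ) (Nat.succ_ne_zero M)).trans (hc e)
    exact ⟨t * mi e x, by linear_combination (4 * mi e x) * ht⟩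
  -- a rational point in the class of an even vector
  have heven : ∀ r : Fin 2 → ℤ, (2 : ℤ) ∣ r 0 → (8 : ℤ) ∣ eval r (mem (Gi c)) - 1 →
      ∃ (q : Fin 2 → ℤ) (v : ℤ), (∀ i, (8 : ℤ) ∣ r i - q i) ∧ v ^ 2 = eval q (mem (Gi c)) := by
    intro r h2 h8
    have hr0 : (8 : ℤ) ∣ eval r (mem (Gi c₀)) - 1 := by
      have := hcc r
      omega
    obtain ⟨j, hj⟩ : ∃ j : Fin 8, (8 : ℤ) ∣ r 1 - ((j : ℕ) : ℤ) :=
      ⟨⟨(r 1 % 8).toNat, by omega⟩, by simp only; omega⟩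
    have hjT : j ∈ T := Finset.mem_filter.2 ⟨Finset.mem_univ _, r, ⟨h2, hj⟩, hr0⟩
    obtain ⟨⟨h3, h4⟩, h5⟩ := hcl j hjT
    have h6 : ∀ i, (8 : ℤ) ∣ cl j i - r i := by
      refine uniq (g := Gi c₀) ?_ (fun i => ?_) ?_
      · omega
      · fin_cases i
        change (8 : ℤ) ∣ cl j 1 - r 1
        omega
      · omega
    obtain ⟨h7, h8'⟩ := hp j hjT
    refine ⟨p j, w j, fun i => ?_, ?_⟩
    · have := h6 i
      have := h7 i
      omega
    · rw [h8', Fv_mi]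
  have hall : ∃ (q : Fin 2 → ℤ) (v : ℤ), (∀ i, (8 : ℤ) ∣ r i - q i) ∧
      v ^ 2 = eval q (mem (Gi c)) := by
    by_cases h2 : (2 : ℤ) ∣ r 0
    · exact heven r h2 hr8
    · obtain ⟨q, v, h3, h4⟩ := heven (fun i => -1 - r i) (by omega) (by
        rw [Gi_inv]; exact hr8)
      refine ⟨fun i => -1 - q i, v, fun i => ?_, ?_⟩
      · have := h3 i
        simp only at this ⊢
        omega
      · rw [Gi_inv]
        exact h4
  obtain ⟨q, v, h3, h4⟩ := hall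
  have hg := Gi_deg c
  have hmap : (fc ℚ (Gi c)).map (algebraMap ℚ ℚ_[2]) = fc ℚ_[2] (Gi c) := fc_map _ _
  have hd : ∀ j, (fc ℚ (Gi c)).degreeOf j ≤ 4 := fc_deg hg
  refine level (K := ℚ) (f := fc ℚ (Gi c)) (σ := algebraMap ℚ ℚ_[2]) two_ne_zero ?_ ?_
    (all_cm hd) (P := (fun i => (q i : ℚ), (v : ℚ))) ?_ ?_ ?_
  · rw [hmap]; exact cls_adapted hg
  · rw [hmap]; exact cls_unit hg
  · change ((v : ℤ) : ℚ) ^ 2 = eval (fun i => (q i : ℚ)) (fc ℚ (Gi c))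
    rw [eval_int, ← h4]
    push_cast
    rfl
  · rw [hmap]; exact hS
  · intro i
    have h2 := (norm_int8 _).2 (h3 i)
    have e : S.1 i - algebraMap ℚ ℚ_[2] ((q i : ℤ) : ℚ) =
        (S.1 i - (r i : ℚ_[2])) + ((r i - q i : ℤ) : ℚ_[2]) := by
      rw [map_intCast]
      push_cast
      ring
    rw [e]
    exact an (hr i) h2

end inv

end Pool.Agent.Run7.h587.Ad
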