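import Pool.Agent.Run7.h587.Ad.Ec
import Pool.Agent.Run7.h587.Ad.Exm
import Pool.Agent.Run7.h587.Ad.Zd

/-!
# Invariant functions at the points with a rational class
-/

set_option autoImplicit false

open Pool.Agent.Y720.MZ Pool.Agent.Y718.X Filter Topology
open Pool.Agent.Q35.ZC

namespace Pool.Agent.Run7.h587.Ad

section even

open Polynomial

variable {K : Type} [Field K] [CharZero K]

theorem even_value {H : K[X]} (hH : H.comp (-X) = H) (σ : K →+* ℚ_[2]) {d : K} {δ : ℚ_[2]}
    (hd : σ d = δ ^ 2) : ∃ c, σ c = H.eval₂ σ δ := by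
  have hodd : ∀ k, Odd k → H.coeff k = 0 := by
    intro k hk
    have h1 := congrArg (fun p => p.coeff k) hH
    have h2 : (H.comp (-X)).coeff k = H.coeff k * (-1) ^ k := by
      have h3 : (-X : K[X]) = C (-1) * X := by simp
      rw [h3, comp_coeff]
    simp only [h2, hk.neg_one_pow] at h1
    have h3 : 2 * H.coeff k = 0 := by linear_combination -h1
    exact (mul_eq_zero.1 h3).resolve_left two_ne_zero
  refine ⟨∑ k ∈ H.support, H.coeff k * d ^ (k / 2), ?_⟩
  rw [map_sum, eval₂_eq_sum, Polynomial.sum]
  refine Finset.sum_congr rfl fun k _ => ?_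
  rw [map_mul, map_pow, hd, ← pow_mul]
  rcases Nat.even_or_odd k with h | h
  · rw [Nat.two_mul_div_two_of_even h]
  · rw [hodd k h, map_zero, zero_mul, zero_mul]

end even

section cls

open MvPolynomial

variable {K : Type} [Field K] [CharZero K] {n : ℕ}

/-- all the invariant functions over `K` take values in `K` at the point -/
def Rc (σ : K →+* ℚ_[2]) (P : (Fin n → ℚ_[2]) × ℚ_[2]) : Prop :=
  ∀ h : MvPolynomial (Option (Fin n)) K,
    (∀ (z : Fin n → K) (w : K), eval (fun o => o.elim (-w) fun i => -1 - z i) h =
      eval (fun o => o.elim w z) h) →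
    ∃ c, σ c = eval (fun o => o.elim P.2 P.1) (h.map σ)

theorem rc_iff {σ : K →+* ℚ_[2]} {f : MvPolynomial (Fin n) K}
    {P : (Fin n → ℚ_[2]) × ℚ_[2]} (hP : OnCover (f.map σ) P) (h0 : P.2 ≠ 0) :
    Rc σ P ↔ P ∈ Lf σ f := by
  constructor
  · intro h
    refine ⟨hP, ?_, fun i => ?_, fun i j => ?_⟩
    · obtain ⟨c, hc⟩ := h (X none ^ 2) (by intro z w; simp)
      exact ⟨c, by rw [hc]; simp⟩
    · obtain ⟨c, hc⟩ := h ((2 * X (some i) + 1) * X none) (by
        intro z w
        simp only [map_mul, map_add, map_one, map_ofNat, eval_X, Option.elim]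
        ring)
      exact ⟨c, by rw [hc]; simp⟩
    · obtain ⟨c, hc⟩ := h ((2 * X (some i) + 1) * (2 * X (some j) + 1)) (by
        intro z w
        simp only [map_mul, map_add, map_one, map_ofNat, eval_X, Option.elim]
        ring)
      exact ⟨c, by rw [hc]; simp⟩
  · rintro ⟨-, ⟨d, hd⟩, hc, -⟩ h hinv
    choose c hc using hc
    have hd0 : d ≠ 0 := by
      rintro rfl
      rw [map_zero] at hd
      exact pow_ne_zero 2 h0 hd.symm
    -- the restriction to a line
    set H : Polynomial K := aeval (fun o : Option (Fin n) => o.elim Polynomial.X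
      fun i => Polynomial.C (1 / 2) * (Polynomial.C (c i / d) * Polynomial.X - 1)) h with hH
    have hev : ∀ t : K, H.eval t = eval (fun o : Option (Fin n) => o.elim t
        fun i => 1 / 2 * (c i / d * t - 1)) h := by
      intro t
      have := congrArg (fun φ : MvPolynomial (Option (Fin n)) K →+* K => φ h)
        (show ((Polynomial.evalRingHom t).comp (aeval (fun o : Option (Fin n) =>
            o.elim Polynomial.X fun i => Polynomial.C (1 / 2) *
              (Polynomial.C (c i / d) * Polynomial.X - 1)) :
            MvPolynomial (Option (Fin n)) K →ₐ[K] Polynomial K).toRingHom) =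
          eval (fun o : Option (Fin n) => o.elim t fun i => 1 / 2 * (c i / d * t - 1)) from by
          apply MvPolynomial.ringHom_ext
          · intro r
            simp
          · intro o
            cases o <;> simp)
      exact this
    have hcomp : H.comp (-Polynomial.X) = H := by
      apply Polynomial.funext
      intro t
      rw [Polynomial.eval_comp, Polynomial.eval_neg, Polynomial.eval_X, hev, hev,
        ← hinv (fun i => 1 / 2 * (c i / d * t - 1)) t]
      congr 2
      funext o
      cases o with
      | none => rfl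
      | some i =>
        simp only [Option.elim]
        ring
    obtain ⟨e, he⟩ := even_value hcomp σ hd
    refine ⟨e, ?_⟩
    rw [he, Polynomial.eval₂_eq_eval_map]
    have hm := congrArg (fun φ : MvPolynomial (Option (Fin n)) K →+* ℚ_[2] => φ h)
        (show ((Polynomial.eval₂RingHom σ P.2).comp (aeval (fun o : Option (Fin n) =>
            o.elim Polynomial.X fun i => Polynomial.C (1 / 2) *
              (Polynomial.C (c i / d) * Polynomial.X - 1)) :
            MvPolynomial (Option (Fin n)) K →ₐ[K] Polynomial K).toRingHom) =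
          (eval (fun o : Option (Fin n) => o.elim P.2 P.1)).comp (map σ) from by
          apply MvPolynomial.ringHom_ext
          · intro r
            simp
          · intro o
            cases o with
            | none => simp
            | some i =>
              simp only [RingHom.comp_apply, AlgHom.toRingHom_eq_coe, RingHom.coe_coe, aeval_X,
                Option.elim, Polynomial.coe_eval₂RingHom, Polynomial.eval₂_mul,
                Polynomial.eval₂_sub, Polynomial.eval₂_C, Polynomial.eval₂_X,
                Polynomial.eval₂_one, map_X, eval_X]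
              rw [map_div₀, map_div₀, hc, hd, map_one, map_ofNat]
              field_simp
              ring)
    rw [← Polynomial.eval₂_eq_eval_map]
    exact hm

end cls

section exist

open MvPolynomial

/-- a residue class with points -/
theorem on_of_res {g : MvPolynomial (Fin 2) ℤ} {r : Fin 2 → ℤ}
    (h : (8 : ℤ) ∣ eval r (mem g) - 1) :
    ∃ S : (Fin 2 → ℚ_[2]) × ℚ_[2], OnCover (fc ℚ_[2] g) S := by
  obtain ⟨u, hu, -⟩ := sqrt_one (v := ((eval r (mem g) : ℤ) : ℚ_[2])) (by
    have := (norm_int8 _).2 h
    push_cast at this ⊢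
    exact this)
  refine ⟨(fun i => (r i : ℚ_[2]), u), ?_⟩
  change u ^ 2 = eval (fun i => (r i : ℚ_[2])) (fc ℚ_[2] g)
  rw [eval_int, hu]

theorem on_exists (g : MvPolynomial (Fin 2) ℤ) :
    ∃ S : (Fin 2 → ℚ_[2]) × ℚ_[2], OnCover (fc ℚ_[2] g) S := by
  have h1 := shift g 0 0
  have h2 := mod4 g 0 0
  by_cases h : (8 : ℤ) ∣ eval ![(0 : ℤ), 0] (mem g) - 1
  · exact on_of_res h
  · refine on_of_res (r := ![0 + 4, 0]) ?_
    omega

end exist

end Pool.Agent.Run7.h587.Ad
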