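import Pool.Agent.Run7.h587.Ad.Loc

/-!
# There are many members of the class with a rational point
-/

set_option autoImplicit false

namespace Pool.Agent.Run7.h587.Ad

/-- the substitution `c_o = k² + k - 1` -/
def sb {α : Type*} [DecidableEq α] (o : α) {R : Type*} [CommRing R] (z : α → R) : α → R :=
  fun e => if e = o then z o ^ 2 + z o - 1 else z e

theorem sb_dense {α : Type*} [DecidableEq α] {o : α} {P : MvPolynomial α ℂ} (hP : P ≠ 0) :
    ∃ t : α → ℤ, MvPolynomial.eval (fun a => ((sb o t a : ℤ) : ℂ)) P ≠ 0 := by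
  by_contra hcon
  push Not at hcon
  set Q : MvPolynomial α ℂ := MvPolynomial.bind₁ (fun a : α =>
    sb o (fun i => (MvPolynomial.X i : MvPolynomial α ℂ)) a) P with hQ
  have hev : ∀ z : α → ℂ, MvPolynomial.eval z Q =
      MvPolynomial.eval (fun a => sb o z a) P := by
    intro z
    rw [hQ, MvPolynomial.eval, MvPolynomial.eval₂Hom_bind₁]
    congr 2
    funext a
    simp only [sb]
    split_ifs <;> simp
  have hQ0 : Q = 0 := by
    apply MvPolynomial.funext_set (fun a : α => Set.range fun t : ℤ => ((t : ℤ) : ℂ))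
    · intro a
      apply Set.infinite_range_of_injective
      exact Int.cast_injective
    · intro x hx
      have hx' : ∀ a : α, ∃ t : ℤ, (t : ℂ) = x a := fun a => hx a (Set.mem_univ _)
      choose t ht using hx'
      rw [map_zero, hev, ← hcon t]
      congr 2
      funext a
      simp only [sb]
      split_ifs with h
      · simp only [← ht]
        push_cast
        ring
      · simp only [← ht]
  apply hP
  apply MvPolynomial.funext
  intro c
  obtain ⟨v, hv⟩ := IsAlgClosed.exists_pow_nat_eq (c o + 5 / 4) (n := 2) (by norm_num)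
  have h1 := hev (Function.update c o (v - 1 / 2))
  rw [hQ0, map_zero] at h1
  rw [map_zero, h1]
  congr 2
  funext a
  by_cases h : a = o
  · subst h
    simp only [sb, if_pos, Function.update_self]
    linear_combination -hv
  · simp [sb, h]

variable {n : ℕ}

/-- the polynomial with the coefficients `c` -/
noncomputable def gp (c : (Fin n → Fin 5) → ℤ) : MvPolynomial (Fin n) ℤ :=
  ∑ e, MvPolynomial.C (c e) * ∏ i, MvPolynomial.X i ^ (e i : ℕ)

theorem gp_deg (c : (Fin n → Fin 5) → ℤ) (i : Fin n) : (gp c).degreeOf i ≤ 4 := by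
  classical
  unfold gp
  refine (MvPolynomial.degreeOf_sum_le _ _ _).trans ?_
  refine Finset.sup_le fun e _ => ?_
  refine (MvPolynomial.degreeOf_mul_le _ _ _).trans ?_
  rw [MvPolynomial.degreeOf_C, zero_add]
  refine (MvPolynomial.degreeOf_prod_le _ _ _).trans ?_
  have : ∀ l ∈ (Finset.univ : Finset (Fin n)),
      (MvPolynomial.X l ^ (e l : ℕ) : MvPolynomial (Fin n) ℤ).degreeOf i ≤
        if l = i then 4 else 0 := by
    intro l _
    refine (MvPolynomial.degreeOf_pow_le _ _ _).trans ?_
    rw [MvPolynomial.degreeOf_X]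
    by_cases h : i = l
    · rw [if_pos h, if_pos h.symm]
      have := (e l).2
      omega
    · rw [if_neg h, if_neg (Ne.symm h), mul_zero]
  refine (Finset.sum_le_sum this).trans ?_
  rw [Finset.sum_ite_eq' Finset.univ i, if_pos (Finset.mem_univ _)]

theorem gp_zero (c : (Fin n → Fin 5) → ℤ) : MvPolynomial.eval (fun _ => 0) (gp c) = c 0 := by
  classical
  unfold gp
  rw [map_sum, Finset.sum_eq_single (0 : Fin n → Fin 5)]
  · simp
  · intro e _ he
    rw [map_mul, MvPolynomial.eval_C, map_prod]
    obtain ⟨i, hi⟩ := Function.ne_iff.1 he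
    rw [Finset.prod_eq_zero (Finset.mem_univ i), mul_zero]
    rw [map_pow, MvPolynomial.eval_X, zero_pow]
    intro h
    apply hi
    exact Fin.ext (by simpa using h)
  · intro h
    exact absurd (Finset.mem_univ _) h

/-- **Existence.** -/
theorem exist {P : MvPolynomial (Fin n → Fin 5) ℂ} (hP : P ≠ 0) :
    ∃ (c : (Fin n → Fin 5) → ℤ) (w : ℤ), MvPolynomial.eval (fun e => (c e : ℂ)) P ≠ 0 ∧
      w ^ 2 = MvPolynomial.eval (fun _ => 0) (fc ℤ (gp c)) := by
  obtain ⟨t, ht⟩ := sb_dense (o := (0 : Fin n → Fin 5)) hP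
  refine ⟨sb 0 t, 2 * t 0 + 1, ht, ?_⟩
  have h1 : (gp (sb 0 t)).map (Int.castRingHom ℤ) = gp (sb 0 t) := by
    rw [show Int.castRingHom ℤ = RingHom.id ℤ from Subsingleton.elim _ _]
    exact MvPolynomial.map_id _
  rw [fc, map_add, map_mul, map_ofNat, f0_eval, h1, gp_zero]
  simp [sb]
  ring

end Pool.Agent.Run7.h587.Ad
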