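import Pool.Agent.Run7.h587.Ad.Orb
import Pool.Agent.Results.MP_9207e0_ag.AdaptedSurfaces

/-!
# Few points span a dense set of points
-/

set_option autoImplicit false

open Pool.Agent.Q35.ZC (odds_ct map2 image)
open Pool.Agent.Results.MP_9207e0_ag.AdaptedSurfaces (pt dl Rat OddMultiples Spanned Central)

namespace Pool.Agent.Run7.h587.Ad

section span

variable {K : Type} [Field K] {n : ℕ} {f : MvPolynomial (Fin n) K}

/-- the span of few points -/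
theorem span_odd {P₀ P Q : (Fin n → K) × K} (hP₀ : P₀.2 ^ 2 = MvPolynomial.eval P₀.1 f)
    {T : Set ((Fin n → K) × K)} (h₀ : P₀ ∈ T) (h₀' : (P₀.1, -P₀.2) ∈ T)
    (hP : P.2 ^ 2 = MvPolynomial.eval P.1 f) (hPT : P ∈ T) (hQ : Q ∈ OddMultiples f P) :
    Q ∈ Spanned f T := by
  obtain ⟨hQX, k, hk⟩ := hQ
  refine ⟨hQX, 2, two_ne_zero, ?_⟩
  have h1 : pt Q.1 Q.2 + pt Q.1 (-Q.2) - pt P₀.1 P₀.2 - pt P₀.1 (-P₀.2) ∈ Rat f :=
    AddSubgroup.subset_closure (Or.inr ⟨_, _, _, _, hQX, hP₀, rfl⟩)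
  have h1' : pt P.1 P.2 + pt P.1 (-P.2) - pt P₀.1 P₀.2 - pt P₀.1 (-P₀.2) ∈ Rat f :=
    AddSubgroup.subset_closure (Or.inr ⟨_, _, _, _, hP, hP₀, rfl⟩)
  have h2 := add_mem h1 hk
  have h2' := sub_mem h2 (AddSubgroup.zsmul_mem _ h1' (2 * k + 1))
  have c0 : pt P₀.1 P₀.2 ∈ AddSubgroup.closure {z | ∃ P ∈ T, z = pt P.1 P.2} :=
    AddSubgroup.subset_closure ⟨P₀, h₀, rfl⟩
  have c0' : pt P₀.1 (-P₀.2) ∈ AddSubgroup.closure {z | ∃ P ∈ T, z = pt P.1 P.2} :=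
    AddSubgroup.subset_closure ⟨_, h₀', rfl⟩
  have c1 : pt P.1 P.2 ∈ AddSubgroup.closure {z | ∃ P ∈ T, z = pt P.1 P.2} :=
    AddSubgroup.subset_closure ⟨P, hPT, rfl⟩
  have h5 := AddSubgroup.mem_sup_left (T := Rat f)
    (add_mem (add_mem (AddSubgroup.zsmul_mem _ c0 (-2 * k)) (AddSubgroup.zsmul_mem _ c0' (-2 * k)))
      (AddSubgroup.zsmul_mem _ c1 (2 * (2 * k + 1))))
  have h6 := AddSubgroup.mem_sup_right (S := AddSubgroup.closure {z | ∃ P ∈ T, z = pt P.1 P.2}) h2'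
  have h7 := add_mem h5 h6
  have e : (-2 * k) • pt P₀.1 P₀.2 + (-2 * k) • pt P₀.1 (-P₀.2) + (2 * (2 * k + 1)) • pt P.1 P.2 +
      (pt Q.1 Q.2 + pt Q.1 (-Q.2) - pt P₀.1 P₀.2 - pt P₀.1 (-P₀.2) +
        (dl Q.1 Q.2 - (2 * k + 1) • dl P.1 P.2) -
        (2 * k + 1) • (pt P.1 P.2 + pt P.1 (-P.2) - pt P₀.1 P₀.2 - pt P₀.1 (-P₀.2))) =
      2 • pt Q.1 Q.2 := by
    simp only [dl]
    module
  rwa [e] at h7

end span

section few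

variable {K : Type} [Field K] [CharZero K] {n : ℕ} {f : MvPolynomial (Fin n) K}

theorem few {σ : K →+* ℚ_[2]} (hn : n ≠ 0) (hf : Adapted (f.map σ)) (hu : Unit2 (f.map σ))
    {ι : Type} [Fintype ι] (κ : {Q : (Fin n → K) × K // Q.2 ^ 2 = MvPolynomial.eval Q.1 f} → ι)
    (hκ : ∀ Q Q', κ Q = κ Q' → ∀ i, ‖σ (Q.1.1 i) - σ (Q'.1.1 i)‖ ≤ 1 / 8) :
    ∃ T : Finset ((Fin n → K) × K), T.card ≤ Fintype.card ι + 1 ∧
      (∀ P ∈ T, P.2 ^ 2 = MvPolynomial.eval P.1 f) ∧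
      closure (ImR {Q | Q.2 ^ 2 = MvPolynomial.eval Q.1 f} σ) ⊆
        closure (ImR (Spanned f T) σ) ∧
      ∀ Q : (Fin n → K) × K, Q.2 ^ 2 = MvPolynomial.eval Q.1 f → ∃ P ∈ T,
        image σ Q ∈ closure (ImR (OddMultiples f P) σ) := by
  classical
  have hd : ∀ j, f.degreeOf j ≤ 4 := map_degreeOf hf.1
  rcases isEmpty_or_nonempty {Q : (Fin n → K) × K // Q.2 ^ 2 = MvPolynomial.eval Q.1 f} with hE | hN
  · refine ⟨∅, by simp, fun P hP => absurd hP (Finset.notMem_empty P), ?_, fun Q hQ =>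
      (hE.false ⟨Q, hQ⟩).elim⟩
    refine closure_mono ?_
    rintro _ ⟨Q, hQ, -⟩
    exact (hE.false ⟨Q, hQ⟩).elim
  obtain ⟨Q₀⟩ := hN
  -- representatives
  have hex : ∀ a : ι, ∃ P : {Q : (Fin n → K) × K // Q.2 ^ 2 = MvPolynomial.eval Q.1 f},
      (∃ Q, κ Q = a) → κ P = a := by
    intro a
    by_cases h : ∃ Q, κ Q = a
    · obtain ⟨Q, hQ⟩ := h
      exact ⟨Q, fun _ => hQ⟩
    · exact ⟨Q₀, fun h' => absurd h' h⟩
  choose G hG using hex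
  set P₀ : (Fin n → K) × K := (G (κ Q₀)).1 with hP₀
  have hP₀X : P₀.2 ^ 2 = MvPolynomial.eval P₀.1 f := (G (κ Q₀)).2
  set T₀ : Finset ((Fin n → K) × K) := Finset.univ.image fun a => (G a).1 with hT₀
  have hP₀T : P₀ ∈ T₀ := Finset.mem_image_of_mem (fun a => (G a).1) (Finset.mem_univ (κ Q₀))
  have hT₀X : ∀ P ∈ T₀, P.2 ^ 2 = MvPolynomial.eval P.1 f := by
    intro P hP
    obtain ⟨a, -, rfl⟩ := Finset.mem_image.1 hP
    exact (G a).2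
  have key : ∀ S ∈ closure (ImR {Q | Q.2 ^ 2 = MvPolynomial.eval Q.1 f} σ), ∃ P ∈ T₀,
      S ∈ closure (ImR (OddMultiples f P) σ) := by
    intro S hS
    have hS' := hS
    have e1 : closure (ImR {Q | Q.2 ^ 2 = MvPolynomial.eval Q.1 f} σ) = _ :=
      cl_eq hn hf hu (all_cm hd)
    rw [e1] at hS'
    obtain ⟨h1, Q, hQ, h2⟩ := hS'
    have h3 := hG (κ ⟨Q, hQ⟩) ⟨_, rfl⟩
    refine ⟨(G (κ ⟨Q, hQ⟩)).1, Finset.mem_image_of_mem (fun a => (G a).1) (Finset.mem_univ _), ?_⟩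
    refine level hn hf hu (odds_cm hd (G (κ ⟨Q, hQ⟩)).1) (P := (G (κ ⟨Q, hQ⟩)).1)
      ⟨(G (κ ⟨Q, hQ⟩)).2, 0, by simp⟩ h1 fun i => ?_
    have h4 := hκ _ _ h3 i
    have e : S.1 i - σ ((G (κ ⟨Q, hQ⟩)).1.1 i) = (S.1 i - σ (Q.1 i)) -
        (σ ((G (κ ⟨Q, hQ⟩)).1.1 i) - σ (Q.1 i)) := by ring
    rw [e]
    exact sn (h2 i) h4
  refine ⟨insert (P₀.1, -P₀.2) T₀, ?_, ?_, ?_, ?_⟩
  · refine (Finset.card_insert_le _ _).trans (Nat.succ_le_succ ?_)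
    exact Finset.card_image_le.trans (by rw [Finset.card_univ])
  · intro P hP
    rcases Finset.mem_insert.1 hP with rfl | hP
    · change (-P₀.2) ^ 2 = _
      rw [neg_sq]
      exact hP₀X
    · exact hT₀X P hP
  · intro S hS
    obtain ⟨P, hP, hSP⟩ := key S hS
    refine closure_mono ?_ hSP
    rintro _ ⟨Q, hQ, rfl⟩
    exact ⟨Q, span_odd hP₀X (Finset.mem_coe.2 (Finset.mem_insert_of_mem hP₀T))
      (Finset.mem_coe.2 (Finset.mem_insert_self _ _)) (hT₀X P hP)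
      (Finset.mem_coe.2 (Finset.mem_insert_of_mem hP)) hQ, rfl⟩
  · intro Q hQ
    obtain ⟨P, hP, h⟩ := key (image σ Q) (subset_closure ⟨Q, hQ, rfl⟩)
    exact ⟨P, Finset.mem_insert_of_mem hP, h⟩

end few

/-! ### the classes -/

theorem fin8 {x : ℚ_[2]} (hx : ‖x‖ ≤ 1) : ∃ a : Fin 8, ‖x - ((a : ℕ) : ℚ_[2])‖ ≤ 1 / 8 := by
  obtain ⟨t, ht⟩ := approx hx
  refine ⟨⟨(t % 8).toNat, by omega⟩, ?_⟩
  have h3 : (8 : ℤ) ∣ t - ((t % 8).toNat : ℤ) := by omega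
  have h4 := (norm_int8 _).2 h3
  have e : x - (((t % 8).toNat : ℕ) : ℚ_[2]) =
      (x - (t : ℚ_[2])) + ((t - ((t % 8).toNat : ℤ) : ℤ) : ℚ_[2]) := by
    push_cast
    ring
  simp only
  rw [e]
  exact an ht h4

theorem few_gen {K : Type} [Field K] [CharZero K] {n : ℕ} {f : MvPolynomial (Fin n) K}
    {σ : K →+* ℚ_[2]} (hn : n ≠ 0) (hf : Adapted (f.map σ)) (hu : Unit2 (f.map σ)) :
    ∃ T : Finset ((Fin n → K) × K), T.card ≤ 8 ^ n + 1 ∧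
      (∀ P ∈ T, P.2 ^ 2 = MvPolynomial.eval P.1 f) ∧
      closure (ImR {Q | Q.2 ^ 2 = MvPolynomial.eval Q.1 f} σ) ⊆
        closure (ImR (Spanned f T) σ) ∧
      ∀ Q : (Fin n → K) × K, Q.2 ^ 2 = MvPolynomial.eval Q.1 f → ∃ P ∈ T,
        image σ Q ∈ closure (ImR (OddMultiples f P) σ) := by
  classical
  have hex : ∀ Q : {Q : (Fin n → K) × K // Q.2 ^ 2 = MvPolynomial.eval Q.1 f},
      ∃ r : Fin n → Fin 8, ∀ i, ‖σ (Q.1.1 i) - ((r i : ℕ) : ℚ_[2])‖ ≤ 1 / 8 := by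
    intro Q
    have hon := Pool.Agent.Results.MP_ed3816_nt.OpenAwayFromTorsion.onCover_image (f := f) σ
      (P := Q.1) Q.2
    choose r hr using fun i => fin8 ((hf.2.2 _ _ hon).2 i).1
    exact ⟨r, hr⟩
  choose κ hκ using hex
  obtain ⟨T, h1, h2, h3⟩ := few hn hf hu κ (fun Q Q' h i => by
    have e : σ (Q.1.1 i) - σ (Q'.1.1 i) = (σ (Q.1.1 i) - ((κ Q i : ℕ) : ℚ_[2])) -
        (σ (Q'.1.1 i) - ((κ Q i : ℕ) : ℚ_[2])) := by ring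
    rw [e]
    refine sn (hκ Q i) ?_
    rw [h]
    exact hκ Q' i)
  refine ⟨T, ?_, h2, h3⟩
  rw [Fintype.card_fun, Fintype.card_fin, Fintype.card_fin] at h1
  exact h1

theorem class_inj (g : MvPolynomial (Fin 2) ℤ) {r r' : Fin 2 → ℤ}
    (h : (8 : ℤ) ∣ MvPolynomial.eval r (mem g) - 1) (h' : (8 : ℤ) ∣ MvPolynomial.eval r' (mem g) - 1)
    (h0 : (4 : ℤ) ∣ r 0 - r' 0) (h1 : (8 : ℤ) ∣ r 1 - r' 1) : (8 : ℤ) ∣ r 0 - r' 0 := by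
  by_contra hcon
  have e1 : (8 : ℤ) ∣ MvPolynomial.eval r (mem g) - MvPolynomial.eval ![r' 0 + 4, r' 1] (mem g) := by
    apply eval_dvd (N := 8)
    intro i
    fin_cases i
    · change (8 : ℤ) ∣ r 0 - (r' 0 + 4)
      omega
    · change (8 : ℤ) ∣ r 1 - r' 1
      exact h1
  have e2 := shift g (r' 0) (r' 1)
  rw [← two_eta r'] at e2
  omega

theorem few_two {K : Type} [Field K] [CharZero K] {g : MvPolynomial (Fin 2) ℤ}
    (hg : ∀ i, g.degreeOf i ≤ 4) (σ : K →+* ℚ_[2]) :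
    ∃ T : Finset ((Fin 2 → K) × K), T.card ≤ 17 ∧
      (∀ P ∈ T, P.2 ^ 2 = MvPolynomial.eval P.1 (fc K g)) ∧
      closure (ImR {Q | Q.2 ^ 2 = MvPolynomial.eval Q.1 (fc K g)} σ) ⊆
        closure (ImR (Spanned (fc K g) T) σ) ∧
      ∀ Q : (Fin 2 → K) × K, Q.2 ^ 2 = MvPolynomial.eval Q.1 (fc K g) → ∃ P ∈ T,
        image σ Q ∈ closure (ImR (OddMultiples (fc K g) P) σ) := by
  classical
  have hmap : (fc K g).map σ = fc ℚ_[2] g := fc_map _ _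
  have hf : Adapted ((fc K g).map σ) := by rw [hmap]; exact cls_adapted hg
  have hu : Unit2 ((fc K g).map σ) := by rw [hmap]; exact cls_unit hg
  have hex : ∀ Q : {Q : (Fin 2 → K) × K // Q.2 ^ 2 = MvPolynomial.eval Q.1 (fc K g)},
      ∃ (r : Fin 2 → ℤ) (q : Qs), (∀ i, ‖σ (Q.1.1 i) - (r i : ℚ_[2])‖ ≤ 1 / 8) ∧
        (8 : ℤ) ∣ MvPolynomial.eval r (mem g) - 1 ∧
        (4 : ℤ) ∣ r 0 - ((q.1.1 : ℕ) : ℤ) ∧ (8 : ℤ) ∣ r 1 - ((q.1.2 : ℕ) : ℤ) := by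
    intro Q
    have hon := Pool.Agent.Results.MP_ed3816_nt.OpenAwayFromTorsion.onCover_image (f := fc K g) σ
      (P := Q.1) Q.2
    rw [hmap] at hon
    obtain ⟨r, hr, hr8⟩ := near_int hg hon
    have hxy := mod4 g (r 0) (r 1)
    rw [← two_eta r] at hxy
    obtain ⟨k, hk⟩ := mod_lift (r 0) 4
    obtain ⟨l, hl⟩ := mod_lift (r 1) 8
    obtain ⟨a, ha⟩ : ∃ a : Fin 4, ((a : ℕ) : ℤ) = r 0 % 4 :=
      ⟨⟨(r 0 % 4).toNat, by omega⟩, by simp only; omega⟩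
    obtain ⟨b, hb⟩ : ∃ b : Fin 8, ((b : ℕ) : ℤ) = r 1 % 8 :=
      ⟨⟨(r 1 % 8).toNat, by omega⟩, by simp only; omega⟩
    rw [← ha] at hk
    rw [← hb] at hl
    have hq : (4 : ℤ) ∣ ((a : ℕ) : ℤ) ^ 2 + ((a : ℕ) : ℤ) +
        (((b : ℕ) : ℤ) ^ 2 + ((b : ℕ) : ℤ)) := by
      have h1 : (4 : ℤ) ∣ ((r 0) ^ 2 + r 0) + ((r 1) ^ 2 + r 1) := by omega
      have h2 : ((r 0) ^ 2 + r 0) + ((r 1) ^ 2 + r 1) = ((a : ℕ) : ℤ) ^ 2 + ((a : ℕ) : ℤ) +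
          (((b : ℕ) : ℤ) ^ 2 + ((b : ℕ) : ℤ)) +
          4 * (2 * a * k + 4 * k ^ 2 + k + (4 * b * l + 16 * l ^ 2 + 2 * l)) := by
        rw [hk, hl]; ring
      rw [h2] at h1
      exact (dvd_add_left (Dvd.intro _ rfl)).1 h1
    exact ⟨r, ⟨(a, b), hq⟩, hr, hr8, by simp only; omega, by simp only; omega⟩
  choose r κ hr hr8 h0 h1 using hex
  obtain ⟨T, g1, g2, g3⟩ := few two_ne_zero hf hu κ (fun Q Q' h i => by
    have k0 := h0 Q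
    have k0' := h0 Q'
    have k1 := h1 Q
    have k1' := h1 Q'
    rw [h] at k0 k1
    have k2 : (8 : ℤ) ∣ r Q 1 - r Q' 1 := by omega
    have k3 := class_inj g (hr8 Q) (hr8 Q') (by omega) k2
    have k4 : (8 : ℤ) ∣ r Q i - r Q' i := by
      fin_cases i
      · exact k3
      · exact k2
    have e : σ (Q.1.1 i) - σ (Q'.1.1 i) = (σ (Q.1.1 i) - (r Q i : ℚ_[2])) +
        (((r Q i - r Q' i : ℤ) : ℚ_[2]) - (σ (Q'.1.1 i) - (r Q' i : ℚ_[2]))) := by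
      push_cast
      ring
    rw [e]
    exact an (hr Q i) (sn ((norm_int8 _).2 k4) (hr Q' i)))
  refine ⟨T, g1.trans ?_, g2, g3⟩
  have : Fintype.card Qs ≤ 16 := by decide
  omega

end Pool.Agent.Run7.h587.Ad
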