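import Pool.Agent.Run7.h587.Ad.Lim

/-!
# The points of a curve of genus one which are congruent modulo eight are limits of moves
-/

set_option autoImplicit false

open WeierstrassCurve Pool.Agent.Y720.MZ Pool.Agent.Y718.X Filter Topology
open Pool.Agent.Q35.ZC

namespace Pool.Agent.Run7.h587.Ad

section conv

theorem mn {x y : ℚ_[2]} {r s : ℝ} (hx : ‖x‖ ≤ r) (hy : ‖y‖ ≤ s) : ‖x * y‖ ≤ r * s := by
  rw [norm_mul]
  exact mul_le_mul hx hy (norm_nonneg _) ((norm_nonneg _).trans hx)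

theorem an {x y : ℚ_[2]} {r : ℝ} (hx : ‖x‖ ≤ r) (hy : ‖y‖ ≤ r) : ‖x + y‖ ≤ r :=
  (Padic.nonarchimedean _ _).trans (max_le hx hy)

theorem sn {x y : ℚ_[2]} {r : ℝ} (hx : ‖x‖ ≤ r) (hy : ‖y‖ ≤ r) : ‖x - y‖ ≤ r := by
  rw [sub_eq_add_neg]
  exact an hx (by rwa [norm_neg])

theorem dn {x y : ℚ_[2]} (h : ‖y‖ < ‖x‖) : ‖x + y‖ = ‖x‖ := by
  rw [Padic.add_eq_max_of_ne h.ne', max_eq_left h.le]

theorem dn' {x y : ℚ_[2]} (h : ‖y‖ < ‖x‖) : ‖x - y‖ = ‖x‖ := by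
  rw [sub_eq_add_neg]
  exact dn (by rwa [norm_neg])

variable {w : ℚ_[2]} {q : Fin 4 → ℚ_[2]}

theorem n4 : ‖(4 : ℚ_[2])‖ = 1 / 4 := by
  rw [show (4 : ℚ_[2]) = 2 * 2 by norm_num, norm_mul, n2]; norm_num

theorem tX_norm (hw : ‖w‖ = 1) (h0 : ‖q 0‖ = 1) (hq : ∀ j, ‖q j‖ ≤ 1) :
    ‖xs w (q 0) (q 1)‖ = 4 := by
  have h1 : ‖q 0 ^ 2 / (4 * w ^ 2)‖ = 4 := by
    rw [norm_div, norm_mul, norm_pow, norm_pow, hw, h0, n4]; norm_num
  rw [xs, dn' (by rw [h1]; exact (hq 1).trans_lt (by norm_num)), h1]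

theorem rest_norm (hq : ∀ j, ‖q j‖ ≤ 1) {t : ℚ_[2]} (ht : ‖t‖ ≤ 1) :
    ‖q 1 * t ^ 2 + q 2 * t ^ 3 + q 3 * t ^ 4‖ ≤ ‖t‖ ^ 2 := by
  have h0 := norm_nonneg t
  have k1 : ‖q 1 * t ^ 2‖ ≤ ‖t‖ ^ 2 := by
    have := mn (hq 1) (le_refl ‖t ^ 2‖)
    rwa [one_mul, norm_pow] at this
  have k2 : ‖q 2 * t ^ 3‖ ≤ ‖t‖ ^ 2 := by
    have := mn (hq 2) (le_refl ‖t ^ 3‖)
    rw [one_mul, norm_pow] at this
    exact this.trans (pow_le_pow_of_le_one h0 ht (by norm_num))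
  have k3 : ‖q 3 * t ^ 4‖ ≤ ‖t‖ ^ 2 := by
    have := mn (hq 3) (le_refl ‖t ^ 4‖)
    rw [one_mul, norm_pow] at this
    exact this.trans (pow_le_pow_of_le_one h0 ht (by norm_num))
  exact an (an k1 k2) k3

/-- from the quartic to the resolvent -/
theorem conv2 (hw : ‖w‖ = 1) (h0 : ‖q 0‖ = 1) (hq : ∀ j, ‖q j‖ ≤ 1) {t Y : ℚ_[2]} (ht0 : t ≠ 0)
    (ht : ‖t‖ ≤ 1 / 8) (hY : Y ^ 2 = qv w q t)
    (hbad : (xs w (q 0) (q 1) ^ 2 - 4 * w ^ 2 * q 3) * t ≠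
      2 * (q 0 * xs w (q 0) (q 1) + 2 * w ^ 2 * q 2)) :
    ∃ x y : ℚ_[2], y ^ 2 = x ^ 3 + q 1 * x ^ 2 + rb w (q 0) (q 2) (q 3) * x +
      rc w (q 0) (q 1) (q 2) (q 3) ∧ 1 < ‖x‖ ∧ Df w (q 0) (q 2) x y ≠ 0 ∧
      t = tf w (q 0) (q 1) (q 2) x y ∧ Y = Yf w (q 0) (q 1) (q 2) x y := by
  have hw0 : w ≠ 0 := by
    rintro rfl
    rw [norm_zero] at hw
    exact zero_ne_one hw
  have hw2 : 2 * w ≠ 0 := mul_ne_zero two_ne_zero hw0
  have htn : 0 < ‖t‖ := norm_pos_iff.2 ht0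
  set x := (2 * w * (Y + w) + q 0 * t) / t ^ 2 with hx
  set y := (Nf w (q 0) (q 1) x / t + q 0 * x + 2 * w ^ 2 * q 2) / (2 * w) with hy
  have hx' : t ^ 2 * x = 2 * w * (Y + w) + q 0 * t := by
    rw [hx, mul_div_cancel₀ _ (pow_ne_zero 2 ht0)]
  have hy' : t * Df w (q 0) (q 2) x y = Nf w (q 0) (q 1) x := by
    have e : 2 * w * y = Nf w (q 0) (q 1) x / t + q 0 * x + 2 * w ^ 2 * q 2 := by
      rw [hy, mul_div_cancel₀ _ hw2]
    have e' : t * (Nf w (q 0) (q 1) x / t) = Nf w (q 0) (q 1) x := mul_div_cancel₀ _ ht0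
    unfold Df
    linear_combination t * e + e'
  unfold qv at hY
  obtain ⟨h1, h2⟩ := from_quartic hw0 ht0 hY hx' hy'
  -- the denominator
  have hN : Nf w (q 0) (q 1) x ≠ 0 := by
    intro hN
    apply hbad
    have hxe : x = xs w (q 0) (q 1) := by
      unfold Nf at hN
      unfold xs
      field_simp
      linear_combination hN
    have e1 : 2 * w * Y = t ^ 2 * x - q 0 * t - 2 * w ^ 2 := by linear_combination -hx'
    have h3 : t ^ 2 * (x ^ 2 - 4 * w ^ 2 * q 3) - 2 * t * (q 0 * x + 2 * w ^ 2 * q 2) -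
        Nf w (q 0) (q 1) x = 0 := by
      apply (mul_eq_zero.1 (?_ : t ^ 2 * _ = 0)).resolve_left (pow_ne_zero 2 ht0)
      unfold Nf
      linear_combination (-(2 * w * Y) - (t ^ 2 * x - q 0 * t - 2 * w ^ 2)) * e1 + 4 * w ^ 2 * hY
    rw [hN, sub_zero] at h3
    apply mul_left_cancel₀ ht0
    rw [← hxe]
    linear_combination h3
  have hD : Df w (q 0) (q 2) x y ≠ 0 := by
    intro h0
    rw [h0, mul_zero] at hy'
    exact hN hy'.symm
  have htf : t = tf w (q 0) (q 1) (q 2) x y := by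
    rw [tf, eq_div_iff hD, hy']
  refine ⟨x, y, h1, ?_, hD, htf, ?_⟩
  · -- the norm of the abscissa
    set A := Y + w with hA
    have hs : A * (A - 2 * w) = q 0 * t + (q 1 * t ^ 2 + q 2 * t ^ 3 + q 3 * t ^ 4) := by
      rw [hA]; linear_combination hY
    have ht1 : ‖t‖ ≤ 1 := ht.trans (by norm_num)
    have hrest := rest_norm hq ht1
    have ht2 : ‖t‖ ^ 2 < ‖t‖ := by nlinarith
    have hq0t : ‖q 0 * t‖ = ‖t‖ := by rw [norm_mul, h0, one_mul]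
    have hsn : ‖A‖ * ‖A - 2 * w‖ = ‖t‖ := by
      rw [← norm_mul, hs, dn (by rw [hq0t]; exact hrest.trans_lt ht2), hq0t]
    have h2w : ‖2 * w‖ = 1 / 2 := by rw [norm_mul, n2, hw]; norm_num
    have hxn : ‖t‖ ^ 2 * ‖x‖ = ‖2 * w * A + q 0 * t‖ := by
      rw [← hx', norm_mul, norm_pow]
    rcases lt_trichotomy ‖A‖ (1 / 2) with hlt | heq | hgt
    · have h3 : ‖A - 2 * w‖ = 1 / 2 := by
        rw [norm_sub_rev, dn' (by rw [h2w]; exact hlt), h2w]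
      rw [h3] at hsn
      have h4 : ‖A‖ = 2 * ‖t‖ := by linarith
      have e : 2 * w * A + q 0 * t = A ^ 2 - (q 1 * t ^ 2 + q 2 * t ^ 3 + q 3 * t ^ 4) := by
        linear_combination -hs
      have h5 : ‖A ^ 2‖ = 4 * ‖t‖ ^ 2 := by rw [norm_pow, h4]; ring
      rw [e, dn' (by rw [h5]; nlinarith), h5] at hxn
      have h6 : ‖x‖ = 4 := by
        have : 0 < ‖t‖ ^ 2 := by positivity
        nlinarith
      rw [h6]; norm_num
    · have h5 : ‖2 * w * A‖ = 1 / 4 := by rw [norm_mul, h2w, heq]; norm_num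
      rw [dn (by rw [h5, hq0t]; linarith), h5] at hxn
      by_contra hcon
      push Not at hcon
      have : ‖t‖ ^ 2 * ‖x‖ ≤ (1 / 8) ^ 2 * 1 := by gcongr
      rw [hxn] at this
      norm_num at this
    · exfalso
      have h3 : ‖A - 2 * w‖ = ‖A‖ := dn' (by rw [h2w]; exact hgt)
      rw [h3] at hsn
      nlinarith
  · rw [Yf, ← htf]; exact h2

end conv

section points

variable {K L : Type*} [Field K] [Field L]

/-- multiples of the image of a point -/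
theorem pt_mul0 [DecidableEq K] [DecidableEq L] [Algebra K L] {W' : WeierstrassCurve K} {x y : K}
    {W₁ : WeierstrassCurve K} (hW₁ : W₁ = W'.baseChange K) (h : W₁.toAffine.Nonsingular x y)
    {W₂ : WeierstrassCurve L} (hW₂ : W₂ = W'.baseChange L)
    (h₂ : W₂.toAffine.Nonsingular (algebraMap K L x) (algebraMap K L y)) (m : ℤ) :
    (m • (.some _ _ h₂ : W₂.toAffine.Point) = 0) ∨ ∃ (X Y : K) (h' : W₁.toAffine.Nonsingular X Y)
      (h'' : W₂.toAffine.Nonsingular (algebraMap K L X) (algebraMap K L Y)),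
      m • (.some _ _ h : W₁.toAffine.Point) = .some X Y h' ∧
      m • (.some _ _ h₂ : W₂.toAffine.Point) = .some _ _ h'' := by
  subst hW₁ hW₂
  have h1 : Affine.Point.map (W' := W') (F := K) (K := L) (Algebra.ofId K L)
      (m • (.some _ _ h : (W'.baseChange K).toAffine.Point)) =
      m • (.some _ _ h₂ : (W'.baseChange L).toAffine.Point) := by
    rw [map_zsmul]
    rfl
  rcases hP : m • (.some _ _ h : (W'.baseChange K).toAffine.Point) with _ | ⟨X, Y, h'⟩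
  · left
    rw [hP] at h1
    rw [← h1]
    rfl
  · right
    rw [hP] at h1
    exact ⟨X, Y, h', _, rfl, h1.symm⟩

theorem pt_mul [DecidableEq K] [DecidableEq L] (φ : K →+* L) {a b c x y : K}
    (h : (cv a b c).toAffine.Nonsingular x y) {a' b' c' x' y' : L} (ea : a' = φ a) (eb : b' = φ b)
    (ec : c' = φ c) (ex : x' = φ x) (ey : y' = φ y)
    (h₂ : (cv a' b' c').toAffine.Nonsingular x' y') (m : ℤ) {X' Y' : L}
    (h₃ : (cv a' b' c').toAffine.Nonsingular X' Y')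
    (hm : m • (.some _ _ h₂ : Pt a' b' c') = .some X' Y' h₃) :
    ∃ (X Y : K) (h' : (cv a b c).toAffine.Nonsingular X Y),
      m • (.some _ _ h : Pt a b c) = .some X Y h' ∧ φ X = X' ∧ φ Y = Y' := by
  subst ea eb ec ex ey
  let := φ.toAlgebra
  rcases pt_mul0 (L := L) (W' := cv a b c) (W₁ := cv a b c)
    (WeierstrassCurve.map_id _).symm h (W₂ := cv (φ a) (φ b) (φ c))
    (by simp [cv, WeierstrassCurve.map, WeierstrassCurve.baseChange]; exact ⟨rfl, rfl, rfl⟩) h₂ m with h0 | ⟨X, Y, h', h'', e1, e2⟩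
  · have h4 := h0.symm.trans hm
    exact absurd h4.symm (by rintro ⟨⟩)
  · have h4 := e2.symm.trans hm
    rw [Affine.Point.some.injEq] at h4
    exact ⟨X, Y, h', e1, h4.1, h4.2⟩

end points

section fibre

/-- the target is moved away from finitely many values of the parameter -/
theorem perturb2 {g : ℚ_[2] → ℚ_[2]} (hg : Continuous g) {t Y A B : ℚ_[2]} (h : Y ^ 2 = g t)
    (hY : Y ≠ 0) (hA : A ≠ 0) {η : ℝ} (hη : 0 < η) :
    ∃ t' Y' : ℚ_[2], t' ≠ 0 ∧ A * t' ≠ B ∧ ‖t' - t‖ < η ∧ ‖Y' - Y‖ < η ∧ Y' ^ 2 = g t' := by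
  obtain ⟨δ, hδ, hs⟩ := exists_sqrt hY hη
  have h1 : ∀ᶠ t' in 𝓝 t, ‖g t' - Y ^ 2‖ < δ := by
    have h2 : Tendsto (fun t' => ‖g t' - Y ^ 2‖) (𝓝 t) (𝓝 0) := by
      have := ((hg.tendsto t).sub_const (Y ^ 2)).norm
      rwa [← h, sub_self, norm_zero] at this
    exact h2.eventually_lt_const hδ
  have h3 : ∀ᶠ t' in 𝓝 t, ‖t' - t‖ < η := by
    have h2 : Tendsto (fun t' => ‖t' - t‖) (𝓝 t) (𝓝 0) := by
      have := ((continuous_id.tendsto t).sub_const t).norm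
      rwa [id, sub_self, norm_zero] at this
    exact h2.eventually_lt_const hη
  have h4 : ∃ᶠ t' in 𝓝 t, t' ∈ ({0}ᶜ ∩ {B / A}ᶜ : Set ℚ_[2]) := by
    have h5 : Dense ({0}ᶜ ∩ {B / A}ᶜ : Set ℚ_[2]) :=
      (dense_compl_singleton (0 : ℚ_[2])).inter_of_isOpen_left (dense_compl_singleton (B / A))
        isOpen_compl_singleton
    have := h5 t
    rwa [mem_closure_iff_frequently] at this
  obtain ⟨t', e1, e2, e3⟩ := (h4.and_eventually (h1.and h3)).exists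
  obtain ⟨Y', e4, e5⟩ := hs _ e2
  refine ⟨t', Y', e1.1, ?_, e3, e4, e5⟩
  intro h0
  apply e1.2
  rw [Set.mem_singleton_iff, eq_div_iff hA, mul_comm]
  exact h0

variable {K : Type*} [Field K] [CharZero K]

/-- **The fibres.** -/
theorem fibre2 (σ : K →+* ℚ_[2]) {θ : K × (Fin 4 → K)} (hw : ‖σ θ.1‖ = 1)
    (h0 : ‖σ (θ.2 0)‖ = 1) (hq : ∀ j, ‖σ (θ.2 j)‖ ≤ 1) (hD : dsc (tA θ) (tB θ) (tC θ) ≠ 0)
    (hS : letI : DecidableEq K := Classical.decEq K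
      ∀ h, ∀ n : ℕ, n ≠ 0 → n • (.some (tX θ) (tY θ) h : Pt (tA θ) (tB θ) (tC θ)) ≠ 0)
    {t Y : ℚ_[2]} (ht : ‖t‖ ≤ 1 / 8) (hY : Y ^ 2 = qv (σ θ.1) (fun j => σ (θ.2 j)) t)
    {η : ℝ} (hη : 0 < η) : ∃ u Z : K, MulPt θ u Z ∧ ‖σ u - t‖ < η ∧ ‖σ Z - Y‖ < η := by
  let : DecidableEq K := Classical.decEq K
  let : DecidableEq ℚ_[2] := Classical.decEq _
  set w : ℚ_[2] := σ θ.1 with hwd
  set q : Fin 4 → ℚ_[2] := fun j => σ (θ.2 j) with hqd
  have hw0 : θ.1 ≠ 0 := by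
    intro h
    rw [hwd, h, map_zero, norm_zero] at hw
    exact zero_ne_one hw
  have hq' : ∀ j, ‖q j‖ ≤ 1 := hq
  have hXn : ‖xs w (q 0) (q 1)‖ = 4 := tX_norm hw h0 hq'
  -- the ordinate of the target is not zero
  have hYn : ‖Y ^ 2‖ = 1 := by
    have ht1 : ‖t‖ ≤ 1 := ht.trans (by norm_num)
    have h1 := rest_norm hq' ht1
    have e : Y ^ 2 = w ^ 2 + (q 0 * t + (q 1 * t ^ 2 + q 2 * t ^ 3 + q 3 * t ^ 4)) := by
      rw [hY, qv]; ring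
    have h2 : ‖q 0 * t‖ ≤ 1 / 8 := by
      rw [norm_mul, show ‖q 0‖ = 1 from h0, one_mul]; exact ht
    have h3 : ‖q 0 * t + (q 1 * t ^ 2 + q 2 * t ^ 3 + q 3 * t ^ 4)‖ ≤ 1 / 8 := by
      refine an h2 (h1.trans ?_)
      nlinarith [norm_nonneg t]
    have hw2 : ‖w ^ 2‖ = 1 := by rw [norm_pow, hw, one_pow]
    rw [e, dn (by rw [hw2]; linarith), hw2]
  have hY0 : Y ≠ 0 := by
    rintro rfl
    rw [zero_pow two_ne_zero, norm_zero] at hYn
    exact zero_ne_one hYn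
  -- the target is moved
  have hA : xs w (q 0) (q 1) ^ 2 - 4 * w ^ 2 * q 3 ≠ 0 := by
    have h1 : ‖xs w (q 0) (q 1) ^ 2‖ = 16 := by rw [norm_pow, hXn]; norm_num
    have h2 : ‖4 * w ^ 2 * q 3‖ ≤ 1 := by
      rw [norm_mul, norm_mul, norm_pow, hw, n4]
      have := hq' 3
      linarith
    have h3 : ‖xs w (q 0) (q 1) ^ 2 - 4 * w ^ 2 * q 3‖ = 16 := by
      rw [dn' (by rw [h1]; linarith), h1]
    intro h4
    rw [h4, norm_zero] at h3
    norm_num at h3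
  obtain ⟨s, Z', s0, sb, s1, s2, s3⟩ := perturb2 (g := qv w q) (by unfold qv; fun_prop) hY hY0 hA
    (B := 2 * (q 0 * xs w (q 0) (q 1) + 2 * w ^ 2 * q 2)) (η := min (η / 2) (1 / 8))
    (lt_min (half_pos hη) (by norm_num))
  have hs8 : ‖s‖ ≤ 1 / 8 := by
    have : s = (s - t) + t := by ring
    rw [this]
    exact an ((s1.trans_le (min_le_right _ _)).le) ht
  obtain ⟨x, y, c1, c2, c3, c4, c5⟩ := conv2 hw h0 hq' s0 hs8 s3 sb
  -- the curve over `ℚ₂`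
  have eA : tA (w, q) = σ (tA θ) := rfl
  have eB : tB (w, q) = σ (tB θ) := by
    simp only [tB, rb, map_sub, map_mul, map_pow, map_ofNat, hwd, hqd]
  have eC : tC (w, q) = σ (tC θ) := by
    simp only [tC, rc, map_sub, map_add, map_mul, map_pow, map_ofNat, hwd, hqd]
  have eX : tX (w, q) = σ (tX θ) := by
    simp only [tX, xs, map_sub, map_div₀, map_mul, map_pow, map_ofNat, hwd, hqd]
  have eY : tY (w, q) = σ (tY θ) := by
    simp only [tY, ys, xs, map_sub, map_add, map_div₀, map_mul, map_pow, map_ofNat, hwd, hqd]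
  have hD' : dsc (tA (w, q)) (tB (w, q)) (tC (w, q)) ≠ 0 := by
    rw [eA, eB, eC]
    have e : dsc (σ (tA θ)) (σ (tB θ)) (σ (tC θ)) = σ (dsc (tA θ) (tB θ) (tC θ)) := by
      simp only [dsc, map_sub, map_add, map_mul, map_pow, map_ofNat]
    rw [e]
    exact (map_ne_zero σ).2 hD
  have hw0' : w ≠ 0 := (map_ne_zero σ).2 hw0
  have hns := tns hw0 hD
  have hns' := tns (θ := (w, q)) hw0' hD'
  have hxy : (cv (tA (w, q)) (tB (w, q)) (tC (w, q))).toAffine.Nonsingular x y := ns_of_dsc hD' c1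
  have n1 : ‖w ^ 2‖ = 1 := by rw [norm_pow, hw, one_pow]
  have ha : ‖tA (w, q)‖ ≤ 1 := hq' 1
  have hb : ‖tB (w, q)‖ ≤ 1 := by
    change ‖q 0 * q 2 - 4 * w ^ 2 * q 3‖ ≤ 1
    refine sn ((mn (hq' 0) (hq' 2)).trans (by norm_num)) ?_
    rw [norm_mul, norm_mul, n1, n4]
    have := hq' 3
    linarith
  have hc : ‖tC (w, q)‖ ≤ 1 := by
    change ‖q 0 ^ 2 * q 3 + w ^ 2 * q 2 ^ 2 - 4 * w ^ 2 * q 1 * q 3‖ ≤ 1
    have k : ∀ j, ‖q j ^ 2‖ ≤ 1 := fun j => by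
      rw [norm_pow]; exact pow_le_one₀ (norm_nonneg _) (hq' j)
    refine sn (an ((mn (k 0) (hq' 3)).trans (by norm_num)) ((mn n1.le (k 2)).trans (by norm_num))) ?_
    refine (mn (mn (mn n4.le n1.le) (hq' 1)) (hq' 3)).trans (by norm_num)
  -- continuity
  have hcont : ∀ᶠ e : ℚ_[2] × ℚ_[2] in 𝓝 (x, y), Df w (q 0) (q 2) e.1 e.2 ≠ 0 ∧
      ‖tf w (q 0) (q 1) (q 2) e.1 e.2 - s‖ < η / 2 ∧ ‖Yf w (q 0) (q 1) (q 2) e.1 e.2 - Z'‖ < η / 2 := by
    have t1 : Tendsto (fun e : ℚ_[2] × ℚ_[2] => Df w (q 0) (q 2) e.1 e.2) (𝓝 (x, y))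
        (𝓝 (Df w (q 0) (q 2) x y)) := by
      have : Continuous fun e : ℚ_[2] × ℚ_[2] => Df w (q 0) (q 2) e.1 e.2 := by
        unfold Df; fun_prop
      exact this.tendsto (x, y)
    have t2 : Tendsto (fun e : ℚ_[2] × ℚ_[2] => Nf w (q 0) (q 1) e.1) (𝓝 (x, y))
        (𝓝 (Nf w (q 0) (q 1) x)) := by
      have : Continuous fun e : ℚ_[2] × ℚ_[2] => Nf w (q 0) (q 1) e.1 := by
        unfold Nf; fun_prop
      exact this.tendsto (x, y)
    have t3 : Tendsto (fun e : ℚ_[2] × ℚ_[2] => tf w (q 0) (q 1) (q 2) e.1 e.2) (𝓝 (x, y))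
        (𝓝 (tf w (q 0) (q 1) (q 2) x y)) := t2.div t1 c3
    have t4 : Tendsto (fun e : ℚ_[2] × ℚ_[2] => Yf w (q 0) (q 1) (q 2) e.1 e.2) (𝓝 (x, y))
        (𝓝 (Yf w (q 0) (q 1) (q 2) x y)) := by
      unfold Yf
      exact tendsto_const_nhds.add ((t3.mul ((t3.mul (continuous_fst.tendsto (x, y))).sub
        tendsto_const_nhds)).div_const _)
    rw [← c4] at t3
    rw [← c5] at t4
    have f1 := t1.eventually_ne c3
    have f2 : ∀ᶠ e : ℚ_[2] × ℚ_[2] in 𝓝 (x, y), ‖tf w (q 0) (q 1) (q 2) e.1 e.2 - s‖ < η / 2 := by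
      have := (t3.sub_const s).norm
      rw [sub_self, norm_zero] at this
      exact this.eventually_lt_const (half_pos hη)
    have f3 : ∀ᶠ e : ℚ_[2] × ℚ_[2] in 𝓝 (x, y), ‖Yf w (q 0) (q 1) (q 2) e.1 e.2 - Z'‖ < η / 2 := by
      have := (t4.sub_const Z').norm
      rw [sub_self, norm_zero] at this
      exact this.eventually_lt_const (half_pos hη)
    exact f1.and (f2.and f3)
  obtain ⟨ρ, hρ, hball⟩ := Metric.eventually_nhds_iff_ball.1 hcont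
  obtain ⟨m, x₃, y₃, h₃, e1, e2, e3⟩ := fill2 ha hb hc hns' hXn hxy c2 hρ
  obtain ⟨g1, g2, g3⟩ := hball (x₃, y₃) (by
    rw [Metric.mem_ball, Prod.dist_eq, max_lt_iff, dist_eq_norm, dist_eq_norm]
    exact ⟨e2, e3⟩)
  obtain ⟨X, W, h', k1, k2, k3⟩ := pt_mul σ hns eA eB eC eX eY hns' m h₃ e1
  subst k2 k3
  have gD : σ (Df θ.1 (θ.2 0) (θ.2 2) X W) = Df w (q 0) (q 2) (σ X) (σ W) := by
    simp only [Df, map_sub, map_mul, map_pow, map_ofNat, hwd, hqd]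
  have gt : σ (tf θ.1 (θ.2 0) (θ.2 1) (θ.2 2) X W) = tf w (q 0) (q 1) (q 2) (σ X) (σ W) :=
    map_tf σ _ _ _ _ _ _
  have gY : σ (Yf θ.1 (θ.2 0) (θ.2 1) (θ.2 2) X W) = Yf w (q 0) (q 1) (q 2) (σ X) (σ W) :=
    map_Yf σ _ _ _ _ _ _
  refine ⟨tf θ.1 (θ.2 0) (θ.2 1) (θ.2 2) X W, Yf θ.1 (θ.2 0) (θ.2 1) (θ.2 2) X W,
    ⟨hw0, hns, hS hns, m, X, W, h', k1, ?_, rfl, rfl⟩, ?_, ?_⟩
  · intro h0
    rw [h0, map_zero] at gD
    exact g1 gD.symm
  · rw [gt]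
    have e : tf w (q 0) (q 1) (q 2) (σ X) (σ W) - t =
        (tf w (q 0) (q 1) (q 2) (σ X) (σ W) - s) + (s - t) := by ring
    rw [e]
    have := norm_add_le (tf w (q 0) (q 1) (q 2) (σ X) (σ W) - s) (s - t)
    have := s1.trans_le (min_le_left _ _)
    simp only at g2
    linarith
  · rw [gY]
    have e : Yf w (q 0) (q 1) (q 2) (σ X) (σ W) - Y =
        (Yf w (q 0) (q 1) (q 2) (σ X) (σ W) - Z') + (Z' - Y) := by ring
    rw [e]
    have := norm_add_le (Yf w (q 0) (q 1) (q 2) (σ X) (σ W) - Z') (Z' - Y)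
    have := s2.trans_le (min_le_left _ _)
    simp only at g3
    linarith

end fibre

end Pool.Agent.Run7.h587.Ad
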