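import Pool.Agent.Run7.h587.Ad.Uni

/-!
# The group of the `2`-adic points with a nonintegral abscissa is topologically generated by each
point whose abscissa has the norm `4`
-/

set_option autoImplicit false

open WeierstrassCurve Pool.Agent.Y720.MZ Pool.Agent.Y718.X Filter Topology

namespace Pool.Agent.Run7.h587.Ad

/-! ### the dyadic norm -/

theorem n2 : ‖(2 : ℚ_[2])‖ = 1 / 2 := by
  have := Padic.norm_p (p := 2)
  rw [show ((2 : ℕ) : ℚ_[2]) = 2 by norm_num] at this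
  rw [this]; norm_num

theorem sub_one_lt {a : ℤ_[2]} (h : ‖a‖ = 1) : ‖a - 1‖ < 1 := by
  have h1 : PadicInt.toZMod (a - 1) = 0 := by
    rw [map_sub, map_one]
    have h2 : PadicInt.toZMod a ≠ 0 := by
      intro h0
      have h3 : a ∈ RingHom.ker (PadicInt.toZMod (p := 2)) := h0
      rw [PadicInt.ker_toZMod, IsLocalRing.mem_maximalIdeal, PadicInt.mem_nonunits] at h3
      exact absurd h h3.ne
    have h4 : ∀ z : ZMod 2, z ≠ 0 → z - 1 = 0 := by decide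
    exact h4 _ h2
  have h3 : a - 1 ∈ RingHom.ker (PadicInt.toZMod (p := 2)) := h1
  rwa [PadicInt.ker_toZMod, IsLocalRing.mem_maximalIdeal, PadicInt.mem_nonunits] at h3

theorem lt_one_half {x : ℚ_[2]} (h : ‖x‖ < 1) : ‖x‖ ≤ 1 / 2 := by
  have h1 := (Padic.norm_le_pow_iff_norm_lt_pow_add_one x (-1)).2 (by
    rw [neg_add_cancel, zpow_zero]; exact h)
  rw [zpow_neg_one] at h1
  norm_num at h1
  linarith

theorem close_half {u v : ℚ_[2]} (h : ‖u‖ = ‖v‖) : ‖u - v‖ ≤ ‖v‖ / 2 := by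
  by_cases hv : v = 0
  · subst hv
    rw [norm_zero, norm_eq_zero] at h
    subst h
    simp
  · have hv' : 0 < ‖v‖ := norm_pos_iff.2 hv
    have h1 : ‖u / v‖ = 1 := by rw [norm_div, h, div_self hv'.ne']
    have h2 := sub_one_lt (a := ⟨u / v, h1.le⟩) h1
    have h3 : ‖u / v - 1‖ < 1 := h2
    have h4 := lt_one_half h3
    have e : u - v = v * (u / v - 1) := by field_simp
    rw [e, norm_mul]
    nlinarith

theorem close_half' {u v : ℚ_[2]} (h : ‖u‖ = ‖v‖) : ‖u + v‖ ≤ ‖v‖ / 2 := by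
  have := close_half (u := u) (v := -v) (by rwa [norm_neg])
  rwa [sub_neg_eq_add, norm_neg] at this

theorem na2 : IsNonarchimedean (NormedField.toAbsoluteValue ℚ_[2]) := Padic.nonarchimedean

theorem four_pow {x y : ℚ_[2]} (h : ‖y‖ ^ 2 = ‖x‖ ^ 3) (hx : 1 < ‖x‖) :
    ∃ k : ℕ, 1 ≤ k ∧ ‖x‖ = 4 ^ k := by
  have hx0 : x ≠ 0 := by
    rintro rfl
    rw [norm_zero] at hx
    linarith
  have hy0 : y ≠ 0 := by
    rintro rfl
    rw [norm_zero, zero_pow two_ne_zero] at h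
    have := pow_pos (one_pos.trans hx) 3
    linarith
  have e1 := Padic.norm_eq_zpow_neg_valuation hx0
  have e2 := Padic.norm_eq_zpow_neg_valuation hy0
  set e : ℤ := -x.valuation with he
  set f : ℤ := -y.valuation with hf
  push_cast at e1 e2
  rw [e1, e2, ← zpow_natCast, ← zpow_natCast, ← zpow_mul, ← zpow_mul] at h
  have h2 : f * (2 : ℕ) = e * (3 : ℕ) := zpow_right_injective₀ (by norm_num) (by norm_num) h
  push_cast at h2
  have h3 : 0 < e := by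
    rw [e1] at hx
    by_contra hcon
    push Not at hcon
    have : (2 : ℝ) ^ e ≤ 1 := zpow_le_one_of_nonpos₀ (by norm_num) hcon
    linarith
  obtain ⟨j, hj⟩ : ∃ j : ℕ, e = 2 * j := ⟨(e / 2).toNat, by omega⟩
  refine ⟨j, by omega, ?_⟩
  rw [e1, hj, zpow_mul]
  norm_num

section group

variable {a b c : ℚ_[2]}

theorem vy (ha : ‖a‖ ≤ 1) (hb : ‖b‖ ≤ 1) (hc : ‖c‖ ≤ 1) {x y : ℚ_[2]} (hx : 1 < ‖x‖)
    (h : y ^ 2 = x ^ 3 + a * x ^ 2 + b * x + c) : ‖y‖ ^ 2 = ‖x‖ ^ 3 :=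
  val_y (v := NormedField.toAbsoluteValue ℚ_[2]) na2 ha hb hc hx h

theorem dbl4 [DecidableEq ℚ_[2]] (ha : ‖a‖ ≤ 1) (hb : ‖b‖ ≤ 1) (hc : ‖c‖ ≤ 1) {x y : ℚ_[2]}
    (h : (cv a b c).toAffine.Nonsingular x y) (hx : 1 < ‖x‖) :
    ∃ x' y' h', (.some x y h : Pt a b c) + .some x y h = .some x' y' h' ∧ ‖x'‖ = 4 * ‖x‖ := by
  have heq := (cv_ns.1 h).1
  have hy2 := vy ha hb hc hx heq
  have hx0 : 0 < ‖x‖ := one_pos.trans hx
  have hy : y ≠ 0 := by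
    rintro rfl
    rw [norm_zero, zero_pow two_ne_zero] at hy2
    have := pow_pos hx0 3
    linarith
  have h2y : 2 * y ≠ 0 := mul_ne_zero two_ne_zero hy
  set N := 3 * x ^ 2 + 2 * a * x + b with hN
  have h3 : ‖(3 : ℚ_[2])‖ = 1 :=
    v_three (v := NormedField.toAbsoluteValue ℚ_[2]) na2 (by
      change ‖(2 : ℚ_[2])‖ < 1
      rw [n2]; norm_num)
  have e1 : ‖3 * x ^ 2‖ = ‖x‖ ^ 2 := by rw [norm_mul, h3, one_mul, norm_pow]
  have e2 : ‖2 * a * x + b‖ ≤ ‖x‖ := by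
    refine (Padic.nonarchimedean _ _).trans (max_le ?_ (hb.trans hx.le))
    rw [norm_mul, norm_mul, n2]
    nlinarith [norm_nonneg a]
  have e3 : ‖N‖ = ‖x‖ ^ 2 := by
    have e : N = 3 * x ^ 2 + (2 * a * x + b) := by rw [hN]; ring
    rw [e, Padic.add_eq_max_of_ne, e1, max_eq_left]
    · nlinarith
    · rw [e1]
      intro h0
      rw [← h0] at e2
      nlinarith
  have hℓ : N / (2 * y) * (2 * y) = N := div_mul_cancel₀ _ h2y
  obtain ⟨h', hadd⟩ := dbl_mk h h2y hℓ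
  refine ⟨_, _, h', hadd, ?_⟩
  have e5 : ‖(N / (2 * y)) ^ 2‖ = 4 * ‖x‖ := by
    rw [norm_pow, norm_div, norm_mul, e3, n2, div_pow, mul_pow, hy2]
    field_simp
    norm_num
  have e6 : ‖-a - x - x‖ ≤ ‖x‖ := by
    have g1 : ‖-a - x‖ ≤ ‖x‖ := by
      rw [sub_eq_add_neg]
      refine (Padic.nonarchimedean _ _).trans (max_le ?_ (by rw [norm_neg]))
      rw [norm_neg]
      exact ha.trans hx.le
    rw [sub_eq_add_neg]
    exact (Padic.nonarchimedean _ _).trans (max_le g1 (by rw [norm_neg]))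
  have e7 : (N / (2 * y)) ^ 2 - a - x - x = (N / (2 * y)) ^ 2 + (-a - x - x) := by ring
  rw [e7, Padic.add_eq_max_of_ne, e5, max_eq_left]
  · linarith
  · rw [e5]
    intro h0
    rw [← h0] at e6
    linarith

/-- **Two points of the same level.** -/
theorem diff4 [DecidableEq ℚ_[2]] (ha : ‖a‖ ≤ 1) (hb : ‖b‖ ≤ 1) (hc : ‖c‖ ≤ 1)
    {x₁ y₁ x₂ y₂ : ℚ_[2]} (h₁ : (cv a b c).toAffine.Nonsingular x₁ y₁)
    (h₂ : (cv a b c).toAffine.Nonsingular x₂ y₂) (hx : 1 < ‖x₁‖) (hx₂ : ‖x₂‖ = ‖x₁‖) :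
    (.some x₁ y₁ h₁ : Pt a b c) - .some x₂ y₂ h₂ = 0 ∨
      ∃ x₃ y₃ h₃, (.some x₁ y₁ h₁ : Pt a b c) - .some x₂ y₂ h₂ = .some x₃ y₃ h₃ ∧
        4 * ‖x₁‖ ≤ ‖x₃‖ := by
  have q1 := (cv_ns.1 h₁).1
  have q2 := (cv_ns.1 h₂).1
  have v1 := vy ha hb hc hx q1
  have v2 := vy ha hb hc (hx.trans_eq hx₂.symm) q2
  have hx0 : 0 < ‖x₁‖ := one_pos.trans hx
  obtain ⟨hn, en⟩ := neg_mk h₂
  by_cases hxx : x₁ = x₂
  · subst hxx
    rcases eq_or_neg h₁ h₂ with e | e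
    · left; rw [e, sub_self]
    · right
      have e2 : (.some x₁ y₁ h₁ : Pt a b c) - .some x₁ y₂ h₂ =
          .some x₁ y₁ h₁ + .some x₁ y₁ h₁ := by
        rw [sub_eq_add_neg, ← e]
      rw [e2]
      obtain ⟨x', y', h', g1, g2⟩ := dbl4 ha hb hc h₁ hx
      exact ⟨x', y', h', g1, g2.ge⟩
  · right
    have hd : x₁ - x₂ ≠ 0 := sub_ne_zero.2 hxx
    have hℓ : (y₁ - -y₂) / (x₁ - x₂) * (x₁ - x₂) = y₁ - -y₂ := div_mul_cancel₀ _ hd
    obtain ⟨h₃, e3⟩ := add_mk h₁ hn hxx hℓ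
    refine ⟨_, _, h₃, by rw [sub_eq_add_neg, en]; exact e3, ?_⟩
    -- norms
    have hyy : ‖y₁‖ = ‖y₂‖ := by
      have : ‖y₁‖ ^ 2 = ‖y₂‖ ^ 2 := by rw [v1, v2, hx₂]
      exact (sq_eq_sq₀ (norm_nonneg _) (norm_nonneg _)).1 this
    have hF : ‖x₁ ^ 2 + x₁ * x₂ + x₂ ^ 2 + a * (x₁ + x₂) + b‖ = ‖x₁‖ ^ 2 := by
      have h3 : ‖(3 : ℚ_[2])‖ = 1 :=
        v_three (v := NormedField.toAbsoluteValue ℚ_[2]) na2 (by
          change ‖(2 : ℚ_[2])‖ < 1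
          rw [n2]; norm_num)
      have g1 : ‖3 * (x₁ * x₂)‖ = ‖x₁‖ ^ 2 := by rw [norm_mul, norm_mul, h3, hx₂]; ring
      have g2 : ‖x₁ - x₂‖ ≤ ‖x₁‖ / 2 := by
        have := close_half hx₂.symm
        rwa [hx₂] at this
      have g3 : ‖(x₁ - x₂) ^ 2‖ ≤ ‖x₁‖ ^ 2 / 4 := by
        rw [norm_pow]
        nlinarith [norm_nonneg (x₁ - x₂)]
      have g4 : ‖x₁ + x₂‖ ≤ ‖x₁‖ / 2 := by
        have := close_half' hx₂.symm
        rwa [hx₂] at this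
      have g5 : ‖a * (x₁ + x₂)‖ ≤ ‖x₁‖ / 2 := by
        rw [norm_mul]
        nlinarith [norm_nonneg a, norm_nonneg (x₁ + x₂)]
      have g6 : ‖a * (x₁ + x₂) + b‖ < ‖x₁‖ ^ 2 := by
        refine (Padic.nonarchimedean _ _).trans_lt (max_lt ?_ ?_)
        · nlinarith
        · nlinarith
      have g7 : ‖(x₁ - x₂) ^ 2 + (a * (x₁ + x₂) + b)‖ < ‖x₁‖ ^ 2 := by
        refine (Padic.nonarchimedean _ _).trans_lt (max_lt ?_ g6)
        nlinarith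
      have e : x₁ ^ 2 + x₁ * x₂ + x₂ ^ 2 + a * (x₁ + x₂) + b =
          3 * (x₁ * x₂) + ((x₁ - x₂) ^ 2 + (a * (x₁ + x₂) + b)) := by ring
      rw [e, Padic.add_eq_max_of_ne, g1, max_eq_left g7.le]
      rw [g1]
      exact g7.ne'
    have hmul : (y₁ - y₂) * (y₁ - -y₂) =
        (x₁ - x₂) * (x₁ ^ 2 + x₁ * x₂ + x₂ ^ 2 + a * (x₁ + x₂) + b) := by
      linear_combination q1 - q2
    have hnm := congrArg norm hmul
    rw [norm_mul, norm_mul, hF] at hnm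
    have hdn : 0 < ‖x₁ - x₂‖ := norm_pos_iff.2 hd
    have hy12 : ‖y₁ - y₂‖ ≤ ‖y₁‖ / 2 := by
      have := close_half hyy
      rwa [← hyy] at this
    have hℓn : ‖x₁‖ ^ 2 ≤ ‖(y₁ - -y₂) / (x₁ - x₂)‖ * (‖y₁‖ / 2) := by
      rw [norm_div, div_mul_eq_mul_div, le_div_iff₀ hdn]
      calc ‖x₁‖ ^ 2 * ‖x₁ - x₂‖ = ‖y₁ - y₂‖ * ‖y₁ - -y₂‖ := by rw [hnm]; ring
        _ ≤ ‖y₁‖ / 2 * ‖y₁ - -y₂‖ := by gcongr
        _ = _ := by ring
    have hℓ2 : 4 * ‖x₁‖ ≤ ‖((y₁ - -y₂) / (x₁ - x₂)) ^ 2‖ := by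
      rw [norm_pow]
      set L := ‖(y₁ - -y₂) / (x₁ - x₂)‖ with hL
      have h1 : (‖x₁‖ ^ 2) ^ 2 ≤ (L * (‖y₁‖ / 2)) ^ 2 :=
        pow_le_pow_left₀ (by positivity) hℓn 2
      have h2 : (L * (‖y₁‖ / 2)) ^ 2 = L ^ 2 * ‖x₁‖ ^ 3 / 4 := by
        rw [mul_pow, div_pow, v1]; ring
      rw [h2] at h1
      have h3 : 0 < ‖x₁‖ ^ 3 := pow_pos hx0 3
      have h4 : 4 * ‖x₁‖ * ‖x₁‖ ^ 3 ≤ L ^ 2 * ‖x₁‖ ^ 3 := by nlinarith
      exact le_of_mul_le_mul_right h4 h3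
    have e7 : ((y₁ - -y₂) / (x₁ - x₂)) ^ 2 - a - x₁ - x₂ =
        ((y₁ - -y₂) / (x₁ - x₂)) ^ 2 + (-a - x₁ - x₂) := by ring
    have e6 : ‖-a - x₁ - x₂‖ ≤ ‖x₁‖ := by
      have g1 : ‖-a - x₁‖ ≤ ‖x₁‖ := by
        rw [sub_eq_add_neg]
        refine (Padic.nonarchimedean _ _).trans (max_le ?_ (by rw [norm_neg]))
        rw [norm_neg]
        exact ha.trans hx.le
      rw [sub_eq_add_neg]
      exact (Padic.nonarchimedean _ _).trans (max_le g1 (by rw [norm_neg, hx₂]))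
    rw [e7, Padic.add_eq_max_of_ne]
    · exact hℓ2.trans (le_max_left _ _)
    · intro h0
      rw [← h0] at e6
      linarith

/-- the point is zero or has an abscissa of norm at least `4 ^ k` -/
def Big (k : ℕ) (P : Pt a b c) : Prop :=
  P = 0 ∨ ∃ x y h, P = .some x y h ∧ (4 : ℝ) ^ k ≤ ‖x‖

theorem dbl_pow [DecidableEq ℚ_[2]] (ha : ‖a‖ ≤ 1) (hb : ‖b‖ ≤ 1) (hc : ‖c‖ ≤ 1) {x y : ℚ_[2]}
    (h : (cv a b c).toAffine.Nonsingular x y) (hx : ‖x‖ = 4) (k : ℕ) :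
    ∃ x' y' h', ((2 : ℤ) ^ k) • (.some x y h : Pt a b c) = .some x' y' h' ∧ ‖x'‖ = 4 ^ (k + 1) := by
  induction k with
  | zero => exact ⟨x, y, h, by rw [pow_zero, one_smul], by rw [hx]; norm_num⟩
  | succ k ih =>
    obtain ⟨x', y', h', e, hn⟩ := ih
    obtain ⟨x'', y'', h'', e', hn'⟩ := dbl4 ha hb hc h' (by
      rw [hn]
      exact one_lt_pow₀ (by norm_num) (by omega))
    refine ⟨x'', y'', h'', ?_, by rw [hn', hn]; ring⟩
    rw [pow_succ', mul_smul, e, two_zsmul, e']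

theorem big_step [DecidableEq ℚ_[2]] (ha : ‖a‖ ≤ 1) (hb : ‖b‖ ≤ 1) (hc : ‖c‖ ≤ 1) {x y : ℚ_[2]}
    (h : (cv a b c).toAffine.Nonsingular x y) (hx : ‖x‖ = 4) {k : ℕ} (hk : 1 ≤ k) {R : Pt a b c}
    (hR : Big k R) : ∃ m : ℤ, Big (k + 1) (R - m • (.some x y h : Pt a b c)) := by
  rcases hR with rfl | ⟨X, Y, hXY, rfl, hX⟩
  · exact ⟨0, by rw [zero_smul, sub_zero]; exact Or.inl rfl⟩
  · have h4 : (1 : ℝ) < 4 ^ k := one_lt_pow₀ (by norm_num) (by omega)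
    have h1 := h4.trans_le hX
    obtain ⟨j, -, hj⟩ := four_pow (vy ha hb hc h1 (cv_ns.1 hXY).1) h1
    by_cases hjk : k + 1 ≤ j
    · refine ⟨0, ?_⟩
      rw [zero_smul, sub_zero]
      refine Or.inr ⟨X, Y, hXY, rfl, ?_⟩
      rw [hj]
      exact pow_le_pow_right₀ (by norm_num) hjk
    · have hjk' : j = k := by
        have : k ≤ j := by
          by_contra hcon
          push Not at hcon
          rw [hj] at hX
          have := pow_lt_pow_right₀ (show (1 : ℝ) < 4 by norm_num) hcon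
          linarith
        omega
      subst hjk'
      obtain ⟨k', rfl⟩ : ∃ k', j = k' + 1 := ⟨j - 1, by omega⟩
      obtain ⟨x', y', h', e, hn⟩ := dbl_pow ha hb hc h hx k'
      refine ⟨2 ^ k', ?_⟩
      rw [e]
      rcases diff4 ha hb hc hXY h' h1 (by rw [hn, hj]) with g | ⟨x₃, y₃, h₃, g, g'⟩
      · exact Or.inl g
      · refine Or.inr ⟨x₃, y₃, h₃, g, ?_⟩
        calc (4 : ℝ) ^ (k' + 1 + 1) = 4 * 4 ^ (k' + 1) := by ring
          _ = 4 * ‖X‖ := by rw [hj]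
          _ ≤ ‖x₃‖ := g'

theorem big_all [DecidableEq ℚ_[2]] (ha : ‖a‖ ≤ 1) (hb : ‖b‖ ≤ 1) (hc : ‖c‖ ≤ 1) {x y : ℚ_[2]}
    (h : (cv a b c).toAffine.Nonsingular x y) (hx : ‖x‖ = 4) {X Y : ℚ_[2]}
    (hXY : (cv a b c).toAffine.Nonsingular X Y) (hX : 1 < ‖X‖) (k : ℕ) :
    ∃ m : ℤ, Big (k + 1) ((.some X Y hXY : Pt a b c) - m • (.some x y h : Pt a b c)) := by
  induction k with
  | zero =>
    obtain ⟨j, hj1, hj⟩ := four_pow (vy ha hb hc hX (cv_ns.1 hXY).1) hX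
    refine ⟨0, Or.inr ⟨X, Y, hXY, by rw [zero_smul, sub_zero], ?_⟩⟩
    rw [hj]
    exact pow_le_pow_right₀ (by norm_num) (by omega)
  | succ k ih =>
    obtain ⟨m, hm⟩ := ih
    obtain ⟨m', hm'⟩ := big_step ha hb hc h hx (by omega) hm
    refine ⟨m + m', ?_⟩
    rwa [add_smul, ← sub_sub]

end group

end Pool.Agent.Run7.h587.Ad
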