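import Pool.Agent.Run7.h587.Ad.Fib
import Pool.Agent.Run7.h587.Ad.Def

/-!
# The closure of a set closed under moves is a union of residue classes modulo eight
-/

set_option autoImplicit false

open Pool.Agent.Y720.MZ Pool.Agent.Y718.X Filter Topology
open Pool.Agent.Q35.ZC

namespace Pool.Agent.Run7.h587.Ad

/-! ### congruences -/

section lip

variable {n : ℕ} {r : ℝ}

/-- bounded by one and Lipschitz at the distance `r` -/
def LC (r : ℝ) (G : (Fin n → ℚ_[2]) → ℚ_[2]) : Prop :=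
  (∀ z, (∀ i, ‖z i‖ ≤ 1) → ‖G z‖ ≤ 1) ∧
  ∀ z z', (∀ i, ‖z i‖ ≤ 1) → (∀ i, ‖z' i‖ ≤ 1) → (∀ i, ‖z i - z' i‖ ≤ r) → ‖G z - G z'‖ ≤ r

theorem LC.const (hr : 0 ≤ r) {c : ℚ_[2]} (hc : ‖c‖ ≤ 1) : LC (n := n) r (fun _ => c) :=
  ⟨fun _ _ => hc, fun _ _ _ _ _ => by rw [sub_self, norm_zero]; exact hr⟩

theorem LC.coord (i : Fin n) : LC r (fun z => z i) :=
  ⟨fun _ h => h i, fun _ _ _ _ h => h i⟩

theorem LC.mul {G H : (Fin n → ℚ_[2]) → ℚ_[2]} (hG : LC r G) (hH : LC r H) :
    LC r (fun z => G z * H z) := by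
  refine ⟨fun z hz => (mn (hG.1 z hz) (hH.1 z hz)).trans (by norm_num), fun z z' hz hz' h => ?_⟩
  have e : G z * H z - G z' * H z' = G z * (H z - H z') + (G z - G z') * H z' := by ring
  rw [e]
  refine an ((mn (hG.1 z hz) (hH.2 z z' hz hz' h)).trans (by rw [one_mul]))
    ((mn (hG.2 z z' hz hz' h) (hH.1 z' hz')).trans (by rw [mul_one]))

theorem LC.add {G H : (Fin n → ℚ_[2]) → ℚ_[2]} (hG : LC r G) (hH : LC r H) :
    LC r (fun z => G z + H z) := by
  refine ⟨fun z hz => an (hG.1 z hz) (hH.1 z hz), fun z z' hz hz' h => ?_⟩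
  have e : G z + H z - (G z' + H z') = (G z - G z') + (H z - H z') := by ring
  rw [e]
  exact an (hG.2 z z' hz hz' h) (hH.2 z z' hz hz' h)

theorem LC.poly (hr : 0 ≤ r) {F : MvPolynomial (Fin n) ℚ_[2]} (hF : ∀ m, ‖F.coeff m‖ ≤ 1) :
    LC r (fun z => MvPolynomial.eval z F) := by
  have hpow : ∀ (i : Fin n) (k : ℕ), LC r (fun z => z i ^ k) := by
    intro i k
    induction k with
    | zero => simpa using LC.const (n := n) hr (c := 1) (by simp)
    | succ k ih => simpa only [pow_succ] using ih.mul (LC.coord i)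
  have hprod : ∀ (m : Fin n →₀ ℕ) (s : Finset (Fin n)), LC r (fun z => ∏ i ∈ s, z i ^ m i) := by
    intro m s
    classical
    induction s using Finset.induction_on with
    | empty => simpa using LC.const (n := n) hr (c := 1) (by simp)
    | insert a s ha ih =>
      simp only [Finset.prod_insert ha]
      exact (hpow a _).mul ih
  have hsum : ∀ s : Finset (Fin n →₀ ℕ), LC r (fun z => ∑ m ∈ s, F.coeff m * ∏ i, z i ^ m i) := by
    intro s
    classical
    induction s using Finset.induction_on with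
    | empty => simpa using LC.const (n := n) hr (c := 0) (by rw [norm_zero]; exact zero_le_one)
    | insert a s ha ih =>
      simp only [Finset.sum_insert ha]
      exact ((LC.const hr (hF a)).mul (hprod a _)).add ih
  have := hsum F.support
  simpa only [MvPolynomial.eval_eq'] using this

theorem sqrt_one {v : ℚ_[2]} (h : ‖v - 1‖ ≤ 1 / 8) : ∃ u : ℚ_[2], u ^ 2 = v ∧ ‖u - 1‖ ≤ 1 / 4 := by
  have hv : ‖v‖ ≤ 1 := by
    have : v = (v - 1) + 1 := by ring
    rw [this]
    exact an (h.trans (by norm_num)) (by simp)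
  set a : ℤ_[2] := ⟨v, hv⟩ with ha
  set F : Polynomial ℤ_[2] := Polynomial.X ^ 2 - Polynomial.C a with hF
  have e1 : F.aeval (1 : ℤ_[2]) = 1 - a := by simp [hF]
  have e2 : F.derivative.aeval (1 : ℤ_[2]) = 2 := by simp [hF, one_add_one_eq_two]
  have n1 : ‖(1 - a : ℤ_[2])‖ ≤ 1 / 8 := by
    rw [norm_sub_rev, PadicInt.norm_def]
    exact h
  have n2' : ‖(2 : ℤ_[2])‖ = 1 / 2 := by
    rw [PadicInt.norm_def]
    exact n2
  obtain ⟨z, hz, hz1, -, -⟩ := hensels_lemma (F := F) (a := (1 : ℤ_[2])) (by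
    rw [e1, e2, n2']
    linarith)
  rw [e2, n2'] at hz1
  have e3 : z ^ 2 = a := by
    have : F.aeval z = z ^ 2 - a := by simp [hF]
    rw [this] at hz
    linear_combination hz
  refine ⟨(z : ℚ_[2]), ?_, ?_⟩
  · have := congrArg (fun t : ℤ_[2] => (t : ℚ_[2])) e3
    simpa using this
  · have h3 : ‖(z : ℚ_[2]) - 1‖ < 1 / 2 := by
      have := hz1
      rw [PadicInt.norm_def] at this
      simpa using this
    have h4 := (Padic.norm_le_pow_iff_norm_lt_pow_add_one ((z : ℚ_[2]) - 1) (-2)).2 (by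
      norm_num at h3 ⊢
      linarith)
    norm_num at h4 ⊢
    linarith

end lip

/-! ### the moves -/

section lev

variable {K : Type} [Field K] [CharZero K] {n : ℕ} {f : MvPolynomial (Fin n) K} {σ : K →+* ℚ_[2]}

/-- `w` and the partial derivatives are units at all the points -/
def Unit2 (F : MvPolynomial (Fin n) ℚ_[2]) : Prop :=
  ∀ (z : Fin n → ℚ_[2]) (w : ℚ_[2]), w ^ 2 = MvPolynomial.eval z F →
    ‖w‖ = 1 ∧ ∀ i, ‖MvPolynomial.eval z (MvPolynomial.pderiv i F)‖ = 1

theorem step_mv (hf : Adapted (f.map σ)) (hu : Unit2 (f.map σ)) {R : Set ((Fin n → K) × K)}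
    (hR : Cm f R) {P : (Fin n → K) × K} (hP : P ∈ R) (i : Fin n) {s Y : ℚ_[2]}
    (hs : ‖s - σ (P.1 i)‖ ≤ 1 / 8)
    (hY : Y ^ 2 = MvPolynomial.eval (Function.update (fun j => σ (P.1 j)) i s) (f.map σ))
    {η : ℝ} (hη : 0 < η) :
    ∃ Q ∈ R, (∀ j, j ≠ i → Q.1 j = P.1 j) ∧ ‖σ (Q.1 i) - s‖ < η ∧ ‖σ Q.2 - Y‖ < η := by
  classical
  have hPX : OnCover f P := hR.1 P hP
  have hon : OnCover (f.map σ) (image σ P) :=
    Pool.Agent.Results.MP_ed3816_nt.OpenAwayFromTorsion.onCover_image σ hPX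
  obtain ⟨hw, hd⟩ := hu _ _ hon
  have hz : ∀ l, pull σ (P.1 l) ≤ 1 := fun l => ((hf.2.2 _ _ hon).2 l).1
  have hio := io_of hPX ((moves_eq _ _ _).1 (moves_K σ hf hPX i).2)
  set θ : K × (Fin 4 → K) := (P.2, cq f P.1 (Pi.single i 1)) with hθ
  have hint : ∀ k, ‖σ ((rst f P.1 (Pi.single i 1)).coeff k)‖ ≤ 1 := fun k =>
    (coeff_IC (pull_na σ) (fun d => by
      have := hf.2.1 d
      rw [MvPolynomial.coeff_map] at this
      exact this) i k).1 P.1 hz
  have h0 : ‖σ (θ.2 0)‖ = 1 := by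
    have e : σ (θ.2 0) = MvPolynomial.eval (image σ P).1 (MvPolynomial.pderiv i (f.map σ)) := by
      change σ ((lr f P.1 i).coeff 1) = _
      rw [← lr_coeff_one, image, ← lr_map, Polynomial.coeff_map]
    rw [e]
    exact hd i
  have hqv : Y ^ 2 = qv (σ θ.1) (fun j => σ (θ.2 j)) (s - σ (P.1 i)) := by
    have e1 : (fun j => σ (θ.2 j)) = cq (f.map σ) (fun a => σ (P.1 a)) (Pi.single i 1) := by
      funext j
      change σ ((rst f P.1 (Pi.single i 1)).coeff _) = (rst _ _ _).coeff _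
      rw [← single_map σ, ← rst_map, Polynomial.coeff_map]
    have hd4 : (rst (f.map σ) (fun a => σ (P.1 a)) (Pi.single i 1)).natDegree ≤ 4 :=
      deg_rst (hf.1 i) _
    have e2 := cq_eval hd4 hon (s - σ (P.1 i))
    change qv (σ P.2) (cq (f.map σ) (fun a => σ (P.1 a)) (Pi.single i 1)) _ = _ at e2
    change _ = qv (σ P.2) _ _
    have e3 : Function.update (fun j => σ (P.1 j)) i s =
        fun a => σ (P.1 a) + (s - σ (P.1 i)) * (Pi.single i 1 : Fin n → ℚ_[2]) a := by
      funext j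
      by_cases h : j = i
      · subst h; simp
      · simp [h]
    rw [e1, e2, hY, e3]
  obtain ⟨u, Z, hM, g1, g2⟩ := fibre2 σ (θ := θ) hw h0 (fun j => hint _) hio.1 hio.2 hs hqv hη
  refine ⟨_, hR.2 i P.1 P.2 u Z hP hM, ?_, ?_, g2⟩
  · intro j hj
    simp [hj]
  · have e : σ (P.1 i + u * (Pi.single i 1 : Fin n → K) i) - s = σ u - (s - σ (P.1 i)) := by
      simp only [Pi.single_eq_same, mul_one, map_add]
      ring
    simp only
    rw [e]
    exact g1

theorem near_square {F : MvPolynomial (Fin n) ℚ_[2]} (hF : Adapted F) (hu : Unit2 F)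
    {S : (Fin n → ℚ_[2]) × ℚ_[2]} (hS : OnCover F S) {x : Fin n → ℚ_[2]}
    (hx : ∀ i, ‖x i - S.1 i‖ ≤ 1 / 8) :
    ∃ y : ℚ_[2], y ^ 2 = MvPolynomial.eval x F ∧ ‖y - S.2‖ ≤ 1 / 4 := by
  obtain ⟨hw, -⟩ := hu _ _ hS
  have hS1 : ∀ i, ‖S.1 i‖ ≤ 1 := fun i => ((hF.2.2 _ _ hS).2 i).1
  have hx1 : ∀ i, ‖x i‖ ≤ 1 := by
    intro i
    have : x i = (x i - S.1 i) + S.1 i := by ring
    rw [this]
    exact an ((hx i).trans (by norm_num)) (hS1 i)
  have h1 := (LC.poly (r := 1 / 8) (by norm_num) hF.2.1).2 x S.1 hx1 hS1 hx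
  have hS2 : S.2 ≠ 0 := by
    intro h
    rw [h, norm_zero] at hw
    exact zero_ne_one hw
  have hS' : S.2 ^ 2 = MvPolynomial.eval S.1 F := hS
  have h2 : ‖MvPolynomial.eval x F / S.2 ^ 2 - 1‖ ≤ 1 / 8 := by
    have e : MvPolynomial.eval x F / S.2 ^ 2 - 1 =
        (MvPolynomial.eval x F - MvPolynomial.eval S.1 F) / S.2 ^ 2 := by
      rw [← hS']
      field_simp
    rw [e, norm_div, norm_pow, hw, one_pow, div_one]
    exact h1
  obtain ⟨u, hu1, hu2⟩ := sqrt_one h2
  refine ⟨S.2 * u, ?_, ?_⟩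
  · rw [mul_pow, hu1, mul_div_cancel₀ _ (pow_ne_zero 2 hS2)]
  · have e : S.2 * u - S.2 = S.2 * (u - 1) := by ring
    rw [e, norm_mul, hw, one_mul]
    exact hu2

/-- the claim of the induction -/
theorem lev_claim (hf : Adapted (f.map σ)) (hu : Unit2 (f.map σ)) {R : Set ((Fin n → K) × K)}
    (hR : Cm f R) : ∀ A : Finset (Fin n), ∀ P ∈ R, ∀ S, OnCover (f.map σ) S →
      (∀ i, ‖S.1 i - σ (P.1 i)‖ ≤ 1 / 8) → (∀ i, i ∉ A → S.1 i = σ (P.1 i)) →
      (‖S.2 - σ P.2‖ ≤ 1 / 4 ∨ A.Nonempty) → ∀ η : ℝ, 0 < η → ∃ Q ∈ R,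
        (∀ i, ‖σ (Q.1 i) - S.1 i‖ < η) ∧ ‖σ Q.2 - S.2‖ < η := by
  classical
  intro A
  induction A using Finset.induction_on with
  | empty =>
    intro P hP S hS hx heq hsg η hη
    have h1 : ‖S.2 - σ P.2‖ ≤ 1 / 4 := by
      rcases hsg with h | h
      · exact h
      · exact absurd h Finset.not_nonempty_empty
    have hon : OnCover (f.map σ) (image σ P) :=
      Pool.Agent.Results.MP_ed3816_nt.OpenAwayFromTorsion.onCover_image σ (hR.1 P hP)
    have h2 : S.1 = (image σ P).1 := by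
      funext i
      exact heq i (Finset.notMem_empty i)
    have h3 : (S.2 - σ P.2) * (S.2 + σ P.2) = 0 := by
      have k1 : S.2 ^ 2 = MvPolynomial.eval S.1 (f.map σ) := hS
      have k2 : σ P.2 ^ 2 = MvPolynomial.eval (image σ P).1 (f.map σ) := hon
      rw [h2, ← k2] at k1
      linear_combination k1
    refine ⟨P, hP, fun i => ?_, ?_⟩
    · rw [heq i (Finset.notMem_empty i), sub_self, norm_zero]; exact hη
    · rcases mul_eq_zero.1 h3 with h4 | h4
      · rw [norm_sub_rev, h4, norm_zero]; exact hη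
      · exfalso
        have h5 : S.2 - σ P.2 = -(2 * σ P.2) := by linear_combination h4
        have hw : ‖σ P.2‖ = 1 := (hu _ _ hon).1
        rw [h5, norm_neg, norm_mul, n2, hw] at h1
        norm_num at h1
  | insert a A ha ih =>
    intro P hP S hS hx heq _ η hη
    -- the first target
    have hx₁ : ∀ i, ‖Function.update (fun j => σ (P.1 j)) a (S.1 a) i - S.1 i‖ ≤ 1 / 8 := by
      intro i
      by_cases h : i = a
      · subst h
        rw [Function.update_self, sub_self, norm_zero]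
        norm_num
      · rw [Function.update_of_ne h, norm_sub_rev]
        exact hx i
    obtain ⟨y₁, hy₁, hy₁'⟩ := near_square hf hu hS hx₁
    have hw : ‖S.2‖ = 1 := (hu _ _ hS).1
    have hw0 : S.2 ≠ 0 := by
      intro h
      rw [h, norm_zero] at hw
      exact zero_ne_one hw
    obtain ⟨ρ, hρ, hsq⟩ := sq_near (g := f.map σ) (x := S.1) (y := S.2) hS hw0
      (ε := min (η / 2) (1 / 4)) (lt_min (half_pos hη) (by norm_num))
    set η₁ := min ρ (min (η / 2) (1 / 8)) with hη₁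
    have hη₁0 : 0 < η₁ := lt_min hρ (lt_min (half_pos hη) (by norm_num))
    have l1 : η₁ ≤ ρ := min_le_left _ _
    have l2 : η₁ ≤ η / 2 := (min_le_right _ _).trans (min_le_left _ _)
    have l3 : η₁ ≤ 1 / 8 := (min_le_right _ _).trans (min_le_right _ _)
    obtain ⟨P₁, hP₁, k1, k2, k3⟩ := step_mv hf hu hR hP a (hx a) hy₁ hη₁0
    -- the second target
    obtain ⟨y', hy', hy''⟩ := hsq (Function.update S.1 a (σ (P₁.1 a))) (fun i => by
      by_cases h : i = a
      · subst h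
        rw [Function.update_self]
        exact k2.trans_le l1
      · rw [Function.update_of_ne h, sub_self, norm_zero]
        exact hρ)
    obtain ⟨Q, hQ, q1, q2⟩ := ih P₁ hP₁ (Function.update S.1 a (σ (P₁.1 a)), y') hy'' (fun i => by
        by_cases h : i = a
        · subst h
          simp only [Function.update_self, sub_self, norm_zero]
          norm_num
        · simp only [Function.update_of_ne h]
          rw [k1 i h]
          exact hx i) (fun i hi => by
        by_cases h : i = a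
        · subst h
          simp only [Function.update_self]
        · simp only [Function.update_of_ne h]
          rw [k1 i h]
          refine heq i ?_
          rw [Finset.mem_insert, not_or]
          exact ⟨h, hi⟩) (Or.inl (by
        have e : y' - σ P₁.2 = (y' - S.2) + ((S.2 - y₁) + (y₁ - σ P₁.2)) := by ring
        change ‖y' - σ P₁.2‖ ≤ 1 / 4
        rw [e]
        refine an (hy'.le.trans (min_le_right _ _)) (an ?_ ?_)
        · rw [norm_sub_rev]; exact hy₁'
        · rw [norm_sub_rev]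
          exact k3.le.trans (l3.trans (by norm_num)))) (η / 2) (half_pos hη)
    refine ⟨Q, hQ, fun i => ?_, ?_⟩
    · have h1 := q1 i
      have h2 : ‖Function.update S.1 a (σ (P₁.1 a)) i - S.1 i‖ ≤ η / 2 := by
        by_cases h : i = a
        · subst h
          rw [Function.update_self]
          exact (k2.trans_le l2).le
        · rw [Function.update_of_ne h, sub_self, norm_zero]
          exact (half_pos hη).le
      have e : σ (Q.1 i) - S.1 i = (σ (Q.1 i) - Function.update S.1 a (σ (P₁.1 a)) i) +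
          (Function.update S.1 a (σ (P₁.1 a)) i - S.1 i) := by ring
      rw [e]
      exact (an h1.le h2).trans_lt (half_lt_self hη)
    · have e : σ Q.2 - S.2 = (σ Q.2 - y') + (y' - S.2) := by ring
      rw [e]
      exact (an q2.le (hy'.le.trans (min_le_left _ _))).trans_lt (half_lt_self hη)

/-- **The level eight.** -/
theorem level (hn : n ≠ 0) (hf : Adapted (f.map σ)) (hu : Unit2 (f.map σ))
    {R : Set ((Fin n → K) × K)} (hR : Cm f R) {P : (Fin n → K) × K} (hP : P ∈ R)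
    {S : (Fin n → ℚ_[2]) × ℚ_[2]} (hS : OnCover (f.map σ) S)
    (hx : ∀ i, ‖S.1 i - σ (P.1 i)‖ ≤ 1 / 8) : S ∈ closure (ImR R σ) := by
  rw [Metric.mem_closure_iff]
  intro η hη
  have : Nonempty (Fin n) := ⟨⟨0, by omega⟩⟩
  obtain ⟨Q, hQ, q1, q2⟩ := lev_claim hf hu hR Finset.univ P hP S hS hx
    (fun i hi => absurd (Finset.mem_univ i) hi) (Or.inr Finset.univ_nonempty) η hη
  exact ⟨_, ⟨Q, hQ, rfl⟩, (dist_image σ Q S hη).2 ⟨q1, q2⟩⟩

end lev

end Pool.Agent.Run7.h587.Ad
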