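import Pool.Agent.Run7.h587.Ad.Gen

/-!
# The multiples of a point are dense among the `2`-adic points with a nonintegral abscissa
-/

set_option autoImplicit false

open WeierstrassCurve Pool.Agent.Y720.MZ Pool.Agent.Y718.X Filter Topology

namespace Pool.Agent.Run7.h587.Ad

section inf

variable {a b c : ℚ_[2]}

/-- the points of the curve with a large abscissa -/
noncomputable def atI (a b c : ℚ_[2]) : Filter (ℚ_[2] × ℚ_[2]) :=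
  comap (fun R => ‖R.1‖) atTop ⊓ 𝓟 {R | R.2 ^ 2 = R.1 ^ 3 + a * R.1 ^ 2 + b * R.1 + c}

theorem atI_on : ∀ᶠ R in atI a b c, R.2 ^ 2 = R.1 ^ 3 + a * R.1 ^ 2 + b * R.1 + c :=
  mem_inf_of_right (mem_principal_self _)

theorem atI_norm : Tendsto (fun R : ℚ_[2] × ℚ_[2] => ‖R.1‖) (atI a b c) atTop :=
  tendsto_comap.mono_left inf_le_left

theorem atI_big (M : ℝ) : ∀ᶠ R in atI a b c, M < ‖R.1‖ := atI_norm.eventually_gt_atTop M

theorem atI_inv : Tendsto (fun R : ℚ_[2] × ℚ_[2] => (R.1)⁻¹) (atI a b c) (𝓝 0) :=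
  tendsto_inv₀_cobounded.comp (tendsto_norm_atTop_iff_cobounded.1 atI_norm)

theorem atI_y (ha : ‖a‖ ≤ 1) (hb : ‖b‖ ≤ 1) (hc : ‖c‖ ≤ 1) :
    ∀ᶠ R in atI a b c, R.1 ≠ 0 ∧ R.2 ≠ 0 ∧ ‖R.2‖ ^ 2 = ‖R.1‖ ^ 3 := by
  filter_upwards [atI_big 1, atI_on] with R h1 h2
  have h3 := vy ha hb hc h1 h2
  refine ⟨?_, ?_, h3⟩
  · intro h0
    rw [h0, norm_zero] at h1
    linarith
  · intro h0
    rw [h0, norm_zero, zero_pow two_ne_zero] at h3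
    have := pow_pos (one_pos.trans h1) 3
    linarith

theorem atI_tau (ha : ‖a‖ ≤ 1) (hb : ‖b‖ ≤ 1) (hc : ‖c‖ ≤ 1) :
    Tendsto (fun R : ℚ_[2] × ℚ_[2] => R.1 / R.2) (atI a b c) (𝓝 0) := by
  rw [tendsto_zero_iff_norm_tendsto_zero]
  have h1 : Tendsto (fun R : ℚ_[2] × ℚ_[2] => Real.sqrt ‖(R.1)⁻¹‖) (atI a b c) (𝓝 (Real.sqrt 0)) :=
    (Real.continuous_sqrt.tendsto _).comp (tendsto_zero_iff_norm_tendsto_zero.1 atI_inv)
  rw [Real.sqrt_zero] at h1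
  refine h1.congr' ?_
  filter_upwards [atI_y ha hb hc] with R hR
  obtain ⟨h2, h3, h4⟩ := hR
  have h5 : 0 < ‖R.1‖ := norm_pos_iff.2 h2
  have h6 : 0 < ‖R.2‖ := norm_pos_iff.2 h3
  rw [Real.sqrt_eq_iff_mul_self_eq (norm_nonneg _) (norm_nonneg _), norm_div, norm_inv]
  rw [div_mul_div_comm, ← pow_two, ← pow_two, h4]
  field_simp

theorem add_inf [DecidableEq ℚ_[2]] (ha : ‖a‖ ≤ 1) (hb : ‖b‖ ≤ 1) (hc : ‖c‖ ≤ 1) {x₁ y₁ : ℚ_[2]}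
    (h₁ : (cv a b c).toAffine.Nonsingular x₁ y₁) {η : ℝ} (hη : 0 < η) :
    ∃ M : ℝ, ∀ (X Y : ℚ_[2]) (h : (cv a b c).toAffine.Nonsingular X Y), M < ‖X‖ →
      ∃ x₃ y₃ h₃, (.some x₁ y₁ h₁ : Pt a b c) + .some X Y h = .some x₃ y₃ h₃ ∧
        ‖x₃ - x₁‖ < η ∧ ‖y₃ - y₁‖ < η := by
  have q1 := (cv_ns.1 h₁).1
  -- the limits
  set ξ : ℚ_[2] × ℚ_[2] → ℚ_[2] := fun R => (R.1)⁻¹ with hξ
  set τ : ℚ_[2] × ℚ_[2] → ℚ_[2] := fun R => R.1 / R.2 with hτ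
  have t1 : Tendsto ξ (atI a b c) (𝓝 0) := atI_inv
  have t2 : Tendsto τ (atI a b c) (𝓝 0) := atI_tau ha hb hc
  set g : ℚ_[2] × ℚ_[2] → ℚ_[2] := fun R => 1 + a * ξ R + b * ξ R ^ 2 + c * ξ R ^ 3 with hg
  have t3 : Tendsto g (atI a b c) (𝓝 1) := by
    have : Tendsto g (atI a b c) (𝓝 (1 + a * 0 + b * 0 ^ 2 + c * 0 ^ 3)) :=
      ((tendsto_const_nhds.add (t1.const_mul _)).add ((t1.pow 2).const_mul _)).add
        ((t1.pow 3).const_mul _)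
    simpa using this
  have t4 : Tendsto (fun R => 1 - x₁ * ξ R) (atI a b c) (𝓝 1) := by
    have : Tendsto (fun R => 1 - x₁ * ξ R) (atI a b c) (𝓝 (1 - x₁ * 0)) :=
      tendsto_const_nhds.sub (t1.const_mul _)
    simpa using this
  set A : ℚ_[2] × ℚ_[2] → ℚ_[2] := fun R => (x₁ + (b + x₁ ^ 2 + 2 * a * x₁) * ξ R +
    (c + y₁ ^ 2 - (a + x₁) * x₁ ^ 2) * ξ R ^ 2 - 2 * y₁ * (τ R * g R)) / (1 - x₁ * ξ R) ^ 2 with hA
  have t5 : Tendsto A (atI a b c) (𝓝 x₁) := by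
    have : Tendsto A (atI a b c) (𝓝 ((x₁ + (b + x₁ ^ 2 + 2 * a * x₁) * 0 +
        (c + y₁ ^ 2 - (a + x₁) * x₁ ^ 2) * 0 ^ 2 - 2 * y₁ * (0 * 1)) / 1 ^ 2)) :=
      (((tendsto_const_nhds.add (t1.const_mul _)).add ((t1.pow 2).const_mul _)).sub
        ((t2.mul t3).const_mul _)).div (t4.pow 2) (by norm_num)
    simpa using this
  set κ : ℚ_[2] := 2 * x₁ ^ 3 + a * x₁ ^ 2 - c - y₁ ^ 2 with hκ
  set B : ℚ_[2] × ℚ_[2] → ℚ_[2] := fun R => g R * (1 - y₁ * (τ R * ξ R)) *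
    (2 * y₁ - (b + 3 * x₁ ^ 2 + 2 * a * x₁) * τ R + κ * (τ R * ξ R)) / (1 - x₁ * ξ R) ^ 3 - y₁ with hB
  have t6 : Tendsto B (atI a b c) (𝓝 y₁) := by
    have : Tendsto B (atI a b c) (𝓝 (1 * (1 - y₁ * (0 * 0)) *
        (2 * y₁ - (b + 3 * x₁ ^ 2 + 2 * a * x₁) * 0 + κ * (0 * 0)) / 1 ^ 3 - y₁)) :=
      (((t3.mul (tendsto_const_nhds.sub ((t2.mul t1).const_mul _))).mul
        ((tendsto_const_nhds.sub (t2.const_mul _)).add ((t2.mul t1).const_mul _))).div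
          (t4.pow 3) (by norm_num)).sub tendsto_const_nhds
    have e : (1 * (1 - y₁ * (0 * 0)) *
        (2 * y₁ - (b + 3 * x₁ ^ 2 + 2 * a * x₁) * 0 + κ * (0 * 0)) / 1 ^ 3 - y₁) = y₁ := by ring
    rwa [e] at this
  have ev : ∀ᶠ R in atI a b c, ‖A R - x₁‖ < η ∧ ‖B R - y₁‖ < η ∧ ‖x₁‖ < ‖R.1‖ ∧
      R.1 ≠ 0 ∧ R.2 ≠ 0 := by
    have e1 : ∀ᶠ R in atI a b c, ‖A R - x₁‖ < η := by
      have := (t5.sub_const x₁).norm
      rw [sub_self, norm_zero] at this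
      exact this.eventually_lt_const hη
    have e2 : ∀ᶠ R in atI a b c, ‖B R - y₁‖ < η := by
      have := (t6.sub_const y₁).norm
      rw [sub_self, norm_zero] at this
      exact this.eventually_lt_const hη
    filter_upwards [e1, e2, atI_big ‖x₁‖, atI_y ha hb hc] with R h1 h2 h3 h4
    exact ⟨h1, h2, h3, h4.1, h4.2.1⟩
  rw [atI, eventually_inf_principal, eventually_comap] at ev
  obtain ⟨M, hM⟩ := eventually_atTop.1 ev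
  refine ⟨M, fun X Y h hX => ?_⟩
  have qX := (cv_ns.1 h).1
  obtain ⟨g1, g2, g3, g4, g5⟩ := hM ‖X‖ hX.le (X, Y) rfl qX
  simp only at g3 g4 g5
  have hne : x₁ ≠ X := by
    intro h0
    rw [h0] at g3
    exact lt_irrefl _ g3
  have hd : x₁ - X ≠ 0 := sub_ne_zero.2 hne
  have hd' : X - x₁ ≠ 0 := sub_ne_zero.2 hne.symm
  obtain ⟨h₃, e3⟩ := add_mk h₁ h hne (ℓ := (y₁ - Y) / (x₁ - X)) (div_mul_cancel₀ _ hd)
  have hgX : Y ^ 2 = X ^ 3 * g (X, Y) := by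
    simp only [hg, hξ]
    rw [qX]
    field_simp
  have h1x : 1 - x₁ * X⁻¹ = (X - x₁) / X := by field_simp
  have eA : ((y₁ - Y) / (x₁ - X)) ^ 2 - a - x₁ - X = A (X, Y) := by
    simp only [hA, hτ, hξ]
    have e : X / Y * g (X, Y) = Y / X ^ 2 := by
      field_simp
      linear_combination -hgX
    rw [e, h1x]
    have e' : ((y₁ - Y) / (x₁ - X)) ^ 2 = (Y - y₁) ^ 2 / (X - x₁) ^ 2 := by
      rw [← div_pow, ← neg_sub Y y₁, ← neg_sub X x₁, neg_div_neg_eq]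
    rw [e']
    field_simp
    linear_combination qX
  have eB : -((y₁ - Y) / (x₁ - X) * (((y₁ - Y) / (x₁ - X)) ^ 2 - a - x₁ - X - x₁) + y₁) =
      B (X, Y) := by
    rw [eA]
    have eg : g (X, Y) = Y ^ 2 / X ^ 3 := by
      rw [hgX]; field_simp
    simp only [hB, hA, hτ, hξ]
    rw [eg, h1x]
    have e' : ((y₁ - Y) / (x₁ - X)) = (Y - y₁) / (X - x₁) := by
      rw [← neg_sub Y y₁, ← neg_sub X x₁, neg_div_neg_eq]
    rw [e', hκ]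
    field_simp
    ring
  refine ⟨_, _, h₃, e3, ?_, ?_⟩
  · rw [eA]; exact g1
  · rw [eB]; exact g2

/-- **The multiples of a point are dense.** -/
theorem fill2 [DecidableEq ℚ_[2]] (ha : ‖a‖ ≤ 1) (hb : ‖b‖ ≤ 1) (hc : ‖c‖ ≤ 1) {x y : ℚ_[2]}
    (h : (cv a b c).toAffine.Nonsingular x y) (hx : ‖x‖ = 4) {X Y : ℚ_[2]}
    (hXY : (cv a b c).toAffine.Nonsingular X Y) (hX : 1 < ‖X‖) {η : ℝ} (hη : 0 < η) :
    ∃ (m : ℤ) (x₃ y₃ : ℚ_[2]) (h₃ : (cv a b c).toAffine.Nonsingular x₃ y₃),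
      m • (.some x y h : Pt a b c) = .some x₃ y₃ h₃ ∧ ‖x₃ - X‖ < η ∧ ‖y₃ - Y‖ < η := by
  obtain ⟨M, hM⟩ := add_inf ha hb hc hXY hη
  obtain ⟨k, hk⟩ := pow_unbounded_of_one_lt M (show (1 : ℝ) < 4 by norm_num)
  obtain ⟨m, hm⟩ := big_all ha hb hc h hx hXY hX k
  have e : m • (.some x y h : Pt a b c) = .some X Y hXY +
      -((.some X Y hXY : Pt a b c) - m • (.some x y h : Pt a b c)) := by abel
  rcases hm with h0 | ⟨X', Y', h', e', hX'⟩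
  · rw [h0, neg_zero, add_zero] at e
    exact ⟨m, X, Y, hXY, e, by rw [sub_self, norm_zero]; exact hη,
      by rw [sub_self, norm_zero]; exact hη⟩
  · rw [e'] at e
    obtain ⟨hn, en⟩ := neg_mk h'
    rw [en] at e
    have hX'' : M < ‖X'‖ := by
      refine hk.trans_le (le_trans ?_ hX')
      exact pow_le_pow_right₀ (by norm_num) (Nat.le_succ k)
    obtain ⟨x₃, y₃, h₃, e3, g1, g2⟩ := hM X' (-Y') hn hX''
    exact ⟨m, x₃, y₃, h₃, e.trans e3, g1, g2⟩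

end inf

end Pool.Agent.Run7.h587.Ad
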