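import Pool.Agent.Run7.h587.Ad.Cls

/-!
# Adapted polynomials over `ℚ₂`, and the residue class modulo four
-/

set_option autoImplicit false

open Polynomial Pool.Agent.Y720.MZ Pool.Agent.Y718.X

namespace Pool.Agent.Run7.h587.Ad

variable {n : ℕ}

/-- All points of `w² = F(z)` over `ℚ₂` have integral coordinates, they do not lie on the branch
divisor, and the partial derivatives of `F` are larger than `2 w`; the curves of genus one in the
directions of the coordinates are smooth. -/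
def Adapted (F : MvPolynomial (Fin n) ℚ_[2]) : Prop :=
  (∀ i, F.degreeOf i ≤ 4) ∧ (∀ m, ‖F.coeff m‖ ≤ 1) ∧
  ∀ (z : Fin n → ℚ_[2]) (w : ℚ_[2]), w ^ 2 = MvPolynomial.eval z F → w ≠ 0 ∧
    ∀ i, ‖z i‖ ≤ 1 ∧ ‖2 * w‖ < ‖MvPolynomial.eval z (MvPolynomial.pderiv i F)‖ ∧
      Db (lr F z i) ≠ 0

/-! ### the class -/

theorem degreeOf_q {R : Type*} [CommRing R] (l i : Fin n) :
    (MvPolynomial.X l ^ 2 + MvPolynomial.X l : MvPolynomial (Fin n) R).degreeOf i ≤
      if l = i then 2 else 0 := by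
  classical
  rcases subsingleton_or_nontrivial R with h | h
  · have : (MvPolynomial.X l ^ 2 + MvPolynomial.X l : MvPolynomial (Fin n) R) = 0 :=
      Subsingleton.elim _ _
    rw [this]
    simp
  refine (MvPolynomial.degreeOf_add_le _ _ _).trans (max_le ?_ ?_)
  · refine (MvPolynomial.degreeOf_pow_le _ _ _).trans ?_
    rw [MvPolynomial.degreeOf_X]
    by_cases h : i = l
    · rw [if_pos h, if_pos h.symm]
    · rw [if_neg h, if_neg (Ne.symm h)]
  · rw [MvPolynomial.degreeOf_X]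
    by_cases h : i = l
    · rw [if_pos h, if_pos h.symm]; norm_num
    · rw [if_neg h, if_neg (Ne.symm h)]

theorem f0_deg {R : Type*} [CommRing R] (i : Fin n) : (f0 R n).degreeOf i ≤ 4 := by
  classical
  unfold f0
  refine (MvPolynomial.degreeOf_add_le _ _ _).trans (max_le ?_ ?_)
  · refine (MvPolynomial.degreeOf_add_le _ _ _).trans (max_le ?_ ?_)
    · refine (MvPolynomial.degreeOf_mul_le _ _ _).trans ?_
      have h3 : (3 : MvPolynomial (Fin n) R).degreeOf i = 0 := by
        have : (3 : MvPolynomial (Fin n) R) = MvPolynomial.C 3 := (map_ofNat _ 3).symm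
        rw [this, MvPolynomial.degreeOf_C]
      rw [h3, zero_add]
      refine (MvPolynomial.degreeOf_prod_le _ _ _).trans ?_
      have : ∀ l ∈ (Finset.univ : Finset (Fin n)),
          ((MvPolynomial.X l ^ 2 + MvPolynomial.X l + 1) ^ 2 :
            MvPolynomial (Fin n) R).degreeOf i ≤ if l = i then 4 else 0 := by
        intro l _
        refine (MvPolynomial.degreeOf_pow_le _ _ _).trans ?_
        have h1 : (MvPolynomial.X l ^ 2 + MvPolynomial.X l + 1 :
            MvPolynomial (Fin n) R).degreeOf i ≤ if l = i then 2 else 0 := by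
          refine (MvPolynomial.degreeOf_add_le _ _ _).trans (max_le (degreeOf_q l i) ?_)
          rw [MvPolynomial.degreeOf_one]
          exact Nat.zero_le _
        by_cases h : l = i
        · rw [if_pos h] at h1 ⊢
          omega
        · rw [if_neg h] at h1 ⊢
          omega
      refine (Finset.sum_le_sum this).trans ?_
      rw [Finset.sum_ite_eq' Finset.univ i, if_pos (Finset.mem_univ _)]
    · refine (MvPolynomial.degreeOf_sum_le _ _ _).trans ?_
      refine Finset.sup_le fun l _ => (degreeOf_q l i).trans ?_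
      split_ifs <;> norm_num
  · have : (2 : MvPolynomial (Fin n) R) = MvPolynomial.C 2 := (map_ofNat _ 2).symm
    rw [this, MvPolynomial.degreeOf_C]
    exact Nat.zero_le _

theorem sq_ne_three : ∀ t : ZMod (2 ^ 2), t ^ 2 ≠ 3 := by decide

theorem one_of_one : ∀ u : ZMod (2 ^ 2), (u ^ 2 + u + 1) ^ 2 = 1 := by decide

/-- the polynomials of the class, over a ring -/
noncomputable def fc (R : Type*) [CommRing R] (g : MvPolynomial (Fin n) ℤ) :
    MvPolynomial (Fin n) R := f0 R n + 4 * g.map (Int.castRingHom R)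

theorem fc_map {R S : Type*} [CommRing R] [CommRing S] (φ : R →+* S)
    (g : MvPolynomial (Fin n) ℤ) : (fc R g).map φ = fc S g := by
  unfold fc
  rw [map_add, map_mul, map_ofNat, f0_map, MvPolynomial.map_map]
  congr 4
  exact Subsingleton.elim _ _

theorem fc_deg {R : Type*} [CommRing R] {g : MvPolynomial (Fin n) ℤ}
    (hg : ∀ i, g.degreeOf i ≤ 4) (i : Fin n) : (fc R g).degreeOf i ≤ 4 := by
  unfold fc
  refine (MvPolynomial.degreeOf_add_le _ _ _).trans (max_le (f0_deg i) ?_)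
  refine (MvPolynomial.degreeOf_mul_le _ _ _).trans ?_
  have : (4 : MvPolynomial (Fin n) R) = MvPolynomial.C 4 := (map_ofNat _ 4).symm
  rw [this, MvPolynomial.degreeOf_C, zero_add]
  refine le_trans ?_ (hg i)
  rw [MvPolynomial.degreeOf_eq_sup, MvPolynomial.degreeOf_eq_sup]
  exact Finset.sup_mono (MvPolynomial.support_map_subset _ _)

/-- `∏ yᵢ⁴ g(x / y)` -/
def homZ {R : Type*} [CommRing R] (g : MvPolynomial (Fin n) ℤ) (x y : Fin n → R) : R :=
  ∑ m ∈ g.support, ((g.coeff m : ℤ) : R) * ∏ i, (x i ^ m i * y i ^ (4 - m i))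

theorem cprod {α : Type*} (s : Finset α) (f : α → ℤ_[2]) :
    ((∏ l ∈ s, f l : ℤ_[2]) : ℚ_[2]) = ∏ l ∈ s, (f l : ℚ_[2]) :=
  map_prod PadicInt.Coe.ringHom f s

theorem csum {α : Type*} (s : Finset α) (f : α → ℤ_[2]) :
    ((∑ l ∈ s, f l : ℤ_[2]) : ℚ_[2]) = ∑ l ∈ s, (f l : ℚ_[2]) :=
  map_sum PadicInt.Coe.ringHom f s

theorem cnum (k : ℕ) [k.AtLeastTwo] : ((ofNat(k) : ℤ_[2]) : ℚ_[2]) = ofNat(k) :=
  map_ofNat PadicInt.Coe.ringHom k

theorem homZ_eq {R : Type*} [CommRing R] {g : MvPolynomial (Fin n) ℤ}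
    (hg : ∀ i, g.degreeOf i ≤ 4) {x y z : Fin n → R} (h : ∀ i, z i * y i = x i) :
    MvPolynomial.eval z (g.map (Int.castRingHom R)) * ∏ i, y i ^ 4 = homZ g x y := by
  unfold homZ
  rw [MvPolynomial.eval_map, MvPolynomial.eval₂_eq', Finset.sum_mul]
  refine Finset.sum_congr rfl fun m hm => ?_
  rw [mul_assoc, ← Finset.prod_mul_distrib, eq_intCast]
  congr 1
  refine Finset.prod_congr rfl fun i _ => ?_
  have h4 : m i ≤ 4 := by
    refine le_trans ?_ (hg i)
    rw [MvPolynomial.degreeOf_eq_sup]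
    exact Finset.le_sup (f := fun m : Fin n →₀ ℕ => m i) hm
  rw [← h i, mul_pow, mul_assoc, ← pow_add, Nat.add_sub_cancel' h4]

theorem homZ_map {R S : Type*} [CommRing R] [CommRing S] (φ : R →+* S)
    (g : MvPolynomial (Fin n) ℤ) (x y : Fin n → R) :
    φ (homZ g x y) = homZ g (fun i => φ (x i)) (fun i => φ (y i)) := by
  unfold homZ
  simp

/-- no points with nonintegral coordinates -/
theorem int_of_on {g : MvPolynomial (Fin n) ℤ} (hg : ∀ i, g.degreeOf i ≤ 4)
    {z : Fin n → ℚ_[2]} {w : ℚ_[2]} (hw : w ^ 2 = MvPolynomial.eval z (fc ℚ_[2] g)) (j : Fin n) :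
    ‖z j‖ ≤ 1 := by
  classical
  by_contra hj
  push Not at hj
  have hu : ∀ i, ∃ x y : ℤ_[2], z i * y = x ∧ (x = 1 ∨ y = 1) ∧ (i = j → ‖y‖ < 1) := by
    intro i
    by_cases h : ‖z i‖ ≤ 1
    · refine ⟨⟨z i, h⟩, 1, by simp, Or.inr rfl, ?_⟩
      rintro rfl
      exact absurd h (not_le.2 hj)
    · push Not at h
      have h0 : z i ≠ 0 := by
        intro h0
        rw [h0, norm_zero] at h
        linarith
      have h1 : ‖(z i)⁻¹‖ < 1 := by
        rw [norm_inv]
        exact inv_lt_one_of_one_lt₀ h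
      exact ⟨1, ⟨(z i)⁻¹, h1.le⟩, by simp [mul_inv_cancel₀ h0], Or.inl rfl, fun _ => h1⟩
  choose x y h1 h2 h3 using hu
  set I : ℤ_[2] := ∑ i, (x i ^ 2 + x i * y i) * ∏ l ∈ Finset.univ.erase i, y l ^ 2 +
    2 * ∏ l, y l ^ 2 with hI
  set B : ℤ_[2] := ∏ i, (x i ^ 2 + x i * y i + y i ^ 2) ^ 2 with hB
  -- the square
  have e1 : (w * ∏ i, (y i : ℚ_[2]) ^ 2) ^ 2 =
      ((3 * B + (∏ l, y l) ^ 2 * I + 4 * homZ g x y : ℤ_[2]) : ℚ_[2]) := by
    have hh : ((homZ g x y : ℤ_[2]) : ℚ_[2]) =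
        homZ g (fun i => (x i : ℚ_[2])) (fun i => (y i : ℚ_[2])) :=
      homZ_map PadicInt.Coe.ringHom g x y
    have e2 := homZ_eq (R := ℚ_[2]) hg (x := fun i => (x i : ℚ_[2])) (y := fun i => (y i : ℚ_[2]))
      (z := z) h1
    have e3 : (w * ∏ i, (y i : ℚ_[2]) ^ 2) ^ 2 = w ^ 2 * ∏ i, (y i : ℚ_[2]) ^ 4 := by
      rw [mul_pow, ← Finset.prod_pow]
      congr 1
      refine Finset.prod_congr rfl fun i _ => ?_
      ring
    have e4 : (∏ i, (z i ^ 2 + z i + 1) ^ 2) * ∏ i, (y i : ℚ_[2]) ^ 4 = (B : ℚ_[2]) := by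
      rw [hB, ← Finset.prod_mul_distrib, cprod]
      refine Finset.prod_congr rfl fun i _ => ?_
      push_cast
      rw [← h1 i]
      ring
    have e5 : ∀ i, (z i ^ 2 + z i) * ∏ l, (y l : ℚ_[2]) ^ 4 = (∏ l, (y l : ℚ_[2])) ^ 2 *
        (((x i : ℚ_[2]) ^ 2 + x i * y i) * ∏ l ∈ Finset.univ.erase i, (y l : ℚ_[2]) ^ 2) := by
      intro i
      rw [← Finset.mul_prod_erase _ (fun l => (y l : ℚ_[2]) ^ 4) (Finset.mem_univ i),
        ← Finset.mul_prod_erase _ (fun l => (y l : ℚ_[2])) (Finset.mem_univ i)]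
      have e6 : ∏ l ∈ Finset.univ.erase i, (y l : ℚ_[2]) ^ 4 =
          (∏ l ∈ Finset.univ.erase i, (y l : ℚ_[2])) ^ 2 *
            ∏ l ∈ Finset.univ.erase i, (y l : ℚ_[2]) ^ 2 := by
        rw [← Finset.prod_pow, ← Finset.prod_mul_distrib]
        refine Finset.prod_congr rfl fun l _ => ?_
        ring
      rw [e6, ← h1 i]
      ring
    have e7 : ∏ l, (y l : ℚ_[2]) ^ 4 = (∏ l, (y l : ℚ_[2])) ^ 2 * ∏ l, (y l : ℚ_[2]) ^ 2 := by
      rw [← Finset.prod_pow, ← Finset.prod_mul_distrib]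
      refine Finset.prod_congr rfl fun l _ => ?_
      ring
    have e8 : (∑ i, (z i ^ 2 + z i)) * ∏ l, (y l : ℚ_[2]) ^ 4 + 2 * ∏ l, (y l : ℚ_[2]) ^ 4 =
        (((∏ l, y l) ^ 2 * I : ℤ_[2]) : ℚ_[2]) := by
      rw [Finset.sum_mul, Finset.sum_congr rfl fun i _ => e5 i, ← Finset.mul_sum, e7, hI]
      simp only [PadicInt.coe_mul, PadicInt.coe_pow, PadicInt.coe_add, cprod, csum, cnum]
      ring
    rw [e3, hw, fc, map_add, map_mul, map_ofNat, f0_eval, PadicInt.coe_add, PadicInt.coe_add,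
      ← e8, PadicInt.coe_mul, PadicInt.coe_mul, ← e4, hh, ← e2, cnum, cnum]
    ring
  -- the square is integral
  have hW : ‖w * ∏ i, (y i : ℚ_[2]) ^ 2‖ ≤ 1 := by
    have := PadicInt.norm_le_one (3 * B + (∏ l, y l) ^ 2 * I + 4 * homZ g x y)
    rw [PadicInt.norm_def, ← e1, norm_pow] at this
    by_contra h
    push Not at h
    have := one_lt_pow₀ h two_ne_zero
    linarith
  set W : ℤ_[2] := ⟨_, hW⟩ with hWd
  have e9 : W ^ 2 = 3 * B + (∏ l, y l) ^ 2 * I + 4 * homZ g x y := by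
    have : ((W ^ 2 : ℤ_[2]) : ℚ_[2]) =
        ((3 * B + (∏ l, y l) ^ 2 * I + 4 * homZ g x y : ℤ_[2]) : ℚ_[2]) := by
      rw [PadicInt.coe_pow]
      exact e1
    exact PadicInt.ext this
  -- modulo four
  have f1 : (PadicInt.toZModPow (p := 2) 2 W) ^ 2 = 3 := by
    have f2 : PadicInt.toZModPow (p := 2) 2 (∏ l, y l) ^ 2 = 0 := by
      have f3 : ∃ c, y j = 2 * c := by
        have := (PadicInt.norm_lt_one_iff_dvd _).1 (h3 j rfl)
        exact_mod_cast this
      obtain ⟨c, hc⟩ := f3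
      rw [← Finset.mul_prod_erase _ _ (Finset.mem_univ j), hc, map_mul, map_mul, map_ofNat]
      have : ∀ a b : ZMod (2 ^ 2), (2 * a * b) ^ 2 = 0 := by decide
      exact this _ _
    have f4 : PadicInt.toZModPow (p := 2) 2 B = 1 := by
      rw [hB, map_prod]
      refine Finset.prod_eq_one fun i _ => ?_
      rcases h2 i with h | h
      · rw [h]
        have := one_of_one (PadicInt.toZModPow (p := 2) 2 (y i))
        rw [← this]
        simp only [map_pow, map_add, map_mul, map_one]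
        ring
      · rw [h]
        have := one_of_one (PadicInt.toZModPow (p := 2) 2 (x i))
        rw [← this]
        simp only [map_pow, map_add, map_mul, map_one]
        ring
    have f5 : (4 : ZMod (2 ^ 2)) = 0 := by decide
    rw [← map_pow, e9, map_add, map_add, map_mul, map_mul, map_mul, map_pow, f2, f4, map_ofNat,
      map_ofNat, f5]
    ring
  exact sq_ne_three _ f1

/-! ### integral points -/

theorem norm_one {a : ℤ_[2]} (h : PadicInt.toZMod a ≠ 0) : ‖a‖ = 1 := by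
  by_contra h1
  have h2 : ‖a‖ < 1 := lt_of_le_of_ne (PadicInt.norm_le_one a) h1
  apply h
  have h3 := (PadicInt.norm_lt_one_iff_dvd a).1 h2
  obtain ⟨c, hc⟩ := h3
  rw [hc, map_mul]
  have : (PadicInt.toZMod ((2 : ℕ) : ℤ_[2]) : ZMod 2) = 0 := by
    rw [map_natCast]
    decide
  rw [this, zero_mul]

/-- **The class.** -/
theorem cls_adapted {g : MvPolynomial (Fin n) ℤ} (hg : ∀ i, g.degreeOf i ≤ 4) :
    Adapted (fc ℚ_[2] g) := by
  refine ⟨fc_deg hg, ?_, ?_⟩
  · intro m
    have h1 : fc ℚ_[2] g = (fc ℤ_[2] g).map PadicInt.Coe.ringHom := (fc_map _ g).symm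
    rw [h1, MvPolynomial.coeff_map]
    exact PadicInt.norm_le_one _
  · intro z w hw
    have hz : ∀ i, ‖z i‖ ≤ 1 := int_of_on hg hw
    set u : Fin n → ℤ_[2] := fun i => ⟨z i, hz i⟩ with hu
    have h4 : (4 : MvPolynomial (Fin n) (ZMod 2)) = 0 := by
      have : (4 : MvPolynomial (Fin n) (ZMod 2)) = MvPolynomial.C 4 := (map_ofNat _ 4).symm
      rw [this, show (4 : ZMod 2) = 0 from by decide, MvPolynomial.C_0]
    have hfc : fc (ZMod 2) g = f0 (ZMod 2) n := by
      unfold fc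
      rw [h4, zero_mul, add_zero]
    have h0 : MvPolynomial.eval z (fc ℚ_[2] g) = ((MvPolynomial.eval u (fc ℤ_[2] g) : ℤ_[2]) : ℚ_[2]) := by
      have h1 : fc ℚ_[2] g = (fc ℤ_[2] g).map PadicInt.Coe.ringHom := (fc_map _ g).symm
      have h2 := MvPolynomial.map_eval PadicInt.Coe.ringHom u (fc ℤ_[2] g)
      rw [h1]
      exact h2.symm
    have h0' : PadicInt.toZMod (MvPolynomial.eval u (fc ℤ_[2] g)) = (1 : ZMod 2) := by
      have h2 := MvPolynomial.map_eval (PadicInt.toZMod (p := 2)) u (fc ℤ_[2] g)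
      rw [h2, fc_map, hfc]
      exact f0_zmod2 _
    have hw1 : ‖w‖ = 1 := by
      have h5 : ‖w‖ ^ 2 = 1 := by
        rw [← norm_pow, hw, h0, ← PadicInt.norm_def]
        exact norm_one (by rw [h0']; exact one_ne_zero)
      exact (pow_eq_one_iff_of_nonneg (norm_nonneg w) two_ne_zero).1 h5
    refine ⟨?_, fun i => ⟨hz i, ?_⟩⟩
    · rintro rfl
      rw [norm_zero] at hw1
      exact zero_ne_one hw1
    set P := lr (fc ℤ_[2] g) u i with hP
    have hq : lr (fc ℚ_[2] g) z i = P.map PadicInt.Coe.ringHom := by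
      rw [hP, lr_map, fc_map]
      rfl
    have hq2 : P.map (PadicInt.toZMod (p := 2)) = X ^ 4 + X + 1 := by
      rw [hP, lr_map, fc_map, hfc]
      exact lr_f0_zmod2 _ i
    have hcc : ∀ k, (lr (fc ℚ_[2] g) z i).coeff k = ((P.coeff k : ℤ_[2]) : ℚ_[2]) := by
      intro k
      rw [hq, coeff_map]
      rfl
    have hck : ∀ k, PadicInt.toZMod (P.coeff k) = (X ^ 4 + X + 1 : (ZMod 2)[X]).coeff k := by
      intro k
      rw [← hq2, coeff_map]
    have k0 : PadicInt.toZMod (P.coeff 0) = 1 := by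
      rw [hck]; simp [coeff_X, coeff_one, coeff_X_pow]
    have k1 : PadicInt.toZMod (P.coeff 1) = 1 := by
      rw [hck]; simp [coeff_X, coeff_one, coeff_X_pow]
    have k2 : PadicInt.toZMod (P.coeff 2) = 0 := by
      rw [hck]; simp [coeff_X, coeff_one, coeff_X_pow]
    have k3 : PadicInt.toZMod (P.coeff 3) = 0 := by
      rw [hck]; simp [coeff_X, coeff_one, coeff_X_pow]
    have k4 : PadicInt.toZMod (P.coeff 4) = 1 := by
      rw [hck]; simp [coeff_X, coeff_one, coeff_X_pow]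
    have hn1 : ‖(lr (fc ℚ_[2] g) z i).coeff 1‖ = 1 := by
      rw [hcc, ← PadicInt.norm_def]
      exact norm_one (by rw [k1]; exact one_ne_zero)
    constructor
    · rw [← lr_coeff_one, hn1, norm_mul, hw1, mul_one]
      have := Padic.norm_p_lt_one (p := 2)
      exact_mod_cast this
    · refine db_ne (v := NormedField.toAbsoluteValue ℚ_[2]) ?_ ?_ ?_ ?_
      · exact Padic.nonarchimedean
      · have := Padic.norm_p_lt_one (p := 2)
        exact_mod_cast this
      · intro k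
        rw [hcc]
        exact PadicInt.norm_le_one _
      · have e : (lr (fc ℚ_[2] g) z i).coeff 1 ^ 2 * (lr (fc ℚ_[2] g) z i).coeff 4 +
            (lr (fc ℚ_[2] g) z i).coeff 1 * (lr (fc ℚ_[2] g) z i).coeff 2 *
              (lr (fc ℚ_[2] g) z i).coeff 3 +
            (lr (fc ℚ_[2] g) z i).coeff 0 * (lr (fc ℚ_[2] g) z i).coeff 3 ^ 2 =
            ((P.coeff 1 ^ 2 * P.coeff 4 + P.coeff 1 * P.coeff 2 * P.coeff 3 +
              P.coeff 0 * P.coeff 3 ^ 2 : ℤ_[2]) : ℚ_[2]) := by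
          simp only [hcc, PadicInt.coe_mul, PadicInt.coe_pow, PadicInt.coe_add]
        rw [e]
        refine norm_one ?_
        rw [map_add, map_add, map_mul, map_mul, map_mul, map_mul, map_pow, map_pow, k0, k1, k2, k3,
          k4]
        decide

/-! ### fields with an embedding -/

/-- the absolute value of an embedding -/
noncomputable def pull {K : Type*} [Field K] (σ : K →+* ℚ_[2]) : AbsoluteValue K ℝ :=
  (NormedField.toAbsoluteValue ℚ_[2]).comp σ.injective

theorem pull_apply {K : Type*} [Field K] (σ : K →+* ℚ_[2]) (x : K) : pull σ x = ‖σ x‖ := rfl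

theorem pull_na {K : Type*} [Field K] (σ : K →+* ℚ_[2]) : IsNonarchimedean (pull σ) := by
  intro x y
  rw [pull_apply, pull_apply, pull_apply, map_add]
  exact Padic.nonarchimedean _ _

theorem pull_two {K : Type*} [Field K] (σ : K →+* ℚ_[2]) : pull σ 2 < 1 := by
  rw [pull_apply, map_ofNat]
  have := Padic.norm_p_lt_one (p := 2)
  exact_mod_cast this

theorem map_Db {K L : Type*} [Field K] [Field L] (φ : K →+* L) (q : K[X]) :
    Db (q.map φ) = φ (Db q) := by
  simp only [Db, map_Ab, map_Bb, map_Cb, dsc, map_sub, map_add, map_mul, map_pow, map_ofNat]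

/-- **All points are nondegenerate.** -/
theorem adapted_main {K : Type*} [Field K] [DecidableEq K] (σ : K →+* ℚ_[2])
    {f : MvPolynomial (Fin n) K} (hf : Adapted (f.map σ)) {z : Fin n → K} {w : K}
    (h : w ^ 2 = MvPolynomial.eval z f) :
    w ≠ 0 ∧ ∀ i, Db (lk f z (Pi.single i 1)) ≠ 0 ∧ InfW (lk f z (Pi.single i 1)) w := by
  have h1 : σ w ^ 2 = MvPolynomial.eval (fun i => σ (z i)) (f.map σ) := by
    rw [← map_pow, h]
    exact MvPolynomial.map_eval σ z f
  obtain ⟨h2, h3⟩ := hf.2.2 _ _ h1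
  have hw0 : w ≠ 0 := by
    rintro rfl
    exact h2 (map_zero σ)
  have h20 : (2 : K) ≠ 0 := by
    intro h0
    have := congrArg σ h0
    rw [map_ofNat, map_zero] at this
    exact two_ne_zero this
  have hz : ∀ l, pull σ (z l) ≤ 1 := fun l => (h3 l).1
  refine ⟨hw0, fun i => ⟨?_, ?_⟩⟩
  · intro h0
    apply (h3 i).2.2
    rw [← lr_map]
    have : Db ((lr f z i).map σ) = σ (Db (lk f z (Pi.single i 1))) := map_Db σ _
    rw [this, h0, map_zero]
  · refine infW_two (v := pull σ) (pull_na σ) h20 (pull_two σ) ?_ hw0 ?_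
    · intro k
      exact (coeff_IC (pull_na σ) (fun d => by
        have := hf.2.1 d
        rw [MvPolynomial.coeff_map] at this
        exact this) i k).1 z hz
    · have h4 := (h3 i).2.1
      rw [pull_apply, pull_apply, map_mul, map_ofNat]
      have h5 : σ ((lk f z (Pi.single i 1)).coeff 1) =
          MvPolynomial.eval (fun l => σ (z l)) (MvPolynomial.pderiv i (f.map σ)) := by
        rw [← lr_coeff_one, ← lr_map, coeff_map]
        rfl
      rw [h5]
      exact h4

end Pool.Agent.Run7.h587.Ad
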