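import Pool.Agent.Run7.h587.Ad.Ea

/-!
# Changes of the coordinates in each variable separately
-/

set_option autoImplicit false

open Pool.Agent.Y720.MZ Pool.Agent.Y718.X Filter Topology
open Pool.Agent.Q35.ZC

namespace Pool.Agent.Run7.h587.Ad

open MvPolynomial

variable {n : ℕ}

/-- evaluation after a substitution -/
theorem bind_eval {R : Type*} [CommRing R] (h : Fin n → MvPolynomial (Fin n) R)
    (f : MvPolynomial (Fin n) R) (s : Fin n → R) :
    eval s (bind₁ h f) = eval (fun i => eval s (h i)) f := by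
  induction f using MvPolynomial.induction_on with
  | C c => simp
  | add p q hp hq => rw [map_add, map_add, map_add, hp, hq]
  | mul_X p j hp =>
    rw [map_mul, map_mul, hp, map_mul, bind₁_X_right]
    simp

/-- the substitution `z_i ↦ a_i z_i + b_i` -/
noncomputable def subm {R : Type*} [CommRing R] (a b : Fin n → R) (f : MvPolynomial (Fin n) R) :
    MvPolynomial (Fin n) R :=
  bind₁ (fun i => C (a i) * X i + C (b i)) f

theorem subm_eval {R : Type*} [CommRing R] (a b : Fin n → R) (f : MvPolynomial (Fin n) R)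
    (s : Fin n → R) : eval s (subm a b f) = eval (fun i => a i * s i + b i) f := by
  unfold subm
  rw [bind_eval]
  simp

theorem subm_lr {R : Type*} [CommRing R] (a b : Fin n → R) (f : MvPolynomial (Fin n) R)
    (s : Fin n → R) (i : Fin n) : lr (subm a b f) s i =
      (lr f (fun l => a l * s l + b l) i).comp (Polynomial.C (a i) * Polynomial.X) := by
  unfold subm lr
  induction f using MvPolynomial.induction_on with
  | C c => simp
  | add p q hp hq => rw [map_add, map_add, map_add, Polynomial.add_comp, hp, hq]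
  | mul_X p j hp =>
    rw [map_mul, map_mul, hp, map_mul, bind₁_X_right, Polynomial.mul_comp, aeval_X]
    congr 1
    by_cases hj : j = i
    · subst hj
      simp
      ring
    · simp [Pi.single_eq_of_ne hj]

theorem subm_deg {R : Type*} [CommRing R] (a b : Fin n → R) {f : MvPolynomial (Fin n) R}
    {i : Fin n} {N : ℕ} (hf : f.degreeOf i ≤ N) : (subm a b f).degreeOf i ≤ N := by
  classical
  unfold subm
  rw [f.as_sum, map_sum]
  refine (degreeOf_sum_le _ _ _).trans (Finset.sup_le fun m hm => ?_)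
  rw [bind₁_monomial]
  refine (degreeOf_mul_le _ _ _).trans ?_
  rw [degreeOf_C, zero_add]
  refine (degreeOf_prod_le _ _ _).trans ?_
  have h1 : ∀ l ∈ m.support, ((C (a l) * X l + C (b l) : MvPolynomial (Fin n) R) ^ m l).degreeOf i ≤
      if l = i then m l else 0 := by
    intro l _
    refine (degreeOf_pow_le _ _ _).trans ?_
    have h2 : (C (a l) * X l + C (b l) : MvPolynomial (Fin n) R).degreeOf i ≤
        if l = i then 1 else 0 := by
      refine (degreeOf_add_le _ _ _).trans (max_le ?_ ?_)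
      · refine (degreeOf_mul_le _ _ _).trans ?_
        rw [degreeOf_C, zero_add]
        rcases subsingleton_or_nontrivial R with h | h
        · have : (X l : MvPolynomial (Fin n) R) = 0 := Subsingleton.elim _ _
          rw [this, degreeOf_zero]
          exact Nat.zero_le _
        · rw [degreeOf_X]
          by_cases h3 : l = i
          · simp [h3]
          · have h4 : ¬ i = l := fun h' => h3 h'.symm
            simp [h3, h4]
      · rw [degreeOf_C]
        exact Nat.zero_le _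
    by_cases h3 : l = i
    · rw [if_pos h3] at h2 ⊢
      nlinarith
    · rw [if_neg h3] at h2 ⊢
      rw [Nat.le_zero.1 h2, mul_zero]
  refine (Finset.sum_le_sum h1).trans ?_
  rw [Finset.sum_ite_eq']
  split_ifs
  · exact ((degreeOf_le_iff.1 hf) m hm)
  · exact Nat.zero_le _

theorem subm_int {a b : Fin n → ℚ_[2]} (ha : ∀ i, ‖a i‖ ≤ 1) (hb : ∀ i, ‖b i‖ ≤ 1)
    {f : MvPolynomial (Fin n) ℚ_[2]} (hf : ∀ m, ‖f.coeff m‖ ≤ 1) (m : Fin n →₀ ℕ) :
    ‖(subm a b f).coeff m‖ ≤ 1 := by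
  obtain ⟨g, hg⟩ := (int_iff f).1 hf
  obtain ⟨a', ha'⟩ : ∃ x : Fin n → ℤ_[2], ∀ i, PadicInt.Coe.ringHom (x i) = a i :=
    ⟨fun i => ⟨a i, ha i⟩, fun i => rfl⟩
  obtain ⟨b', hb'⟩ : ∃ x : Fin n → ℤ_[2], ∀ i, PadicInt.Coe.ringHom (x i) = b i :=
    ⟨fun i => ⟨b i, hb i⟩, fun i => rfl⟩
  refine (int_iff (subm a b f)).2 ⟨subm a' b' g, ?_⟩ m
  unfold subm
  rw [map_bind₁, hg]
  congr 2
  funext i
  rw [map_add, map_mul, map_C, map_C, map_X, ha', hb']

/-- a unit is odd -/
theorem unit_half {δ : ℚ_[2]} (hδ : ‖δ‖ = 1) : ‖(δ - 1) / 2‖ ≤ 1 := by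
  rw [norm_div, n2, div_le_iff₀ (by norm_num)]
  set u : ℤ_[2] := ⟨δ, hδ.le⟩ with hu
  have h1 : PadicInt.toZMod u = 1 := by
    have h2 : PadicInt.toZMod u ≠ 0 := by
      intro h
      have h3 : u ∈ RingHom.ker (PadicInt.toZMod (p := 2)) := h
      rw [PadicInt.ker_toZMod, PadicInt.maximalIdeal_eq_span_p, Ideal.mem_span_singleton] at h3
      have h4 := (PadicInt.norm_lt_one_iff_dvd u).2 h3
      rw [PadicInt.norm_def] at h4
      exact absurd hδ (ne_of_lt h4)
    revert h2
    generalize PadicInt.toZMod u = v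
    revert v
    decide
  have h3 : u - 1 ∈ RingHom.ker (PadicInt.toZMod (p := 2)) := by
    change PadicInt.toZMod (u - 1) = 0
    rw [map_sub, h1, map_one, sub_self]
  rw [PadicInt.ker_toZMod, PadicInt.maximalIdeal_eq_span_p, Ideal.mem_span_singleton] at h3
  obtain ⟨c, hc⟩ := h3
  have h5 : δ - 1 = 2 * (c : ℚ_[2]) := by
    have := congrArg (fun x : ℤ_[2] => (x : ℚ_[2])) hc
    push_cast at this
    exact this
  rw [h5, norm_mul, n2]
  have := PadicInt.norm_le_one c
  rw [PadicInt.norm_def] at this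
  linarith

/-- the twisted polynomial -/
noncomputable def twm (ε : ℚ_[2]) (δ : Fin n → ℚ_[2]) (f : MvPolynomial (Fin n) ℚ_[2]) :
    MvPolynomial (Fin n) ℚ_[2] :=
  C (ε ^ 2) * subm δ (fun i => (δ i - 1) / 2) f

theorem twm_adapted {ε : ℚ_[2]} {δ : Fin n → ℚ_[2]} (hε : ‖ε‖ = 1) (hδ : ∀ i, ‖δ i‖ = 1)
    {f : MvPolynomial (Fin n) ℚ_[2]} (hf : Adapted f) (hu : Unit2 f) :
    Adapted (twm ε δ f) ∧ Unit2 (twm ε δ f) := by
  have hε0 : ε ≠ 0 := by
    rintro rfl
    rw [norm_zero] at hε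
    exact zero_ne_one hε
  have hδ0 : ∀ i, δ i ≠ 0 := by
    intro i h
    have := hδ i
    rw [h, norm_zero] at this
    exact zero_ne_one this
  have hlr : ∀ (s : Fin n → ℚ_[2]) (i : Fin n) (k : ℕ), (lr (twm ε δ f) s i).coeff k =
      ε ^ 2 * δ i ^ k * (lr f (fun l => δ l * s l + (δ l - 1) / 2) i).coeff k := by
    intro s i k
    have : lr (twm ε δ f) s i =
        Polynomial.C (ε ^ 2) * lr (subm δ (fun i => (δ i - 1) / 2) f) s i := by
      unfold twm lr
      rw [map_mul]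
      congr 1
      simp
    rw [this, Polynomial.coeff_C_mul, subm_lr, comp_coeff]
    ring
  have hpt : ∀ (s : Fin n → ℚ_[2]) (W : ℚ_[2]), W ^ 2 = eval s (twm ε δ f) →
      (W / ε) ^ 2 = eval (fun l => δ l * s l + (δ l - 1) / 2) f := by
    intro s W hW
    rw [div_pow, hW, twm, map_mul, eval_C, subm_eval, mul_div_cancel_left₀ _ (pow_ne_zero 2 hε0)]
  have key : ∀ (s : Fin n → ℚ_[2]) (W : ℚ_[2]), W ^ 2 = eval s (twm ε δ f) → ‖W‖ = 1 ∧
      ∀ i, ‖s i‖ ≤ 1 ∧ ‖eval s (pderiv i (twm ε δ f))‖ = 1 ∧ Db (lr (twm ε δ f) s i) ≠ 0 := by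
    intro s W hW
    have h1 := hpt s W hW
    obtain ⟨u1, u2⟩ := hu _ _ h1
    obtain ⟨-, a2⟩ := hf.2.2 _ _ h1
    rw [norm_div, hε, div_one] at u1
    refine ⟨u1, fun i => ⟨?_, ?_, ?_⟩⟩
    · have e : s i = ((δ i * s i + (δ i - 1) / 2) - (δ i - 1) / 2) / δ i := by
        rw [add_sub_cancel_right, mul_div_cancel_left₀ _ (hδ0 i)]
      rw [e, norm_div, hδ, div_one]
      exact sn (a2 i).1 (unit_half (hδ i))
    · rw [← lr_coeff_one, hlr, lr_coeff_one, norm_mul, norm_mul, norm_pow, norm_pow, hδ, hε,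
        one_pow, one_pow, one_mul, one_mul]
      exact u2 i
    · have e : Db (lr (twm ε δ f) s i) =
          ε ^ 12 * δ i ^ 12 * Db (lr f (fun l => δ l * s l + (δ l - 1) / 2) i) := by
        unfold Db dsc Pool.Agent.Y718.X.Ab Pool.Agent.Y718.X.Bb Pool.Agent.Y718.X.Cb
        simp only [hlr]
        ring
      rw [e]
      exact mul_ne_zero (mul_ne_zero (pow_ne_zero _ hε0) (pow_ne_zero _ (hδ0 i))) (a2 i).2.2
  refine ⟨⟨fun i => ?_, fun m => ?_, fun s W hW => ?_⟩, fun s W hW => ?_⟩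
  · unfold twm
    refine (degreeOf_mul_le _ _ _).trans ?_
    rw [degreeOf_C, zero_add]
    exact subm_deg _ _ (hf.1 i)
  · unfold twm
    rw [coeff_C_mul, norm_mul, norm_pow, hε, one_pow, one_mul]
    exact subm_int (fun i => (hδ i).le) (fun i => unit_half (hδ i)) hf.2.1 m
  · obtain ⟨k1, k2⟩ := key s W hW
    refine ⟨?_, fun i => ⟨(k2 i).1, ?_, (k2 i).2.2⟩⟩
    · rintro rfl
      rw [norm_zero] at k1
      exact zero_ne_one k1
    · rw [(k2 i).2.1, norm_mul, n2, k1]
      norm_num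
  · obtain ⟨k1, k2⟩ := key s W hW
    exact ⟨k1, fun i => (k2 i).2.1⟩

end Pool.Agent.Run7.h587.Ad
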