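import Pool.Agent.Run7.h587.Ad.Na
import Pool.Agent.Run7.h587.Ad.Zar

/-!
# Quotients: the surfaces `y² = ∏_{i ∈ T} (4 v_i + 1) g(v)`
-/

set_option autoImplicit false

open Pool.Agent.Y720.MZ Pool.Agent.Y718.X Filter Topology
open Pool.Agent.Q35.ZC

namespace Pool.Agent.Run7.h587.Ad

open MvPolynomial

variable {n : ℕ}

/-! ### even numbers -/

theorem rt_exists {v : ℚ_[2]} (hv : ‖v‖ ≤ 1 / 2) : ∃ z : ℚ_[2], z ^ 2 + z = v ∧ ‖z‖ ≤ 1 / 2 := by
  have h4 : ‖(4 : ℚ_[2])‖ = 1 / 4 := by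
    rw [show (4 : ℚ_[2]) = 2 * 2 by norm_num, norm_mul, n2]
    norm_num
  obtain ⟨u, hu, hu1⟩ := sqrt_one (v := 4 * v + 1) (by
    rw [add_sub_cancel_right, norm_mul, h4]
    linarith)
  refine ⟨(u - 1) / 2, ?_, ?_⟩
  · linear_combination hu / 4
  · rw [norm_div, n2]
    rw [div_le_iff₀ (by norm_num)]
    linarith

/-- the even root of `z² + z = v` -/
noncomputable def rt (v : ℚ_[2]) : ℚ_[2] :=
  open Classical in if h : ‖v‖ ≤ 1 / 2 then Classical.choose (rt_exists h) else 0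

theorem rt_spec {v : ℚ_[2]} (h : ‖v‖ ≤ 1 / 2) : rt v ^ 2 + rt v = v ∧ ‖rt v‖ ≤ 1 / 2 := by
  unfold rt
  rw [dif_pos h]
  exact Classical.choose_spec (rt_exists h)

theorem unit_add {x : ℚ_[2]} (h : ‖x‖ ≤ 1 / 2) : ‖x + 1‖ = 1 := by
  have := IsUltrametricDist.norm_add_eq_max_of_norm_ne_norm (x := x) (y := (1 : ℚ_[2])) (by
    rw [NormOneClass.norm_one]
    linarith)
  rw [this, NormOneClass.norm_one]
  exact max_eq_right (by linarith)

theorem rt_unit {v : ℚ_[2]} (h : ‖v‖ ≤ 1 / 2) : ‖2 * rt v + 1‖ = 1 := by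
  refine unit_add ?_
  rw [norm_mul, n2]
  have := (rt_spec h).2
  linarith

theorem rt_sub {v v' : ℚ_[2]} (h : ‖v‖ ≤ 1 / 2) (h' : ‖v'‖ ≤ 1 / 2) :
    ‖rt v' - rt v‖ = ‖v' - v‖ := by
  obtain ⟨a1, a2⟩ := rt_spec h
  obtain ⟨b1, b2⟩ := rt_spec h'
  have e : v' - v = (rt v' - rt v) * (rt v' + rt v + 1) := by linear_combination a1 - b1
  have h1 : ‖rt v' + rt v + 1‖ = 1 := unit_add ((Padic.nonarchimedean _ _).trans (max_le b2 a2))
  rw [e, norm_mul, h1, mul_one]

theorem even_of_int {x : ℚ_[2]} (h : ‖x‖ ≤ 1) : ‖x ^ 2 + x‖ ≤ 1 / 2 := by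
  obtain ⟨r, hr⟩ := approx h
  have e : x ^ 2 + x = ((r * (r + 1) : ℤ) : ℚ_[2]) + (x - r) * (x + r + 1) := by
    push_cast
    ring
  rw [e]
  refine (Padic.nonarchimedean _ _).trans (max_le ?_ ?_)
  · obtain ⟨k, hk⟩ := Int.even_mul_succ_self r
    rw [hk, Int.cast_add, ← two_mul, norm_mul, n2]
    have := Padic.norm_int_le_one (p := 2) k
    linarith
  · rw [norm_mul]
    have h1 : ‖x + r + 1‖ ≤ 1 := (Padic.nonarchimedean _ _).trans (max_le
      ((Padic.nonarchimedean _ _).trans (max_le h (Padic.norm_int_le_one _))) (by rw [NormOneClass.norm_one]))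
    have := mul_le_mul hr h1 (norm_nonneg _) (by norm_num)
    linarith

/-! ### the polynomials -/

/-- `z_i ↦ z_i² + z_i` for `i ∈ T` -/
noncomputable def pt {R : Type*} [CommRing R] (T : Finset (Fin n)) (g : MvPolynomial (Fin n) R) :
    MvPolynomial (Fin n) R :=
  bind₁ (fun i => if i ∈ T then X i ^ 2 + X i else X i) g

/-- the twist: `v_i ↦ d_i (x_i² + x_i) + v_i` for `i ∈ T`, multiplied by the product of the `d_i` -/
noncomputable def pd {R : Type*} [CommRing R] (T : Finset (Fin n)) (v : Fin n → R)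
    (g : MvPolynomial (Fin n) R) : MvPolynomial (Fin n) R :=
  C (∏ i ∈ T, (4 * v i + 1)) *
    bind₁ (fun i => if i ∈ T then C (4 * v i + 1) * (X i ^ 2 + X i) + C (v i) else X i) g

theorem pt_eval {R : Type*} [CommRing R] (T : Finset (Fin n)) (g : MvPolynomial (Fin n) R)
    (z : Fin n → R) : eval z (pt T g) = eval (fun i => if i ∈ T then z i ^ 2 + z i else z i) g := by
  unfold pt
  rw [bind_eval]
  congr 2
  funext i
  split_ifs <;> simp

theorem pd_eval {R : Type*} [CommRing R] (T : Finset (Fin n)) (v : Fin n → R)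
    (g : MvPolynomial (Fin n) R) (x : Fin n → R) : eval x (pd T v g) = (∏ i ∈ T, (4 * v i + 1)) *
      eval (fun i => if i ∈ T then (4 * v i + 1) * (x i ^ 2 + x i) + v i else x i) g := by
  unfold pd
  rw [map_mul, eval_C, bind_eval]
  congr 3
  funext i
  split_ifs <;> simp

theorem pt_map {R S : Type*} [CommRing R] [CommRing S] (φ : R →+* S) (T : Finset (Fin n))
    (g : MvPolynomial (Fin n) R) : (pt T g).map φ = pt T (g.map φ) := by
  unfold pt
  rw [map_bind₁]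
  congr 2
  funext i
  split_ifs <;> simp

theorem pd_map {R S : Type*} [CommRing R] [CommRing S] (φ : R →+* S) (T : Finset (Fin n))
    (v : Fin n → R) (g : MvPolynomial (Fin n) R) :
    (pd T v g).map φ = pd T (fun i => φ (v i)) (g.map φ) := by
  unfold pd
  rw [map_mul, map_C, map_bind₁]
  congr 2
  · rw [map_prod φ]
    refine Finset.prod_congr rfl fun i _ => ?_
    simp only [map_add, map_mul, map_ofNat, map_one]
  · congr 1
    funext i
    split_ifs
    · simp only [map_add, map_mul, map_pow, map_C, map_X, map_ofNat, map_one]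
    · simp

/-- the unit `2 z + 1` -/
noncomputable def dl (T : Finset (Fin n)) (v : Fin n → ℚ_[2]) (i : Fin n) : ℚ_[2] :=
  if i ∈ T then 2 * rt (v i) + 1 else 1

theorem dl_unit {T : Finset (Fin n)} {v : Fin n → ℚ_[2]} (hv : ∀ i ∈ T, ‖v i‖ ≤ 1 / 2)
    (i : Fin n) : ‖dl T v i‖ = 1 := by
  unfold dl
  split_ifs with h
  · exact rt_unit (hv i h)
  · exact NormOneClass.norm_one

/-- the product of the units -/
noncomputable def ep (T : Finset (Fin n)) (v : Fin n → ℚ_[2]) : ℚ_[2] :=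
  ∏ i ∈ T, (2 * rt (v i) + 1)

theorem ep_unit {T : Finset (Fin n)} {v : Fin n → ℚ_[2]} (hv : ∀ i ∈ T, ‖v i‖ ≤ 1 / 2) :
    ‖ep T v‖ = 1 := by
  unfold ep
  rw [norm_prod]
  exact Finset.prod_eq_one fun i hi => rt_unit (hv i hi)

theorem ep_sq {T : Finset (Fin n)} {v : Fin n → ℚ_[2]} (hv : ∀ i ∈ T, ‖v i‖ ≤ 1 / 2) :
    ep T v ^ 2 = ∏ i ∈ T, (4 * v i + 1) := by
  unfold ep
  rw [← Finset.prod_pow]
  refine Finset.prod_congr rfl fun i hi => ?_
  linear_combination 4 * (rt_spec (hv i hi)).1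

theorem pd_eq {T : Finset (Fin n)} {v : Fin n → ℚ_[2]} (hv : ∀ i ∈ T, ‖v i‖ ≤ 1 / 2)
    (g : MvPolynomial (Fin n) ℚ_[2]) : pd T v g = twm (ep T v) (dl T v) (pt T g) := by
  apply MvPolynomial.funext
  intro s
  rw [pd_eval, twm, map_mul, eval_C, subm_eval, pt_eval, ep_sq hv]
  congr 2
  refine congrArg eval (funext fun i => ?_)
  unfold dl
  split_ifs with h
  · linear_combination (4 * s i ^ 2 + 4 * s i + 1) * (-1 : ℚ_[2]) * (rt_spec (hv i h)).1
  · ring

end Pool.Agent.Run7.h587.Ad
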