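import Pool.Agent.Run7.h587.Ad.Nb

/-!
# The closure of the set of rational points
-/

set_option autoImplicit false

open Pool.Agent.Y720.MZ Pool.Agent.Y718.X Filter Topology
open Pool.Agent.Q35.ZC

namespace Pool.Agent.Run7.h587.Ad

open MvPolynomial

variable {n : ℕ}

/-- the points of `y² = ∏_{i ∈ T} (4 v_i + 1) g(v)` -/
def OnS {L : Type} [Field L] (T : Finset (Fin n)) (g : MvPolynomial (Fin n) L)
    (P : (Fin n → L) × L) : Prop :=
  P.2 ^ 2 = (∏ i ∈ T, (4 * P.1 i + 1)) * eval P.1 g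

/-- the points with even coordinates `v_i`, `i ∈ T` -/
def Ev (T : Finset (Fin n)) : Set ((Fin n → ℚ_[2]) × ℚ_[2]) := {P | ∀ i ∈ T, ‖P.1 i‖ ≤ 1 / 2}

/-- the images of the points over `K` -/
def Sk {K : Type} [Field K] (σ : K →+* ℚ_[2]) (T : Finset (Fin n)) (g : MvPolynomial (Fin n) K) :
    Set ((Fin n → ℚ_[2]) × ℚ_[2]) :=
  {S | S ∈ Ev T ∧ ∃ P : (Fin n → K) × K, OnS T g P ∧ S = image σ P}

theorem onS_pull {T : Finset (Fin n)} {g : MvPolynomial (Fin n) ℚ_[2]}
    {S : (Fin n → ℚ_[2]) × ℚ_[2]} (hS : OnS T g S) (hE : S ∈ Ev T) :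
    OnCover (pt T g) (fun i => if i ∈ T then rt (S.1 i) else S.1 i, S.2 / ep T S.1) := by
  have h0 : ep T S.1 ≠ 0 := by
    intro h
    have := ep_unit hE
    rw [h, norm_zero] at this
    exact zero_ne_one this
  change (S.2 / ep T S.1) ^ 2 = eval (fun i => if i ∈ T then rt (S.1 i) else S.1 i) (pt T g)
  have hS' : S.2 ^ 2 = (∏ i ∈ T, (4 * S.1 i + 1)) * eval S.1 g := hS
  rw [div_pow, hS', ← ep_sq hE, mul_div_cancel_left₀ _ (pow_ne_zero 2 h0), pt_eval]
  refine congrArg (fun z => eval z g) (funext fun i => ?_)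
  split_ifs with h
  · exact (rt_spec (hE i h)).1.symm
  · rfl

section K

variable {K : Type} [Field K] [CharZero K]

theorem onS_image {σ : K →+* ℚ_[2]} {T : Finset (Fin n)} {g : MvPolynomial (Fin n) K}
    {P : (Fin n → K) × K} (hP : OnS T g P) : OnS T (g.map σ) (image σ P) := by
  change (σ P.2) ^ 2 = (∏ i ∈ T, (4 * σ (P.1 i) + 1)) * eval (fun i => σ (P.1 i)) (g.map σ)
  have hP' : P.2 ^ 2 = (∏ i ∈ T, (4 * P.1 i + 1)) * eval P.1 g := hP
  rw [← map_pow, hP', map_mul, map_prod]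
  congr 1
  · refine Finset.prod_congr rfl fun i _ => ?_
    simp only [map_add, map_mul, map_ofNat, map_one]
  · exact map_eval _ _ _

theorem na_near (hn : n ≠ 0) {σ : K →+* ℚ_[2]} {T : Finset (Fin n)} {g : MvPolynomial (Fin n) K}
    (hf : Adapted (pt T (g.map σ))) (hu : Unit2 (pt T (g.map σ)))
    {P S : (Fin n → ℚ_[2]) × ℚ_[2]} (hP : P ∈ Sk σ T g) (hS : OnS T (g.map σ) S) (hE : S ∈ Ev T)
    (hPS : ∀ i, ‖S.1 i - P.1 i‖ ≤ 1 / 8) : S ∈ closure (Sk σ T g) := by
  obtain ⟨hPE, P, hP, rfl⟩ := hP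
  have hPE' : ∀ i ∈ T, ‖σ (P.1 i)‖ ≤ 1 / 2 := hPE
  set v : Fin n → ℚ_[2] := fun i => σ (P.1 i) with hv
  have hPS' : ∀ i, ‖S.1 i - v i‖ ≤ 1 / 8 := hPS
  obtain ⟨ta, tu⟩ := twm_adapted (ep_unit hPE') (dl_unit hPE') hf hu
  rw [← pd_eq hPE', ← pd_map] at ta tu
  have hε0 : ep T v ≠ 0 := by
    intro h
    have := ep_unit hPE'
    rw [h, norm_zero] at this
    exact zero_ne_one this
  have hδ0 : ∀ i ∈ T, 2 * rt (v i) + 1 ≠ 0 := by
    intro i hi h
    have := rt_unit (hPE' i hi)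
    rw [h, norm_zero] at this
    exact zero_ne_one this
  have hη0 : ∀ i ∈ T, 2 * rt (S.1 i) + 1 ≠ 0 := by
    intro i hi h
    have := rt_unit (hE i hi)
    rw [h, norm_zero] at this
    exact zero_ne_one this
  -- the point over `K`
  have hP' : OnCover (pd T P.1 g) (fun i => if i ∈ T then 0 else P.1 i, P.2) := by
    change P.2 ^ 2 = eval (fun i => if i ∈ T then 0 else P.1 i) (pd T P.1 g)
    have hP1 : P.2 ^ 2 = (∏ i ∈ T, (4 * P.1 i + 1)) * eval P.1 g := hP
    rw [pd_eval, hP1]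
    congr 1
    refine congrArg (fun z => eval z g) (funext fun i => ?_)
    split_ifs with h
    · ring
    · rfl
  -- the point over `ℚ₂`
  set x : Fin n → ℚ_[2] := fun i => if i ∈ T then (rt (S.1 i) - rt (v i)) / (2 * rt (v i) + 1)
    else S.1 i with hx
  have hxv : ∀ i ∈ T, (4 * v i + 1) * (x i ^ 2 + x i) + v i = S.1 i := by
    intro i hi
    have h1 := (rt_spec (hPE' i hi)).1
    have h2 := (rt_spec (hE i hi)).1
    have h3 : 4 * v i + 1 = (2 * rt (v i) + 1) ^ 2 := by linear_combination -4 * h1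
    have h4 : x i = (rt (S.1 i) - rt (v i)) / (2 * rt (v i) + 1) := by
      rw [hx]
      simp only [if_pos hi]
    have h5 : (2 * rt (v i) + 1) * x i = rt (S.1 i) - rt (v i) := by
      rw [h4, mul_div_cancel₀ _ (hδ0 i hi)]
    rw [h3]
    linear_combination ((2 * rt (v i) + 1) * x i + rt (S.1 i) - rt (v i) + 2 * rt (v i) + 1) * h5 +
      h2 - h1
  have hx1 : ∀ i ∈ T, 2 * x i + 1 = (2 * rt (S.1 i) + 1) / (2 * rt (v i) + 1) := by
    intro i hi
    rw [eq_div_iff (hδ0 i hi)]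
    have h4 : x i = (rt (S.1 i) - rt (v i)) / (2 * rt (v i) + 1) := by
      rw [hx]
      simp only [if_pos hi]
    have h5 : (2 * rt (v i) + 1) * x i = rt (S.1 i) - rt (v i) := by
      rw [h4, mul_div_cancel₀ _ (hδ0 i hi)]
    linear_combination 2 * h5
  have hpr : ∏ i ∈ T, (2 * x i + 1) = ep T S.1 / ep T v := by
    unfold ep
    rw [← Finset.prod_div_distrib]
    exact Finset.prod_congr rfl hx1
  have hη : ep T S.1 ≠ 0 := by
    intro h
    have := ep_unit (v := S.1) hE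
    rw [h, norm_zero] at this
    exact zero_ne_one this
  have hS' : OnCover ((pd T P.1 g).map σ) (x, S.2 * ep T v / ep T S.1) := by
    change (S.2 * ep T v / ep T S.1) ^ 2 = eval x ((pd T P.1 g).map σ)
    have hS1 : S.2 ^ 2 = (∏ i ∈ T, (4 * S.1 i + 1)) * eval S.1 (g.map σ) := hS
    rw [pd_map, pd_eval, div_pow, mul_pow, hS1, ← ep_sq (v := S.1) hE, ← ep_sq hPE']
    have e : (fun i => if i ∈ T then (4 * v i + 1) * (x i ^ 2 + x i) + v i else x i) = S.1 := by
      funext i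
      split_ifs with h
      · exact hxv i h
      · rw [hx]
        simp only [if_neg h]
    change _ = ep T v ^ 2 * eval (fun i => if i ∈ T then
      (4 * v i + 1) * (x i ^ 2 + x i) + v i else x i) (g.map σ)
    rw [e]
    field_simp
  have hcl := level hn ta tu (all_cm (map_degreeOf ta.1)) hP' hS' (fun i => by
    simp only
    by_cases h : i ∈ T
    · rw [if_pos h, map_zero, sub_zero, hx]
      simp only [if_pos h]
      rw [norm_div, rt_unit (hPE' i h), div_one, rt_sub (hPE' i h) (hE i h)]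
      exact hPS' i
    · rw [if_neg h, hx]
      simp only [if_neg h]
      exact hPS' i)
  -- the map to the quotient
  set Φ : (Fin n → ℚ_[2]) × ℚ_[2] → (Fin n → ℚ_[2]) × ℚ_[2] := fun Q =>
    (fun i => if i ∈ T then (4 * v i + 1) * (Q.1 i ^ 2 + Q.1 i) + v i else Q.1 i,
      Q.2 * ∏ i ∈ T, (2 * Q.1 i + 1)) with hΦ
  have hc : Continuous Φ := by
    rw [hΦ]
    refine Continuous.prodMk (continuous_pi fun i => ?_) ?_
    · by_cases h : i ∈ T
      · simp only [if_pos h]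
        fun_prop
      · simp only [if_neg h]
        fun_prop
    · fun_prop
  have hΦS : Φ (x, S.2 * ep T v / ep T S.1) = S := by
    rw [hΦ]
    refine Prod.ext (funext fun i => ?_) ?_
    · simp only
      split_ifs with h
      · exact hxv i h
      · rw [hx]
        simp only [if_neg h]
    · simp only
      rw [hpr]
      field_simp
  rw [← hΦS]
  refine closure_mono ?_ (image_closure_subset_closure_image hc ⟨_, hcl, rfl⟩)
  rintro _ ⟨_, ⟨Q, hQ, rfl⟩, rfl⟩
  have hQ' : OnCover (pd T P.1 g) Q := hQ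
  have hQσ : OnCover ((pd T P.1 g).map σ) (image σ Q) :=
    Pool.Agent.Results.MP_ed3816_nt.OpenAwayFromTorsion.onCover_image σ hQ'
  refine ⟨fun i hi => ?_, (fun i => if i ∈ T then (4 * P.1 i + 1) * (Q.1 i ^ 2 + Q.1 i) + P.1 i
    else Q.1 i, Q.2 * ∏ i ∈ T, (2 * Q.1 i + 1)), ?_, ?_⟩
  · change ‖(if i ∈ T then (4 * v i + 1) * (σ (Q.1 i) ^ 2 + σ (Q.1 i)) + v i else σ (Q.1 i))‖ ≤ 1 / 2
    rw [if_pos hi]
    have h1 : ‖σ (Q.1 i)‖ ≤ 1 := ((ta.2.2 _ _ hQσ).2 i).1
    refine (Padic.nonarchimedean _ _).trans (max_le ?_ (hPE' i hi))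
    have h3 : 4 * v i + 1 = (2 * rt (v i) + 1) ^ 2 := by
      linear_combination -4 * (rt_spec (hPE' i hi)).1
    rw [norm_mul, h3, norm_pow, rt_unit (hPE' i hi), one_pow, one_mul]
    exact even_of_int h1
  · change (Q.2 * ∏ i ∈ T, (2 * Q.1 i + 1)) ^ 2 = (∏ i ∈ T, (4 * (if i ∈ T then
      (4 * P.1 i + 1) * (Q.1 i ^ 2 + Q.1 i) + P.1 i else Q.1 i) + 1)) * eval (fun i => if i ∈ T then
      (4 * P.1 i + 1) * (Q.1 i ^ 2 + Q.1 i) + P.1 i else Q.1 i) g
    have hQ1 : Q.2 ^ 2 = eval Q.1 (pd T P.1 g) := hQ'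
    rw [mul_pow, hQ1, pd_eval]
    have e : ∏ i ∈ T, (4 * (if i ∈ T then
        (4 * P.1 i + 1) * (Q.1 i ^ 2 + Q.1 i) + P.1 i else Q.1 i) + 1) =
        (∏ i ∈ T, (4 * P.1 i + 1)) * (∏ i ∈ T, (2 * Q.1 i + 1)) ^ 2 := by
      rw [← Finset.prod_pow, ← Finset.prod_mul_distrib]
      refine Finset.prod_congr rfl fun i hi => ?_
      rw [if_pos hi]
      ring
    rw [e]
    ring
  · rw [hΦ]
    refine Prod.ext (funext fun i => ?_) ?_
    · change (if i ∈ T then (4 * v i + 1) * (σ (Q.1 i) ^ 2 + σ (Q.1 i)) + v i else σ (Q.1 i)) =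
        σ (if i ∈ T then (4 * P.1 i + 1) * (Q.1 i ^ 2 + Q.1 i) + P.1 i else Q.1 i)
      split_ifs
      · simp only [map_add, map_mul, map_pow, map_ofNat, map_one]
        rfl
      · rfl
    · change σ Q.2 * ∏ i ∈ T, (2 * σ (Q.1 i) + 1) = σ (Q.2 * ∏ i ∈ T, (2 * Q.1 i + 1))
      rw [map_mul, map_prod]
      congr 1
      refine Finset.prod_congr rfl fun i _ => ?_
      simp only [map_add, map_mul, map_ofNat, map_one]

/-- **The closure.** -/
theorem na_closure (hn : n ≠ 0) {σ : K →+* ℚ_[2]} {T : Finset (Fin n)}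
    {g : MvPolynomial (Fin n) K} (hf : Adapted (pt T (g.map σ))) (hu : Unit2 (pt T (g.map σ))) :
    closure (Sk σ T g) = {S | OnS T (g.map σ) S ∧ S ∈ Ev T ∧
      ∃ P ∈ Sk σ T g, ∀ i, ‖S.1 i - P.1 i‖ ≤ 1 / 8} := by
  have hc1 : IsClosed {S : (Fin n → ℚ_[2]) × ℚ_[2] | OnS T (g.map σ) S} := by
    refine isClosed_eq (continuous_snd.pow 2) (Continuous.mul ?_ ?_)
    · refine continuous_finsetProd _ fun i _ => ?_
      exact (continuous_const.mul ((continuous_apply i).comp continuous_fst)).add continuous_const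
    · exact (MvPolynomial.continuous_eval _).comp continuous_fst
  have hc2 : IsClosed (Ev T) := by
    have : Ev T = ⋂ i ∈ T, {P : (Fin n → ℚ_[2]) × ℚ_[2] | ‖P.1 i‖ ≤ 1 / 2} := by
      ext P
      simp [Ev]
    rw [this]
    refine isClosed_biInter fun i _ => isClosed_le ?_ continuous_const
    exact continuous_norm.comp ((continuous_apply i).comp continuous_fst)
  apply Set.Subset.antisymm
  · intro S hS
    refine ⟨closure_minimal ?_ hc1 hS, closure_minimal (fun P hP => hP.1) hc2 hS, ?_⟩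
    · rintro _ ⟨-, P, hP, rfl⟩
      exact onS_image hP
    · obtain ⟨P, hP, h2⟩ := Metric.mem_closure_iff.1 hS (1 / 8) (by norm_num)
      refine ⟨P, hP, fun i => ?_⟩
      rw [Prod.dist_eq] at h2
      rw [← dist_eq_norm]
      exact ((dist_le_pi_dist S.1 P.1 i).trans (le_max_left _ _)).trans h2.le
  · rintro S ⟨h1, h3, P, hP, h2⟩
    exact na_near hn hf hu hP h1 h3 h2

end K

end Pool.Agent.Run7.h587.Ad
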