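import Pool.Agent.Run7.h587.Ad.Nc

/-!
# Zariski density, and the members of the class
-/

set_option autoImplicit false

open Pool.Agent.Y720.MZ Pool.Agent.Y718.X Filter Topology
open Pool.Agent.Q35.ZC

namespace Pool.Agent.Run7.h587.Ad

open MvPolynomial

variable {n : ℕ}

/-- the polynomial `∏_{i ∈ T} (4 v_i + 1) g(v)` -/
noncomputable def FT {R : Type*} [CommRing R] (T : Finset (Fin n)) (g : MvPolynomial (Fin n) R) :
    MvPolynomial (Fin n) R := (∏ i ∈ T, (4 * X i + 1)) * g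

theorem FT_eval {R : Type*} [CommRing R] (T : Finset (Fin n)) (g : MvPolynomial (Fin n) R)
    (v : Fin n → R) : eval v (FT T g) = (∏ i ∈ T, (4 * v i + 1)) * eval v g := by
  unfold FT
  rw [map_mul, map_prod]
  congr 1
  refine Finset.prod_congr rfl fun i _ => ?_
  simp only [map_add, map_mul, map_ofNat, map_one, eval_X]

theorem FT_sq {T : Finset (Fin n)} {g : MvPolynomial (Fin n) ℚ_[2]}
    (h : ¬ IsSquare (pt T g)) : ¬ IsSquare (FT T g) := by
  rintro ⟨d, hd⟩
  set A : MvPolynomial (Fin n) ℚ_[2] := ∏ i ∈ T, (2 * X i + 1) with hA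
  have h1 : (pt T d) ^ 2 = A ^ 2 * pt T g := by
    apply MvPolynomial.funext
    intro z
    have h2 := congrArg (eval fun i => if i ∈ T then z i ^ 2 + z i else z i) hd
    rw [FT_eval, map_mul] at h2
    rw [map_pow, map_mul, map_pow, pt_eval, pt_eval, sq, ← h2]
    congr 1
    rw [hA, map_prod, ← Finset.prod_pow]
    refine Finset.prod_congr rfl fun i hi => ?_
    simp only [if_pos hi, map_add, map_mul, map_ofNat, map_one, eval_X]
    ring
  have hA0 : A ≠ 0 := by
    rw [hA]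
    refine Finset.prod_ne_zero_iff.2 fun i _ h0 => ?_
    have := congrArg (eval (0 : Fin n → ℚ_[2])) h0
    simp at this
  obtain ⟨e, he⟩ := (IsIntegrallyClosed.pow_dvd_pow_iff two_ne_zero).1 ⟨_, h1⟩
  apply h
  refine ⟨e, ?_⟩
  apply mul_left_cancel₀ (pow_ne_zero 2 hA0)
  rw [← h1, he]
  ring

section zar

variable {K : Type} [Field K] [CharZero K]

theorem na_zar (hn : n ≠ 0) {σ : K →+* ℚ_[2]} {T : Finset (Fin n)} {g : MvPolynomial (Fin n) K}
    (hf : Adapted (pt T (g.map σ))) (hu : Unit2 (pt T (g.map σ)))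
    {P : (Fin n → ℚ_[2]) × ℚ_[2]} (hP : P ∈ Sk σ T g) {V : Set ((Fin n → ℚ_[2]) × ℚ_[2])}
    (hV : V ∈ 𝓝 P) {h : MvPolynomial (Option (Fin n)) ℚ_[2]}
    (hh : ∀ S ∈ Sk σ T g, S ∈ V → eval (fun o => o.elim S.2 S.1) h = 0) :
    (X none ^ 2 - rename some (FT T (g.map σ))) ∣ h := by
  have hPon : OnS T (g.map σ) P := by
    obtain ⟨-, P, hP, rfl⟩ := hP
    exact onS_image hP
  have hPE : P ∈ Ev T := hP.1
  have hon := onS_pull hPon hPE
  have hu2 := (hu _ _ hon).1
  have hw : P.2 ≠ 0 := by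
    intro h0
    simp only at hu2
    rw [h0, zero_div, norm_zero] at hu2
    exact zero_ne_one hu2
  have hns : ¬ IsSquare (pt T (g.map σ)) :=
    not_sq (σ₀ := RingHom.id ℚ_[2]) (f := pt T (g.map σ)) (by rw [MvPolynomial.map_id]; exact hf)
      hn hon
  refine dvd_of_norm (FT_sq hns) (P := fun z w => (z, w) ∈ Sk σ T g ∧ (z, w) ∈ interior V)
    (fun z w h1 => ?_) (fun N hN => ?_) (fun z w h1 => hh (z, w) h1.1 (interior_subset h1.2))
  · obtain ⟨-, Q, hQ, hQe⟩ := h1.1
    have := onS_image (σ := σ) hQ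
    rw [← hQe] at this
    rw [FT_eval]
    exact this
  have hcN : Continuous fun Q : (Fin n → ℚ_[2]) × ℚ_[2] => eval Q.1 N :=
    (MvPolynomial.continuous_eval _).comp continuous_fst
  have h2 : Metric.ball P (1 / 8) ∩ interior V ∈ 𝓝 P :=
    Filter.inter_mem (Metric.ball_mem_nhds _ (by norm_num)) (interior_mem_nhds.2 hV)
  have h3 : ∀ S ∈ Metric.ball P (1 / 8) ∩ interior V, OnS T (g.map σ) S → eval S.1 N = 0 := by
    rintro S ⟨hSB, hSV⟩ hSon
    have hc : ∀ i, ‖S.1 i - P.1 i‖ ≤ 1 / 8 := by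
      intro i
      rw [← dist_eq_norm]
      rw [Metric.mem_ball, Prod.dist_eq] at hSB
      exact ((dist_le_pi_dist S.1 P.1 i).trans (le_max_left _ _)).trans hSB.le
    have hSE : S ∈ Ev T := by
      intro i hi
      have e : S.1 i = (S.1 i - P.1 i) + P.1 i := by ring
      rw [e]
      exact (Padic.nonarchimedean _ _).trans (max_le ((hc i).trans (by norm_num)) (hPE i hi))
    have h4 : S ∈ closure (Sk σ T g) := na_near hn hf hu hP hSon hSE hc
    have h5 : S ∈ closure (Sk σ T g ∩ interior V) :=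
      closure_mono (by rw [Set.inter_comm]) (isOpen_interior.inter_closure ⟨hSV, h4⟩)
    exact closure_minimal (fun Q hQ => hN Q.1 Q.2 hQ) (isClosed_eq hcN continuous_const) h5
  have h4 : {z : Fin n → ℚ_[2] | eval z N = 0} ∈ 𝓝 P.1 := by
    obtain ⟨A, hA, B, hB, hAB⟩ := mem_nhds_prod_iff.1 h2
    have h5 : HasStrictDerivAt (fun w : ℚ_[2] => w ^ 2) (2 * P.2) P.2 := by
      have := hasStrictDerivAt_pow 2 P.2
      simpa using this
    have h6 : (fun w : ℚ_[2] => w ^ 2) '' B ∈ 𝓝 (P.2 ^ 2) := by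
      rw [← h5.map_nhds_eq (mul_ne_zero two_ne_zero hw)]
      exact Filter.image_mem_map hB
    have h7 : (fun z => eval z (FT T (g.map σ))) ⁻¹' ((fun w : ℚ_[2] => w ^ 2) '' B) ∈ 𝓝 P.1 := by
      refine (MvPolynomial.continuous_eval (FT T (g.map σ))).continuousAt.preimage_mem_nhds ?_
      rw [FT_eval, ← show P.2 ^ 2 = (∏ i ∈ T, (4 * P.1 i + 1)) * eval P.1 (g.map σ) from hPon]
      exact h6
    refine Filter.mem_of_superset (Filter.inter_mem hA h7) ?_
    rintro z ⟨hzA, w, hwB, hzw⟩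
    refine h3 (z, w) (hAB ⟨hzA, hwB⟩) ?_
    change w ^ 2 = (∏ i ∈ T, (4 * z i + 1)) * eval z (g.map σ)
    rw [← FT_eval]
    exact hzw
  obtain ⟨ε, hε, hb⟩ := Metric.mem_nhds_iff.1 h4
  refine MvPolynomial.funext_set (fun i => Metric.ball (P.1 i) ε) (fun i => ?_) fun z hz => ?_
  · exact infinite_of_mem_nhds _ (Metric.ball_mem_nhds _ hε)
  · rw [map_zero]
    apply hb
    rw [ball_pi _ hε]
    exact hz

end zar

/-! ### the class -/

theorem bind_deg {R : Type*} [CommRing R] {h : Fin n → MvPolynomial (Fin n) R} {i : Fin n}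
    {k : ℕ} (hh : ∀ l, (h l).degreeOf i ≤ if l = i then k else 0) {f : MvPolynomial (Fin n) R}
    {N : ℕ} (hf : f.degreeOf i ≤ N) : (bind₁ h f).degreeOf i ≤ N * k := by
  classical
  rw [f.as_sum, map_sum]
  refine (degreeOf_sum_le _ _ _).trans (Finset.sup_le fun m hm => ?_)
  rw [bind₁_monomial]
  refine (degreeOf_mul_le _ _ _).trans ?_
  rw [degreeOf_C, zero_add]
  refine (degreeOf_prod_le _ _ _).trans ?_
  have h1 : ∀ l ∈ m.support, ((h l) ^ m l).degreeOf i ≤ if l = i then m l * k else 0 := by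
    intro l _
    refine (degreeOf_pow_le _ _ _).trans ?_
    have h2 := hh l
    by_cases h3 : l = i
    · rw [if_pos h3] at h2 ⊢
      exact Nat.mul_le_mul_left _ h2
    · rw [if_neg h3] at h2 ⊢
      rw [Nat.le_zero.1 h2, mul_zero]
  refine (Finset.sum_le_sum h1).trans ?_
  rw [Finset.sum_ite_eq']
  split_ifs
  · exact Nat.mul_le_mul_right _ ((degreeOf_le_iff.1 hf) m hm)
  · exact Nat.zero_le _

theorem pt_deg {T : Finset (Fin n)} {c : MvPolynomial (Fin n) ℤ}
    (hc : ∀ i, c.degreeOf i ≤ if i ∈ T then 2 else 4) (i : Fin n) : (pt T c).degreeOf i ≤ 4 := by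
  classical
  unfold pt
  by_cases hi : i ∈ T
  · have h2 : c.degreeOf i ≤ 2 := by
      have := hc i
      rwa [if_pos hi] at this
    refine (bind_deg (k := 2) (fun l => ?_) h2).trans (by norm_num)
    by_cases hl : l ∈ T
    · rw [if_pos hl]
      exact degreeOf_q l i
    · rw [if_neg hl, degreeOf_X]
      by_cases h3 : i = l
      · exact absurd (h3 ▸ hi) hl
      · simp [h3]
  · have h4 : c.degreeOf i ≤ 4 := by
      have := hc i
      rwa [if_neg hi] at this
    refine (bind_deg (k := 1) (fun l => ?_) h4).trans (by norm_num)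
    by_cases hl : l ∈ T
    · rw [if_pos hl]
      have := degreeOf_q (R := ℤ) l i
      by_cases h3 : l = i
      · exact absurd (h3 ▸ hl) hi
      · rwa [if_neg h3] at this ⊢
    · rw [if_neg hl, degreeOf_X]
      by_cases h3 : i = l
      · simp [h3]
      · have h4 : ¬ l = i := fun h' => h3 h'.symm
        simp [h3, h4]

/-- the members -/
noncomputable def mT (T : Finset (Fin n)) (c : MvPolynomial (Fin n) ℤ) : MvPolynomial (Fin n) ℤ :=
  3 * ∏ i, (if i ∈ T then (X i + 1) ^ 2 else (X i ^ 2 + X i + 1) ^ 2) +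
    ∑ i, (if i ∈ T then X i else X i ^ 2 + X i) + 2 + 4 * c

theorem pt_mT (T : Finset (Fin n)) (c : MvPolynomial (Fin n) ℤ) : pt T (mT T c) = mem (pt T c) := by
  apply MvPolynomial.funext
  intro z
  rw [pt_eval]
  have h1 : ∀ i, eval (fun i => if i ∈ T then z i ^ 2 + z i else z i)
      (if i ∈ T then (X i + 1) ^ 2 else (X i ^ 2 + X i + 1) ^ 2 : MvPolynomial (Fin n) ℤ) =
      (z i ^ 2 + z i + 1) ^ 2 := by
    intro i
    split_ifs with h <;> simp [h]
  have h2 : ∀ i, eval (fun i => if i ∈ T then z i ^ 2 + z i else z i)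
      (if i ∈ T then X i else X i ^ 2 + X i : MvPolynomial (Fin n) ℤ) = z i ^ 2 + z i := by
    intro i
    split_ifs with h <;> simp [h]
  unfold mT mem
  simp only [map_add, map_mul, map_ofNat, map_prod, map_sum, h1, h2, pt_eval, map_pow, map_one,
    eval_X]

theorem mT_adapted {T : Finset (Fin n)} {c : MvPolynomial (Fin n) ℤ}
    (hc : ∀ i, c.degreeOf i ≤ if i ∈ T then 2 else 4) :
    Adapted (pt T ((mT T c).map (Int.castRingHom ℚ_[2]))) ∧
      Unit2 (pt T ((mT T c).map (Int.castRingHom ℚ_[2]))) := by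
  rw [← pt_map, pt_mT, mem_map]
  exact ⟨cls_adapted (pt_deg hc), cls_unit (pt_deg hc)⟩

end Pool.Agent.Run7.h587.Ad
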