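import Pool.Agent.Run7.h587.Ad.Nd
import Pool.Agent.Run7.h587.Ad.Ed

/-!
# Members with a dense set of rational points
-/

set_option autoImplicit false

open Pool.Agent.Y720.MZ Pool.Agent.Y718.X Filter Topology
open Pool.Agent.Q35.ZC

namespace Pool.Agent.Run7.h587.Ad

open MvPolynomial

/-- the exponents -/
noncomputable def mo {κ : ℕ} (e : Fin 3 × Fin κ) : Fin 2 →₀ ℕ :=
  Finsupp.single 0 (e.1 : ℕ) + Finsupp.single 1 (e.2 : ℕ)

theorem mo_inj {κ : ℕ} : Function.Injective (mo (κ := κ)) := by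
  intro e e' h
  have h0 := DFunLike.congr_fun h 0
  have h1 := DFunLike.congr_fun h 1
  simp [mo] at h0 h1
  exact Prod.ext (Fin.ext h0) (Fin.ext h1)

/-- the polynomial with the coefficients `c` -/
noncomputable def Gk {κ : ℕ} (c : Fin 3 × Fin κ → ℤ) : MvPolynomial (Fin 2) ℤ :=
  ∑ e, C (c e) * (X 0 ^ (e.1 : ℕ) * X 1 ^ (e.2 : ℕ))

theorem mono_eq {κ : ℕ} (a : ℤ) (e : Fin 3 × Fin κ) :
    (C a * (X 0 ^ (e.1 : ℕ) * X 1 ^ (e.2 : ℕ)) : MvPolynomial (Fin 2) ℤ) = monomial (mo e) a := by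
  rw [mo, X_pow_eq_monomial, X_pow_eq_monomial, monomial_mul, C_mul_monomial]
  simp

theorem Gk_coeff {κ : ℕ} (c : Fin 3 × Fin κ → ℤ) (m : Fin 2 →₀ ℕ) :
    (Gk c).coeff m = ∑ e, if mo e = m then c e else 0 := by
  unfold Gk
  rw [coeff_sum]
  refine Finset.sum_congr rfl fun e _ => ?_
  rw [mono_eq, coeff_monomial]

theorem Gk_coeff_mo {κ : ℕ} (c : Fin 3 × Fin κ → ℤ) (e : Fin 3 × Fin κ) :
    (Gk c).coeff (mo e) = c e := by
  rw [Gk_coeff, Finset.sum_eq_single e]
  · rw [if_pos rfl]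
  · intro e' _ hne
    rw [if_neg fun h => hne (mo_inj h)]
  · intro h
    exact absurd (Finset.mem_univ _) h

theorem eq_Gk {κ : ℕ} {f : MvPolynomial (Fin 2) ℤ} (h0 : f.degreeOf 0 < 3) (h1 : f.degreeOf 1 < κ) :
    f = Gk fun e : Fin 3 × Fin κ => f.coeff (mo e) := by
  ext m
  rw [Gk_coeff]
  by_cases hm : m ∈ f.support
  · have a0 : m 0 < 3 := lt_of_le_of_lt ((degreeOf_le_iff.1 le_rfl) m hm) h0
    have a1 : m 1 < κ := lt_of_le_of_lt ((degreeOf_le_iff.1 le_rfl) m hm) h1
    have e : mo ((⟨m 0, a0⟩, ⟨m 1, a1⟩) : Fin 3 × Fin κ) = m := by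
      ext i
      fin_cases i <;> simp [mo]
    rw [Finset.sum_eq_single ((⟨m 0, a0⟩, ⟨m 1, a1⟩) : Fin 3 × Fin κ)]
    · rw [if_pos e, e]
    · intro e' _ hne
      rw [if_neg fun h => hne (mo_inj (h.trans e.symm))]
    · intro h
      exact absurd (Finset.mem_univ _) h
  · rw [notMem_support_iff.1 hm]
    symm
    refine Finset.sum_eq_zero fun e _ => ?_
    split_ifs with h
    · rw [h]
      exact notMem_support_iff.1 hm
    · rfl

/-- the number of powers of the second variable -/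
def kp (T : Finset (Fin 2)) : ℕ := if 1 ∈ T then 3 else 5

theorem Gk_deg {T : Finset (Fin 2)} (h0 : 0 ∈ T) (c : Fin 3 × Fin (kp T) → ℤ) (i : Fin 2) :
    (Gk c).degreeOf i ≤ if i ∈ T then 2 else 4 := by
  unfold Gk
  refine (degreeOf_sum_le _ _ _).trans (Finset.sup_le fun e _ => ?_)
  rw [mono_eq]
  refine (degreeOf_le_iff.2 fun m hm => ?_)
  have := Finset.mem_singleton.1 (support_monomial_subset hm)
  rw [this]
  have h1 := e.1.2
  have h2 := e.2.2
  unfold kp at h2
  fin_cases i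
  · simp [mo, h0]
    omega
  · simp only [mo, Fin.mk_one, Finsupp.add_apply, Finsupp.single_eq_same]
    simp
    split_ifs at h2 ⊢ <;> omega

theorem pt_ne {n : ℕ} {T : Finset (Fin n)} {f : MvPolynomial (Fin n) ℤ} (hf : f ≠ 0) :
    pt T f ≠ 0 := by
  intro h
  apply hf
  refine MvPolynomial.funext_set (fun i : Fin n => if i ∈ T then
    Set.range (fun t : ℕ => (t : ℤ) ^ 2 + t) else Set.univ) (fun i => ?_) fun v hv => ?_
  · split_ifs
    · apply Set.infinite_range_of_injective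
      intro a b hab
      simp only at hab
      have h1 : ((a : ℤ) - b) * (a + b + 1) = 0 := by linear_combination hab
      rcases mul_eq_zero.1 h1 with h2 | h2
      · omega
      · omega
    · exact Set.infinite_univ
  · rw [map_zero]
    have hz : ∀ i, ∃ z : ℤ, (if i ∈ T then z ^ 2 + z else z) = v i := by
      intro i
      have hi : v i ∈ (if i ∈ T then Set.range (fun t : ℕ => (t : ℤ) ^ 2 + t) else Set.univ) :=
        Set.mem_univ_pi.1 hv i
      by_cases h3 : i ∈ T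
      · rw [if_pos h3] at hi
        obtain ⟨t, ht⟩ := hi
        exact ⟨t, by rw [if_pos h3]; exact ht⟩
      · exact ⟨v i, by rw [if_neg h3]⟩
    choose z hz using hz
    have h4 := pt_eval T f z
    rw [h, map_zero] at h4
    have e : (fun i => if i ∈ T then z i ^ 2 + z i else z i) = v := funext hz
    rw [e] at h4
    exact h4.symm

section dense

variable {T : Finset (Fin 2)}

/-- the value of the monomials -/
noncomputable def mk (T : Finset (Fin 2)) (e : Fin 3 × Fin (kp T)) (x : Fin 2 → ℤ) : ℤ :=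
  eval x (pt T (X 0 ^ (e.1 : ℕ) * X 1 ^ (e.2 : ℕ)))

theorem mk_sum (c : Fin 3 × Fin (kp T) → ℤ) (x : Fin 2 → ℤ) :
    ∑ e, c e * mk T e x = eval x (pt T (Gk c)) := by
  rw [pt_eval, Gk, map_sum]
  refine Finset.sum_congr rfl fun e _ => ?_
  rw [map_mul, eval_C, mk, pt_eval]

/-- the base point -/
noncomputable def bk (T : Finset (Fin 2)) (e : Fin 3 × Fin (kp T)) : ℤ := (mT T 0).coeff (mo e)

theorem mT_zero_deg (i : Fin 2) : (mT T 0).degreeOf i ≤ if i ∈ T then 2 else 4 := by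
  classical
  have h3 : (3 : MvPolynomial (Fin 2) ℤ).degreeOf i = 0 := by
    rw [show (3 : MvPolynomial (Fin 2) ℤ) = C 3 from (map_ofNat _ 3).symm, degreeOf_C]
  have h2 : (2 : MvPolynomial (Fin 2) ℤ).degreeOf i = 0 := by
    rw [show (2 : MvPolynomial (Fin 2) ℤ) = C 2 from (map_ofNat _ 2).symm, degreeOf_C]
  have hX : ∀ l : Fin 2, (X l : MvPolynomial (Fin 2) ℤ).degreeOf i ≤ if l = i then 1 else 0 := by
    intro l
    rw [degreeOf_X]
    by_cases h3 : i = l
    · simp [h3]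
    · have h4 : ¬ l = i := fun h' => h3 h'.symm
      simp [h3, h4]
  have ha : ∀ l : Fin 2, (if l ∈ T then (X l + 1) ^ 2 else (X l ^ 2 + X l + 1) ^ 2 :
      MvPolynomial (Fin 2) ℤ).degreeOf i ≤ if l = i then (if i ∈ T then 2 else 4) else 0 := by
    intro l
    have k1 := hX l
    have k2 := degreeOf_q (R := ℤ) l i
    have k3 := degreeOf_add_le i (X l : MvPolynomial (Fin 2) ℤ) 1
    have k4 := degreeOf_add_le i (X l ^ 2 + X l : MvPolynomial (Fin 2) ℤ) 1
    rw [degreeOf_one] at k3 k4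
    by_cases hl : l ∈ T
    · rw [if_pos hl]
      refine (degreeOf_pow_le _ _ _).trans ?_
      by_cases hli : l = i
      · rw [if_pos hli, if_pos (hli ▸ hl)]
        rw [if_pos hli] at k1
        omega
      · rw [if_neg hli]
        rw [if_neg hli] at k1
        omega
    · rw [if_neg hl]
      refine (degreeOf_pow_le _ _ _).trans ?_
      by_cases hli : l = i
      · rw [if_pos hli, if_neg (hli ▸ hl)]
        rw [if_pos hli] at k2
        omega
      · rw [if_neg hli]
        rw [if_neg hli] at k2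
        omega
  have hb : ∀ l : Fin 2, (if l ∈ T then X l else X l ^ 2 + X l :
      MvPolynomial (Fin 2) ℤ).degreeOf i ≤ if i ∈ T then 2 else 4 := by
    intro l
    have k1 := hX l
    have k2 := degreeOf_q (R := ℤ) l i
    by_cases hl : l ∈ T
    · rw [if_pos hl]
      split_ifs at k1 ⊢ <;> omega
    · rw [if_neg hl]
      split_ifs at k2 ⊢ <;> omega
  unfold mT
  rw [mul_zero, add_zero, Fin.prod_univ_two, Fin.sum_univ_two]
  have a0 := ha 0
  have a1 := ha 1
  have b0 := hb 0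
  have b1 := hb 1
  refine (degreeOf_add_le _ _ _).trans (max_le ((degreeOf_add_le _ _ _).trans (max_le ?_ ?_)) ?_)
  · refine (degreeOf_mul_le _ _ _).trans ?_
    rw [h3, zero_add]
    refine (degreeOf_mul_le _ _ _).trans ?_
    refine (add_le_add a0 a1).trans ?_
    fin_cases i <;> simp
  · exact (degreeOf_add_le _ _ _).trans (max_le b0 b1)
  · rw [h2]
    exact Nat.zero_le _

theorem Fv_mk (h0 : 0 ∈ T) (c : Fin 3 × Fin (kp T) → ℤ) (x : Fin 2 → ℤ) :
    Fv (mk T) (bk T) c x = eval x (mem (pt T (Gk c))) := by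
  have hb : mT T 0 = Gk (bk T) := by
    refine eq_Gk ?_ ?_
    · have := mT_zero_deg (T := T) 0
      rw [if_pos h0] at this
      omega
    · have := mT_zero_deg (T := T) 1
      unfold kp
      split_ifs at this ⊢ <;> omega
  have h1 : mT T (Gk c) = mT T 0 + 4 * Gk c := by
    unfold mT
    ring
  rw [← pt_mT, h1, pt_eval, map_add, map_mul, map_ofNat, ← pt_eval, ← pt_eval, hb, ← mk_sum,
    ← mk_sum]
  unfold Fv
  rw [Finset.mul_sum, ← Finset.sum_add_distrib]
  refine Finset.sum_congr rfl fun e _ => ?_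
  ring

theorem mk_near (h : Fin 3 × Fin (kp T) → ℤ) (hh : h ≠ 0) (x : Fin 2 → ℤ) :
    ∃ q, ni q x ∧ ∑ e, h e * mk T e q ≠ 0 := by
  have h1 : Gk h ≠ 0 := by
    intro h0
    apply hh
    funext e
    rw [← Gk_coeff_mo h e, h0, coeff_zero]
    rfl
  obtain ⟨q, h1, h2⟩ := exists_lift x (pt_ne (T := T) h1)
  exact ⟨q, h1, by rw [mk_sum]; exact h2⟩

theorem mk_dvd (q x : Fin 2 → ℤ) (h : ni q x) (e : Fin 3 × Fin (kp T)) :
    (8 : ℤ) ∣ mk T e q - mk T e x := by
  unfold mk
  exact eval_dvd (N := 8) h _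

end dense

end Pool.Agent.Run7.h587.Ad
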