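import Pool.Agent.Run7.h587.Ad.Ne

/-!
# Members with a dense set of rational points: interpolation
-/

set_option autoImplicit false

open Pool.Agent.Y720.MZ Pool.Agent.Y718.X Filter Topology
open Pool.Agent.Q35.ZC

namespace Pool.Agent.Run7.h587.Ad

open MvPolynomial

variable {T : Finset (Fin 2)}

theorem card_kp (h : 1 ∈ T) : kp T = 3 := by
  unfold kp
  rw [if_pos h]

theorem card_kp' (h : 1 ∉ T) : kp T = 5 := by
  unfold kp
  rw [if_neg h]

/-- the invariance -/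
theorem inv_k {n : ℕ} {T : Finset (Fin n)} {i : Fin n} (hi : i ∈ T) (f : MvPolynomial (Fin n) ℤ)
    (x : Fin n → ℤ) : eval (Function.update x i (-1 - x i)) (mem (pt T f)) =
      eval x (mem (pt T f)) := by
  rw [← pt_mT, pt_eval, pt_eval]
  refine congrArg (fun z => eval z (mT T f)) (funext fun j => ?_)
  by_cases hj : j = i
  · subst hj
    rw [if_pos hi, if_pos hi, Function.update_self]
    ring
  · rw [Function.update_of_ne hj]

theorem dense_k (h0 : 0 ∈ T) (c₀ : Fin 3 × Fin (kp T) → ℤ) (M : ℕ) :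
    ∃ c : Fin 3 × Fin (kp T) → ℤ, (∀ e, (2 : ℤ) ^ (M + 1) ∣ c e - c₀ e) ∧
    ∀ S : (Fin 2 → ℚ_[2]) × ℚ_[2], OnCover (fc ℚ_[2] (pt T (Gk c))) S →
      S ∈ closure (ImR {P : (Fin 2 → ℚ) × ℚ | OnCover (fc ℚ (pt T (Gk c))) P}
        (algebraMap ℚ ℚ_[2])) := by
  classical
  set I : Finset (Fin 8) := Finset.univ.filter fun j => (1 ∈ T → (2 : ℤ) ∣ ((j : ℕ) : ℤ)) ∧
    ∃ x : Fin 2 → ℤ, ((2 : ℤ) ∣ x 0 ∧ (8 : ℤ) ∣ x 1 - ((j : ℕ) : ℤ)) ∧
      (8 : ℤ) ∣ eval x (mem (pt T (Gk c₀))) - 1 with hI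
  have hex : ∀ j, ∃ x : Fin 2 → ℤ, j ∈ I → ((2 : ℤ) ∣ x 0 ∧ (8 : ℤ) ∣ x 1 - ((j : ℕ) : ℤ)) ∧
      (8 : ℤ) ∣ eval x (mem (pt T (Gk c₀))) - 1 := by
    intro j
    by_cases h : j ∈ I
    · obtain ⟨x, hx⟩ := (Finset.mem_filter.1 h).2.2
      exact ⟨x, fun _ => hx⟩
    · exact ⟨0, fun h' => absurd h' h⟩
  choose cl hcl using hex
  have hcard : I.card ≤ Fintype.card (Fin 3 × Fin (kp T)) := by
    rw [Fintype.card_prod, Fintype.card_fin, Fintype.card_fin]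
    by_cases h1 : 1 ∈ T
    · rw [card_kp h1]
      have : I ⊆ Finset.univ.filter fun j : Fin 8 => (2 : ℤ) ∣ ((j : ℕ) : ℤ) := by
        intro j hj
        exact Finset.mem_filter.2 ⟨Finset.mem_univ _, (Finset.mem_filter.1 hj).2.1 h1⟩
      refine (Finset.card_le_card this).trans ?_
      have h4 : (Finset.univ.filter fun j : Fin 8 => (2 : ℤ) ∣ ((j : ℕ) : ℤ)).card ≤
          (Finset.univ : Finset (Fin 8)).card := Finset.card_filter_le _ _
      simp at h4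
      omega
    · rw [card_kp' h1]
      refine (Finset.card_filter_le _ _).trans ?_
      simp
  obtain ⟨c, p, w, hc, hp⟩ := interp' (mk T) (bk T) ni mk_near mk_dvd c₀ cl M I
    (fun j hj => by rw [Fv_mk h0]; exact (hcl j hj).2) hcard
  refine ⟨c, hc, fun S hS => ?_⟩
  have hdeg : ∀ i, (pt T (Gk c)).degreeOf i ≤ 4 := pt_deg (Gk_deg h0 c)
  obtain ⟨r, hr, hr8⟩ := near_int hdeg hS
  have hcc : ∀ x : Fin 2 → ℤ,
      (8 : ℤ) ∣ eval x (mem (pt T (Gk c))) - eval x (mem (pt T (Gk c₀))) := by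
    intro x
    rw [← Fv_mk h0, ← Fv_mk h0]
    unfold Fv
    rw [← Finset.sum_sub_distrib]
    refine Finset.dvd_sum fun e _ => ?_
    obtain ⟨t, ht⟩ := (dvd_pow_self (2 : ℤ) (Nat.succ_ne_zero M)).trans (hc e)
    exact ⟨t * mk T e x, by linear_combination (4 * mk T e x) * ht⟩
  -- a rational point in the class of an even vector
  have heven : ∀ r : Fin 2 → ℤ, (2 : ℤ) ∣ r 0 → (1 ∈ T → (2 : ℤ) ∣ r 1) →
      (8 : ℤ) ∣ eval r (mem (pt T (Gk c))) - 1 →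
      ∃ (q : Fin 2 → ℤ) (v : ℤ), (∀ i, (8 : ℤ) ∣ r i - q i) ∧
        v ^ 2 = eval q (mem (pt T (Gk c))) := by
    intro r h2 h2' h8
    have hr0 : (8 : ℤ) ∣ eval r (mem (pt T (Gk c₀))) - 1 := by
      have := hcc r
      omega
    obtain ⟨j, hj⟩ : ∃ j : Fin 8, (8 : ℤ) ∣ r 1 - ((j : ℕ) : ℤ) :=
      ⟨⟨(r 1 % 8).toNat, by omega⟩, by simp only; omega⟩
    have hjT : j ∈ I := Finset.mem_filter.2 ⟨Finset.mem_univ _, fun h1 => by
      have := h2' h1
      omega, r, ⟨h2, hj⟩, hr0⟩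
    obtain ⟨⟨h3, h4⟩, h5⟩ := hcl j hjT
    have h6 : ∀ i, (8 : ℤ) ∣ cl j i - r i := by
      refine uniq (g := pt T (Gk c₀)) ?_ (fun i => ?_) ?_
      · omega
      · fin_cases i
        change (8 : ℤ) ∣ cl j 1 - r 1
        omega
      · omega
    obtain ⟨h7, h8'⟩ := hp j hjT
    refine ⟨p j, w j, fun i => ?_, ?_⟩
    · have := h6 i
      have := h7 i
      omega
    · rw [h8', Fv_mk h0]
  have hstep : ∀ r : Fin 2 → ℤ, (1 ∈ T → (2 : ℤ) ∣ r 1) →
      (8 : ℤ) ∣ eval r (mem (pt T (Gk c))) - 1 →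
      ∃ (q : Fin 2 → ℤ) (v : ℤ), (∀ i, (8 : ℤ) ∣ r i - q i) ∧
        v ^ 2 = eval q (mem (pt T (Gk c))) := by
    intro r h2' h8
    by_cases h2 : (2 : ℤ) ∣ r 0
    · exact heven r h2 h2' h8
    · obtain ⟨q, v, h3, h4⟩ := heven (Function.update r 0 (-1 - r 0)) (by
        rw [Function.update_self]; omega) (fun h1 => by
        rw [Function.update_of_ne (by decide)]; exact h2' h1) (by
        rw [inv_k h0]; exact h8)
      refine ⟨Function.update q 0 (-1 - q 0), v, fun i => ?_, by rw [inv_k h0]; exact h4⟩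
      have h5 := h3 i
      by_cases hi : i = 0
      · subst hi
        rw [Function.update_self] at h5 ⊢
        omega
      · rw [Function.update_of_ne hi] at h5 ⊢
        exact h5
  have hall : ∃ (q : Fin 2 → ℤ) (v : ℤ), (∀ i, (8 : ℤ) ∣ r i - q i) ∧
      v ^ 2 = eval q (mem (pt T (Gk c))) := by
    by_cases h2 : 1 ∈ T → (2 : ℤ) ∣ r 1
    · exact hstep r h2 hr8
    · push Not at h2
      obtain ⟨h1, h2⟩ := h2
      obtain ⟨q, v, h3, h4⟩ := hstep (Function.update r 1 (-1 - r 1)) (fun _ => by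
        rw [Function.update_self]; omega) (by rw [inv_k h1]; exact hr8)
      refine ⟨Function.update q 1 (-1 - q 1), v, fun i => ?_, by rw [inv_k h1]; exact h4⟩
      have h5 := h3 i
      by_cases hi : i = 1
      · subst hi
        rw [Function.update_self] at h5 ⊢
        omega
      · rw [Function.update_of_ne hi] at h5 ⊢
        exact h5
  obtain ⟨q, v, h3, h4⟩ := hall
  have hmap : (fc ℚ (pt T (Gk c))).map (algebraMap ℚ ℚ_[2]) = fc ℚ_[2] (pt T (Gk c)) := fc_map _ _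
  have hd : ∀ j, (fc ℚ (pt T (Gk c))).degreeOf j ≤ 4 := fc_deg hdeg
  refine level (K := ℚ) (f := fc ℚ (pt T (Gk c))) (σ := algebraMap ℚ ℚ_[2]) two_ne_zero ?_ ?_
    (all_cm hd) (P := (fun i => (q i : ℚ), (v : ℚ))) ?_ ?_ ?_
  · rw [hmap]; exact cls_adapted hdeg
  · rw [hmap]; exact cls_unit hdeg
  · change ((v : ℤ) : ℚ) ^ 2 = eval (fun i => (q i : ℚ)) (fc ℚ (pt T (Gk c)))
    rw [eval_int, ← h4]
    push_cast
    rfl
  · rw [hmap]; exact hS
  · intro i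
    have h2 := (norm_int8 _).2 (h3 i)
    have e : S.1 i - algebraMap ℚ ℚ_[2] ((q i : ℤ) : ℚ) =
        (S.1 i - (r i : ℚ_[2])) + ((r i - q i : ℤ) : ℚ_[2]) := by
      rw [map_intCast]
      push_cast
      ring
    rw [e]
    exact an (hr i) h2

/-! ### the quotient -/

/-- **Members for which the rational points with even coordinates are dense.** -/
theorem dense_q (h0 : 0 ∈ T) (c₀ : Fin 3 × Fin (kp T) → ℤ) (M : ℕ) :
    ∃ c : Fin 3 × Fin (kp T) → ℤ, (∀ e, (2 : ℤ) ^ (M + 1) ∣ c e - c₀ e) ∧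
      (Sk (algebraMap ℚ ℚ_[2]) T ((mT T (Gk c)).map (Int.castRingHom ℚ))).Nonempty ∧
      ∀ S : (Fin 2 → ℚ_[2]) × ℚ_[2], OnS T ((mT T (Gk c)).map (Int.castRingHom ℚ_[2])) S →
        S ∈ Ev T → S ∈ closure (Sk (algebraMap ℚ ℚ_[2]) T
          ((mT T (Gk c)).map (Int.castRingHom ℚ))) := by
  obtain ⟨c, hc, hd⟩ := dense_k h0 c₀ M
  have hdeg : ∀ i, (pt T (Gk c)).degreeOf i ≤ 4 := pt_deg (Gk_deg h0 c)
  have hfc : ∀ (R : Type) [CommRing R], fc R (pt T (Gk c)) =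
      pt T ((mT T (Gk c)).map (Int.castRingHom R)) := by
    intro R _
    rw [← pt_map, pt_mT, mem_map]
  -- the map to the quotient
  set Φ : (Fin 2 → ℚ_[2]) × ℚ_[2] → (Fin 2 → ℚ_[2]) × ℚ_[2] := fun Q =>
    (fun i => if i ∈ T then Q.1 i ^ 2 + Q.1 i else Q.1 i,
      Q.2 * ∏ i ∈ T, (2 * Q.1 i + 1)) with hΦ
  have hcont : Continuous Φ := by
    rw [hΦ]
    refine Continuous.prodMk (continuous_pi fun i => ?_) ?_
    · by_cases h : i ∈ T
      · simp only [if_pos h]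
        fun_prop
      · simp only [if_neg h]
        fun_prop
    · fun_prop
  have hsub : Φ '' (ImR {P : (Fin 2 → ℚ) × ℚ | OnCover (fc ℚ (pt T (Gk c))) P}
      (algebraMap ℚ ℚ_[2])) ⊆
      Sk (algebraMap ℚ ℚ_[2]) T ((mT T (Gk c)).map (Int.castRingHom ℚ)) := by
    rintro _ ⟨_, ⟨Q, hQ, rfl⟩, rfl⟩
    have hQ' : OnCover (fc ℚ (pt T (Gk c))) Q := hQ
    have hQ2 : OnCover (fc ℚ_[2] (pt T (Gk c))) (image (algebraMap ℚ ℚ_[2]) Q) := by
      have := Pool.Agent.Results.MP_ed3816_nt.OpenAwayFromTorsion.onCover_image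
        (algebraMap ℚ ℚ_[2]) hQ'
      rwa [show (fc ℚ (pt T (Gk c))).map (algebraMap ℚ ℚ_[2]) = fc ℚ_[2] (pt T (Gk c)) from
        fc_map _ _] at this
    refine ⟨fun i hi => ?_, (fun i => if i ∈ T then Q.1 i ^ 2 + Q.1 i else Q.1 i,
      Q.2 * ∏ i ∈ T, (2 * Q.1 i + 1)), ?_, ?_⟩
    · change ‖(if i ∈ T then (algebraMap ℚ ℚ_[2] (Q.1 i)) ^ 2 + algebraMap ℚ ℚ_[2] (Q.1 i)
        else algebraMap ℚ ℚ_[2] (Q.1 i))‖ ≤ 1 / 2
      rw [if_pos hi]
      exact even_of_int (int_of_on hdeg hQ2 i)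
    · change (Q.2 * ∏ i ∈ T, (2 * Q.1 i + 1)) ^ 2 = (∏ i ∈ T, (4 * (if i ∈ T then
        Q.1 i ^ 2 + Q.1 i else Q.1 i) + 1)) * eval (fun i => if i ∈ T then
        Q.1 i ^ 2 + Q.1 i else Q.1 i) ((mT T (Gk c)).map (Int.castRingHom ℚ))
      have hQ1 : Q.2 ^ 2 = eval Q.1 (fc ℚ (pt T (Gk c))) := hQ'
      rw [hfc, pt_eval] at hQ1
      rw [mul_pow, hQ1]
      have e : ∏ i ∈ T, (4 * (if i ∈ T then Q.1 i ^ 2 + Q.1 i else Q.1 i) + 1) =
          (∏ i ∈ T, (2 * Q.1 i + 1)) ^ 2 := by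
        rw [← Finset.prod_pow]
        refine Finset.prod_congr rfl fun i hi => ?_
        rw [if_pos hi]
        ring
      rw [e]
      ring
    · rw [hΦ]
      refine Prod.ext (funext fun i => ?_) ?_
      · change (if i ∈ T then (algebraMap ℚ ℚ_[2] (Q.1 i)) ^ 2 + algebraMap ℚ ℚ_[2] (Q.1 i)
          else algebraMap ℚ ℚ_[2] (Q.1 i)) = algebraMap ℚ ℚ_[2] (if i ∈ T then
          Q.1 i ^ 2 + Q.1 i else Q.1 i)
        split_ifs
        · simp only [map_add, map_pow]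
        · rfl
      · change algebraMap ℚ ℚ_[2] Q.2 * ∏ i ∈ T, (2 * algebraMap ℚ ℚ_[2] (Q.1 i) + 1) =
          algebraMap ℚ ℚ_[2] (Q.2 * ∏ i ∈ T, (2 * Q.1 i + 1))
        rw [map_mul, map_prod]
        refine congrArg (algebraMap ℚ ℚ_[2] Q.2 * ·) (Finset.prod_congr rfl fun i _ => ?_)
        simp only [map_add, map_mul, map_ofNat, map_one]
  have hmain : ∀ S : (Fin 2 → ℚ_[2]) × ℚ_[2],
      OnS T ((mT T (Gk c)).map (Int.castRingHom ℚ_[2])) S → S ∈ Ev T →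
      S ∈ closure (Sk (algebraMap ℚ ℚ_[2]) T ((mT T (Gk c)).map (Int.castRingHom ℚ))) := by
    intro S hS hE
    have h1 := onS_pull hS hE
    rw [← hfc] at h1
    have h2 := hd _ h1
    have h3 : Φ (fun i => if i ∈ T then rt (S.1 i) else S.1 i, S.2 / ep T S.1) = S := by
      have hη : ep T S.1 ≠ 0 := by
        intro h
        have := ep_unit (v := S.1) hE
        rw [h, norm_zero] at this
        exact zero_ne_one this
      rw [hΦ]
      refine Prod.ext (funext fun i => ?_) ?_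
      · simp only
        split_ifs with h
        · exact (rt_spec (hE i h)).1
        · rfl
      · simp only
        have e : ∏ i ∈ T, (2 * (if i ∈ T then rt (S.1 i) else S.1 i) + 1) = ep T S.1 := by
          unfold ep
          refine Finset.prod_congr rfl fun i hi => ?_
          rw [if_pos hi]
        rw [e, div_mul_cancel₀ _ hη]
    rw [← h3]
    exact closure_mono hsub (image_closure_subset_closure_image hcont ⟨_, h2, rfl⟩)
  refine ⟨c, hc, ?_, hmain⟩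
  obtain ⟨S, hS⟩ := on_exists (pt T (Gk c))
  obtain ⟨_, P, hP, -⟩ := closure_nonempty_iff.1 ⟨S, hd S hS⟩
  exact ⟨_, hsub ⟨_, ⟨P, hP, rfl⟩, rfl⟩⟩

end Pool.Agent.Run7.h587.Ad
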