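import Pool.Agent.Run7.h587.Ad.Bk
import Pool.Agent.Run7.h587.Ad.Dn

/-!
# The closures of the orbits under moves
-/

set_option autoImplicit false

open Pool.Agent.Y720.MZ Pool.Agent.Y718.X Filter Topology
open Pool.Agent.Q35.ZC

namespace Pool.Agent.Run7.h587.Ad

variable {K : Type} [Field K] [CharZero K] {n : ℕ} {f : MvPolynomial (Fin n) K}

/-- the orbit of a point under moves -/
def Orb (f : MvPolynomial (Fin n) K) (P : (Fin n → K) × K) : Set ((Fin n → K) × K) :=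
  {Q | ∀ R : Set ((Fin n → K) × K), Cm f R → P ∈ R → Q ∈ R}

theorem orb_self (P : (Fin n → K) × K) : P ∈ Orb f P := fun _ _ h => h

theorem orb_cm (hd : ∀ j, f.degreeOf j ≤ 4) {P : (Fin n → K) × K} (hP : OnCover f P) :
    Cm f (Orb f P) := by
  refine ⟨fun Q hQ => hQ _ (all_cm hd) hP, ?_⟩
  intro i z w u Z h hM R hR hPR
  exact hR.2 i z w u Z (h R hR hPR) hM

theorem cls_cm {σ : K →+* ℚ_[2]} (hf : Adapted (f.map σ)) (hu : Unit2 (f.map σ))
    (P : (Fin n → K) × K) :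
    Cm f {Q | OnCover f Q ∧ ∀ i, ‖σ (Q.1 i) - σ (P.1 i)‖ ≤ 1 / 8} := by
  classical
  have hd : ∀ j, f.degreeOf j ≤ 4 := map_degreeOf hf.1
  refine ⟨fun Q h => h.1, ?_⟩
  intro i z w u Z h hM
  refine ⟨(all_cm hd).2 i z w u Z h.1 hM, fun j => ?_⟩
  have hon : OnCover (f.map σ) (image σ (z, w)) :=
    Pool.Agent.Results.MP_ed3816_nt.OpenAwayFromTorsion.onCover_image σ h.1
  obtain ⟨hw, hdv⟩ := hu _ _ hon
  have hz : ∀ l, pull σ (z l) ≤ 1 := fun l => ((hf.2.2 _ _ hon).2 l).1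
  have hint : ∀ k, ‖σ ((rst f z (Pi.single i 1)).coeff k)‖ ≤ 1 := fun k =>
    (coeff_IC (pull_na σ) (fun d => by
      have := hf.2.1 d
      rw [MvPolynomial.coeff_map] at this
      exact this) i k).1 z hz
  have h0 : ‖σ (cq f z (Pi.single i 1) 0)‖ = 1 := by
    have e : σ (cq f z (Pi.single i 1) 0) =
        MvPolynomial.eval (image σ (z, w)).1 (MvPolynomial.pderiv i (f.map σ)) := by
      change σ ((lr f z i).coeff 1) = _
      rw [← lr_coeff_one, image, ← lr_map, Polynomial.coeff_map]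
    rw [e]
    exact hdv i
  have hsm := move_small σ (θ := (w, cq f z (Pi.single i 1))) hw h0 (fun j => hint _) hM
  have h1 : ‖σ (z j) - σ (P.1 j)‖ ≤ 1 / 8 := h.2 j
  by_cases hj : j = i
  · subst hj
    have e : σ ((fun a => z a + u * (Pi.single j 1 : Fin n → K) a) j) - σ (P.1 j) =
        σ u + (σ (z j) - σ (P.1 j)) := by
      simp only [Pi.single_eq_same, mul_one, map_add]
      ring
    change ‖σ ((fun a => z a + u * (Pi.single j 1 : Fin n → K) a) j) - σ (P.1 j)‖ ≤ 1 / 8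
    rw [e]
    exact an hsm h1
  · have e : (fun a => z a + u * (Pi.single i 1 : Fin n → K) a) j = z j := by
      simp [hj]
    change ‖σ ((fun a => z a + u * (Pi.single i 1 : Fin n → K) a) j) - σ (P.1 j)‖ ≤ 1 / 8
    rw [e]
    exact h1

/-- **The closure of an orbit is a residue class.** -/
theorem cl_orb {σ : K →+* ℚ_[2]} (hn : n ≠ 0) (hf : Adapted (f.map σ)) (hu : Unit2 (f.map σ))
    {P : (Fin n → K) × K} (hP : OnCover f P) :
    closure (ImR (Orb f P) σ) =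
      {S | OnCover (f.map σ) S ∧ ∀ i, ‖S.1 i - σ (P.1 i)‖ ≤ 1 / 8} := by
  have hd : ∀ j, f.degreeOf j ≤ 4 := map_degreeOf hf.1
  rw [cl_eq hn hf hu (orb_cm hd hP)]
  ext S
  constructor
  · rintro ⟨h1, Q, hQ, h2⟩
    refine ⟨h1, fun i => ?_⟩
    have h3 := (hQ _ (cls_cm hf hu P) ⟨hP, fun i => by rw [sub_self, norm_zero]; norm_num⟩).2 i
    have e : S.1 i - σ (P.1 i) = (S.1 i - σ (Q.1 i)) + (σ (Q.1 i) - σ (P.1 i)) := by ring
    rw [e]
    exact an (h2 i) h3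
  · rintro ⟨h1, h2⟩
    exact ⟨h1, P, orb_self P, h2⟩

/-- **Finitely many orbits.** -/
theorem fin_orb {σ : K →+* ℚ_[2]} (hn : n ≠ 0) (hf : Adapted (f.map σ)) (hu : Unit2 (f.map σ)) :
    ∃ T : Finset ((Fin n → K) × K), T.card ≤ 8 ^ n ∧ (∀ P ∈ T, OnCover f P) ∧
      closure (ImR {P | OnCover f P} σ) = ⋃ P ∈ T, closure (ImR (Orb f P) σ) := by
  classical
  have hd : ∀ j, f.degreeOf j ≤ 4 := map_degreeOf hf.1
  -- the residues
  have hex : ∀ r : Fin n → Fin 8, ∃ P : (Fin n → K) × K, (∃ Q, OnCover f Q ∧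
      ∀ i, ‖σ (Q.1 i) - ((r i : ℕ) : ℚ_[2])‖ ≤ 1 / 8) → OnCover f P ∧
        ∀ i, ‖σ (P.1 i) - ((r i : ℕ) : ℚ_[2])‖ ≤ 1 / 8 := by
    intro r
    by_cases h : ∃ Q, OnCover f Q ∧ ∀ i, ‖σ (Q.1 i) - ((r i : ℕ) : ℚ_[2])‖ ≤ 1 / 8
    · obtain ⟨Q, hQ⟩ := h
      exact ⟨Q, fun _ => hQ⟩
    · exact ⟨(0, 0), fun h' => absurd h' h⟩
  choose G hG using hex
  refine ⟨(Finset.univ.image G).filter (OnCover f), ?_, ?_, ?_⟩
  · refine (Finset.card_filter_le _ _).trans (Finset.card_image_le.trans ?_)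
    rw [Finset.card_univ, Fintype.card_fun, Fintype.card_fin, Fintype.card_fin]
  · intro P hP
    exact (Finset.mem_filter.1 hP).2
  · apply Set.Subset.antisymm
    · rw [cl_eq hn hf hu (all_cm hd)]
      rintro S ⟨h1, Q, hQ, h2⟩
      have hon : OnCover (f.map σ) (image σ Q) :=
        Pool.Agent.Results.MP_ed3816_nt.OpenAwayFromTorsion.onCover_image σ hQ
      have hz : ∀ l, ‖σ (Q.1 l)‖ ≤ 1 := fun l => ((hf.2.2 _ _ hon).2 l).1
      choose t ht using fun i => approx (hz i)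
      have hr : ∀ i, ∃ a : Fin 8, ‖σ (Q.1 i) - ((a : ℕ) : ℚ_[2])‖ ≤ 1 / 8 := by
        intro i
        refine ⟨⟨(t i % 8).toNat, by omega⟩, ?_⟩
        have h3 : (8 : ℤ) ∣ t i - ((t i % 8).toNat : ℤ) := by omega
        have h4 := (norm_int8 _).2 h3
        have e : σ (Q.1 i) - (((t i % 8).toNat : ℕ) : ℚ_[2]) =
            (σ (Q.1 i) - (t i : ℚ_[2])) + ((t i - ((t i % 8).toNat : ℤ) : ℤ) : ℚ_[2]) := by
          push_cast
          ring
        simp only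
        rw [e]
        exact an (ht i) h4
      choose r hr using hr
      obtain ⟨g1, g2⟩ := hG r ⟨Q, hQ, hr⟩
      refine Set.mem_biUnion (x := G r) (Finset.mem_coe.2 (Finset.mem_filter.2
        ⟨Finset.mem_image_of_mem G (Finset.mem_univ r), g1⟩)) ?_
      rw [cl_orb hn hf hu g1]
      refine ⟨h1, fun i => ?_⟩
      have e : S.1 i - σ ((G r).1 i) = (S.1 i - σ (Q.1 i)) +
          ((σ (Q.1 i) - ((r i : ℕ) : ℚ_[2])) - (σ ((G r).1 i) - ((r i : ℕ) : ℚ_[2]))) := by ring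
      rw [e]
      exact an (h2 i) (sn (hr i) (g2 i))
    · refine Set.iUnion₂_subset fun P hP => closure_mono ?_
      rintro _ ⟨Q, hQ, rfl⟩
      exact ⟨Q, (orb_cm hd (Finset.mem_filter.1 hP).2).1 Q hQ, rfl⟩

/-- prescribed residue classes in all dimensions -/
theorem dense_gen {n : ℕ} (hn : n ≠ 0) {ι : Type} (T : Finset ι) (hT : T.card ≤ 5 ^ n)
    (cl : ι → Fin n → ℤ) (c₀ : (Fin n → Fin 5) → ℤ)
    (h8 : ∀ j, (8 : ℤ) ∣ MvPolynomial.eval (cl j) (mem (gp c₀)) - 1) (M : ℕ) :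
    ∃ c : (Fin n → Fin 5) → ℤ, (∀ e, (2 : ℤ) ^ (M + 1) ∣ c e - c₀ e) ∧ ∀ j ∈ T,
      ∀ S : (Fin n → ℚ_[2]) × ℚ_[2], OnCover (fc ℚ_[2] (gp c)) S →
        (∀ i, ‖S.1 i - (cl j i : ℚ_[2])‖ ≤ 1 / 8) →
        S ∈ closure (ImR {P : (Fin n → ℚ) × ℚ | OnCover (fc ℚ (gp c)) P} (algebraMap ℚ ℚ_[2])) := by
  obtain ⟨c, p, w, hc, hp⟩ := interp c₀ cl h8 M T hT
  refine ⟨c, hc, fun j hj S hS hSj => ?_⟩
  obtain ⟨hp1, hp2⟩ := hp j hj
  have hg := gp_deg c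
  have hmap : (fc ℚ (gp c)).map (algebraMap ℚ ℚ_[2]) = fc ℚ_[2] (gp c) := fc_map _ _
  have hd : ∀ j, (fc ℚ (gp c)).degreeOf j ≤ 4 := fc_deg hg
  refine level (K := ℚ) (f := fc ℚ (gp c)) (σ := algebraMap ℚ ℚ_[2]) hn ?_ ?_ (all_cm hd)
    (P := (fun i => (p j i : ℚ), (w j : ℚ))) ?_ ?_ ?_
  · rw [hmap]; exact cls_adapted hg
  · rw [hmap]; exact cls_unit hg
  · change ((w j : ℤ) : ℚ) ^ 2 = MvPolynomial.eval (fun i => (p j i : ℚ)) (fc ℚ (gp c))
    rw [eval_int, ← hp2]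
    push_cast
    rfl
  · rw [hmap]; exact hS
  · intro i
    have h2 := (norm_int8 _).2 (hp1 i)
    have e : S.1 i - algebraMap ℚ ℚ_[2] ((p j i : ℤ) : ℚ) =
        (S.1 i - (cl j i : ℚ_[2])) - ((p j i - cl j i : ℤ) : ℚ_[2]) := by
      rw [map_intCast]
      push_cast
      ring
    rw [e]
    exact sn (hSj i) h2

end Pool.Agent.Run7.h587.Ad
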