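import Pool.Agent.Y718.MVX
import Pool.Agent.Y720.MZ.Tors2

/-!
# Points of infinite order by doubling at a place above two

Let `v` be a nonarchimedean absolute value with `v(2) < 1`. A point of `y² = x³ + a x² + b x + c`
with `v`-integral coefficients whose abscissa is not `v`-integral has infinite order, since doubling
multiplies `v(x)` by `v(2)⁻² > 1`.
-/

set_option autoImplicit false

open WeierstrassCurve Pool.Agent.Y720.MZ Pool.Agent.Y718.X

namespace Pool.Agent.Run7.h587.Ad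

variable {K : Type*} [Field K] [DecidableEq K] {v : AbsoluteValue K ℝ}

omit [DecidableEq K] in
theorem v_three (hv : IsNonarchimedean v) (h2 : v 2 < 1) : v (3 : K) = 1 := by
  have e : (3 : K) = 1 + 2 := by norm_num
  rw [e, na_eq hv (by rwa [map_one]), map_one]

theorem dbl_step (hv : IsNonarchimedean v) (h20 : (2 : K) ≠ 0) (h2 : v 2 < 1) {a b c : K}
    (ha : v a ≤ 1) (hb : v b ≤ 1) (hc : v c ≤ 1) {x y : K}
    (h : (cv a b c).toAffine.Nonsingular x y) (hx : 1 < v x) :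
    ∃ x' y' h', (.some x y h : Pt a b c) + .some x y h = .some x' y' h' ∧ v x < v x' := by
  have heq := (cv_ns.1 h).1
  have hy2 := val_y hv ha hb hc hx heq
  obtain ⟨hy, -⟩ := val_ts hv ha hb hc hx heq
  have h2y : 2 * y ≠ 0 := mul_ne_zero h20 hy
  have hx0 : 0 < v x := one_pos.trans hx
  have hv2 : 0 < v (2 : K) := v.pos h20
  set N := 3 * x ^ 2 + 2 * a * x + b with hN
  have e1 : v (3 * x ^ 2) = v x ^ 2 := by rw [map_mul, v_three hv h2, one_mul, map_pow]
  have e2 : v (2 * a * x + b) ≤ v x := by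
    refine na_add hv ?_ (hb.trans hx.le)
    rw [map_mul, map_mul]
    calc v 2 * v a * v x ≤ 1 * 1 * v x := by gcongr
      _ = v x := by ring
  have e3 : v N = v x ^ 2 := by
    have e : N = 3 * x ^ 2 + (2 * a * x + b) := by rw [hN]; ring
    rw [e, na_eq hv, e1]
    rw [e1]
    refine e2.trans_lt ?_
    nlinarith
  have hℓ : N / (2 * y) * (2 * y) = N := div_mul_cancel₀ _ h2y
  obtain ⟨h', hadd⟩ := dbl_mk h h2y hℓ
  refine ⟨_, _, h', hadd, ?_⟩
  have e4 : v ((N / (2 * y)) ^ 2) * v 2 ^ 2 = v x := by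
    have hy0 : v y ^ 2 ≠ 0 := by rw [hy2]; exact (pow_pos hx0 3).ne'
    rw [map_pow, map_div₀, map_mul, e3, div_pow, mul_pow, hy2]
    field_simp
  have e5 : v x < v ((N / (2 * y)) ^ 2) := by
    have h3 : v (2 : K) ^ 2 < 1 := pow_lt_one₀ hv2.le h2 two_ne_zero
    have h4 : 0 < v ((N / (2 * y)) ^ 2) := by
      by_contra hcon
      push Not at hcon
      have : v ((N / (2 * y)) ^ 2) * v 2 ^ 2 ≤ 0 := mul_nonpos_of_nonpos_of_nonneg hcon (by positivity)
      linarith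
    nlinarith
  have e6 : v (-a - x - x) ≤ v x := by
    refine na_sub hv (na_sub hv ?_ le_rfl) le_rfl
    rw [v.map_neg]
    exact ha.trans hx.le
  have e7 : (N / (2 * y)) ^ 2 - a - x - x = (N / (2 * y)) ^ 2 + (-a - x - x) := by ring
  rw [e7, na_eq hv (e6.trans_lt e5)]
  exact e5

/-- **Points of infinite order.** -/
theorem infinite_order_two (hv : IsNonarchimedean v) (h20 : (2 : K) ≠ 0) (h2 : v 2 < 1)
    {a b c : K} (ha : v a ≤ 1) (hb : v b ≤ 1) (hc : v c ≤ 1) {x y : K}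
    (h : (cv a b c).toAffine.Nonsingular x y) (hx : 1 < v x) :
    ∀ n : ℕ, n ≠ 0 → n • (.some x y h : Pt a b c) ≠ 0 := by
  have step : ∀ (x y : K) (h : (cv a b c).toAffine.Nonsingular x y), 1 < v x →
      ∃ x' y' h', 2 • (.some x y h : Pt a b c) = .some x' y' h' ∧ v x < v x' ∧ 1 < v x' := by
    intro x y h hx
    obtain ⟨x', y', h', e, hlt⟩ := dbl_step hv h20 h2 ha hb hc h hx
    exact ⟨x', y', h', by rw [two_smul, e], hlt, hx.trans hlt⟩
  let Q : ℕ → {z : K × K // (cv a b c).toAffine.Nonsingular z.1 z.2 ∧ 1 < v z.1} :=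
    fun k => Nat.rec ⟨(x, y), h, hx⟩ (fun _ z =>
      ⟨((step z.1.1 z.1.2 z.2.1 z.2.2).choose,
        (step z.1.1 z.1.2 z.2.1 z.2.2).choose_spec.choose),
       (step z.1.1 z.1.2 z.2.1 z.2.2).choose_spec.choose_spec.choose,
       (step z.1.1 z.1.2 z.2.1 z.2.2).choose_spec.choose_spec.choose_spec.2.2⟩) k
  have hQ0 : ∀ k, 2 ^ k • (.some x y h : Pt a b c) = .some (Q k).1.1 (Q k).1.2 (Q k).2.1 := by
    intro k
    induction k with
    | zero => rw [pow_zero, one_smul]; rfl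
    | succ k ih =>
      rw [pow_succ', mul_smul, ih]
      exact (step (Q k).1.1 (Q k).1.2 (Q k).2.1 (Q k).2.2).choose_spec.choose_spec.choose_spec.1
  have hQ1 : StrictMono fun k => v (Q k).1.1 := by
    refine strictMono_nat_of_lt_succ fun k => ?_
    exact (step (Q k).1.1 (Q k).1.2 (Q k).2.1 (Q k).2.2).choose_spec.choose_spec.choose_spec.2.1
  intro n hn h0
  have : NeZero n := ⟨hn⟩
  obtain ⟨i, j, hij, he⟩ := Finite.exists_ne_map_eq_of_infinite (fun k : ℕ => ((2 ^ k : ℕ) : ZMod n))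
  have hsm : ∀ m : ℕ, m • (.some x y h : Pt a b c) = (m % n) • (.some x y h : Pt a b c) := by
    intro m
    conv_lhs => rw [← Nat.div_add_mod m n, add_smul, mul_comm, mul_smul, h0, smul_zero, zero_add]
  have h1 : 2 ^ i • (.some x y h : Pt a b c) = 2 ^ j • (.some x y h : Pt a b c) := by
    rw [hsm, hsm (2 ^ j), (ZMod.natCast_eq_natCast_iff' _ _ _).1 he]
  rw [hQ0, hQ0, Affine.Point.some.injEq] at h1
  exact hij (hQ1.injective (by simp only [h1.1]))

omit [DecidableEq K] in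
/-- integral coefficients -/
theorem int_abc (hv : IsNonarchimedean v) {q : Polynomial K} (hint : ∀ k, v (q.coeff k) ≤ 1) :
    v (Ab q) ≤ 1 ∧ v (Bb q) ≤ 1 ∧ v (Cb q) ≤ 1 := by
  have hnat : ∀ m : ℕ, v (m : K) ≤ 1 := by
    intro m
    induction m with
    | zero => rw [Nat.cast_zero, map_zero]; exact zero_le_one
    | succ k ih => rw [Nat.cast_succ]; exact na_add hv ih (by rw [map_one])
  have h4 : v (4 : K) ≤ 1 := by exact_mod_cast hnat 4
  have hm : ∀ {x y : K}, v x ≤ 1 → v y ≤ 1 → v (x * y) ≤ 1 := by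
    intro x y hx hy
    rw [map_mul]
    exact mul_le_one₀ hx (v.nonneg _) hy
  have hp : ∀ {x : K}, v x ≤ 1 → v (x ^ 2) ≤ 1 := by
    intro x hx
    rw [pow_two]
    exact hm hx hx
  refine ⟨hint 2, ?_, ?_⟩
  · exact na_sub hv (hm (hint 1) (hint 3)) (hm (hm h4 (hint 0)) (hint 4))
  · exact na_sub hv (na_add hv (hm (hp (hint 1)) (hint 4)) (hm (hint 0) (hp (hint 3))))
      (hm (hm (hm h4 (hint 0)) (hint 2)) (hint 4))

omit [DecidableEq K] in
/-- the discriminant is a unit if `q₁² q₄ + q₁ q₂ q₃ + q₀ q₃²` is one -/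
theorem db_ne (hv : IsNonarchimedean v) (h2 : v 2 < 1) {q : Polynomial K}
    (hint : ∀ k, v (q.coeff k) ≤ 1)
    (hu : v (q.coeff 1 ^ 2 * q.coeff 4 + q.coeff 1 * q.coeff 2 * q.coeff 3 +
      q.coeff 0 * q.coeff 3 ^ 2) = 1) : Db q ≠ 0 := by
  obtain ⟨ha, hb, hc⟩ := int_abc hv hint
  have hnat : ∀ m : ℕ, v (m : K) ≤ 1 := by
    intro m
    induction m with
    | zero => rw [Nat.cast_zero, map_zero]; exact zero_le_one
    | succ k ih => rw [Nat.cast_succ]; exact na_add hv ih (by rw [map_one])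
  have h4 : v (4 : K) < 1 := by
    have e : (4 : K) = 2 * 2 := by norm_num
    rw [e, map_mul]
    nlinarith [v.nonneg (2 : K)]
  have h7 : v (7 : K) ≤ 1 := by exact_mod_cast hnat 7
  have h22 : v (2 : K) ≤ 1 := h2.le
  have hm : ∀ {x y : K}, v x ≤ 1 → v y ≤ 1 → v (x * y) ≤ 1 := by
    intro x y hx hy
    rw [map_mul]
    exact mul_le_one₀ hx (v.nonneg _) hy
  have hp : ∀ {x : K} (k : ℕ), v x ≤ 1 → v (x ^ k) ≤ 1 := by
    intro x k hx
    rw [map_pow]
    exact pow_le_one₀ (v.nonneg _) hx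
  have hlt : ∀ {x y : K}, v x < 1 → v y ≤ 1 → v (x * y) < 1 := by
    intro x y hx hy
    rw [map_mul]
    have := mul_le_mul_of_nonneg_left hy (v.nonneg x)
    linarith
  have e1 : Ab q * Bb q + Cb q = (q.coeff 1 ^ 2 * q.coeff 4 + q.coeff 1 * q.coeff 2 * q.coeff 3 +
      q.coeff 0 * q.coeff 3 ^ 2) + 4 * (-(2 * (q.coeff 0 * q.coeff 2 * q.coeff 4))) := by
    unfold Pool.Agent.Y718.X.Ab Pool.Agent.Y718.X.Bb Pool.Agent.Y718.X.Cb
    ring
  have e2 : v (Ab q * Bb q + Cb q) = 1 := by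
    rw [e1, na_eq hv, hu]
    rw [hu]
    refine hlt h4 ?_
    rw [v.map_neg]
    exact hm h22 (hm (hm (hint 0) (hint 2)) (hint 4))
  have e3 : Db q = (Ab q * Bb q + Cb q) ^ 2 + 4 * (4 * (Ab q * Bb q * Cb q) - 7 * Cb q ^ 2 -
      Bb q ^ 3 - Ab q ^ 3 * Cb q) := by
    unfold Db dsc
    ring
  have e4 : v (Db q) = 1 := by
    rw [e3, na_eq hv, map_pow, e2, one_pow]
    rw [map_pow, e2, one_pow]
    refine hlt h4 ?_
    exact na_sub hv (na_sub hv (na_sub hv (hm h4.le (hm (hm ha hb) hc)) (hm h7 (hp 2 hc)))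
      (hp 3 hb)) (hm (hp 3 ha) hc)
  intro h0
  rw [h0, map_zero] at e4
  exact zero_ne_one e4

/-- **The criterion.** -/
theorem infW_two (hv : IsNonarchimedean v) (h20 : (2 : K) ≠ 0) (h2 : v 2 < 1) {q : Polynomial K}
    (hint : ∀ k, v (q.coeff k) ≤ 1) {w : K} (hw0 : w ≠ 0)
    (h1 : v (2 * w) < v (q.coeff 1)) : InfW q w := by
  obtain ⟨ha, hb, hc⟩ := int_abc hv hint
  intro hns m hm
  refine infinite_order_two hv h20 h2 ha hb hc hns ?_ m hm
  have h2w : 0 < v (2 * w) := v.pos (mul_ne_zero h20 hw0)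
  have e1 : v (q.coeff 1 ^ 2 / (4 * w ^ 2)) = (v (q.coeff 1) / v (2 * w)) ^ 2 := by
    have e : (4 : K) * w ^ 2 = (2 * w) ^ 2 := by ring
    rw [e, map_div₀, map_pow, map_pow, div_pow]
  have e2 : 1 < v (q.coeff 1 ^ 2 / (4 * w ^ 2)) := by
    rw [e1]
    exact one_lt_pow₀ ((one_lt_div h2w).2 h1) two_ne_zero
  rw [xs, sub_eq_add_neg, na_eq hv]
  · exact e2
  · rw [v.map_neg]
    exact (hint 2).trans_lt e2

end Pool.Agent.Run7.h587.Ad
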