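import Pool.Agent.Run7.h587.Ad.Open
import Pool.Agent.Q35.ZC.All
import Pool.Agent.Q35.ZC.Ct
import Pool.Agent.Q35.ZC.Near

/-!
# Adapted double covers: sets of rational points closed under moves
-/

set_option autoImplicit false

open Pool.Agent.Y720.MZ Pool.Agent.Y718.X
open Pool.Agent.Q35.ZC

namespace Pool.Agent.Run7.h587.Ad

variable {K : Type} [Field K] [CharZero K] {n : ℕ} {f : MvPolynomial (Fin n) K}

/-- the set is closed under moves -/
def Cm (f : MvPolynomial (Fin n) K) (R : Set ((Fin n → K) × K)) : Prop :=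
  (∀ P ∈ R, OnCover f P) ∧ ∀ (i : Fin n) (z : Fin n → K) (w u Z : K), (z, w) ∈ R →
    MulPt (w, cq f z (Pi.single i 1)) u Z →
      ((fun a => z a + u * (Pi.single i 1 : Fin n → K) a), Z) ∈ R

theorem odds_cm (hd : ∀ j, f.degreeOf j ≤ 4) (P : (Fin n → K) × K) : Cm f (Odds f P) := by
  refine ⟨fun Q h => h.1, ?_⟩
  intro i z w u Z h hM
  obtain ⟨h1, m, h2⟩ := h
  obtain ⟨m', h3⟩ := step2 K n f hd z w i u Z h1 hM
  refine ⟨?_, 2 * m' * m + m' + m, ?_⟩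
  · obtain ⟨hw0, h, -, M, X, W, h', -, hD, hu, hZ⟩ := hM
    change Z ^ 2 = _
    have h4 := Yf_eqn (q₁ := cq f z (Pi.single i 1) 0) (q₂ := cq f z (Pi.single i 1) 1)
      (q₃ := cq f z (Pi.single i 1) 2) (q₄ := cq f z (Pi.single i 1) 3) hw0 (cv_ns.1 h').1 hD
    rw [← hu, ← hZ] at h4
    rw [h4]
    exact cq_eval (deg_rst (hd i) z) h1 u
  · have h4 : dl (mv z i u) Z - (2 * (2 * m' * m + m' + m) + 1) • dl P.1 P.2 =
        (dl (mv z i u) Z - (2 * m' + 1) • dl z w) +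
          (2 * m' + 1) • (dl z w - (2 * m + 1) • dl P.1 P.2) := by
      module
    change dl (mv z i u) Z - (2 * (2 * m' * m + m' + m) + 1) • dl P.1 P.2 ∈ Rat f
    rw [h4]
    exact add_mem h3 (AddSubgroup.zsmul_mem _ h2 _)

theorem ct_cm (hd : ∀ j, f.degreeOf j ≤ 4) : Cm f (CT f) := by
  refine ⟨fun Q h => h.1, ?_⟩
  intro i z w u Z h hM
  exact odds_ct map2 h ((odds_cm hd (z, w)).2 i z w u Z ⟨h.1, 0, by simp⟩ hM)

theorem moves_eq {F : Type} [Field F] {m : ℕ} (g : MvPolynomial (Fin m) F)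
    (T : (Fin m → F) × F) (i : Fin m) :
    Pool.Agent.Results.MP_ed3816_nt.OpenAwayFromTorsion.Moves g T i ↔ Moves g T i := Iff.rfl

/-- the set of the images -/
def ImR (R : Set ((Fin n → K) × K)) (σ₀ : K →+* ℚ_[2]) : Set ((Fin n → ℚ_[2]) × ℚ_[2]) :=
  {S | ∃ P ∈ R, S = image σ₀ P}

/-- **The closure of a set closed under moves is open in `X(ℚ₂)`.** -/
theorem openR {σ₀ : K →+* ℚ_[2]} (hf : Adapted (f.map σ₀)) {R : Set ((Fin n → K) × K)}
    (hR : Cm f R) {T : (Fin n → ℚ_[2]) × ℚ_[2]} (hT : T ∈ closure (ImR R σ₀)) :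
    ∃ U ∈ nhds T, ∀ S ∈ U, OnCover (f.map σ₀) S → S ∈ closure (ImR R σ₀) := by
  have hd : ∀ i, f.degreeOf i ≤ 4 := map_degreeOf hf.1
  have hon : OnCover (f.map σ₀) T := by
    refine closure_minimal ?_
      (Pool.Agent.Results.MP_ed3816_nt.OpenAwayFromTorsion.isClosed_onCover (f.map σ₀)) hT
    rintro _ ⟨P, hP, rfl⟩
    exact Pool.Agent.Results.MP_ed3816_nt.OpenAwayFromTorsion.onCover_image σ₀ (hR.1 P hP)
  have hw : T.2 ≠ 0 := (hf.2.2 T.1 T.2 hon).1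
  have hRX : ∀ z w, (z, w) ∈ R → onX f z w := fun z w h => hR.1 (z, w) h
  have hI : IntR (V := Unit) (L := fun _ => ℚ_[2]) (fun _ => σ₀) (fun z w => (z, w) ∈ R) f
      (fun _ => T.1) (fun _ => T.2) := by
    refine int_of_mvR (fun _ => hon) (fun _ => hw) hRX fun j => ?_
    refine mv_ioR (hw_pR (ι := Unit) (p := fun _ => 2) (fun _ _ _ => rfl) fun _ => σ₀)
      hRX (hR.2 j) (fun z => deg_rst (hd j) z) (fun _ => hw) fun _ => ?_
    have h := io_of hon ((moves_eq _ _ _).1 (moves_two hf hon j).2)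
    rw [← single_map σ₀] at h
    exact h
  obtain ⟨ε, hε, hint⟩ := hI
  obtain ⟨_, ⟨P, hP, rfl⟩, h2⟩ := Metric.mem_closure_iff.1 hT ε hε
  refine ⟨Metric.ball T ε, Metric.ball_mem_nhds T hε, fun S hS hSX => ?_⟩
  rw [Metric.mem_closure_iff]
  intro η hη
  obtain ⟨z, w, k1, k2⟩ := hint P.1 P.2 hP (fun _ => (dist_image σ₀ P T hε).1 h2)
    (fun _ => S.1) (fun _ => S.2) (fun _ => hSX) (fun _ => by
      have h3 := hS
      rw [Metric.mem_ball, Prod.dist_eq, max_lt_iff, dist_pi_lt_iff hε] at h3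
      simp only [dist_eq_norm] at h3
      exact h3) η hη
  exact ⟨_, ⟨(z, w), k1, rfl⟩, (dist_image σ₀ (z, w) S hη).2 (k2 ())⟩

/-- **Odd multiples are dense near each rational point.** -/
theorem near_adapted {σ₀ : K →+* ℚ_[2]} (hf : Adapted (f.map σ₀)) {P : (Fin n → K) × K}
    (hP : OnCover f P) {ι : Type} [Finite ι] [Nonempty ι] {p : ι → ℕ}
    [∀ v, Fact (p v).Prime] (hinj : Function.Injective p) (σ : ∀ v, K →+* ℚ_[p v]) :
    Dense f (Odds f P) P σ ∧ ∀ τ : K →+* ℝ, DenseReal f (Odds f P) P σ τ :=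
  near step2 (map_degreeOf hf.1) hP (ne_K hf hP)
    (fun j => ⟨j, (moves_eq _ _ _).1 (moves_K σ₀ hf hP j).2, Or.inl rfl⟩) hinj σ

end Pool.Agent.Run7.h587.Ad
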